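import Pool.Agent.Lib.MP_85963d_gt.H31.PertR

/-! Asymptotics of `D_j(S)` (Paper (10.5)). -/

set_option autoImplicit false
open Set MeasureTheory Real

noncomputable section
namespace Pool.Agent.Lib.MP_85963d_gt.H31

lemma Kc_le_sq {Y : ℝ} (hY : 0 < Y) : Kc Y ≤ 1 / Y ^ 2 := by
  unfold Kc
  apply div_le_div_of_nonneg_left (by norm_num) (by positivity)
  have h1 : √Y * √Y = Y := mul_self_sqrt hY.le
  have h2 : √Y ≤ √(1 + Y) := sqrt_le_sqrt (by linarith)
  have h3 : 0 < √Y := sqrt_pos.2 hY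
  calc Y ^ 2 = √Y * (Y * √Y) := by nlinarith
    _ ≤ √Y * ((1 + Y) * √(1 + Y)) := by gcongr; linarith

/-- `Y^{-1} - Y·Kc(Y) ∈ [0, (3/2) Y^{-2}]`. -/
lemma Kc_mul_bounds {Y : ℝ} (hY : 0 < Y) : |Kc Y * Y - 1 / Y| ≤ 3 / 2 / Y ^ 2 := by
  have h1 : Kc Y ≤ 1 / Y ^ 2 := Kc_le_sq hY
  have h2 : Kc Y * Y ≤ 1 / Y := by
    calc Kc Y * Y ≤ 1 / Y ^ 2 * Y := by gcongr
      _ = 1 / Y := by field_simp
  rw [abs_sub_comm, abs_of_nonneg (by linarith)]
  -- `Kc Y * Y = (1/Y) x^{3/2}`, `x = Y/(1+Y)`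
  set x := Y / (1 + Y) with hx
  have hx0 : 0 < x := by positivity
  have hx1 : x ≤ 1 := by rw [hx, div_le_one (by positivity)]; linarith
  have h3 : Kc Y * Y = 1 / Y * (x * √x) := by
    unfold Kc
    rw [hx, sqrt_div hY.le]
    have a1 : √Y * √Y = Y := mul_self_sqrt hY.le
    have a2 : 0 < √Y := sqrt_pos.2 hY
    have a3 : 0 < √(1 + Y) := sqrt_pos.2 (by linarith)
    field_simp
    nlinarith
  have h4 : 1 - x * √x ≤ 3 / 2 * (1 - x) := by
    have b1 : √x * √x = x := mul_self_sqrt hx0.le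
    have b2 : 0 < √x := sqrt_pos.2 hx0
    have b3 : √x ≤ 1 := by rw [sqrt_le_left (by norm_num)]; linarith
    nlinarith [mul_nonneg (sub_nonneg.2 b3) (sub_nonneg.2 b3), mul_nonneg b2.le (sq_nonneg (1 - √x))]
  have h5 : 1 - x = 1 / (1 + Y) := by rw [hx]; field_simp; ring
  rw [h3]
  calc 1 / Y - 1 / Y * (x * √x) = 1 / Y * (1 - x * √x) := by ring
    _ ≤ 1 / Y * (3 / 2 * (1 / (1 + Y))) := by rw [← h5]; gcongr
    _ ≤ 1 / Y * (3 / 2 * (1 / Y)) := by
        gcongr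
        linarith
    _ = _ := by ring

lemma Kc_sub_sq {Y : ℝ} (hY : 0 < Y) : |Kc Y - 1 / Y ^ 2| ≤ 3 / 2 / Y ^ 3 := by
  have h := Kc_mul_bounds hY
  have e : Kc Y - 1 / Y ^ 2 = (Kc Y * Y - 1 / Y) / Y := by field_simp
  rw [e, abs_div, abs_of_pos hY, div_le_div_iff₀ hY (by positivity)]
  calc |Kc Y * Y - 1 / Y| * Y ^ 3 ≤ (3 / 2 / Y ^ 2) * Y ^ 3 := by gcongr
    _ = 3 / 2 * Y := by field_simp

lemma integral_Kc_le {S H : ℝ} (hH : 0 < H) (hS : H < S) :
    IntegrableOn (fun X => Kc (S - X)) (Ioo 0 H) ∧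
    ∫ X in Ioo 0 H, Kc (S - X) ≤ 2 / (1 + (S - H)) := by
  have hF : ∀ X ∈ Icc 0 H, HasDerivAt (fun X => -2 * √((S - X) / (1 + (S - X))))
      (Kc (S - X)) X := by
    intro X hX
    have hp : 0 < S - X := by linarith [hX.2]
    have hp1 : 0 < 1 + (S - X) := by linarith
    have d1 : HasDerivAt (fun X : ℝ => S - X) (-1) X := (hasDerivAt_id X).const_sub S
    have d2 : HasDerivAt (fun X : ℝ => 1 + (S - X)) (-1) X := d1.const_add 1
    have hq : 0 < (S - X) / (1 + (S - X)) := by positivity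
    refine (((d1.div d2 hp1.ne').sqrt hq.ne').const_mul (-2)).congr_deriv ?_
    simp only [Pi.div_apply]
    unfold Kc
    rw [sqrt_div hp.le]
    have a1 : √(S - X) * √(S - X) = S - X := mul_self_sqrt hp.le
    have a2 : 0 < √(S - X) := sqrt_pos.2 hp
    have a3 : 0 < √(1 + (S - X)) := sqrt_pos.2 hp1
    have a4 : √(1 + (S - X)) * √(1 + (S - X)) = 1 + (S - X) := mul_self_sqrt hp1.le
    field_simp
    nlinarith
  have hc : ContinuousOn (fun X => Kc (S - X)) (Icc 0 H) := by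
    unfold Kc
    apply ContinuousOn.div (by fun_prop) (by fun_prop)
    intro X hX
    have hp : 0 < S - X := by linarith [hX.2]
    have a2 : 0 < √(S - X) := sqrt_pos.2 hp
    have a3 : 0 < √(1 + (S - X)) := sqrt_pos.2 (by linarith)
    have : 0 < 1 + (S - X) := by linarith
    positivity
  refine ⟨hc.integrableOn_Icc.mono_set Ioo_subset_Icc_self, ?_⟩
  rw [← integral_Ioc_eq_integral_Ioo, ← intervalIntegral.integral_of_le hH.le,
    intervalIntegral.integral_eq_sub_of_hasDerivAt (fun X hX => hF X (by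
      rwa [uIcc_of_le hH.le] at hX)) (hc.intervalIntegrable_of_Icc hH.le)]
  have hD : 0 < S - H := by linarith
  have hx0 : 0 ≤ (S - H) / (1 + (S - H)) := by positivity
  have hx1 : (S - H) / (1 + (S - H)) ≤ 1 := by rw [div_le_one (by positivity)]; linarith
  have h1 : (S - H) / (1 + (S - H)) ≤ √((S - H) / (1 + (S - H))) := by
    apply Real.le_sqrt_of_sq_le
    nlinarith
  have h2 : √((S - 0) / (1 + (S - 0))) ≤ 1 := by
    rw [sqrt_le_left (by norm_num), one_pow, div_le_one (by linarith)]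
    linarith
  have h3 : 2 / (1 + (S - H)) = 2 - 2 * ((S - H) / (1 + (S - H))) := by
    field_simp; ring
  rw [h3]
  linarith

/-- The two-zone estimate. -/
lemma two_zone {u : ℝ → ℝ} {a A p S H : ℝ} (ha : 0 ≤ a) (hH : 0 < H) (hS : H < S)
    (hA : 0 ≤ A) (hp : 0 ≤ p)
    (hu0 : ∀ X ∈ Ioo a H, 0 ≤ u X) (hu : ∀ X ∈ Ioo a H, u X ≤ A * X ^ (-p))
    (hui : IntegrableOn u (Ioo a H)) :
    IntegrableOn (fun X => u X * Kc (S - X)) (Ioo a H) ∧
    ∫ X in Ioo a H, u X * Kc (S - X)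
      ≤ 4 / S ^ 2 * (∫ X in Ioo a H, u X) + A * (S / 2) ^ (-p) * (2 / (1 + (S - H))) := by
  have hS0 : 0 < S := by linarith
  obtain ⟨iK, hK⟩ := integral_Kc_le hH hS
  have hsub : Ioo a H ⊆ Ioo 0 H := Ioo_subset_Ioo_left ha
  have hpt : ∀ X ∈ Ioo a H, u X * Kc (S - X)
      ≤ 4 / S ^ 2 * u X + A * (S / 2) ^ (-p) * Kc (S - X) := by
    intro X hX
    have hX0 : 0 < X := ha.trans_lt hX.1
    have hSX : 0 < S - X := by linarith [hX.2]
    have h1 := hu0 X hX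
    have h2 := hu X hX
    have h3 := Kc_nonneg hSX.le
    have h4 : 0 ≤ A * (S / 2) ^ (-p) * Kc (S - X) := by positivity
    have h5 : 0 ≤ 4 / S ^ 2 * u X := by positivity
    rcases le_or_gt X (S / 2) with h | h
    · have h6 : Kc (S - X) ≤ 4 / S ^ 2 := by
        refine (Kc_le_sq hSX).trans ?_
        rw [div_le_div_iff₀ (by positivity) (by positivity)]
        have : (S / 2) ^ 2 ≤ (S - X) ^ 2 := pow_le_pow_left₀ (by positivity) (by linarith) 2
        nlinarith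
      calc u X * Kc (S - X) ≤ u X * (4 / S ^ 2) := by gcongr
        _ ≤ _ := by linarith
    · have h6 : X ^ (-p) ≤ (S / 2) ^ (-p) :=
        rpow_le_rpow_of_nonpos (by positivity) h.le (by linarith)
      calc u X * Kc (S - X) ≤ A * (S / 2) ^ (-p) * Kc (S - X) := by
            gcongr
            exact h2.trans (by gcongr)
        _ ≤ _ := by linarith
  have i1 : IntegrableOn (fun X => 4 / S ^ 2 * u X) (Ioo a H) := hui.const_mul _
  have i2 : IntegrableOn (fun X => A * (S / 2) ^ (-p) * Kc (S - X)) (Ioo a H) :=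
    (iK.mono_set hsub).const_mul _
  have iL : IntegrableOn (fun X => u X * Kc (S - X)) (Ioo a H) := by
    refine Integrable.mono' (i1.add i2) (hui.aestronglyMeasurable.mul
      (iK.mono_set hsub).aestronglyMeasurable) ?_
    filter_upwards [ae_restrict_mem measurableSet_Ioo] with X hX
    have hSX : 0 < S - X := by linarith [hX.2]
    rw [Real.norm_eq_abs, abs_of_nonneg (mul_nonneg (hu0 X hX) (Kc_nonneg hSX.le))]
    exact hpt X hX
  refine ⟨iL, ?_⟩
  have i12 : IntegrableOn (fun X => 4 / S ^ 2 * u X + A * (S / 2) ^ (-p) * Kc (S - X))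
      (Ioo a H) := i1.add i2
  have h1 := setIntegral_mono_on iL i12 measurableSet_Ioo hpt
  refine h1.trans ?_
  have e' : ∫ X in Ioo a H, (4 / S ^ 2 * u X + A * (S / 2) ^ (-p) * Kc (S - X))
      = (∫ X in Ioo a H, 4 / S ^ 2 * u X) + ∫ X in Ioo a H, A * (S / 2) ^ (-p) * Kc (S - X) :=
    integral_add i1 i2
  rw [e', integral_const_mul, integral_const_mul]
  have h2 : ∫ X in Ioo a H, Kc (S - X) ≤ 2 / (1 + (S - H)) := by
    refine le_trans ?_ hK
    apply setIntegral_mono_set iK _ (Filter.Eventually.of_forall hsub)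
    filter_upwards [ae_restrict_mem measurableSet_Ioo] with X hX
    exact Kc_nonneg (by linarith [hX.2])
  have h3 : 0 ≤ A * (S / 2) ^ (-p) := by positivity
  gcongr

/-- Decay data of a solution of the cylinder equation. -/
structure GData (G : ℝ → ℝ) (CG : ℝ) : Prop where
  cont : ContinuousOn G (Ioi 0)
  near : ∀ X ∈ Ioc (0 : ℝ) 1, |G X| ≤ CG / √X
  far : ∀ X, 1 ≤ X → |G X| ≤ CG * X ^ (-(7 / 4) : ℝ)

namespace GData

variable {G : ℝ → ℝ} {CG : ℝ}

lemma nonneg (h : GData G CG) : 0 ≤ CG := by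
  have := (abs_nonneg _).trans (h.near 1 ⟨one_pos, le_rfl⟩)
  simpa using this

lemma all (h : GData G CG) {X : ℝ} (hX : 0 < X) : |G X| ≤ CG * X ^ (-(7 / 4) : ℝ) := by
  rcases le_or_gt X 1 with h1 | h1
  · refine (h.near X ⟨hX, h1⟩).trans ?_
    have e : 1 / √X = X ^ (-(1 / 2) : ℝ) := by
      rw [rpow_neg hX.le, ← sqrt_eq_rpow, one_div]
    have h2 : X ^ (-(1 / 2) : ℝ) ≤ X ^ (-(7 / 4) : ℝ) :=
      rpow_le_rpow_of_exponent_ge hX h1 (by norm_num)
    have h3 := h.nonneg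
    calc CG / √X = CG * (1 / √X) := by ring
      _ ≤ _ := by rw [e]; gcongr
  · exact h.far X h1.le

lemma int1 (h : GData G CG) : IntegrableOn G (Ioc 0 1) := by
  have h1 : IntegrableOn G (Ioo 0 1) := integrable_G
    ((h.cont.mono (fun x hx => hx.1)).aestronglyMeasurable measurableSet_Ioo)
    (CG := CG) (fun X hX => h.near X ⟨hX.1, hX.2.le⟩)
  rwa [integrableOn_Ioc_iff_integrableOn_Ioo]

lemma int2 (h : GData G CG) : IntegrableOn G (Ioi 1) := by
  refine Integrable.mono' ((integrableOn_Ioi_rpow_of_lt (a := -(7 / 4)) (by norm_num)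
    one_pos).const_mul CG) ((h.cont.mono (Ioi_subset_Ioi zero_le_one)).aestronglyMeasurable
    measurableSet_Ioi) ?_
  filter_upwards [ae_restrict_mem measurableSet_Ioi] with X hX
  exact h.far X (le_of_lt hX)

lemma int (h : GData G CG) : IntegrableOn G (Ioi 0) := by
  rw [← Ioc_union_Ioi_eq_Ioi zero_le_one]
  exact h.int1.union h.int2

lemma tail (h : GData G CG) {H : ℝ} (hH : 1 ≤ H) :
    |∫ X in Ioi H, G X| ≤ 4 / 3 * CG * H ^ (-(3 / 4) : ℝ) := by
  have hH0 : 0 < H := by linarith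
  have h1 := norm_integral_le_integral_norm (μ := volume.restrict (Ioi H)) G
  rw [Real.norm_eq_abs] at h1
  refine h1.trans ?_
  have h2 : ∫ X in Ioi H, ‖G X‖ ≤ ∫ X in Ioi H, CG * X ^ (-(7 / 4) : ℝ) := by
    apply setIntegral_mono_on (h.int.mono_set (Ioi_subset_Ioi hH0.le)).norm
      ((integrableOn_Ioi_rpow_of_lt (a := -(7 / 4)) (by norm_num) hH0).const_mul CG)
      measurableSet_Ioi
    intro X hX
    exact h.far X (hH.trans (le_of_lt hX))
  refine h2.trans (le_of_eq ?_)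
  rw [integral_const_mul, integral_Ioi_rpow_of_lt (by norm_num) hH0,
    show (-(7 / 4) + 1 : ℝ) = -(3 / 4) by norm_num]
  ring

lemma moment (h : GData G CG) {H : ℝ} (hH : 1 ≤ H) :
    IntegrableOn (fun X => (1 + X) * |G X|) (Ioo 0 H) ∧
    ∫ X in Ioo 0 H, (1 + X) * |G X| ≤ 12 * CG * H ^ (1 / 4 : ℝ) := by
  have hH0 : 0 < H := by linarith
  have hC := h.nonneg
  have hi : IntegrableOn (fun X => (1 + X) * |G X|) (Ioo 0 H) := by
    have i0 : IntegrableOn (fun X => |G X|) (Ioo 0 H) :=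
      (h.int.mono_set (fun x hx => hx.1)).abs
    refine Integrable.mono' (i0.const_mul (1 + H)) ?_ ?_
    · exact (by fun_prop : Measurable fun X : ℝ => 1 + X).aestronglyMeasurable.mul
        i0.aestronglyMeasurable
    · filter_upwards [ae_restrict_mem measurableSet_Ioo] with X hX
      have h1 : 0 ≤ 1 + X := by linarith [hX.1]
      rw [Real.norm_eq_abs, abs_mul, abs_abs, abs_of_nonneg h1]
      gcongr
      exact hX.2.le
  refine ⟨hi, ?_⟩
  -- pointwise: `(1+X)|G X| ≤ CG (X^{-1/2}·... )`: use `2 CG X^{-1/2}` on (0,1], `2 CG X^{-3/4}` after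
  have i1 : IntegrableOn (fun X : ℝ => X ^ (-(1 / 2) : ℝ)) (Ioo 0 1) :=
    integrableOn_rpow 1 (by norm_num)
  have i2 : IntegrableOn (fun X : ℝ => X ^ (-(3 / 4) : ℝ)) (Ioo 0 H) :=
    integrableOn_rpow H (by norm_num)
  have hb : ∀ X ∈ Ioo 0 H, (1 + X) * |G X| ≤ (Ioc (0 : ℝ) 1).indicator
      (fun X => 2 * CG * X ^ (-(1 / 2) : ℝ)) X + 2 * CG * X ^ (-(3 / 4) : ℝ) := by
    intro X hX
    have hX0 := hX.1
    have n1 : 0 ≤ X ^ (-(3 / 4) : ℝ) := rpow_nonneg hX0.le _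
    rcases le_or_gt X 1 with h1 | h1
    · rw [indicator_of_mem (show X ∈ Ioc (0 : ℝ) 1 from ⟨hX0, h1⟩)]
      have h2 := h.near X ⟨hX0, h1⟩
      have e : 1 / √X = X ^ (-(1 / 2) : ℝ) := by
        rw [rpow_neg hX0.le, ← sqrt_eq_rpow, one_div]
      have h3 : 0 ≤ 2 * CG * X ^ (-(3 / 4) : ℝ) := by positivity
      calc (1 + X) * |G X| ≤ 2 * (CG / √X) := by gcongr; linarith
        _ = 2 * CG * X ^ (-(1 / 2) : ℝ) := by rw [← e]; ring
        _ ≤ _ := by linarith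
    · rw [indicator_of_notMem (fun hh => absurd hh.2 (not_le.2 h1)), zero_add]
      have h2 := h.far X h1.le
      have e : X * X ^ (-(7 / 4) : ℝ) = X ^ (-(3 / 4) : ℝ) := by
        nth_rewrite 1 [← rpow_one X]
        rw [← rpow_add hX0]; norm_num
      calc (1 + X) * |G X| ≤ (2 * X) * (CG * X ^ (-(7 / 4) : ℝ)) := by gcongr; linarith
        _ = 2 * CG * (X * X ^ (-(7 / 4) : ℝ)) := by ring
        _ = _ := by rw [e]
  have i1' : IntegrableOn ((Ioc (0 : ℝ) 1).indicator (fun X => 2 * CG * X ^ (-(1 / 2) : ℝ)))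
      (Ioo 0 H) := by
    have i3 : IntegrableOn (fun X : ℝ => 2 * CG * X ^ (-(1 / 2) : ℝ)) (Ioc 0 1) := by
      rw [integrableOn_Ioc_iff_integrableOn_Ioo]
      exact i1.const_mul _
    exact (i3.integrable_indicator measurableSet_Ioc).integrableOn
  have i2' : IntegrableOn (fun X : ℝ => 2 * CG * X ^ (-(3 / 4) : ℝ)) (Ioo 0 H) := i2.const_mul _
  have h1 := setIntegral_mono_on hi (i1'.add i2') measurableSet_Ioo hb
  refine h1.trans ?_
  have e1 : ∫ X in Ioo 0 H, ((Ioc (0 : ℝ) 1).indicator (fun X => 2 * CG * X ^ (-(1 / 2) : ℝ)) X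
      + 2 * CG * X ^ (-(3 / 4) : ℝ))
      = (∫ X in Ioo 0 H, (Ioc (0 : ℝ) 1).indicator (fun X => 2 * CG * X ^ (-(1 / 2) : ℝ)) X)
        + ∫ X in Ioo 0 H, 2 * CG * X ^ (-(3 / 4) : ℝ) := integral_add i1' i2'
  have e1' : ∫ X in Ioo 0 H, ((Ioc (0 : ℝ) 1).indicator (fun X => 2 * CG * X ^ (-(1 / 2) : ℝ))
      + fun X : ℝ => 2 * CG * X ^ (-(3 / 4) : ℝ)) X
      = (∫ X in Ioo 0 H, (Ioc (0 : ℝ) 1).indicator (fun X => 2 * CG * X ^ (-(1 / 2) : ℝ)) X)
        + ∫ X in Ioo 0 H, 2 * CG * X ^ (-(3 / 4) : ℝ) := e1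
  rw [e1']
  have e2 : ∫ X in Ioo 0 H, (Ioc (0 : ℝ) 1).indicator (fun X => 2 * CG * X ^ (-(1 / 2) : ℝ)) X
      ≤ 4 * CG := by
    rw [setIntegral_indicator measurableSet_Ioc]
    have hsub : Ioo 0 H ∩ Ioc 0 1 ⊆ Ioc (0 : ℝ) 1 := inter_subset_right
    have i3 : IntegrableOn (fun X : ℝ => 2 * CG * X ^ (-(1 / 2) : ℝ)) (Ioc 0 1) := by
      rw [integrableOn_Ioc_iff_integrableOn_Ioo]
      exact i1.const_mul _
    have : ∫ X in Ioo 0 H ∩ Ioc 0 1, 2 * CG * X ^ (-(1 / 2) : ℝ)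
        ≤ ∫ X in Ioc (0 : ℝ) 1, 2 * CG * X ^ (-(1 / 2) : ℝ) := by
      apply setIntegral_mono_set i3 _ (Filter.Eventually.of_forall hsub)
      filter_upwards [ae_restrict_mem measurableSet_Ioc] with X hX
      have := hX.1
      change 0 ≤ 2 * CG * X ^ (-(1 / 2) : ℝ)
      positivity
    refine this.trans (le_of_eq ?_)
    rw [integral_const_mul, ← intervalIntegral.integral_of_le zero_le_one,
      integral_rpow (Or.inl (by norm_num))]
    norm_num
    ring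
  have e3 : ∫ X in Ioo 0 H, 2 * CG * X ^ (-(3 / 4) : ℝ) = 8 * CG * H ^ (1 / 4 : ℝ) := by
    rw [integral_const_mul, ← integral_Ioc_eq_integral_Ioo,
      ← intervalIntegral.integral_of_le hH0.le, integral_rpow (Or.inl (by norm_num)),
      show (-(3 / 4) + 1 : ℝ) = 1 / 4 by norm_num, zero_rpow (by norm_num)]
    ring
  have e4 : 1 ≤ H ^ (1 / 4 : ℝ) := one_le_rpow hH (by norm_num)
  rw [e3]
  nlinarith

end GData

/-- Pointwise comparison of the kernel with `S^{-2}`. -/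
lemma kernel_sub {X S : ℝ} (hX : 0 < X) (hXS : X ≤ S / 2) :
    |Kc (S - X) * cφ X (S - X) - 1 / S ^ 2| ≤ 24 * (1 + X) / S ^ 3 := by
  have hS : 0 < S := by linarith
  set Y := S - X with hY
  have hY0 : 0 < Y := by rw [hY]; linarith
  have hYS : S / 2 ≤ Y := by rw [hY]; linarith
  have hYS' : Y ≤ S := by rw [hY]; linarith
  have hS3 : (S / 2) ^ 3 ≤ Y ^ 3 := pow_le_pow_left₀ (by positivity) hYS 3
  have hS2 : (S / 2) ^ 2 ≤ Y ^ 2 := pow_le_pow_left₀ (by positivity) hYS 2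
  have a1 : |Kc Y - 1 / Y ^ 2| ≤ 12 / S ^ 3 := by
    refine (Kc_sub_sq hY0).trans ?_
    rw [div_le_div_iff₀ (by positivity) (by positivity)]
    nlinarith
  have a2 : |1 / Y ^ 2 - 1 / S ^ 2| ≤ 8 * X / S ^ 3 := by
    have e : 1 / Y ^ 2 - 1 / S ^ 2 = X * (S + Y) / (S ^ 2 * Y ^ 2) := by
      have : X = S - Y := by rw [hY]; ring
      rw [this]; field_simp; ring
    rw [e, abs_of_nonneg (by positivity), div_le_div_iff₀ (by positivity) (by positivity)]
    calc X * (S + Y) * S ^ 3 ≤ X * (S + S) * S ^ 3 := by gcongr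
      _ = 8 * X * (S ^ 2 * (S / 2) ^ 2) := by ring
      _ ≤ _ := by gcongr
  have a3 : |Kc Y * (cφ X Y - 1)| ≤ 16 * X / S ^ 3 := by
    have e : cφ X Y - 1 = -(8 * X * Y / S ^ 2) := by
      unfold cφ
      have : X + Y = S := by rw [hY]; ring
      rw [this]; ring
    have hK := Kc_le_sq hY0
    have hK0 := Kc_nonneg hY0.le
    rw [e, abs_mul, abs_neg, abs_of_nonneg hK0, abs_of_nonneg (by positivity)]
    calc Kc Y * (8 * X * Y / S ^ 2) ≤ 1 / Y ^ 2 * (8 * X * Y / S ^ 2) := by gcongr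
      _ = 8 * X / S ^ 2 / Y := by field_simp
      _ ≤ 8 * X / S ^ 2 / (S / 2) := by gcongr
      _ = _ := by field_simp; norm_num
  have e : Kc Y * cφ X Y - 1 / S ^ 2 = (Kc Y - 1 / Y ^ 2) + (1 / Y ^ 2 - 1 / S ^ 2)
      + Kc Y * (cφ X Y - 1) := by ring
  rw [e]
  calc _ ≤ |Kc Y - 1 / Y ^ 2| + |1 / Y ^ 2 - 1 / S ^ 2| + |Kc Y * (cφ X Y - 1)| :=
        abs_add_three _ _ _
    _ ≤ 12 / S ^ 3 + 8 * X / S ^ 3 + 16 * X / S ^ 3 := by gcongr
    _ ≤ _ := by
        rw [← add_div, ← add_div]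
        apply div_le_div_of_nonneg_right _ (by positivity)
        linarith

/-- **P1.** -/
theorem P1 {G : ℝ → ℝ} {CG H S : ℝ} (h : GData G CG) (hH : 1 ≤ H) (hS : H < S) :
    |(∫ X in Ioo 0 H, G X * (Kc (S - X) * cφ X (S - X))) - (∫ X in Ioi 0, G X) / S ^ 2|
      ≤ CG * (400 * (H ^ (-(3 / 4) : ℝ) / S ^ 2) + 8 * (S ^ (-(7 / 4) : ℝ) / (1 + (S - H)))) := by
  have hH0 : 0 < H := by linarith
  have hS0 : 0 < S := by linarith
  have hC := h.nonneg
  obtain ⟨iK, hK⟩ := integral_Kc_le hH0 hS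
  obtain ⟨iM, hM⟩ := h.moment hH
  have iG : IntegrableOn G (Ioo 0 H) := h.int.mono_set (fun x hx => hx.1)
  have iGK : IntegrableOn (fun X => G X * (Kc (S - X) * cφ X (S - X))) (Ioo 0 H) := by
    have mK : Measurable (fun X => Kc (S - X) * cφ X (S - X)) := by
      have h1 : Measurable (fun X => Kc (S - X)) := measurable_Kc.comp (by fun_prop)
      have h2 : Measurable (fun X => cφ X (S - X)) :=
        (goodPhi_cφ (b := 1)).meas.comp (by fun_prop : Measurable fun X : ℝ => (X, S - X))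
      exact h1.mul h2
    refine Integrable.mono' (iG.norm.mul_const (1 / (S - H) ^ 2))
      (iG.aestronglyMeasurable.mul mK.aestronglyMeasurable) ?_
    filter_upwards [ae_restrict_mem measurableSet_Ioo] with X hX
    have hSX : 0 < S - X := by linarith [hX.2]
    have h1 := abs_cφ_le hX.1 hSX.le
    have h2 := Kc_le_sq hSX
    have h3 := Kc_nonneg hSX.le
    have hSH : 0 < S - H := by linarith
    have h4 : 1 / (S - X) ^ 2 ≤ 1 / (S - H) ^ 2 := by
      apply div_le_div_of_nonneg_left (by norm_num) (by positivity)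
      exact pow_le_pow_left₀ hSH.le (by linarith [hX.2]) 2
    rw [norm_mul, Real.norm_eq_abs (_ * _), abs_mul, abs_of_nonneg h3]
    calc ‖G X‖ * (Kc (S - X) * |cφ X (S - X)|) ≤ ‖G X‖ * (1 / (S - H) ^ 2 * 1) := by
          gcongr
          exact h2.trans h4
      _ = _ := by ring
  have hsplit : ∫ X in Ioi 0, G X = (∫ X in Ioo 0 H, G X) + ∫ X in Ioi H, G X := by
    rw [← Ioc_union_Ioi_eq_Ioi hH0.le, setIntegral_union _ measurableSet_Ioi
      (h.int.mono_set Ioc_subset_Ioi_self) (h.int.mono_set (Ioi_subset_Ioi hH0.le)),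
      integral_Ioc_eq_integral_Ioo]
    rw [Set.disjoint_left]
    intro x h1 h2
    exact absurd h1.2 (not_le.2 h2)
  have e1 : (∫ X in Ioo 0 H, G X * (Kc (S - X) * cφ X (S - X))) - (∫ X in Ioi 0, G X) / S ^ 2
      = (∫ X in Ioo 0 H, G X * (Kc (S - X) * cφ X (S - X) - 1 / S ^ 2))
        - (∫ X in Ioi H, G X) / S ^ 2 := by
    have e2 : ∫ X in Ioo 0 H, G X * (Kc (S - X) * cφ X (S - X) - 1 / S ^ 2)
        = (∫ X in Ioo 0 H, G X * (Kc (S - X) * cφ X (S - X))) - (∫ X in Ioo 0 H, G X) / S ^ 2 := by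
      rw [← integral_div, ← integral_sub iGK (iG.div_const _)]
      congr 1
      funext X
      ring
    rw [e2, hsplit]; ring
  rw [e1]
  have hpt : ∀ X ∈ Ioo 0 H, ‖G X * (Kc (S - X) * cφ X (S - X) - 1 / S ^ 2)‖
      ≤ 26 / S ^ 3 * ((1 + X) * |G X|) + 4 * CG * S ^ (-(7 / 4) : ℝ) * Kc (S - X) := by
    intro X hX
    have hX0 := hX.1
    have hSX : 0 < S - X := by linarith [hX.2]
    have hK0 := Kc_nonneg hSX.le
    have n0 : 0 ≤ S ^ (-(7 / 4) : ℝ) := rpow_nonneg hS0.le _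
    have n1 : 0 ≤ 4 * CG * S ^ (-(7 / 4) : ℝ) * Kc (S - X) := by positivity
    rw [norm_mul, Real.norm_eq_abs, Real.norm_eq_abs]
    rcases le_or_gt X (S / 2) with hh | hh
    · have h1 := kernel_sub hX0 hh
      calc |G X| * |Kc (S - X) * cφ X (S - X) - 1 / S ^ 2|
          ≤ |G X| * (24 * (1 + X) / S ^ 3) := by gcongr
        _ = 24 / S ^ 3 * ((1 + X) * |G X|) := by ring
        _ ≤ 26 / S ^ 3 * ((1 + X) * |G X|) := by gcongr; norm_num
        _ ≤ _ := by linarith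
    · have h1 := abs_cφ_le hX0 hSX.le
      have h2 : |Kc (S - X) * cφ X (S - X) - 1 / S ^ 2| ≤ Kc (S - X) + 1 / S ^ 2 := by
        refine (abs_sub _ _).trans ?_
        rw [abs_mul, abs_of_nonneg hK0, abs_of_nonneg (by positivity : 0 ≤ 1 / S ^ 2)]
        gcongr
        calc Kc (S - X) * |cφ X (S - X)| ≤ Kc (S - X) * 1 := by gcongr
          _ = _ := mul_one _
      have h3 : |G X| ≤ 4 * CG * S ^ (-(7 / 4) : ℝ) := by
        refine (h.all hX0).trans ?_
        have h4 : X ^ (-(7 / 4) : ℝ) ≤ (S / 2) ^ (-(7 / 4) : ℝ) :=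
          rpow_le_rpow_of_nonpos (by positivity) hh.le (by norm_num)
        have h5 : (S / 2) ^ (-(7 / 4) : ℝ) ≤ 4 * S ^ (-(7 / 4) : ℝ) := by
          rw [div_rpow hS0.le (by norm_num), rpow_neg (by norm_num : (0 : ℝ) ≤ 2), div_inv_eq_mul,
            mul_comm]
          gcongr
          calc (2 : ℝ) ^ (7 / 4 : ℝ) ≤ 2 ^ (2 : ℝ) :=
                rpow_le_rpow_of_exponent_le (by norm_num) (by norm_num)
            _ = 4 := by norm_num
        calc CG * X ^ (-(7 / 4) : ℝ) ≤ CG * (4 * S ^ (-(7 / 4) : ℝ)) := by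
              gcongr; exact h4.trans h5
          _ = _ := by ring
      have h6 : 1 / S ^ 2 ≤ 2 / S ^ 3 * (1 + X) := by
        rw [div_mul_eq_mul_div, div_le_div_iff₀ (by positivity) (by positivity)]
        nlinarith [pow_pos hS0 2, pow_pos hS0 3]
      calc |G X| * |Kc (S - X) * cφ X (S - X) - 1 / S ^ 2|
          ≤ |G X| * (Kc (S - X) + 1 / S ^ 2) := by gcongr
        _ = |G X| * Kc (S - X) + |G X| * (1 / S ^ 2) := by ring
        _ ≤ 4 * CG * S ^ (-(7 / 4) : ℝ) * Kc (S - X) + |G X| * (2 / S ^ 3 * (1 + X)) := by gcongr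
        _ = 2 / S ^ 3 * ((1 + X) * |G X|) + 4 * CG * S ^ (-(7 / 4) : ℝ) * Kc (S - X) := by ring
        _ ≤ _ := by
          have : 0 ≤ 24 / S ^ 3 * ((1 + X) * |G X|) := by
            have : 0 ≤ 1 + X := by linarith
            positivity
          have e : 26 / S ^ 3 * ((1 + X) * |G X|) = 24 / S ^ 3 * ((1 + X) * |G X|)
              + 2 / S ^ 3 * ((1 + X) * |G X|) := by ring
          linarith
  have j1 : IntegrableOn (fun X => 26 / S ^ 3 * ((1 + X) * |G X|)) (Ioo 0 H) := iM.const_mul _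
  have j2 : IntegrableOn (fun X => 4 * CG * S ^ (-(7 / 4) : ℝ) * Kc (S - X)) (Ioo 0 H) :=
    iK.const_mul _
  have j12 : IntegrableOn (fun X => 26 / S ^ 3 * ((1 + X) * |G X|)
      + 4 * CG * S ^ (-(7 / 4) : ℝ) * Kc (S - X)) (Ioo 0 H) := j1.add j2
  have hI : |∫ X in Ioo 0 H, G X * (Kc (S - X) * cφ X (S - X) - 1 / S ^ 2)|
      ≤ 26 / S ^ 3 * (12 * CG * H ^ (1 / 4 : ℝ)) + 4 * CG * S ^ (-(7 / 4) : ℝ) *
        (2 / (1 + (S - H))) := by
    have h1 : |∫ X in Ioo 0 H, G X * (Kc (S - X) * cφ X (S - X) - 1 / S ^ 2)|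
        ≤ ∫ X in Ioo 0 H, (26 / S ^ 3 * ((1 + X) * |G X|)
          + 4 * CG * S ^ (-(7 / 4) : ℝ) * Kc (S - X)) := by
      rw [← Real.norm_eq_abs]
      apply norm_integral_le_of_norm_le j12
      filter_upwards [ae_restrict_mem measurableSet_Ioo] with X hX
      exact hpt X hX
    refine h1.trans ?_
    rw [integral_add j1 j2, integral_const_mul, integral_const_mul]
    gcongr
  have hT : |(∫ X in Ioi H, G X) / S ^ 2| ≤ 4 / 3 * CG * H ^ (-(3 / 4) : ℝ) / S ^ 2 := by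
    rw [abs_div, abs_of_pos (by positivity : 0 < S ^ 2)]
    gcongr
    exact h.tail hH
  have hH14 : H ^ (1 / 4 : ℝ) = H * H ^ (-(3 / 4) : ℝ) := by
    nth_rewrite 2 [← rpow_one H]
    rw [← rpow_add hH0]; norm_num
  have n3 : 0 ≤ H ^ (-(3 / 4) : ℝ) := rpow_nonneg hH0.le _
  have e5 : 26 / S ^ 3 * (12 * CG * H ^ (1 / 4 : ℝ)) ≤ 312 * CG * (H ^ (-(3 / 4) : ℝ) / S ^ 2) := by
    rw [hH14]
    calc 26 / S ^ 3 * (12 * CG * (H * H ^ (-(3 / 4) : ℝ)))
        = 312 * CG * H ^ (-(3 / 4) : ℝ) * (H / S ^ 3) := by ring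
      _ ≤ 312 * CG * H ^ (-(3 / 4) : ℝ) * (S / S ^ 3) := by gcongr
      _ = _ := by field_simp
  calc _ ≤ |∫ X in Ioo 0 H, G X * (Kc (S - X) * cφ X (S - X) - 1 / S ^ 2)|
        + |(∫ X in Ioi H, G X) / S ^ 2| := abs_sub _ _
    _ ≤ (312 * CG * (H ^ (-(3 / 4) : ℝ) / S ^ 2) + 4 * CG * S ^ (-(7 / 4) : ℝ) *
        (2 / (1 + (S - H)))) + 4 / 3 * CG * H ^ (-(3 / 4) : ℝ) / S ^ 2 := by
        refine add_le_add (hI.trans ?_) hT
        gcongr
    _ ≤ _ := by
        have : 0 ≤ CG * (H ^ (-(3 / 4) : ℝ) / S ^ 2) := by positivity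
        have e6 : 4 * CG * S ^ (-(7 / 4) : ℝ) * (2 / (1 + (S - H)))
            = CG * (8 * (S ^ (-(7 / 4) : ℝ) / (1 + (S - H)))) := by ring
        have e7 : 4 / 3 * CG * H ^ (-(3 / 4) : ℝ) / S ^ 2
            = 4 / 3 * (CG * (H ^ (-(3 / 4) : ℝ) / S ^ 2)) := by ring
        have e8 : CG * (400 * (H ^ (-(3 / 4) : ℝ) / S ^ 2) + 8 * (S ^ (-(7 / 4) : ℝ) / (1 + (S - H))))
            = 400 * (CG * (H ^ (-(3 / 4) : ℝ) / S ^ 2))
              + CG * (8 * (S ^ (-(7 / 4) : ℝ) / (1 + (S - H)))) := by ring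
        have e9 : 312 * CG * (H ^ (-(3 / 4) : ℝ) / S ^ 2)
            = 312 * (CG * (H ^ (-(3 / 4) : ℝ) / S ^ 2)) := by ring
        rw [e6, e7, e8, e9]
        linarith

end Pool.Agent.Lib.MP_85963d_gt.H31
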