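import Pool.Agent.Lib.MP_85963d_gt.H31.Asy5

/-! Asymptotics of `D_j(S)` (Paper (10.5)), continued. -/

set_option autoImplicit false
open Set MeasureTheory Real

noncomputable section
namespace Pool.Agent.Lib.MP_85963d_gt.H31

lemma GData.all' {G : ℝ → ℝ} {CG : ℝ} (h : GData G CG) {X : ℝ} (hX : 0 < X) :
    (1 + √X) * |G X| ≤ 2 * CG * X ^ (-(5 / 4) : ℝ) := by
  have hC := h.nonneg
  rcases le_or_gt X 1 with h1 | h1
  · have e : 1 / √X = X ^ (-(1 / 2) : ℝ) := by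
      rw [rpow_neg hX.le, ← sqrt_eq_rpow, one_div]
    have h2 : X ^ (-(1 / 2) : ℝ) ≤ X ^ (-(5 / 4) : ℝ) :=
      rpow_le_rpow_of_exponent_ge hX h1 (by norm_num)
    have h3 : √X ≤ 1 := by rw [sqrt_le_left (by norm_num)]; linarith
    have h4 := h.near X ⟨hX, h1⟩
    calc (1 + √X) * |G X| ≤ 2 * (CG / √X) := by gcongr; linarith
      _ = 2 * CG * X ^ (-(1 / 2) : ℝ) := by rw [← e]; ring
      _ ≤ _ := by gcongr
  · have h2 := h.far X h1.le
    have e : √X * X ^ (-(7 / 4) : ℝ) = X ^ (-(5 / 4) : ℝ) := by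
      rw [sqrt_eq_rpow, ← rpow_add hX]; norm_num
    have h3 : 1 ≤ √X := by rw [one_le_sqrt]; exact h1.le
    calc (1 + √X) * |G X| ≤ (2 * √X) * (CG * X ^ (-(7 / 4) : ℝ)) := by gcongr; linarith
      _ = 2 * CG * (√X * X ^ (-(7 / 4) : ℝ)) := by ring
      _ = _ := by rw [e]

lemma GData.moment' {G : ℝ → ℝ} {CG : ℝ} (h : GData G CG) {H : ℝ} (hH : 1 ≤ H) :
    IntegrableOn (fun X => (1 + √X) * |G X|) (Ioo 0 H) ∧
    ∫ X in Ioo 0 H, (1 + √X) * |G X| ≤ 12 * CG := by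
  have hH0 : 0 < H := by linarith
  have hC := h.nonneg
  have hi : IntegrableOn (fun X => (1 + √X) * |G X|) (Ioo 0 H) := by
    have i0 : IntegrableOn (fun X => |G X|) (Ioo 0 H) :=
      (h.int.mono_set (fun x hx => hx.1)).abs
    refine Integrable.mono' (i0.const_mul (1 + √H)) ?_ ?_
    · exact (by fun_prop : Measurable fun X : ℝ => 1 + √X).aestronglyMeasurable.mul
        i0.aestronglyMeasurable
    · filter_upwards [ae_restrict_mem measurableSet_Ioo] with X hX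
      have h1 : 0 ≤ 1 + √X := by positivity
      rw [Real.norm_eq_abs, abs_mul, abs_abs, abs_of_nonneg h1]
      gcongr
      exact hX.2.le
  refine ⟨hi, ?_⟩
  have hi1 : IntegrableOn (fun X => (1 + √X) * |G X|) (Ioc 0 1) := by
    rw [integrableOn_Ioc_iff_integrableOn_Ioo]
    exact hi.mono_set (Ioo_subset_Ioo_right hH)
  have i1 : IntegrableOn (fun X : ℝ => X ^ (-(1 / 2) : ℝ)) (Ioo 0 1) :=
    integrableOn_rpow 1 (by norm_num)
  have i1' : IntegrableOn (fun X : ℝ => 2 * CG * X ^ (-(1 / 2) : ℝ)) (Ioc 0 1) := by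
    rw [integrableOn_Ioc_iff_integrableOn_Ioo]
    exact i1.const_mul _
  have i2 : IntegrableOn (fun X : ℝ => 2 * CG * X ^ (-(5 / 4) : ℝ)) (Ioi 1) :=
    (integrableOn_Ioi_rpow_of_lt (by norm_num) one_pos).const_mul _
  have b1 : ∫ X in Ioc (0 : ℝ) 1, (1 + √X) * |G X| ≤ 4 * CG := by
    have h1 : ∀ X ∈ Ioc (0 : ℝ) 1, (1 + √X) * |G X| ≤ 2 * CG * X ^ (-(1 / 2) : ℝ) := by
      intro X hX
      have e : 1 / √X = X ^ (-(1 / 2) : ℝ) := by
        rw [rpow_neg hX.1.le, ← sqrt_eq_rpow, one_div]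
      have h3 : √X ≤ 1 := by rw [sqrt_le_left (by norm_num)]; linarith [hX.2]
      have h4 := h.near X hX
      calc (1 + √X) * |G X| ≤ 2 * (CG / √X) := by gcongr; linarith
        _ = 2 * CG * X ^ (-(1 / 2) : ℝ) := by rw [← e]; ring
    refine (setIntegral_mono_on hi1 i1' measurableSet_Ioc h1).trans (le_of_eq ?_)
    rw [integral_const_mul, ← intervalIntegral.integral_of_le zero_le_one,
      integral_rpow (Or.inl (by norm_num))]
    norm_num
    ring
  rcases le_or_gt H 1 with hh | hh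
  · have : H = 1 := le_antisymm hh hH
    subst this
    rw [← integral_Ioc_eq_integral_Ioo]
    linarith
  have hi2 : IntegrableOn (fun X => (1 + √X) * |G X|) (Ioo 1 H) :=
    hi.mono_set (Ioo_subset_Ioo_left zero_le_one)
  have b2 : ∫ X in Ioo (1 : ℝ) H, (1 + √X) * |G X| ≤ 8 * CG := by
    have h1 : ∀ X ∈ Ioo (1 : ℝ) H, (1 + √X) * |G X| ≤ 2 * CG * X ^ (-(5 / 4) : ℝ) :=
      fun X hX => h.all' (by linarith [hX.1])
    refine (setIntegral_mono_on hi2 (i2.mono_set (fun x hx => hx.1)) measurableSet_Ioo h1).trans ?_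
    have h2 : ∫ X in Ioo (1 : ℝ) H, 2 * CG * X ^ (-(5 / 4) : ℝ)
        ≤ ∫ X in Ioi (1 : ℝ), 2 * CG * X ^ (-(5 / 4) : ℝ) := by
      apply setIntegral_mono_set i2 _ (Filter.Eventually.of_forall (fun x hx => hx.1))
      filter_upwards [ae_restrict_mem measurableSet_Ioi] with X hX
      have : 0 < X := lt_trans one_pos hX
      change 0 ≤ 2 * CG * X ^ (-(5 / 4) : ℝ)
      positivity
    refine h2.trans (le_of_eq ?_)
    rw [integral_const_mul, integral_Ioi_rpow_of_lt (by norm_num) one_pos]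
    norm_num
    ring
  have e : Ioo (0 : ℝ) H = Ioc 0 1 ∪ Ioo 1 H := (Ioc_union_Ioo_eq_Ioo zero_le_one hh).symm
  have hd : Disjoint (Ioc (0 : ℝ) 1) (Ioo 1 H) := by
    rw [Set.disjoint_left]
    intro x h1 h2
    exact absurd h1.2 (not_le.2 h2.1)
  rw [e, setIntegral_union hd measurableSet_Ioo hi1 hi2]
  linarith

lemma int_GKF {G F : ℝ → ℝ} {A H S : ℝ} (hG : IntegrableOn G (Ioo 0 H))
    (hF : AEStronglyMeasurable F (volume.restrict (Ioo 0 H))) (hA : ∀ X ∈ Ioo 0 H, |F X| ≤ A)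
    (hS : H < S) : IntegrableOn (fun X => G X * (Kc (S - X) * F X)) (Ioo 0 H) := by
  have mK : Measurable (fun X => Kc (S - X)) := measurable_Kc.comp (by fun_prop)
  refine Integrable.mono' (hG.norm.mul_const (1 / (S - H) ^ 2 * A))
    (hG.aestronglyMeasurable.mul (mK.aestronglyMeasurable.mul hF)) ?_
  filter_upwards [ae_restrict_mem measurableSet_Ioo] with X hX
  have hSX : 0 < S - X := by linarith [hX.2]
  have h2 := Kc_le_sq hSX
  have h3 := Kc_nonneg hSX.le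
  have hSH : 0 < S - H := by linarith
  have h4 : 1 / (S - X) ^ 2 ≤ 1 / (S - H) ^ 2 := by
    apply div_le_div_of_nonneg_left (by norm_num) (by positivity)
    exact pow_le_pow_left₀ hSH.le (by linarith [hX.2]) 2
  have h5 := hA X hX
  have h6 : 0 ≤ A := (abs_nonneg _).trans h5
  rw [norm_mul, Real.norm_eq_abs (_ * _), abs_mul, abs_of_nonneg h3]
  gcongr
  exact h2.trans h4

section prof

variable {β B s₁ s₂ H : ℝ} {P Q Sf K : ℝ → ℝ}

lemma Kc_mul_le {Y : ℝ} (hY : 0 < Y) : Kc Y * Y ≤ 1 / Y := by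
  calc Kc Y * Y ≤ 1 / Y ^ 2 * Y := by gcongr; exact Kc_le_sq hY
    _ = 1 / Y := by field_simp

/-- pointwise expansion of `Kc·dφ`. -/
lemma P2_pt (h : Prof β B s₁ s₂ H P Q Sf K) (hβ : 0 ≤ β) (hB : 0 ≤ B) (hs : Small β B H)
    (hs₂ : 0 ≤ s₂) (hs₂' : 2 * s₂ ≤ H) {S X : ℝ} (hS : H < S) (hX : X ∈ Ioo 0 H) :
    |Kc (S - X) * dφ P Q Sf K X (S - X) - K X / S|
      ≤ 5 * (β * B * (1 + √X)) * Kc (S - X)
        + (6 * (β * B) ^ 2 * (1 + √s₂) / S + β * B * (6 + 10 * s₂) / S ^ 2) := by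
  have hX0 := hX.1
  have hS0 : 0 < S := by linarith [hX.2]
  set Y := S - X with hY
  have hY0 : 0 < Y := by rw [hY]; linarith [hX.2]
  have he := eps_le hβ hB hs hX
  have hK0 := h.K0 X hX
  have hKb := h.Kb X hX
  have hc := abs_cφ_le hX0 hY0.le
  have hKc := Kc_nonneg hY0.le
  have hr := abs_rh_sub_le (by linarith) (h.hP X hX) (h.hQS X hX) (h.hS X hX) hK0 hY0.le
  set r := rh (P X) (Q X) (Sf X) (K X) Y with hrdef
  have hε0 : 0 ≤ β * B * (1 + √X) := by positivity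
  have hdec : Kc Y * dφ P Q Sf K X Y - K X / S
      = Kc Y * cφ X Y * (r - Y * K X) + K X * (Kc Y * Y * cφ X Y - 1 / S) := by
    unfold dφ
    rw [← hrdef]
    ring
  rw [hdec]
  have t1 : |Kc Y * cφ X Y * (r - Y * K X)|
      ≤ Kc Y * (5 * (β * B * (1 + √X)) + 3 * (β * B * (1 + √X)) * (K X * Y)) := by
    rw [abs_mul, abs_mul, abs_of_nonneg hKc]
    calc Kc Y * |cφ X Y| * |r - Y * K X| ≤ Kc Y * 1 *
          (5 * (β * B * (1 + √X)) + 3 * (β * B * (1 + √X)) * (K X * Y)) := by gcongr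
      _ = _ := by ring
  refine (abs_add_le _ _).trans ?_
  rcases le_or_gt X s₂ with hx | hx
  · have hYS : S / 2 ≤ Y := by rw [hY]; linarith
    have hYS' : Y ≤ S := by rw [hY]; linarith
    have hinv : 1 / Y ≤ 2 / S := by
      rw [div_le_div_iff₀ hY0 hS0]; linarith
    have hKY := Kc_mul_le hY0
    have hsq : √X ≤ √s₂ := sqrt_le_sqrt hx
    have t2 : Kc Y * (3 * (β * B * (1 + √X)) * (K X * Y)) ≤ 6 * (β * B) ^ 2 * (1 + √s₂) / S := by
      calc Kc Y * (3 * (β * B * (1 + √X)) * (K X * Y))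
          = 3 * (β * B * (1 + √X)) * K X * (Kc Y * Y) := by ring
        _ ≤ 3 * (β * B * (1 + √s₂)) * (β * B) * (2 / S) := by
            gcongr
            exact hKY.trans hinv
        _ = _ := by ring
    have t3 : |Kc Y * Y * cφ X Y - 1 / S| ≤ (6 + 10 * s₂) / S ^ 2 := by
      have a1 : |Kc Y * Y - 1 / Y| ≤ 6 / S ^ 2 := by
        refine (Kc_mul_bounds hY0).trans ?_
        rw [div_le_div_iff₀ (by positivity) (by positivity)]
        have : (S / 2) ^ 2 ≤ Y ^ 2 := pow_le_pow_left₀ (by positivity) hYS 2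
        nlinarith
      have a2 : |1 / Y - 1 / S| ≤ 2 * s₂ / S ^ 2 := by
        have e : 1 / Y - 1 / S = X / (Y * S) := by
          have : X = S - Y := by rw [hY]; ring
          rw [this]; field_simp
        rw [e, abs_of_nonneg (by positivity), div_le_div_iff₀ (by positivity) (by positivity)]
        calc X * S ^ 2 ≤ s₂ * S ^ 2 := by gcongr
          _ = 2 * s₂ * (S / 2 * S) := by ring
          _ ≤ _ := by gcongr
      have a3 : |Kc Y * Y * (cφ X Y - 1)| ≤ 8 * s₂ / S ^ 2 := by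
        have e : cφ X Y - 1 = -(8 * X * Y / S ^ 2) := by
          unfold cφ
          have : X + Y = S := by rw [hY]; ring
          rw [this]; ring
        rw [e, abs_mul, abs_neg, abs_of_nonneg (by positivity), abs_of_nonneg (by positivity)]
        calc Kc Y * Y * (8 * X * Y / S ^ 2) ≤ 1 / Y * (8 * s₂ * Y / S ^ 2) := by gcongr
          _ = 8 * s₂ / S ^ 2 := by field_simp
      have e : Kc Y * Y * cφ X Y - 1 / S = (Kc Y * Y - 1 / Y) + (1 / Y - 1 / S)
          + Kc Y * Y * (cφ X Y - 1) := by ring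
      rw [e]
      calc _ ≤ |Kc Y * Y - 1 / Y| + |1 / Y - 1 / S| + |Kc Y * Y * (cφ X Y - 1)| :=
            abs_add_three _ _ _
        _ ≤ 6 / S ^ 2 + 2 * s₂ / S ^ 2 + 8 * s₂ / S ^ 2 := by gcongr
        _ = _ := by ring
    have t4 : |K X * (Kc Y * Y * cφ X Y - 1 / S)| ≤ β * B * (6 + 10 * s₂) / S ^ 2 := by
      rw [abs_mul, abs_of_nonneg hK0]
      calc K X * |Kc Y * Y * cφ X Y - 1 / S| ≤ (β * B) * ((6 + 10 * s₂) / S ^ 2) := by gcongr
        _ = _ := by ring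
    have e : Kc Y * (5 * (β * B * (1 + √X)) + 3 * (β * B * (1 + √X)) * (K X * Y))
        = 5 * (β * B * (1 + √X)) * Kc Y + Kc Y * (3 * (β * B * (1 + √X)) * (K X * Y)) := by ring
    linarith
  · have hKz : K X = 0 := h.Koff X ⟨hx, hX.2⟩
    rw [hKz] at t1 ⊢
    have n1 : 0 ≤ 6 * (β * B) ^ 2 * (1 + √s₂) / S := by positivity
    have n2 : 0 ≤ β * B * (6 + 10 * s₂) / S ^ 2 := by positivity
    simp only [zero_mul, mul_zero, add_zero, abs_zero] at t1 ⊢
    linarith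

lemma dφ_base (h : Prof β B s₁ s₂ H P Q Sf K) {X Y : ℝ} (hX : X ∈ Ioo 0 s₁) (hY : 0 ≤ Y) :
    dφ P Q Sf K X Y = 0 := by
  obtain ⟨e1, e2, e3, e4⟩ := h.base X hX
  unfold dφ
  rw [e1, e2, e3, e4, rh_base _ hY, mul_zero]

lemma rpow_half_le {S : ℝ} (hS : 0 < S) {p : ℝ} (hp : p ≤ 2) :
    (S / 2) ^ (-p) ≤ 4 * S ^ (-p) := by
  rw [div_rpow hS.le (by norm_num), rpow_neg (by norm_num : (0 : ℝ) ≤ 2), div_inv_eq_mul,
    mul_comm]
  gcongr
  calc (2 : ℝ) ^ p ≤ 2 ^ (2 : ℝ) := rpow_le_rpow_of_exponent_le (by norm_num) hp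
    _ = 4 := by norm_num

/-- bound for the symbols on `(0,H)`. -/
lemma dφ_bd (h : Prof β B s₁ s₂ H P Q Sf K) (hβ : 0 ≤ β) (hB : 0 ≤ B) (hs : Small β B H)
    {S X : ℝ} (hS : H < S) (hX : X ∈ Ioo 0 H) :
    |dφ P Q Sf K X (S - X)| ≤ 1 / 4 + 2 * (β * B * S) := by
  have hY0 : 0 < S - X := by linarith [hX.2]
  have h1 := abs_dφ_le h hβ hB hs hX hY0.le
  have h2 := eps_le hβ hB hs hX
  have h3 := h.Kb X hX
  have h4 := h.K0 X hX
  have h5 : K X * (S - X) ≤ β * B * S := by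
    have : S - X ≤ S := by linarith [hX.1]
    gcongr
  linarith

lemma meas_dφ (h : Prof β B s₁ s₂ H P Q Sf K) (S : ℝ) :
    Measurable (fun X => dφ P Q Sf K X (S - X)) :=
  (measurable_dφ h).comp (by fun_prop : Measurable fun X : ℝ => (X, S - X))

theorem P2 {G : ℝ → ℝ} {CG S : ℝ} (hG : GData G CG) (h : Prof β B s₁ s₂ H P Q Sf K)
    (hβ : 0 ≤ β) (hB : 0 ≤ B) (hs : Small β B H) (hs₂ : 0 ≤ s₂) (hs₂' : 2 * s₂ ≤ H)
    (hH : 1 ≤ H) (hS : H < S) :
    |(∫ X in Ioo 0 H, G X * (Kc (S - X) * dφ P Q Sf K X (S - X)))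
        - (∫ X in Ioo 0 H, G X * K X) / S|
      ≤ 240 * B * CG * (β / S ^ 2)
        + 12 * CG * (6 * (β * B) ^ 2 * (1 + √s₂) / S + β * B * (6 + 10 * s₂) / S ^ 2)
        + 80 * B * CG * (β * S ^ (-(5 / 4) : ℝ) / (1 + (S - H))) := by
  have hH0 : 0 < H := by linarith
  have hS0 : 0 < S := by linarith
  have hC := hG.nonneg
  obtain ⟨iM, hM⟩ := hG.moment' hH
  have iG : IntegrableOn G (Ioo 0 H) := hG.int.mono_set (fun x hx => hx.1)
  have iD : IntegrableOn (fun X => G X * (Kc (S - X) * dφ P Q Sf K X (S - X))) (Ioo 0 H) :=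
    int_GKF iG (meas_dφ h S).aestronglyMeasurable (fun X hX => dφ_bd h hβ hB hs hS hX) hS
  have iK : IntegrableOn (fun X => G X * K X) (Ioo 0 H) := by
    refine Integrable.mono' (iG.norm.mul_const (β * B))
      (iG.aestronglyMeasurable.mul h.mK.aestronglyMeasurable) ?_
    filter_upwards [ae_restrict_mem measurableSet_Ioo] with X hX
    rw [norm_mul, Real.norm_eq_abs (K X), abs_of_nonneg (h.K0 X hX)]
    gcongr
    exact h.Kb X hX
  set c := 6 * (β * B) ^ 2 * (1 + √s₂) / S + β * B * (6 + 10 * s₂) / S ^ 2 with hc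
  have hc0 : 0 ≤ c := by positivity
  set u : ℝ → ℝ := fun X => 5 * (β * B) * ((1 + √X) * |G X|) with hu
  have iu : IntegrableOn u (Ioo 0 H) := iM.const_mul _
  obtain ⟨iuK, huK⟩ := two_zone (u := u) (a := 0) (A := 10 * (β * B) * CG) (p := 5 / 4)
    le_rfl hH0 hS (by positivity) (by norm_num)
    (fun X hX => by rw [hu]; positivity)
    (fun X hX => by
      have := hG.all' hX.1
      calc u X = 5 * (β * B) * ((1 + √X) * |G X|) := rfl
        _ ≤ 5 * (β * B) * (2 * CG * X ^ (-(5 / 4) : ℝ)) := by gcongr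
        _ = _ := by ring) iu
  have e1 : (∫ X in Ioo 0 H, G X * (Kc (S - X) * dφ P Q Sf K X (S - X)))
      - (∫ X in Ioo 0 H, G X * K X) / S
      = ∫ X in Ioo 0 H, G X * (Kc (S - X) * dφ P Q Sf K X (S - X) - K X / S) := by
    rw [← integral_div, ← integral_sub iD (iK.div_const _)]
    congr 1
    funext X
    ring
  rw [e1]
  have iMc : IntegrableOn (fun X => c * ((1 + √X) * |G X|)) (Ioo 0 H) := iM.const_mul _
  have i12 : IntegrableOn (fun X => u X * Kc (S - X) + c * ((1 + √X) * |G X|)) (Ioo 0 H) :=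
    iuK.add iMc
  have hI : |∫ X in Ioo 0 H, G X * (Kc (S - X) * dφ P Q Sf K X (S - X) - K X / S)|
      ≤ ∫ X in Ioo 0 H, (u X * Kc (S - X) + c * ((1 + √X) * |G X|)) := by
    rw [← Real.norm_eq_abs]
    apply norm_integral_le_of_norm_le i12
    filter_upwards [ae_restrict_mem measurableSet_Ioo] with X hX
    have h1 := P2_pt h hβ hB hs hs₂ hs₂' hS hX
    rw [norm_mul, Real.norm_eq_abs, Real.norm_eq_abs]
    have hsX := sqrt_nonneg X
    have hg := abs_nonneg (G X)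
    calc |G X| * |Kc (S - X) * dφ P Q Sf K X (S - X) - K X / S|
        ≤ |G X| * (5 * (β * B * (1 + √X)) * Kc (S - X) + c) := by gcongr
      _ = u X * Kc (S - X) + c * (1 * |G X|) := by rw [hu]; ring
      _ ≤ _ := by gcongr; linarith
  refine hI.trans ?_
  rw [integral_add iuK iMc, integral_const_mul]
  have hu2 : ∫ X in Ioo 0 H, u X ≤ 5 * (β * B) * (12 * CG) := by
    rw [hu, integral_const_mul]
    gcongr
  have h5 := rpow_half_le hS0 (p := 5 / 4) (by norm_num)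
  have hD : 0 < 1 + (S - H) := by linarith
  have n0 : 0 ≤ S ^ (-(5 / 4) : ℝ) := rpow_nonneg hS0.le _
  calc (∫ X in Ioo 0 H, u X * Kc (S - X)) + c * ∫ X in Ioo 0 H, (1 + √X) * |G X|
      ≤ (4 / S ^ 2 * (5 * (β * B) * (12 * CG)) + 10 * (β * B) * CG * (4 * S ^ (-(5 / 4) : ℝ))
          * (2 / (1 + (S - H)))) + c * (12 * CG) := by
        gcongr
        refine huK.trans ?_
        gcongr
    _ = _ := by rw [hc]; ring

end prof

end Pool.Agent.Lib.MP_85963d_gt.H31
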