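import Pool.Agent.Lib.MP_85963d_gt.H31.AsyD

/-! Asymptotics of `D_j(S)` (Paper (10.5)): the `R` part and the conclusion. -/

set_option autoImplicit false
open Set MeasureTheory Real

noncomputable section
namespace Pool.Agent.Lib.MP_85963d_gt.H31

section prof

variable {β B s₁ s₂ H : ℝ} {P Q Sf K : ℝ → ℝ}

lemma meas_pφ (h : Prof β B s₁ s₂ H P Q Sf K) (S : ℝ) :
    Measurable (fun X => pφ P Q Sf K X (S - X)) := by
  have h2 : Measurable (fun X => cφ X (S - X)) :=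
    (goodPhi_cφ (b := 1)).meas.comp (by fun_prop : Measurable fun X : ℝ => (X, S - X))
  exact h2.add (meas_dφ h S)

lemma pφ_bd (h : Prof β B s₁ s₂ H P Q Sf K) (hβ : 0 ≤ β) (hB : 0 ≤ B) (hs : Small β B H)
    {S X : ℝ} (hS : H < S) (hX : X ∈ Ioo 0 H) :
    |pφ P Q Sf K X (S - X)| ≤ 5 / 4 + 2 * (K X * (S - X)) := by
  have hY0 : 0 < S - X := by linarith [hX.2]
  have h1 := abs_dφ_le h hβ hB hs hX hY0.le
  have h2 := eps_le hβ hB hs hX
  have h3 := abs_cφ_le hX.1 hY0.le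
  unfold pφ
  have := abs_add_le (cφ X (S - X)) (dφ P Q Sf K X (S - X))
  linarith

lemma pφ_bd' (h : Prof β B s₁ s₂ H P Q Sf K) (hβ : 0 ≤ β) (hB : 0 ≤ B) (hs : Small β B H)
    {S X : ℝ} (hS : H < S) (hX : X ∈ Ioo 0 H) :
    |pφ P Q Sf K X (S - X)| ≤ 5 / 4 + 2 * (β * B * S) := by
  have hY0 : 0 < S - X := by linarith [hX.2]
  have h1 := pφ_bd h hβ hB hs hS hX
  have h3 := h.Kb X hX
  have h4 := h.K0 X hX
  have h5 : K X * (S - X) ≤ β * B * S := by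
    have : S - X ≤ S := by linarith [hX.1]
    gcongr
  linarith

lemma integral_inv_sqrt {H : ℝ} (hH : 0 ≤ H) : ∫ X in Ioo 0 H, 1 / √X = 2 * √H := by
  rw [← integral_Ioc_eq_integral_Ioo, ← intervalIntegral.integral_of_le hH]
  have e : ∫ X in (0:ℝ)..H, 1 / √X = ∫ X in (0:ℝ)..H, X ^ (-(1 / 2) : ℝ) := by
    apply intervalIntegral.integral_congr
    intro X hX
    rw [uIcc_of_le hH] at hX
    simp only
    rw [rpow_neg hX.1, ← sqrt_eq_rpow, one_div]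
  rw [e, integral_rpow (Or.inl (by norm_num)), show (-(1 / 2) + 1 : ℝ) = 1 / 2 by norm_num,
    zero_rpow (by norm_num), ← sqrt_eq_rpow]
  ring

theorem P3 {R : ℝ → ℝ} {A S : ℝ} (h : Prof β B s₁ s₂ H P Q Sf K)
    (hβ : 0 ≤ β) (hB : 0 ≤ B) (hs : Small β B H) (hs₁ : 0 < s₁) (hs₂ : 0 ≤ s₂)
    (hs₂' : 2 * s₂ ≤ H) (hA : 0 ≤ A) (hs₁H : s₁ < H) (hS : H < S)
    (hRi : IntegrableOn R (Ioo 0 H))
    (hR0 : ∀ X ∈ Ioo 0 s₁, R X = 0) (hR : ∀ X ∈ Ioo s₁ H, |R X| ≤ A / X) :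
    |∫ X in Ioo 0 H, R X * (Kc (S - X) * pφ P Q Sf K X (S - X))|
      ≤ 10 * A / √s₁ * (√H / S ^ 2) + 4 * A * (β * B) * s₂ / s₁ / S
        + 10 * A * (1 / (S * (1 + (S - H)))) := by
  have hH0 : 0 < H := by linarith
  have hS0 : 0 < S := by linarith
  have hss : 0 < √s₁ := sqrt_pos.2 hs₁
  have iP : IntegrableOn (fun X => R X * (Kc (S - X) * pφ P Q Sf K X (S - X))) (Ioo 0 H) :=
    int_GKF hRi (meas_pφ h S).aestronglyMeasurable (fun X hX => pφ_bd' h hβ hB hs hS hX) hS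
  have e : Ioo (0 : ℝ) H = Ioc 0 s₁ ∪ Ioo s₁ H := (Ioc_union_Ioo_eq_Ioo hs₁.le hs₁H).symm
  have hd : Disjoint (Ioc (0 : ℝ) s₁) (Ioo s₁ H) := by
    rw [Set.disjoint_left]
    intro x h1 h2
    exact absurd h1.2 (not_le.2 h2.1)
  have hsub : Ioo s₁ H ⊆ Ioo 0 H := Ioo_subset_Ioo_left hs₁.le
  have hsub' : Ioc 0 s₁ ⊆ Ioo 0 H := fun x hx => ⟨hx.1, hx.2.trans_lt hs₁H⟩
  have hz : ∫ X in Ioc 0 s₁, R X * (Kc (S - X) * pφ P Q Sf K X (S - X)) = 0 := by
    rw [integral_Ioc_eq_integral_Ioo]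
    apply setIntegral_eq_zero_of_forall_eq_zero
    intro X hX
    rw [hR0 X hX, zero_mul]
  rw [e, setIntegral_union hd measurableSet_Ioo (iP.mono_set hsub') (iP.mono_set hsub), hz, zero_add]
  -- the majorant
  set u : ℝ → ℝ := fun X => 5 / 4 * A * (1 / X) with hu
  have hu0 : ∀ X ∈ Ioo s₁ H, 0 ≤ u X := fun X hX => by
    have : 0 < X := hs₁.trans hX.1
    rw [hu]; positivity
  have hu1 : ∀ X ∈ Ioo s₁ H, u X ≤ 5 / 4 * A / √s₁ * (1 / √X) := by
    intro X hX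
    have hX0 : 0 < X := hs₁.trans hX.1
    have h1 : √s₁ ≤ √X := sqrt_le_sqrt hX.1.le
    have h2 : 0 < √X := sqrt_pos.2 hX0
    rw [hu]
    calc 5 / 4 * A * (1 / X) = 5 / 4 * A * (1 / (√X * √X)) := by rw [mul_self_sqrt hX0.le]
      _ ≤ 5 / 4 * A * (1 / (√s₁ * √X)) := by gcongr
      _ = _ := by field_simp
  have ii : IntegrableOn (fun X => 5 / 4 * A / √s₁ * (1 / √X)) (Ioo 0 H) :=
    (integrableOn_inv_sqrt H).const_mul _
  have iu : IntegrableOn u (Ioo s₁ H) := by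
    refine Integrable.mono' (ii.mono_set hsub) ?_ ?_
    · have : Measurable u := by rw [hu]; fun_prop
      exact this.aestronglyMeasurable
    · filter_upwards [ae_restrict_mem measurableSet_Ioo] with X hX
      rw [Real.norm_eq_abs, abs_of_nonneg (hu0 X hX)]
      exact hu1 X hX
  obtain ⟨iuK, huK⟩ := two_zone (u := u) (a := s₁) (A := 5 / 4 * A) (p := 1)
    hs₁.le hH0 hS (by positivity) (by norm_num) hu0
    (fun X hX => by
      change 5 / 4 * A * (1 / X) ≤ 5 / 4 * A * X ^ (-1 : ℝ)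
      rw [rpow_neg_one, one_div]) iu
  have iv : IntegrableOn (fun X : ℝ => 4 * A * (β * B) * s₂ / S * X ^ (-2 : ℝ)) (Ioi s₁) :=
    (integrableOn_Ioi_rpow_of_lt (by norm_num) hs₁).const_mul _
  have iv' : IntegrableOn (fun X : ℝ => 4 * A * (β * B) * s₂ / S * X ^ (-2 : ℝ)) (Ioo s₁ H) :=
    iv.mono_set (fun x hx => hx.1)
  have i12 : IntegrableOn (fun X => u X * Kc (S - X) + 4 * A * (β * B) * s₂ / S * X ^ (-2 : ℝ))
      (Ioo s₁ H) := iuK.add iv'
  have hI : |∫ X in Ioo s₁ H, R X * (Kc (S - X) * pφ P Q Sf K X (S - X))|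
      ≤ ∫ X in Ioo s₁ H, (u X * Kc (S - X) + 4 * A * (β * B) * s₂ / S * X ^ (-2 : ℝ)) := by
    rw [← Real.norm_eq_abs]
    apply norm_integral_le_of_norm_le i12
    filter_upwards [ae_restrict_mem measurableSet_Ioo] with X hX
    have hX' := hsub hX
    have hX0 := hX'.1
    have hY0 : 0 < S - X := by linarith [hX.2]
    have h1 := pφ_bd h hβ hB hs hS hX'
    have h2 := hR X hX
    have h3 := Kc_nonneg hY0.le
    have hK0 := h.K0 X hX'
    have hKb := h.Kb X hX'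
    have hrp : X ^ (-2 : ℝ) = 1 / X ^ 2 := by
      rw [rpow_neg hX0.le, one_div]
      norm_cast
    rw [norm_mul, Real.norm_eq_abs, Real.norm_eq_abs, abs_mul, abs_of_nonneg h3]
    have h4 : K X * (Kc (S - X) * (S - X)) ≤ 2 * (β * B) / S * (s₂ / X) := by
      rcases le_or_gt X s₂ with hx | hx
      · have h5 := Kc_mul_le hY0
        have h6 : 1 / (S - X) ≤ 2 / S := by
          rw [div_le_div_iff₀ hY0 hS0]; linarith
        have h7 : 1 ≤ s₂ / X := by rw [one_le_div hX0]; exact hx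
        calc K X * (Kc (S - X) * (S - X)) ≤ (β * B) * (2 / S) := by
              gcongr
              exact h5.trans h6
          _ = 2 * (β * B) / S * 1 := by ring
          _ ≤ _ := by gcongr
      · rw [h.Koff X ⟨hx, hX.2⟩, zero_mul]
        positivity
    calc |R X| * (Kc (S - X) * |pφ P Q Sf K X (S - X)|)
        ≤ A / X * (Kc (S - X) * (5 / 4 + 2 * (K X * (S - X)))) := by gcongr
      _ = u X * Kc (S - X) + 2 * (A / X) * (K X * (Kc (S - X) * (S - X))) := by rw [hu]; ring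
      _ ≤ u X * Kc (S - X) + 2 * (A / X) * (2 * (β * B) / S * (s₂ / X)) := by gcongr
      _ = _ := by rw [hrp]; field_simp; ring
  refine hI.trans ?_
  rw [integral_add iuK iv']
  have hu2 : ∫ X in Ioo s₁ H, u X ≤ 5 / 4 * A / √s₁ * (2 * √H) := by
    refine (setIntegral_mono_on iu (ii.mono_set hsub) measurableSet_Ioo hu1).trans ?_
    rw [← integral_inv_sqrt hH0.le, ← integral_const_mul]
    apply setIntegral_mono_set ii _ (Filter.Eventually.of_forall hsub)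
    filter_upwards [ae_restrict_mem measurableSet_Ioo] with X hX
    change 0 ≤ 5 / 4 * A / √s₁ * (1 / √X)
    positivity
  have hv2 : ∫ X in Ioo s₁ H, 4 * A * (β * B) * s₂ / S * X ^ (-2 : ℝ)
      ≤ 4 * A * (β * B) * s₂ / S * (1 / s₁) := by
    have h1 : ∫ X in Ioo s₁ H, 4 * A * (β * B) * s₂ / S * X ^ (-2 : ℝ)
        ≤ ∫ X in Ioi s₁, 4 * A * (β * B) * s₂ / S * X ^ (-2 : ℝ) := by
      apply setIntegral_mono_set iv _ (Filter.Eventually.of_forall (fun x hx => hx.1))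
      filter_upwards [ae_restrict_mem measurableSet_Ioi] with X hX
      have : 0 < X := hs₁.trans hX
      change 0 ≤ 4 * A * (β * B) * s₂ / S * X ^ (-2 : ℝ)
      positivity
    refine h1.trans (le_of_eq ?_)
    rw [integral_const_mul, integral_Ioi_rpow_of_lt (by norm_num) hs₁,
      show (-2 + 1 : ℝ) = -1 by norm_num, rpow_neg_one]
    field_simp
  have h5 : (S / 2) ^ (-1 : ℝ) = 2 / S := by rw [rpow_neg_one, inv_div]
  have hD : 0 < 1 + (S - H) := by linarith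
  calc (∫ X in Ioo s₁ H, u X * Kc (S - X))
      + ∫ X in Ioo s₁ H, 4 * A * (β * B) * s₂ / S * X ^ (-2 : ℝ)
      ≤ (4 / S ^ 2 * (5 / 4 * A / √s₁ * (2 * √H)) + 5 / 4 * A * (2 / S) * (2 / (1 + (S - H))))
          + 4 * A * (β * B) * s₂ / S * (1 / s₁) := by
        gcongr
        refine huK.trans ?_
        rw [h5]
        gcongr
    _ ≤ _ := by
        have e1 : 4 / S ^ 2 * (5 / 4 * A / √s₁ * (2 * √H)) = 10 * A / √s₁ * (√H / S ^ 2) := by
          field_simp; ring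
        have e2 : 5 / 4 * A * (2 / S) * (2 / (1 + (S - H))) = 5 * A * (1 / (S * (1 + (S - H)))) := by
          field_simp; ring
        have e3 : 4 * A * (β * B) * s₂ / S * (1 / s₁) = 4 * A * (β * B) * s₂ / s₁ / S := by
          field_simp
        have n : 0 ≤ A * (1 / (S * (1 + (S - H)))) := by positivity
        rw [e1, e2, e3]
        linarith

end prof

/-- The solution of the perturbed equation on `(0,b)`. -/
structure PSol (s₁ b : ℝ) (P Q S K G Gβ : ℝ → ℝ) : Prop where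
  cont : ContinuousOn Gβ (Ioo 0 b)
  bd : ∃ C, ∀ X ∈ Ioo 0 b, |Gβ X| ≤ C / √X
  eqG : ∀ X ∈ Ioo 0 s₁, Gβ X = G X
  eqn : ∀ᵐ s ∂(volume.restrict (Ioo 0 b)),
    ∫ X in Ioo 0 s, Gβ X * (Kc (s - X) * pφ P Q S K X (s - X)) = 0

/-- The defect `2 D(S)`. -/
def DE (P Q S K : ℝ → ℝ) (H : ℝ) (Gβ : ℝ → ℝ) (s : ℝ) : ℝ :=
  ∫ X in Ioo 0 H, Gβ X * (Kc (s - X) * pφ P Q S K X (s - X))

/-- the error function -/
def EE (β H S : ℝ) : ℝ :=
  H ^ (-(3 / 4) : ℝ) / S ^ 2 + S ^ (-(7 / 4) : ℝ) / (1 + (S - H)) + β * (√S / S ^ 2)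
    + β ^ 2 / S + β * (1 / (S * (1 + (S - H))))

/-- **(10.5).** -/
theorem D_expand (B s₁ s₂ CG : ℝ) (hB : 0 ≤ B) (hs₁ : 0 < s₁) (hs₁' : s₁ ≤ 1) (hs₂ : 0 ≤ s₂)
    (hCG : 0 ≤ CG) :
    ∃ η₀ > 0, ∃ C, 0 ≤ C ∧ ∀ β H : ℝ, 0 < β → 1 < H → 2 * s₂ ≤ H → β * (1 + H) ≤ η₀ →
      ∀ P Q S K : ℝ → ℝ, Prof β B s₁ s₂ H P Q S K → ∀ (G Gβ : ℝ → ℝ), GData G CG →
      (∀ᵐ s ∂(volume.restrict (Ioo 0 H)),
        ∫ X in Ioo 0 s, G X * (Kc (s - X) * cφ X (s - X)) = 0) →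
      PSol s₁ H P Q S K G Gβ → ∀ s, H < s →
      |DE P Q S K H Gβ s - ((∫ X in Ioi 0, G X) / s ^ 2 + (∫ X in Ioo 0 H, G X * K X) / s)|
        ≤ C * EE β H s := by
  obtain ⟨η₀, hη₀, C₄, hR⟩ := R_bound B s₁ s₂ CG hB hs₁ hs₁' hCG
  set C₅ := max C₄ 0 with hC₅
  have hC₅0 : 0 ≤ C₅ := le_max_right _ _
  refine ⟨min η₀ (1 / (40 * (1 + B))), by positivity,
    (CG * 400 + (240 * B * CG + 12 * CG * (B * (6 + 10 * s₂)) + 12 * CG * (6 * B ^ 2 * (1 + √s₂))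
      + 80 * B * CG) + (10 * C₅ / √s₁ + 4 * C₅ * B * s₂ / s₁ + 10 * C₅)), by positivity, ?_⟩
  intro β H hβ hH hs₂' hβH P Q S K h G Gβ hG heq hp s hs
  have hH0 : 0 < H := by linarith
  have hs0 : 0 < s := by linarith
  have hs1 : 1 < s := by linarith
  have hsm : Small β B H := by
    unfold Small
    have h1 : β * (1 + H) ≤ 1 / (40 * (1 + B)) := hβH.trans (min_le_right _ _)
    have h2 : 1 + √H ≤ 2 * (1 + H) := by
      have := sqrt_nonneg H
      have := mul_self_sqrt hH0.le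
      nlinarith
    calc β * B * (1 + √H) ≤ β * B * (2 * (1 + H)) := by gcongr
      _ = 2 * B * (β * (1 + H)) := by ring
      _ ≤ 2 * B * (1 / (40 * (1 + B))) := by gcongr
      _ ≤ 1 / 20 := by
          rw [mul_one_div, div_le_div_iff₀ (by positivity) (by norm_num)]
          nlinarith
  obtain ⟨C', hC'⟩ := hp.bd
  have hGm : ∃ C, ∀ X ∈ Ioo 0 H, |G X| ≤ C / √X := by
    refine ⟨CG * max 1 (√H), fun X hX => ?_⟩
    have hsx : 0 < √X := sqrt_pos.2 hX.1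
    rcases le_or_gt X 1 with h1 | h1
    · refine (hG.near X ⟨hX.1, h1⟩).trans ?_
      gcongr
      exact le_mul_of_one_le_right hCG (le_max_left _ _)
    · have h2 := hG.far X h1.le
      have h3 : X ^ (-(7 / 4) : ℝ) ≤ 1 := rpow_le_one_of_one_le_of_nonpos h1.le (by norm_num)
      have h4 : 1 ≤ max 1 (√H) / √X := by
        rw [one_le_div hsx]
        exact (sqrt_le_sqrt hX.2.le).trans (le_max_right _ _)
      calc |G X| ≤ CG * 1 := h2.trans (by gcongr)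
        _ ≤ CG * (max 1 (√H) / √X) := by gcongr
        _ = _ := by ring
  obtain ⟨C'', hC''⟩ := hGm
  have hRb := hR β H hβ hH0 (hβH.trans (min_le_left _ _)) P Q S K h G Gβ C'' C'
    (hG.cont.mono (fun x hx => hx.1)) hp.cont hC'' hC'
    (fun X hX => hG.all (hs₁.trans hX.1)) hp.eqG heq hp.eqn
  set R : ℝ → ℝ := fun X => Gβ X - G X with hRdef
  have iG : IntegrableOn G (Ioo 0 H) := hG.int.mono_set (fun x hx => hx.1)
  have iGβ : IntegrableOn Gβ (Ioo 0 H) :=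
    integrable_G (hp.cont.aestronglyMeasurable measurableSet_Ioo) hC'
  have iR : IntegrableOn R (Ioo 0 H) := iGβ.sub iG
  have hR0 : ∀ X ∈ Ioo 0 s₁, R X = 0 := fun X hX => by rw [hRdef]; simp [hp.eqG X hX]
  have hR1 : ∀ X ∈ Ioo s₁ H, |R X| ≤ C₅ * β / X := fun X hX => by
    have hX0 : 0 < X := hs₁.trans hX.1
    refine (hRb X hX).trans ?_
    gcongr
    exact le_max_left _ _
  have p1 := P1 hG hH.le hs
  have p2 := P2 hG h hβ.le hB hsm hs₂ hs₂' hH.le hs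
  have p3 := P3 h hβ.le hB hsm hs₁ hs₂ hs₂' (by positivity : 0 ≤ C₅ * β) (by linarith) hs iR hR0 hR1
  have ic : IntegrableOn (fun X => G X * (Kc (s - X) * cφ X (s - X))) (Ioo 0 H) := by
    have h2 : Measurable (fun X => cφ X (s - X)) :=
      (goodPhi_cφ (b := 1)).meas.comp (by fun_prop : Measurable fun X : ℝ => (X, s - X))
    exact int_GKF iG h2.aestronglyMeasurable (A := 1)
      (fun X hX => abs_cφ_le hX.1 (by linarith [hX.2])) hs
  have id : IntegrableOn (fun X => G X * (Kc (s - X) * dφ P Q S K X (s - X))) (Ioo 0 H) :=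
    int_GKF iG (meas_dφ h s).aestronglyMeasurable (fun X hX => dφ_bd h hβ.le hB hsm hs hX) hs
  have iRp : IntegrableOn (fun X => R X * (Kc (s - X) * pφ P Q S K X (s - X))) (Ioo 0 H) :=
    int_GKF iR (meas_pφ h s).aestronglyMeasurable (fun X hX => pφ_bd' h hβ.le hB hsm hs hX) hs
  have hsplit : DE P Q S K H Gβ s
      = (∫ X in Ioo 0 H, G X * (Kc (s - X) * cφ X (s - X)))
        + (∫ X in Ioo 0 H, G X * (Kc (s - X) * dφ P Q S K X (s - X)))
        + ∫ X in Ioo 0 H, R X * (Kc (s - X) * pφ P Q S K X (s - X)) := by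
    have i2 : IntegrableOn (fun X => G X * (Kc (s - X) * cφ X (s - X))
        + G X * (Kc (s - X) * dφ P Q S K X (s - X))) (Ioo 0 H) := ic.add id
    rw [← integral_add ic id, ← integral_add i2 iRp]
    unfold DE
    congr 1
    funext X
    rw [hRdef]
    unfold pφ
    ring
  set I1 := ∫ X in Ioo 0 H, G X * (Kc (s - X) * cφ X (s - X))
  set I2 := ∫ X in Ioo 0 H, G X * (Kc (s - X) * dφ P Q S K X (s - X))
  set I3 := ∫ X in Ioo 0 H, R X * (Kc (s - X) * pφ P Q S K X (s - X))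
  set M := ∫ X in Ioi 0, G X
  set J := ∫ X in Ioo 0 H, G X * K X
  rw [hsplit]
  have e : I1 + I2 + I3 - (M / s ^ 2 + J / s) = (I1 - M / s ^ 2) + (I2 - J / s) + I3 := by ring
  rw [e]
  refine (abs_add_three _ _ _).trans ((add_le_add (add_le_add p1 p2) p3).trans ?_)
  -- comparison of the errors
  have hD : 0 < 1 + (s - H) := by linarith
  have hss : 0 < √s := sqrt_pos.2 hs0
  have hss1 : 0 < √s₁ := sqrt_pos.2 hs₁
  set E1 := H ^ (-(3 / 4) : ℝ) / s ^ 2 with hE1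
  set E2 := s ^ (-(7 / 4) : ℝ) / (1 + (s - H)) with hE2
  set E3 := β * (√s / s ^ 2) with hE3
  set E4 := β ^ 2 / s with hE4
  set E5 := β * (1 / (s * (1 + (s - H)))) with hE5
  have n1 : 0 ≤ E1 := by have := rpow_nonneg hH0.le (-(3 / 4)); positivity
  have n2 : 0 ≤ E2 := by have := rpow_nonneg hs0.le (-(7 / 4)); positivity
  have n3 : 0 ≤ E3 := by positivity
  have n4 : 0 ≤ E4 := by positivity
  have n5 : 0 ≤ E5 := by positivity
  have k1 : β / s ^ 2 ≤ E3 := by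
    rw [hE3, ← mul_one_div]
    have : 1 ≤ √s := by rw [one_le_sqrt]; exact hs1.le
    gcongr
  have k2 : β * s ^ (-(5 / 4) : ℝ) / (1 + (s - H)) ≤ E5 := by
    have h1 : s ^ (-(5 / 4) : ℝ) ≤ s ^ (-1 : ℝ) := rpow_le_rpow_of_exponent_le hs1.le (by norm_num)
    rw [rpow_neg_one] at h1
    calc β * s ^ (-(5 / 4) : ℝ) / (1 + (s - H)) ≤ β * s⁻¹ / (1 + (s - H)) := by gcongr
      _ = E5 := by rw [hE5]; field_simp
  have k3 : √H / s ^ 2 * β ≤ E3 := by
    rw [hE3, mul_comm]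
    have : √H ≤ √s := sqrt_le_sqrt hs.le
    gcongr
  have q1 : CG * (400 * (H ^ (-(3 / 4) : ℝ) / s ^ 2) + 8 * (s ^ (-(7 / 4) : ℝ) / (1 + (s - H))))
      ≤ CG * 400 * (E1 + E2) := by
    rw [← hE1, ← hE2]
    have : CG * 8 * E2 ≤ CG * 400 * E2 := by gcongr; norm_num
    linarith
  have q2 : 240 * B * CG * (β / s ^ 2)
        + 12 * CG * (6 * (β * B) ^ 2 * (1 + √s₂) / s + β * B * (6 + 10 * s₂) / s ^ 2)
        + 80 * B * CG * (β * s ^ (-(5 / 4) : ℝ) / (1 + (s - H)))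
      ≤ 240 * B * CG * E3 + 12 * CG * (6 * B ^ 2 * (1 + √s₂)) * E4
        + 12 * CG * (B * (6 + 10 * s₂)) * E3 + 80 * B * CG * E5 := by
    have r1 : 240 * B * CG * (β / s ^ 2) ≤ 240 * B * CG * E3 := by gcongr
    have r2 : 12 * CG * (6 * (β * B) ^ 2 * (1 + √s₂) / s + β * B * (6 + 10 * s₂) / s ^ 2)
        = 12 * CG * (6 * B ^ 2 * (1 + √s₂)) * E4 + 12 * CG * (B * (6 + 10 * s₂)) * (β / s ^ 2) := by
      rw [hE4]; ring
    have r3 : 12 * CG * (B * (6 + 10 * s₂)) * (β / s ^ 2)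
        ≤ 12 * CG * (B * (6 + 10 * s₂)) * E3 := by gcongr
    have r4 : 80 * B * CG * (β * s ^ (-(5 / 4) : ℝ) / (1 + (s - H))) ≤ 80 * B * CG * E5 := by gcongr
    linarith
  have q3 : 10 * (C₅ * β) / √s₁ * (√H / s ^ 2) + 4 * (C₅ * β) * (β * B) * s₂ / s₁ / s
        + 10 * (C₅ * β) * (1 / (s * (1 + (s - H))))
      ≤ 10 * C₅ / √s₁ * E3 + 4 * C₅ * B * s₂ / s₁ * E4 + 10 * C₅ * E5 := by
    have r1 : 10 * (C₅ * β) / √s₁ * (√H / s ^ 2) ≤ 10 * C₅ / √s₁ * E3 := by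
      calc 10 * (C₅ * β) / √s₁ * (√H / s ^ 2) = 10 * C₅ / √s₁ * (√H / s ^ 2 * β) := by ring
        _ ≤ _ := by gcongr
    have r2 : 4 * (C₅ * β) * (β * B) * s₂ / s₁ / s = 4 * C₅ * B * s₂ / s₁ * E4 := by
      rw [hE4]; ring
    have r3 : 10 * (C₅ * β) * (1 / (s * (1 + (s - H)))) = 10 * C₅ * E5 := by
      rw [hE5]; ring
    linarith
  refine (add_le_add (add_le_add q1 q2) q3).trans ?_
  have hEE : EE β H s = E1 + E2 + E3 + E4 + E5 := rfl
  rw [hEE]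
  set a1 := CG * 400
  set a2 := 240 * B * CG
  set a3 := 12 * CG * (6 * B ^ 2 * (1 + √s₂))
  set a4 := 12 * CG * (B * (6 + 10 * s₂))
  set a5 := 80 * B * CG
  set a6 := 10 * C₅ / √s₁
  set a7 := 4 * C₅ * B * s₂ / s₁
  set a8 := 10 * C₅
  have m1 : 0 ≤ a1 := by positivity
  have m2 : 0 ≤ a2 := by positivity
  have m3 : 0 ≤ a3 := by positivity
  have m4 : 0 ≤ a4 := by positivity
  have m5 : 0 ≤ a5 := by positivity
  have m6 : 0 ≤ a6 := by positivity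
  have m7 : 0 ≤ a7 := by positivity
  have m8 : 0 ≤ a8 := by positivity
  have z : ∀ a E : ℝ, 0 ≤ a → 0 ≤ E → 0 ≤ a * E := fun a E h1 h2 => mul_nonneg h1 h2
  have w1 := z a1 (E3 + E4 + E5) m1 (by positivity)
  have w2 := z a2 (E1 + E2 + E4 + E5) m2 (by positivity)
  have w3 := z a3 (E1 + E2 + E3 + E5) m3 (by positivity)
  have w4 := z a4 (E1 + E2 + E4 + E5) m4 (by positivity)
  have w5 := z a5 (E1 + E2 + E3 + E4) m5 (by positivity)
  have w6 := z a6 (E1 + E2 + E4 + E5) m6 (by positivity)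
  have w7 := z a7 (E1 + E2 + E3 + E5) m7 (by positivity)
  have w8 := z a8 (E1 + E2 + E3 + E4) m8 (by positivity)
  linarith

end Pool.Agent.Lib.MP_85963d_gt.H31
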