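import Pool.Agent.Lib.MP_85963d_gt.H31.AsyE

/-! Asymptotics of `N_k(D_j)` (Paper (10.6)): the integrals. -/

set_option autoImplicit false
open Set MeasureTheory Real Filter Topology

noncomputable section
namespace Pool.Agent.Lib.MP_85963d_gt.H31

lemma sub_H {F f : ℝ → ℝ} {l H : ℝ} (hH : 0 < H) (hF : ∀ t, HasDerivAt F (f t) t)
    (hf : ∀ t, 0 < t → 0 ≤ f t) (F0 : F 0 = 0) (hl : Tendsto F atTop (𝓝 l)) :
    IntegrableOn (fun s => f (√((s - H) / H)) / (2 * √((s - H) / H) * H)) (Ioi H) ∧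
    ∫ s in Ioi H, f (√((s - H) / H)) / (2 * √((s - H) / H) * H) = l := by
  have hcont : Continuous F := continuous_iff_continuousAt.2 fun t => (hF t).continuousAt
  have hg : Continuous (fun s => F (√((s - H) / H))) := hcont.comp (by fun_prop)
  have hderiv : ∀ s ∈ Ioi H, HasDerivAt (fun s => F (√((s - H) / H)))
      (f (√((s - H) / H)) / (2 * √((s - H) / H) * H)) s := by
    intro s hs
    have hs' : H < s := hs
    have hq : 0 < (s - H) / H := div_pos (by linarith) hH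
    have d1 : HasDerivAt (fun s : ℝ => (s - H) / H) (1 / H) s :=
      ((hasDerivAt_id s).sub_const H).div_const H
    have d2 := d1.sqrt hq.ne'
    refine ((hF (√((s - H) / H))).comp s d2).congr_deriv ?_
    have : 0 < √((s - H) / H) := sqrt_pos.2 hq
    field_simp
  have hpos : ∀ s ∈ Ioi H, 0 ≤ f (√((s - H) / H)) / (2 * √((s - H) / H) * H) := by
    intro s hs
    have hs' : H < s := hs
    have hq : 0 < (s - H) / H := div_pos (by linarith) hH
    have h1 : 0 < √((s - H) / H) := sqrt_pos.2 hq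
    have := hf _ h1
    positivity
  have hlim : Tendsto (fun s => F (√((s - H) / H))) atTop (𝓝 l) := by
    refine hl.comp ?_
    refine tendsto_sqrt_atTop.comp ?_
    exact (tendsto_atTop_add_const_right _ (-H) tendsto_id).atTop_div_const hH
  refine ⟨integrableOn_Ioi_deriv_of_nonneg hg.continuousWithinAt hderiv hpos hlim, ?_⟩
  rw [integral_Ioi_of_hasDerivAt_of_nonneg hg.continuousWithinAt hderiv hpos hlim]
  simp [F0]

lemma int_n (n : ℕ) {F : ℝ → ℝ} {l H : ℝ} (hH : 0 < H)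
    (hF : ∀ t, HasDerivAt F (t ^ 2 / (1 + t ^ 2) ^ n) t) (F0 : F 0 = 0)
    (hl : Tendsto F atTop (𝓝 l)) :
    IntegrableOn (fun s => 1 / s ^ n * √(s - H)) (Ioi H) ∧
    ∫ s in Ioi H, 1 / s ^ n * √(s - H) = 2 * l * (√H * H / H ^ n) := by
  obtain ⟨i, e⟩ := sub_H hH hF (fun t _ => by positivity) F0 hl
  have hsH : 0 < √H := sqrt_pos.2 hH
  have key : ∀ s ∈ Ioi H, (2 * (√H * H / H ^ n)) *
      ((√((s - H) / H)) ^ 2 / (1 + (√((s - H) / H)) ^ 2) ^ n / (2 * √((s - H) / H) * H))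
      = 1 / s ^ n * √(s - H) := by
    intro s hs
    have hs' : H < s := hs
    have hs0 : 0 < s := hH.trans hs'
    have hq : 0 < (s - H) / H := div_pos (by linarith) hH
    have h1 : 0 < √((s - H) / H) := sqrt_pos.2 hq
    have h2 : √((s - H) / H) ^ 2 = (s - H) / H := sq_sqrt hq.le
    have h3 : √(s - H) = √H * √((s - H) / H) := by
      rw [← sqrt_mul hH.le]
      congr 1
      field_simp
    have h4 : 1 + √((s - H) / H) ^ 2 = s / H := by rw [h2]; field_simp; ring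
    rw [h4, h3, div_pow]
    field_simp
  refine ⟨(IntegrableOn.congr_fun (i.const_mul (2 * (√H * H / H ^ n))) key measurableSet_Ioi), ?_⟩
  rw [← setIntegral_congr_fun measurableSet_Ioi key, integral_const_mul, e]
  ring

lemma tend0 (k : ℕ) : Tendsto (fun t : ℝ => t / (1 + t ^ 2) ^ (k + 1)) atTop (𝓝 0) := by
  refine squeeze_zero' ?_ ?_ (tendsto_inv_atTop_zero (𝕜 := ℝ))
  · filter_upwards [eventually_gt_atTop 0] with t ht
    positivity
  · filter_upwards [eventually_gt_atTop 0] with t ht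
    rw [← one_div, div_le_div_iff₀ (by positivity) ht]
    have h1 : 1 ≤ (1 + t ^ 2) ^ k := one_le_pow₀ (by nlinarith)
    calc t * t ≤ 1 + t ^ 2 := by nlinarith
      _ = 1 * (1 * (1 + t ^ 2)) := by ring
      _ ≤ 1 * ((1 + t ^ 2) ^ k * (1 + t ^ 2)) := by gcongr
      _ = _ := by rw [pow_succ (1 + t ^ 2) k]

lemma tend_arctan : Tendsto arctan atTop (𝓝 (π / 2)) :=
  tendsto_arctan_atTop.mono_right nhdsWithin_le_nhds

def bb (n : ℕ) : ℝ := if n = 2 then π / 2 else if n = 3 then π / 8 else π / 16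

lemma hasDerivAt_frac (k : ℕ) (t : ℝ) : HasDerivAt (fun t : ℝ => t / (1 + t ^ 2) ^ (k + 1))
    (1 / (1 + t ^ 2) ^ (k + 1) - 2 * (k + 1) * t ^ 2 / (1 + t ^ 2) ^ (k + 2)) t := by
  have hp : 0 < 1 + t ^ 2 := by positivity
  have d1 : HasDerivAt (fun t : ℝ => 1 + t ^ 2) (2 * t) t :=
    ((hasDerivAt_pow 2 t).const_add 1).congr_deriv (by norm_num)
  have d2 := d1.pow (k + 1)
  refine ((hasDerivAt_id t).div d2 (by simp only [Pi.pow_apply]; positivity)).congr_deriv ?_
  simp only [Pi.pow_apply, id, Nat.add_sub_cancel]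
  push_cast
  field_simp
  ring

lemma int_all (n : ℕ) (hn : n = 2 ∨ n = 3 ∨ n = 4) {H : ℝ} (hH : 0 < H) :
    IntegrableOn (fun s => 1 / s ^ n * √(s - H)) (Ioi H) ∧
    ∫ s in Ioi H, 1 / s ^ n * √(s - H) = bb n * (√H * H / H ^ n) := by
  rcases hn with rfl | rfl | rfl
  · have hF : ∀ t : ℝ, HasDerivAt (fun t => 1 / 2 * (arctan t - t / (1 + t ^ 2) ^ (0 + 1)))
        (t ^ 2 / (1 + t ^ 2) ^ 2) t := by
      intro t
      refine (((hasDerivAt_arctan t).sub (hasDerivAt_frac 0 t)).const_mul (1 / 2)).congr_deriv ?_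
      have hp : 0 < 1 + t ^ 2 := by positivity
      push_cast
      field_simp
      ring
    have hl : Tendsto (fun t => 1 / 2 * (arctan t - t / (1 + t ^ 2) ^ (0 + 1))) atTop
        (𝓝 (1 / 2 * (π / 2 - 0))) := (tend_arctan.sub (tend0 0)).const_mul _
    obtain ⟨i, e⟩ := int_n 2 hH hF (by simp) hl
    refine ⟨i, e.trans ?_⟩
    unfold bb
    rw [if_pos rfl]
    ring
  · have hF : ∀ t : ℝ, HasDerivAt (fun t => 1 / 8 * (arctan t + t / (1 + t ^ 2) ^ (0 + 1)
        - 2 * (t / (1 + t ^ 2) ^ (1 + 1)))) (t ^ 2 / (1 + t ^ 2) ^ 3) t := by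
      intro t
      refine ((((hasDerivAt_arctan t).add (hasDerivAt_frac 0 t)).sub
        ((hasDerivAt_frac 1 t).const_mul 2)).const_mul (1 / 8)).congr_deriv ?_
      have hp : 0 < 1 + t ^ 2 := by positivity
      push_cast
      field_simp
      ring
    have hl : Tendsto (fun t => 1 / 8 * (arctan t + t / (1 + t ^ 2) ^ (0 + 1)
        - 2 * (t / (1 + t ^ 2) ^ (1 + 1)))) atTop
        (𝓝 (1 / 8 * (π / 2 + 0 - 2 * 0))) :=
      ((tend_arctan.add (tend0 0)).sub ((tend0 1).const_mul 2)).const_mul _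
    obtain ⟨i, e⟩ := int_n 3 hH hF (by simp) hl
    refine ⟨i, e.trans ?_⟩
    unfold bb
    rw [if_neg (by norm_num), if_pos rfl]
    ring
  · have hF : ∀ t : ℝ, HasDerivAt (fun t => 1 / 16 * arctan t + 1 / 16 * (t / (1 + t ^ 2) ^ (0 + 1))
        + 1 / 24 * (t / (1 + t ^ 2) ^ (1 + 1)) - 1 / 6 * (t / (1 + t ^ 2) ^ (2 + 1)))
        (t ^ 2 / (1 + t ^ 2) ^ 4) t := by
      intro t
      refine (((((hasDerivAt_arctan t).const_mul (1 / 16)).add
        ((hasDerivAt_frac 0 t).const_mul (1 / 16))).add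
        ((hasDerivAt_frac 1 t).const_mul (1 / 24))).sub
        ((hasDerivAt_frac 2 t).const_mul (1 / 6))).congr_deriv ?_
      have hp : 0 < 1 + t ^ 2 := by positivity
      push_cast
      field_simp
      ring
    have hl : Tendsto (fun t => 1 / 16 * arctan t + 1 / 16 * (t / (1 + t ^ 2) ^ (0 + 1))
        + 1 / 24 * (t / (1 + t ^ 2) ^ (1 + 1)) - 1 / 6 * (t / (1 + t ^ 2) ^ (2 + 1))) atTop
        (𝓝 (1 / 16 * (π / 2) + 1 / 16 * 0 + 1 / 24 * 0 - 1 / 6 * 0)) :=
      (((tend_arctan.const_mul _).add ((tend0 0).const_mul _)).add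
        ((tend0 1).const_mul _)).sub ((tend0 2).const_mul _)
    obtain ⟨i, e⟩ := int_n 4 hH hF (by simp) hl
    refine ⟨i, e.trans ?_⟩
    unfold bb
    rw [if_neg (by norm_num), if_neg (by norm_num)]
    ring

lemma int_inv {H : ℝ} (hH : 0 < H) :
    IntegrableOn (fun s => 1 / (s * √(s - H))) (Ioi H) ∧
    ∫ s in Ioi H, 1 / (s * √(s - H)) = π / √H := by
  obtain ⟨i, e⟩ := sub_H hH (fun t => hasDerivAt_arctan t) (fun t _ => by positivity)
    arctan_zero tend_arctan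
  have hsH : 0 < √H := sqrt_pos.2 hH
  have key : ∀ s ∈ Ioi H, (2 / √H) * (1 / (1 + (√((s - H) / H)) ^ 2) / (2 * √((s - H) / H) * H))
      = 1 / (s * √(s - H)) := by
    intro s hs
    have hs' : H < s := hs
    have hs0 : 0 < s := hH.trans hs'
    have hq : 0 < (s - H) / H := div_pos (by linarith) hH
    have h1 : 0 < √((s - H) / H) := sqrt_pos.2 hq
    have h2 : √((s - H) / H) ^ 2 = (s - H) / H := sq_sqrt hq.le
    have h3 : √(s - H) = √H * √((s - H) / H) := by
      rw [← sqrt_mul hH.le]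
      congr 1
      field_simp
    have h4 : 1 + √((s - H) / H) ^ 2 = s / H := by rw [h2]; field_simp; ring
    rw [h4, h3]
    field_simp
  refine ⟨(IntegrableOn.congr_fun (i.const_mul (2 / √H)) key measurableSet_Ioi), ?_⟩
  rw [← setIntegral_congr_fun measurableSet_Ioi key, integral_const_mul, e]
  ring

/-- the weight `√(s + y₀)` -/
lemma w_bounds {H y0 s : ℝ} (hH : 1 ≤ H) (hy : |H + y0 - 1| ≤ 1 / 2) (hs : H < s) :
    √(s - H) ≤ √(s + y0) ∧ √(s + y0) ≤ √(s - H) + 3 ∧ √(s + y0) ≤ 2 * √(1 + (s - H)) ∧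
      √(s + y0) ≤ 2 * √s := by
  obtain ⟨h1, h2⟩ := abs_le.1 hy
  have hd : 0 < s - H := by linarith
  refine ⟨sqrt_le_sqrt (by linarith), ?_, ?_, ?_⟩
  · rw [sqrt_le_left (by positivity)]
    have := sq_sqrt hd.le
    have := sqrt_nonneg (s - H)
    nlinarith
  · rw [sqrt_le_left (by positivity), mul_pow, sq_sqrt (by linarith)]
    linarith
  · rw [sqrt_le_left (by positivity), mul_pow, sq_sqrt (by linarith)]
    linarith

lemma int_pow {H : ℝ} (hH : 0 < H) (n : ℕ) (hn : 2 ≤ n) :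
    IntegrableOn (fun s : ℝ => 1 / s ^ n) (Ioi H) ∧ ∫ s in Ioi H, 1 / s ^ n ≤ H / H ^ n := by
  have hn' : (2 : ℝ) ≤ n := by exact_mod_cast hn
  have i := integrableOn_Ioi_rpow_of_lt (a := -(n : ℝ)) (by linarith) hH
  have e : ∀ s ∈ Ioi H, s ^ (-(n : ℝ)) = 1 / s ^ n := by
    intro s hs
    have hs0 : 0 < s := hH.trans hs
    rw [rpow_neg hs0.le, rpow_natCast, one_div]
  refine ⟨IntegrableOn.congr_fun i e measurableSet_Ioi, ?_⟩
  rw [← setIntegral_congr_fun measurableSet_Ioi e, integral_Ioi_rpow_of_lt (by linarith) hH]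
  have e2 : H ^ (-(n : ℝ) + 1) = H / H ^ n := by
    rw [rpow_add hH, rpow_neg hH.le, rpow_natCast, rpow_one]
    field_simp
  rw [e2, neg_div, ← div_neg]
  have h3 : 1 ≤ -(-(n : ℝ) + 1) := by linarith
  exact div_le_self (by positivity) h3

lemma int_w (n : ℕ) (hn : n = 2 ∨ n = 3 ∨ n = 4) {H y0 : ℝ} (hH : 1 ≤ H)
    (hy : |H + y0 - 1| ≤ 1 / 2) :
    IntegrableOn (fun s => 1 / s ^ n * √(s + y0)) (Ioi H) ∧
    |(∫ s in Ioi H, 1 / s ^ n * √(s + y0)) - bb n * (√H * H / H ^ n)| ≤ 3 * (H / H ^ n) := by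
  have hH0 : 0 < H := by linarith
  have hn2 : 2 ≤ n := by omega
  obtain ⟨i1, e1⟩ := int_all n hn hH0
  obtain ⟨i2, e2⟩ := int_pow hH0 n hn2
  have hb : ∀ s ∈ Ioi H, 1 / s ^ n * √(s + y0) ≤ 1 / s ^ n * √(s - H) + 3 * (1 / s ^ n) := by
    intro s hs
    have hs0 : 0 < s := hH0.trans hs
    obtain ⟨-, h2, -, -⟩ := w_bounds hH hy hs
    calc 1 / s ^ n * √(s + y0) ≤ 1 / s ^ n * (√(s - H) + 3) := by gcongr
      _ = _ := by ring
  have i3 : IntegrableOn (fun s => 1 / s ^ n * √(s - H) + 3 * (1 / s ^ n)) (Ioi H) :=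
    i1.add (i2.const_mul 3)
  have i : IntegrableOn (fun s => 1 / s ^ n * √(s + y0)) (Ioi H) := by
    refine Integrable.mono' i3 ?_ ?_
    · exact (by fun_prop : Measurable (fun s : ℝ => 1 / s ^ n * √(s + y0))).aestronglyMeasurable
    · filter_upwards [ae_restrict_mem measurableSet_Ioi] with s hs
      have hs0 : 0 < s := hH0.trans hs
      rw [Real.norm_eq_abs, abs_of_nonneg (by positivity)]
      exact hb s hs
  refine ⟨i, ?_⟩
  rw [← e1, ← integral_sub i i1, ← Real.norm_eq_abs]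
  refine (norm_integral_le_of_norm_le (i2.const_mul 3) ?_).trans ?_
  · filter_upwards [ae_restrict_mem measurableSet_Ioi] with s hs
    have hs0 : 0 < s := hH0.trans hs
    obtain ⟨h1, h2, -, -⟩ := w_bounds hH hy hs
    have h3 := hb s hs
    have h4 : 1 / s ^ n * √(s - H) ≤ 1 / s ^ n * √(s + y0) := by gcongr
    rw [Real.norm_eq_abs, abs_of_nonneg (by linarith)]
    linarith
  · rw [integral_const_mul]
    gcongr

end Pool.Agent.Lib.MP_85963d_gt.H31
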