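import Pool.Agent.Lib.MP_85963d_gt.H31.AsyF
import Pool.Agent.Lib.MP_85963d_gt.H70.Cut

/-! Asymptotics of `N_k(D_j)` (Paper (10.6)): expansion of `N`. -/

set_option autoImplicit false
open Set MeasureTheory Real Filter Topology

noncomputable section
namespace Pool.Agent.Lib.MP_85963d_gt.H31

/-- the error function is integrable against the weight; `H = r^4`, `β = 1/r^5`. -/
lemma EE_w {r s y0 : ℝ} (hr : 1 ≤ r) (hs : r ^ 4 < s) (hy : |r ^ 4 + y0 - 1| ≤ 1 / 2) :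
    0 ≤ EE (1 / r ^ 5) (r ^ 4) s ∧
    1 / s * √(s + y0) * EE (1 / r ^ 5) (r ^ 4) s ≤ 10 / r ^ 7 * (1 / (s * √(s - r ^ 4))) := by
  have hr0 : 0 < r := by linarith
  have hH : 1 ≤ r ^ 4 := one_le_pow₀ hr
  have hs0 : 0 < s := by linarith
  have hs1 : 1 < s := by linarith
  obtain ⟨-, -, hw1, hw2⟩ := w_bounds hH hy hs
  set d := s - r ^ 4 with hd
  have hd0 : 0 < d := by rw [hd]; linarith
  set w := √(s + y0) with hw
  have hw0 : 0 ≤ w := sqrt_nonneg _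
  have hsd : 0 < √d := sqrt_pos.2 hd0
  have hss : 0 < √s := sqrt_pos.2 hs0
  have hs1d : 0 < √(1 + d) := sqrt_pos.2 (by linarith)
  have e1 : √s * √s = s := mul_self_sqrt hs0.le
  have e2 : √(1 + d) * √(1 + d) = 1 + d := mul_self_sqrt (by linarith)
  have hds : √d ≤ √s := sqrt_le_sqrt (by rw [hd]; linarith)
  have hd1 : √d ≤ √(1 + d) := sqrt_le_sqrt (by linarith)
  have hr2s : r ^ 2 ≤ √s := by
    apply Real.le_sqrt_of_sq_le
    calc (r ^ 2) ^ 2 = r ^ 4 := by ring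
      _ ≤ s := hs.le
  have hHp : (r ^ 4) ^ (-(3 / 4) : ℝ) = 1 / r ^ 3 := by
    rw [← rpow_natCast, ← rpow_mul hr0.le]
    norm_num
  have hsp : s ^ (-(7 / 4) : ℝ) ≤ 1 / r ^ 7 := by
    have h1 : s ^ (-(7 / 4) : ℝ) ≤ (r ^ 4) ^ (-(7 / 4) : ℝ) :=
      rpow_le_rpow_of_nonpos (by positivity) hs.le (by norm_num)
    refine h1.trans (le_of_eq ?_)
    rw [← rpow_natCast, ← rpow_mul hr0.le]
    norm_num
  have hsp0 : 0 ≤ s ^ (-(7 / 4) : ℝ) := rpow_nonneg hs0.le _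
  set c := 1 / (s * √d) with hc
  have hc0 : 0 < c := by positivity
  have b0 : 1 / r ^ 8 ≤ 1 / r ^ 7 := by
    apply one_div_le_one_div_of_le (by positivity)
    exact pow_le_pow_right₀ hr (by norm_num)
  have b0' : 1 / r ^ 10 ≤ 1 / r ^ 7 := by
    apply one_div_le_one_div_of_le (by positivity)
    exact pow_le_pow_right₀ hr (by norm_num)
  have b0'' : 1 / r ^ 9 ≤ 1 / r ^ 7 := by
    apply one_div_le_one_div_of_le (by positivity)
    exact pow_le_pow_right₀ hr (by norm_num)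
  have hinv : 1 / s ≤ 1 / r ^ 4 := one_div_le_one_div_of_le (by positivity) hs.le
  have hq : √(1 + d) * (1 / (1 + d)) = 1 / √(1 + d) := by
    rw [mul_one_div, div_eq_div_iff (by linarith) hs1d.ne', e2, one_mul]
  -- the five terms
  have t1 : 1 / s * w * (1 / r ^ 3 / s ^ 2) ≤ 2 / r ^ 7 * c := by
    calc 1 / s * w * (1 / r ^ 3 / s ^ 2) ≤ 1 / s * (2 * √s) * (1 / r ^ 3 / s ^ 2) := by gcongr
      _ = 2 * (1 / r ^ 3) * (1 / s) * (1 / (s * √s)) := by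
          have : s ^ 2 = s * (√s * √s) := by rw [e1]; ring
          rw [this]
          field_simp
      _ ≤ 2 * (1 / r ^ 3) * (1 / r ^ 4) * (1 / (s * √d)) := by gcongr
      _ = _ := by rw [hc]; ring
  have t2 : 1 / s * w * (s ^ (-(7 / 4) : ℝ) / (1 + d)) ≤ 2 / r ^ 7 * c := by
    calc 1 / s * w * (s ^ (-(7 / 4) : ℝ) / (1 + d))
        ≤ 1 / s * (2 * √(1 + d)) * (1 / r ^ 7 / (1 + d)) := by gcongr
      _ = 2 * (1 / r ^ 7) * (1 / s) * (√(1 + d) * (1 / (1 + d))) := by ring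
      _ = 2 * (1 / r ^ 7) * (1 / (s * √(1 + d))) := by
          rw [hq]
          field_simp
      _ ≤ 2 * (1 / r ^ 7) * (1 / (s * √d)) := by gcongr
      _ = _ := by rw [hc]; ring
  have t3 : 1 / s * w * (1 / r ^ 5 * (√s / s ^ 2)) ≤ 2 / r ^ 7 * c := by
    calc 1 / s * w * (1 / r ^ 5 * (√s / s ^ 2))
        ≤ 1 / s * (2 * √s) * (1 / r ^ 5 * (√s / s ^ 2)) := by gcongr
      _ = 2 * (1 / r ^ 5) * (1 / √s) * (1 / (s * √s)) := by
          have : s ^ 2 = (√s * √s) * (√s * √s) := by rw [e1]; ring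
          rw [this]
          field_simp
      _ ≤ 2 * (1 / r ^ 5) * (1 / r ^ 2) * (1 / (s * √d)) := by gcongr
      _ = _ := by rw [hc]; ring
  have t4 : 1 / s * w * ((1 / r ^ 5) ^ 2 / s) ≤ 2 / r ^ 7 * c := by
    calc 1 / s * w * ((1 / r ^ 5) ^ 2 / s) ≤ 1 / s * (2 * √s) * ((1 / r ^ 5) ^ 2 / s) := by gcongr
      _ = 2 * (1 / r ^ 10) * (1 / (s * √s)) := by
          have h1 : (1 / r ^ 5) ^ 2 = 1 / r ^ 10 := by ring
          rw [h1]
          have : (1 / r ^ 10) / s = (1 / r ^ 10) / (√s * √s) := by rw [e1]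
          rw [this]
          field_simp
      _ ≤ 2 * (1 / r ^ 7) * (1 / (s * √d)) := by gcongr
      _ = _ := by rw [hc]; ring
  have t5 : 1 / s * w * (1 / r ^ 5 * (1 / (s * (1 + d)))) ≤ 2 / r ^ 7 * c := by
    calc 1 / s * w * (1 / r ^ 5 * (1 / (s * (1 + d))))
        ≤ 1 / s * (2 * √(1 + d)) * (1 / r ^ 5 * (1 / (s * (1 + d)))) := by gcongr
      _ = 2 * (1 / r ^ 5) * (1 / s) * (1 / s) * (√(1 + d) * (1 / (1 + d))) := by
          rw [← one_div_mul_one_div]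
          ring
      _ = 2 * (1 / r ^ 5) * (1 / s) * (1 / (s * √(1 + d))) := by
          rw [hq]
          field_simp
      _ ≤ 2 * (1 / r ^ 5) * (1 / r ^ 4) * (1 / (s * √d)) := by gcongr
      _ = 2 * (1 / r ^ 9) * (1 / (s * √d)) := by ring
      _ ≤ 2 * (1 / r ^ 7) * (1 / (s * √d)) := by gcongr
      _ = _ := by rw [hc]; ring
  unfold EE
  rw [hHp, ← hd]
  refine ⟨by positivity, ?_⟩
  calc 1 / s * w * (1 / r ^ 3 / s ^ 2 + s ^ (-(7 / 4) : ℝ) / (1 + d) + 1 / r ^ 5 * (√s / s ^ 2)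
        + (1 / r ^ 5) ^ 2 / s + 1 / r ^ 5 * (1 / (s * (1 + d))))
      = 1 / s * w * (1 / r ^ 3 / s ^ 2) + 1 / s * w * (s ^ (-(7 / 4) : ℝ) / (1 + d))
        + 1 / s * w * (1 / r ^ 5 * (√s / s ^ 2)) + 1 / s * w * ((1 / r ^ 5) ^ 2 / s)
        + 1 / s * w * (1 / r ^ 5 * (1 / (s * (1 + d)))) := by ring
    _ ≤ 2 / r ^ 7 * c + 2 / r ^ 7 * c + 2 / r ^ 7 * c + 2 / r ^ 7 * c + 2 / r ^ 7 * c := by
        gcongr
    _ = _ := by ring

/-- expansion of `NN`. -/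
theorem NN_expand {r y0 C M L : ℝ} (hr : 1 ≤ r) (hy : |r ^ 4 + y0 - 1| ≤ 1 / 2) (hC : 0 ≤ C)
    {D : ℝ → ℝ} (hDm : AEStronglyMeasurable D (volume.restrict (Ioi (r ^ 4))))
    (hD : ∀ s, r ^ 4 < s → |D s - (M / s ^ 2 + L / s)| ≤ C * EE (1 / r ^ 5) (r ^ 4) s)
    (j : ℕ) (hj : j = 1 ∨ j = 2) :
    |H70.NN y0 (r ^ 4) j D - (M * bb (j + 2) * (r ^ 6 / (r ^ 4) ^ (j + 2))
        + L * bb (j + 1) * (r ^ 6 / (r ^ 4) ^ (j + 1)))|
      ≤ 3 * |M| * (r ^ 4 / (r ^ 4) ^ (j + 2)) + 3 * |L| * (r ^ 4 / (r ^ 4) ^ (j + 1))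
        + C * (40 / (r ^ 9 * (r ^ 4) ^ (j - 1))) := by
  have hr0 : 0 < r := by linarith
  have hH : 1 ≤ r ^ 4 := one_le_pow₀ hr
  have hH0 : 0 < r ^ 4 := by linarith
  have hsq : √(r ^ 4) = r ^ 2 := by
    rw [show r ^ 4 = (r ^ 2) ^ 2 by ring, sqrt_sq (by positivity)]
  obtain ⟨i1, e1⟩ := int_w (j + 2) (by omega) hH hy
  obtain ⟨i2, e2⟩ := int_w (j + 1) (by omega) hH hy
  obtain ⟨i3, e3⟩ := int_inv hH0
  have h6 : √(r ^ 4) * r ^ 4 = r ^ 6 := by rw [hsq]; ring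
  rw [h6] at e1 e2
  rw [hsq] at e3
  -- main part
  set mn : ℝ → ℝ := fun s => M * (1 / s ^ (j + 2) * √(s + y0)) + L * (1 / s ^ (j + 1) * √(s + y0))
    with hmn
  have imn : IntegrableOn mn (Ioi (r ^ 4)) := (i1.const_mul M).add (i2.const_mul L)
  have hmn' : ∀ s ∈ Ioi (r ^ 4), mn s = 1 / s ^ j * √(s + y0) * (M / s ^ 2 + L / s) := by
    intro s hs
    have hs0 : 0 < s := hH0.trans hs
    rw [hmn]
    simp only
    rw [pow_add, pow_succ s j]
    field_simp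
  have hcj : 0 < (r ^ 4) ^ (j - 1) := by positivity
  have hbd : ∀ s ∈ Ioi (r ^ 4), ‖1 / s ^ j * √(s + y0) * D s - mn s‖
      ≤ C / (r ^ 4) ^ (j - 1) * (10 / r ^ 7) * (1 / (s * √(s - r ^ 4))) := by
    intro s hs
    have hs0 : 0 < s := hH0.trans hs
    obtain ⟨n1, n2⟩ := EE_w hr hs hy
    rw [hmn' s hs, ← mul_sub, norm_mul, Real.norm_eq_abs, Real.norm_eq_abs,
      abs_of_nonneg (by positivity : 0 ≤ 1 / s ^ j * √(s + y0))]
    have h1 : 1 / s ^ j ≤ 1 / (r ^ 4) ^ (j - 1) * (1 / s) := by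
      have : s ^ j = s ^ (j - 1) * s := by
        rw [← pow_succ]; congr 1; omega
      rw [this, one_div_mul_one_div]
      apply one_div_le_one_div_of_le (by positivity)
      gcongr
      exact le_of_lt hs
    calc 1 / s ^ j * √(s + y0) * |D s - (M / s ^ 2 + L / s)|
        ≤ (1 / (r ^ 4) ^ (j - 1) * (1 / s)) * √(s + y0) * (C * EE (1 / r ^ 5) (r ^ 4) s) := by
          gcongr
          exact hD s hs
      _ = C / (r ^ 4) ^ (j - 1) * (1 / s * √(s + y0) * EE (1 / r ^ 5) (r ^ 4) s) := by ring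
      _ ≤ C / (r ^ 4) ^ (j - 1) * (10 / r ^ 7 * (1 / (s * √(s - r ^ 4)))) := by gcongr
      _ = _ := by ring
  have ig : IntegrableOn (fun s => C / (r ^ 4) ^ (j - 1) * (10 / r ^ 7) * (1 / (s * √(s - r ^ 4))))
      (Ioi (r ^ 4)) := i3.const_mul _
  have mD : AEStronglyMeasurable (fun s => 1 / s ^ j * √(s + y0) * D s)
      (volume.restrict (Ioi (r ^ 4))) :=
    (by fun_prop : Measurable fun s : ℝ => 1 / s ^ j * √(s + y0)).aestronglyMeasurable.mul hDm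
  have idiff : IntegrableOn (fun s => 1 / s ^ j * √(s + y0) * D s - mn s) (Ioi (r ^ 4)) := by
    refine Integrable.mono' ig (mD.sub imn.aestronglyMeasurable) ?_
    filter_upwards [ae_restrict_mem measurableSet_Ioi] with s hs
    exact hbd s hs
  have hN : H70.NN y0 (r ^ 4) j D = (∫ s in Ioi (r ^ 4), (1 / s ^ j * √(s + y0) * D s - mn s))
      + ∫ s in Ioi (r ^ 4), mn s := by
    rw [← integral_add idiff imn]
    unfold H70.NN
    congr 1
    funext s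
    ring
  have hI : |∫ s in Ioi (r ^ 4), (1 / s ^ j * √(s + y0) * D s - mn s)|
      ≤ C * (40 / (r ^ 9 * (r ^ 4) ^ (j - 1))) := by
    rw [← Real.norm_eq_abs]
    refine (norm_integral_le_of_norm_le ig ?_).trans ?_
    · filter_upwards [ae_restrict_mem measurableSet_Ioi] with s hs
      exact hbd s hs
    · rw [integral_const_mul, e3]
      calc C / (r ^ 4) ^ (j - 1) * (10 / r ^ 7) * (π / r ^ 2)
          = C * ((10 * π) / (r ^ 9 * (r ^ 4) ^ (j - 1))) := by field_simp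
        _ ≤ C * (40 / (r ^ 9 * (r ^ 4) ^ (j - 1))) := by
            gcongr
            linarith [pi_le_four]
  have hmI : ∫ s in Ioi (r ^ 4), mn s = M * (∫ s in Ioi (r ^ 4), 1 / s ^ (j + 2) * √(s + y0))
      + L * ∫ s in Ioi (r ^ 4), 1 / s ^ (j + 1) * √(s + y0) := by
    rw [← integral_const_mul, ← integral_const_mul]
    exact integral_add (i1.const_mul M) (i2.const_mul L)
  rw [hN, hmI]
  set I0 := ∫ s in Ioi (r ^ 4), (1 / s ^ j * √(s + y0) * D s - mn s)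
  set I1 := ∫ s in Ioi (r ^ 4), 1 / s ^ (j + 2) * √(s + y0)
  set I2 := ∫ s in Ioi (r ^ 4), 1 / s ^ (j + 1) * √(s + y0)
  have e : I0 + (M * I1 + L * I2) - (M * bb (j + 2) * (r ^ 6 / (r ^ 4) ^ (j + 2))
        + L * bb (j + 1) * (r ^ 6 / (r ^ 4) ^ (j + 1)))
      = M * (I1 - bb (j + 2) * (r ^ 6 / (r ^ 4) ^ (j + 2)))
        + L * (I2 - bb (j + 1) * (r ^ 6 / (r ^ 4) ^ (j + 1))) + I0 := by ring
  rw [e]
  refine (abs_add_three _ _ _).trans ?_
  rw [abs_mul, abs_mul]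
  calc |M| * |I1 - bb (j + 2) * (r ^ 6 / (r ^ 4) ^ (j + 2))|
        + |L| * |I2 - bb (j + 1) * (r ^ 6 / (r ^ 4) ^ (j + 1))| + |I0|
      ≤ |M| * (3 * (r ^ 4 / (r ^ 4) ^ (j + 2))) + |L| * (3 * (r ^ 4 / (r ^ 4) ^ (j + 1)))
        + C * (40 / (r ^ 9 * (r ^ 4) ^ (j - 1))) := by gcongr
    _ = _ := by ring

/-- the sign of the determinant. -/
lemma final_sign (M J A : ℝ) (hMJ : M * J ≠ 0) (hA : 0 ≤ A) :
    ∃ r₀ : ℝ, 1 ≤ r₀ ∧ ∀ r, r₀ ≤ r → ∀ X1 X2 Y1 Y2 : ℝ,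
      |X1 * r ^ 6 - M * bb 3| ≤ A / r → |X2 * r ^ 10 - M * bb 4| ≤ A / r →
      |Y1 * r ^ 7 - J * bb 2| ≤ A / r → |Y2 * r ^ 11 - J * bb 3| ≤ A / r →
      M * J * (X1 * Y2 - Y1 * X2) < 0 := by
  have hb2 : bb 2 = π / 2 := by unfold bb; rw [if_pos rfl]
  have hb3 : bb 3 = π / 8 := by unfold bb; rw [if_neg (by norm_num), if_pos rfl]
  have hb4 : bb 4 = π / 16 := by unfold bb; rw [if_neg (by norm_num), if_neg (by norm_num)]
  have hpi := pi_pos
  have hpi4 := pi_le_four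
  set c := (M * J) ^ 2 * (π ^ 2 / 64) with hc
  have hc0 : 0 < c := by
    have : 0 < (M * J) ^ 2 := by positivity
    positivity
  set T := |M * J| * (A * (2 * |M| + 2 * |J| + A) * 2) with hT
  have hT0 : 0 ≤ T := by positivity
  refine ⟨max 1 (T / c + 1), le_max_left _ _, ?_⟩
  intro r hr X1 X2 Y1 Y2 h1 h2 h3 h4
  have hr1 : 1 ≤ r := (le_max_left _ _).trans hr
  have hr0 : 0 < r := by linarith
  have hrT : T / c + 1 ≤ r := (le_max_right _ _).trans hr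
  have hTr : T / r < c := by
    rw [div_lt_iff₀ hr0]
    have : T / c < r := by linarith
    rw [div_lt_iff₀ hc0] at this
    linarith
  set ε1 := X1 * r ^ 6 - M * bb 3 with he1
  set ε2 := X2 * r ^ 10 - M * bb 4 with he2
  set ε3 := Y1 * r ^ 7 - J * bb 2 with he3
  set ε4 := Y2 * r ^ 11 - J * bb 3 with he4
  have hAr : A / r ≤ A := div_le_self hA hr1
  have key : M * J * (X1 * Y2 - Y1 * X2) * r ^ 17
      = -c + M * J * (M * bb 3 * ε4 + ε1 * (J * bb 3) + ε1 * ε4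
          - (M * bb 4 * ε3 + ε2 * (J * bb 2) + ε2 * ε3)) := by
    have x1 : X1 * r ^ 6 = M * bb 3 + ε1 := by rw [he1]; ring
    have x2 : X2 * r ^ 10 = M * bb 4 + ε2 := by rw [he2]; ring
    have y1 : Y1 * r ^ 7 = J * bb 2 + ε3 := by rw [he3]; ring
    have y2 : Y2 * r ^ 11 = J * bb 3 + ε4 := by rw [he4]; ring
    calc M * J * (X1 * Y2 - Y1 * X2) * r ^ 17
        = M * J * ((X1 * r ^ 6) * (Y2 * r ^ 11) - (Y1 * r ^ 7) * (X2 * r ^ 10)) := by ring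
      _ = M * J * ((M * bb 3 + ε1) * (J * bb 3 + ε4) - (J * bb 2 + ε3) * (M * bb 4 + ε2)) := by
          rw [x1, x2, y1, y2]
      _ = _ := by rw [hc, hb2, hb3, hb4]; ring
  have hb3' : |bb 3| ≤ 1 := by rw [hb3, abs_of_pos (by positivity)]; linarith
  have hb4' : |bb 4| ≤ 1 := by rw [hb4, abs_of_pos (by positivity)]; linarith
  have hb2' : |bb 2| ≤ 2 := by rw [hb2, abs_of_pos (by positivity)]; linarith
  have hAr0 : 0 ≤ A / r := by positivity
  have b1 : |M * bb 3 * ε4| ≤ |M| * (A / r) := by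
    rw [abs_mul, abs_mul]
    calc |M| * |bb 3| * |ε4| ≤ |M| * 1 * (A / r) := by gcongr
      _ = _ := by ring
  have b2 : |ε1 * (J * bb 3)| ≤ |J| * (A / r) := by
    rw [abs_mul, abs_mul]
    calc |ε1| * (|J| * |bb 3|) ≤ (A / r) * (|J| * 1) := by gcongr
      _ = _ := by ring
  have b3 : |ε1 * ε4| ≤ A * (A / r) := by
    rw [abs_mul]
    gcongr
    exact h1.trans hAr
  have b4 : |M * bb 4 * ε3| ≤ |M| * (A / r) := by
    rw [abs_mul, abs_mul]
    calc |M| * |bb 4| * |ε3| ≤ |M| * 1 * (A / r) := by gcongr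
      _ = _ := by ring
  have b5 : |ε2 * (J * bb 2)| ≤ 2 * |J| * (A / r) := by
    rw [abs_mul, abs_mul]
    calc |ε2| * (|J| * |bb 2|) ≤ (A / r) * (|J| * 2) := by gcongr
      _ = _ := by ring
  have b6 : |ε2 * ε3| ≤ A * (A / r) := by
    rw [abs_mul]
    gcongr
    exact h2.trans hAr
  have hsum : |M * bb 3 * ε4 + ε1 * (J * bb 3) + ε1 * ε4
          - (M * bb 4 * ε3 + ε2 * (J * bb 2) + ε2 * ε3)|
      ≤ (2 * |M| + 2 * |J| + A) * 2 * (A / r) := by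
    have a1 := abs_le.1 b1
    have a2 := abs_le.1 b2
    have a3 := abs_le.1 b3
    have a4 := abs_le.1 b4
    have a5 := abs_le.1 b5
    have a6 := abs_le.1 b6
    have n1 : 0 ≤ |M| * (A / r) := by positivity
    have n2 : 0 ≤ |J| * (A / r) := by positivity
    rw [abs_le]
    constructor <;> linarith
  have hfin : |M * J * (M * bb 3 * ε4 + ε1 * (J * bb 3) + ε1 * ε4
          - (M * bb 4 * ε3 + ε2 * (J * bb 2) + ε2 * ε3))| ≤ T / r := by
    rw [abs_mul]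
    calc |M * J| * |M * bb 3 * ε4 + ε1 * (J * bb 3) + ε1 * ε4
          - (M * bb 4 * ε3 + ε2 * (J * bb 2) + ε2 * ε3)|
        ≤ |M * J| * ((2 * |M| + 2 * |J| + A) * 2 * (A / r)) := by gcongr
      _ = _ := by rw [hT]; ring
  have hneg : M * J * (X1 * Y2 - Y1 * X2) * r ^ 17 < 0 := by
    rw [key]
    have := le_abs_self (M * J * (M * bb 3 * ε4 + ε1 * (J * bb 3) + ε1 * ε4
          - (M * bb 4 * ε3 + ε2 * (J * bb 2) + ε2 * ε3)))
    linarith
  have hr17 : 0 < r ^ 17 := by positivity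
  by_contra hcon
  rw [not_lt] at hcon
  exact absurd hneg (not_lt.2 (mul_nonneg hcon hr17.le))

end Pool.Agent.Lib.MP_85963d_gt.H31
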