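import Pool.Agent.Lib.MP_85963d_gt.H31.Decay
import Pool.Agent.Lib.MP_85963d_gt.H87.Wronskian

/-! Bridge: every solution of the cylinder equation (in the sense of `H87/Wronskian.lean`)
decays like `X^(-7/4)`. -/

set_option autoImplicit false
open Set MeasureTheory Real

namespace Pool.Agent.Lib.MP_85963d_gt.H31

theorem decay_of_cylSol {G : ℝ → ℝ} (h : H87.CylSol G) : H87.Decay G := by
  obtain ⟨C, hC⟩ := h.bd0
  exact cylinder_decay h.cont hC h.eq

end Pool.Agent.Lib.MP_85963d_gt.H31
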