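import Pool.Agent.Lib.MP_85963d_gt.H31.AsyG
import Pool.Agent.Lib.MP_85963d_gt.H31.CylDecay
import Pool.Agent.Lib.MP_85963d_gt.H70.Forms

/-! Asymptotics of `N_k(D_j)` (Paper (10.6)): the conclusion. -/

set_option autoImplicit false
open Set MeasureTheory Real Filter Topology

noncomputable section
namespace Pool.Agent.Lib.MP_85963d_gt.H31

/-- the shape of `ψ''` -/
structure Bump (τ₁ τ₂ : ℝ) (p2 : ℝ → ℝ) : Prop where
  pos : 0 < τ₁
  lt : τ₁ < τ₂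
  cont : Continuous p2
  nonneg : ∀ t, 0 ≤ p2 t
  off : ∀ t, t ∉ Icc τ₁ τ₂ → p2 t = 0

def pf1 (p2 : ℝ → ℝ) (t : ℝ) : ℝ := ∫ u in (0:ℝ)..t, p2 u

def pf0 (p2 : ℝ → ℝ) (t : ℝ) : ℝ := ∫ u in (0:ℝ)..t, pf1 p2 u

lemma int_bound {f : ℝ → ℝ} {c τ : ℝ} (hf : Continuous f) (h0 : ∀ t, 0 ≤ f t)
    (hc : ∀ t, f t ≤ c) (hoff : ∀ t, τ < t → f t = 0) (hτ : 0 ≤ τ) {t : ℝ} (ht : 0 ≤ t) :
    0 ≤ ∫ u in (0:ℝ)..t, f u ∧ ∫ u in (0:ℝ)..t, f u ≤ c * τ := by
  have hc0 : 0 ≤ c := (h0 0).trans (hc 0)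
  have hle : ∀ t', 0 ≤ t' → ∫ u in (0:ℝ)..t', f u ≤ c * t' := by
    intro t' ht'
    have h1 := intervalIntegral.integral_mono_on (μ := volume) ht' (hf.intervalIntegrable 0 t')
      (intervalIntegrable_const (c := c)) (fun x _ => hc x)
    rw [intervalIntegral.integral_const] at h1
    simpa [mul_comm] using h1
  refine ⟨intervalIntegral.integral_nonneg ht (fun u _ => h0 u), ?_⟩
  rcases le_or_gt t τ with h | h
  · exact (hle t ht).trans (by gcongr)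
  · have h2 : ∫ u in τ..t, f u = 0 := by
      rw [intervalIntegral.integral_of_le h.le]
      exact setIntegral_eq_zero_of_forall_eq_zero (fun x hx => hoff x hx.1)
    rw [← intervalIntegral.integral_add_adjacent_intervals (hf.intervalIntegrable 0 τ)
      (hf.intervalIntegrable τ t), h2, add_zero]
    exact hle τ hτ

section bump

variable {τ₁ τ₂ : ℝ} {p2 : ℝ → ℝ}

lemma Bump.pos' (h : Bump τ₁ τ₂ p2) : 0 < τ₂ := h.pos.trans h.lt

lemma Bump.exists_bd (h : Bump τ₁ τ₂ p2) : ∃ m, 0 ≤ m ∧ ∀ t, p2 t ≤ m := by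
  obtain ⟨C, hC⟩ := isCompact_Icc.exists_bound_of_continuousOn (s := Icc τ₁ τ₂)
    h.cont.continuousOn
  refine ⟨max C 0, le_max_right _ _, fun t => ?_⟩
  by_cases ht : t ∈ Icc τ₁ τ₂
  · have := hC t ht
    rw [Real.norm_eq_abs] at this
    exact (le_abs_self _).trans (this.trans (le_max_left _ _))
  · rw [h.off t ht]
    exact le_max_right _ _

lemma Bump.pf1_cont (h : Bump τ₁ τ₂ p2) : Continuous (pf1 p2) :=
  continuous_iff_continuousAt.2 fun t =>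
    (h.cont.integral_hasStrictDerivAt 0 t).hasDerivAt.continuousAt

lemma Bump.pf1_deriv (h : Bump τ₁ τ₂ p2) (t : ℝ) : HasDerivAt (pf1 p2) (p2 t) t :=
  (h.cont.integral_hasStrictDerivAt 0 t).hasDerivAt

lemma Bump.pf0_deriv (h : Bump τ₁ τ₂ p2) (t : ℝ) : HasDerivAt (pf0 p2) (pf1 p2 t) t :=
  (h.pf1_cont.integral_hasStrictDerivAt 0 t).hasDerivAt

lemma Bump.pf0_cont (h : Bump τ₁ τ₂ p2) : Continuous (pf0 p2) :=
  continuous_iff_continuousAt.2 fun t => (h.pf0_deriv t).continuousAt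

lemma Bump.pf1_bd (h : Bump τ₁ τ₂ p2) {m : ℝ} (hm : ∀ t, p2 t ≤ m) {t : ℝ} (ht : 0 ≤ t) :
    0 ≤ pf1 p2 t ∧ pf1 p2 t ≤ m * τ₂ :=
  int_bound h.cont h.nonneg hm (fun t ht => h.off t (fun hh => absurd hh.2 (not_le.2 ht)))
    h.pos'.le ht

lemma Bump.pf0_bd (h : Bump τ₁ τ₂ p2) {m : ℝ} (hm : ∀ t, p2 t ≤ m) {t : ℝ} (ht : 0 ≤ t) :
    0 ≤ pf0 p2 t ∧ pf0 p2 t ≤ m * τ₂ * t := by
  refine ⟨intervalIntegral.integral_nonneg ht (fun u hu => (h.pf1_bd hm hu.1).1), ?_⟩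
  have h1 := intervalIntegral.integral_mono_on (μ := volume) ht
    (h.pf1_cont.intervalIntegrable 0 t)
    (intervalIntegrable_const (c := m * τ₂)) (fun x hx => (h.pf1_bd hm hx.1).2)
  rw [intervalIntegral.integral_const] at h1
  have : (t - 0) • (m * τ₂) = m * τ₂ * t := by rw [smul_eq_mul]; ring
  rw [this] at h1
  exact h1

lemma Bump.mul_sub (h : Bump τ₁ τ₂ p2) {m : ℝ} (hm : ∀ t, p2 t ≤ m) {t : ℝ} (ht : 0 ≤ t) :
    0 ≤ t * pf1 p2 t - pf0 p2 t ∧ t * pf1 p2 t - pf0 p2 t ≤ m * τ₂ * τ₂ := by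
  have hm0 : 0 ≤ m := (h.nonneg 0).trans (hm 0)
  have hd : ∀ x ∈ uIcc 0 t, HasDerivAt (fun t => t * pf1 p2 t - pf0 p2 t) (x * p2 x) x := by
    intro x _
    refine (((hasDerivAt_id x).mul (h.pf1_deriv x)).sub (h.pf0_deriv x)).congr_deriv ?_
    simp only [id_eq]
    ring
  have hcont : Continuous (fun x => x * p2 x) := continuous_id.mul h.cont
  have e := intervalIntegral.integral_eq_sub_of_hasDerivAt hd (hcont.intervalIntegrable 0 t)
  have e2 : t * pf1 p2 t - pf0 p2 t = ∫ u in (0:ℝ)..t, u * p2 u := by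
    rw [e]
    have z : pf0 p2 0 = 0 := by unfold pf0; simp
    simp [z]
  rw [e2]
  refine int_bound hcont ?_ ?_ ?_ h.pos'.le ht
  · intro u
    by_cases hu : u ∈ Icc τ₁ τ₂
    · exact mul_nonneg (h.pos.le.trans hu.1) (h.nonneg u)
    · rw [h.off u hu, mul_zero]
  · intro u
    by_cases hu : u ∈ Icc τ₁ τ₂
    · have := h.pos
      have h3 := h.nonneg u
      have h4 := hm u
      calc u * p2 u ≤ τ₂ * m := mul_le_mul hu.2 h4 h3 h.pos'.le
        _ = m * τ₂ := mul_comm _ _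
    · rw [h.off u hu, mul_zero]
      have := h.pos'
      positivity
  · intro u hu
    rw [h.off u (fun hh => absurd hh.2 (not_le.2 hu)), mul_zero]

lemma Bump.pf1_zero (h : Bump τ₁ τ₂ p2) {t : ℝ} (ht : 0 ≤ t) (ht' : t < τ₁) : pf1 p2 t = 0 := by
  unfold pf1
  rw [intervalIntegral.integral_of_le ht]
  exact setIntegral_eq_zero_of_forall_eq_zero
    (fun x hx => h.off x (fun hh => absurd hh.1 (not_le.2 (hx.2.trans_lt ht'))))

lemma Bump.pf0_zero (h : Bump τ₁ τ₂ p2) {t : ℝ} (ht : 0 ≤ t) (ht' : t < τ₁) : pf0 p2 t = 0 := by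
  unfold pf0
  rw [intervalIntegral.integral_of_le ht]
  exact setIntegral_eq_zero_of_forall_eq_zero
    (fun x hx => h.pf1_zero hx.1.le (hx.2.trans_lt ht'))

/-- the constant `B` -/
def bB (m τ₂ : ℝ) : ℝ := 3 * (m * τ₂) + (m * τ₂) ^ 2 + 2 * (m * τ₂ * τ₂) + (m * τ₂ * τ₂) ^ 2 + m

/-- bounds for the profile at one point -/
lemma Bump.bounds (h : Bump τ₁ τ₂ p2) {m : ℝ} (hm : ∀ t, p2 t ≤ m) {β t P Q S : ℝ} (ht : 0 ≤ t)
    (hβ : 0 ≤ β) (hβ1 : β ≤ 1) (hsm : β * (m * τ₂ * t) ≤ 1) (hP : P = 1 + β * pf0 p2 t)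
    (hQ : Q = β * pf1 p2 t) (hS : S = P - t * Q) :
    |P ^ 2 - 1| ≤ β * bB m τ₂ * (1 + t) ∧ |Q ^ 2 + S ^ 2 - 1| ≤ β * bB m τ₂ * (1 + t) ∧
      |S - 1| ≤ β * bB m τ₂ * (1 + t) := by
  have hm0 : 0 ≤ m := (h.nonneg 0).trans (hm 0)
  have hτ := h.pos'
  obtain ⟨a1, a2⟩ := h.pf1_bd hm ht
  obtain ⟨b1, b2⟩ := h.pf0_bd hm ht
  obtain ⟨c1, c2⟩ := h.mul_sub hm ht
  set x := pf0 p2 t
  set y := pf1 p2 t
  set v := t * y - x with hv
  set k := m * τ₂ with hk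
  have hk0 : 0 ≤ k := by positivity
  have hSv : S = 1 - β * v := by rw [hS, hP, hQ, hv]; ring
  have hB : bB m τ₂ = 3 * k + k ^ 2 + 2 * (k * τ₂) + (k * τ₂) ^ 2 + m := rfl
  have hB0 : 0 ≤ bB m τ₂ := by rw [hB]; positivity
  have hBt : β * bB m τ₂ ≤ β * bB m τ₂ * (1 + t) := by
    have : 0 ≤ β * bB m τ₂ := by positivity
    nlinarith
  have hv0 : 0 ≤ β * v := by positivity
  have hkt : 0 ≤ k * τ₂ := by positivity
  refine ⟨?_, ?_, ?_⟩
  · have e : P ^ 2 - 1 = β * x * (2 + β * x) := by rw [hP]; ring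
    have h1 : β * x ≤ 1 := (by gcongr : β * x ≤ β * (k * t)).trans hsm
    rw [e, abs_of_nonneg (by positivity)]
    calc β * x * (2 + β * x) ≤ β * (k * t) * (2 + 1) := by gcongr
      _ = β * (3 * k) * t := by ring
      _ ≤ β * bB m τ₂ * (1 + t) := by
          gcongr
          · rw [hB]
            have : 0 ≤ k ^ 2 + 2 * (k * τ₂) + (k * τ₂) ^ 2 + m := by positivity
            linarith
          · linarith
  · have e : Q ^ 2 + S ^ 2 - 1 = β * (β * y ^ 2) - 2 * (β * v) + β * (β * v ^ 2) := by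
      rw [hSv, hQ]; ring
    refine le_trans ?_ hBt
    have h1 : β * (β * y ^ 2) ≤ β * (1 * k ^ 2) := by gcongr
    have h2 : β * (β * v ^ 2) ≤ β * (1 * (k * τ₂) ^ 2) := by gcongr
    have h3 : β * v ≤ β * (k * τ₂) := by gcongr
    have h4 : 0 ≤ β * (β * y ^ 2) := by positivity
    have h5 : 0 ≤ β * (β * v ^ 2) := by positivity
    have h6 : 0 ≤ β * (3 * k + m) := by positivity
    have h7 : 0 ≤ β * (k * τ₂) := by positivity
    have h8 : 0 ≤ β * (1 * k ^ 2) := by positivity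
    have h9 : 0 ≤ β * (1 * (k * τ₂) ^ 2) := by positivity
    have e2 : β * bB m τ₂ = β * (3 * k + m) + β * (1 * k ^ 2) + 2 * (β * (k * τ₂))
        + β * (1 * (k * τ₂) ^ 2) := by rw [hB]; ring
    rw [e, abs_le, e2]
    constructor <;> linarith
  · refine le_trans ?_ hBt
    have e : S - 1 = -(β * v) := by rw [hSv]; ring
    rw [e, abs_neg, abs_of_nonneg hv0]
    calc β * v ≤ β * (k * τ₂) := by gcongr
      _ ≤ β * bB m τ₂ := by
          gcongr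
          rw [hB]
          have : 0 ≤ 3 * k + k ^ 2 + (k * τ₂) + (k * τ₂) ^ 2 + m := by positivity
          linarith

/-- the profile in the variable `t` on `(0, √H)` -/
structure IsP (β H : ℝ) (p2 P Q S K : ℝ → ℝ) : Prop where
  mP : Measurable P
  mQ : Measurable Q
  mS : Measurable S
  mK : Measurable K
  eP : ∀ t ∈ Ioo 0 (√H), P t = 1 + β * pf0 p2 t
  eQ : ∀ t ∈ Ioo 0 (√H), Q t = β * pf1 p2 t
  eS : ∀ t ∈ Ioo 0 (√H), S t = P t - t * Q t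
  eK : ∀ t ∈ Ioo 0 (√H), K t = β * p2 t

lemma sqrt_mem {H X : ℝ} (hX : X ∈ Ioo 0 H) : √X ∈ Ioo 0 (√H) :=
  ⟨sqrt_pos.2 hX.1, sqrt_lt_sqrt hX.1.le hX.2⟩

lemma prof_of (h : Bump τ₁ τ₂ p2) {m : ℝ} (hm : ∀ t, p2 t ≤ m) {β H : ℝ} {P Q S K : ℝ → ℝ}
    (hβ : 0 ≤ β) (hβ1 : β ≤ 1) (hH : 1 ≤ H) (hsm : β * (m * τ₂ * √H) ≤ 1)
    (hp : IsP β H p2 P Q S K) :
    Prof β (bB m τ₂) (min (τ₁ ^ 2) 1) (τ₂ ^ 2) H (fun X => P (√X)) (fun X => Q (√X))
      (fun X => S (√X)) (fun X => K (√X)) := by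
  have hm0 : 0 ≤ m := (h.nonneg 0).trans (hm 0)
  have hτ := h.pos'
  have hsm' : ∀ X ∈ Ioo 0 H, β * (m * τ₂ * √X) ≤ 1 := by
    intro X hX
    refine le_trans ?_ hsm
    have := sqrt_le_sqrt hX.2.le
    gcongr
  have hb := fun X (hX : X ∈ Ioo 0 H) => h.bounds hm (sqrt_nonneg X) hβ hβ1 (hsm' X hX)
    (hp.eP _ (sqrt_mem hX)) (hp.eQ _ (sqrt_mem hX)) (hp.eS _ (sqrt_mem hX))
  refine ⟨hp.mP.comp continuous_sqrt.measurable, hp.mQ.comp continuous_sqrt.measurable, hp.mS.comp continuous_sqrt.measurable,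
    hp.mK.comp continuous_sqrt.measurable, ?_, ?_, ?_, ?_, fun X hX => (hb X hX).1, fun X hX => (hb X hX).2.1,
    fun X hX => (hb X hX).2.2⟩
  · intro X hX
    have h1 : X < τ₁ ^ 2 := hX.2.trans_le (min_le_left _ _)
    have h2 : X < 1 := hX.2.trans_le (min_le_right _ _)
    have hX' : X ∈ Ioo 0 H := ⟨hX.1, by linarith⟩
    have h3 := sqrt_mem hX'
    have h4 : √X < τ₁ := by
      rw [sqrt_lt' h.pos]; exact h1
    have z0 := h.pf0_zero h3.1.le h4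
    have z1 := h.pf1_zero h3.1.le h4
    have z2 : p2 (√X) = 0 := h.off _ (fun hh => absurd hh.1 (not_le.2 h4))
    have eP : P (√X) = 1 := by rw [hp.eP _ h3, z0]; ring
    have eQ : Q (√X) = 0 := by rw [hp.eQ _ h3, z1]; ring
    refine ⟨eP, eQ, ?_, ?_⟩
    · simp only [hp.eS _ h3, eP, eQ]; ring
    · simp only [hp.eK _ h3, z2]; ring
  · intro X hX
    simp only [hp.eK _ (sqrt_mem hX)]
    exact mul_nonneg hβ (h.nonneg _)
  · intro X hX
    simp only [hp.eK _ (sqrt_mem hX)]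
    gcongr
    refine (hm _).trans ?_
    unfold bB
    have : 0 ≤ 3 * (m * τ₂) + (m * τ₂) ^ 2 + 2 * (m * τ₂ * τ₂) + (m * τ₂ * τ₂) ^ 2 := by positivity
    linarith
  · intro X hX
    have hX0 : 0 < X := (sq_nonneg τ₂).trans_lt hX.1
    have h3 : τ₂ < √X := Real.lt_sqrt_of_sq_lt hX.1
    simp only [hp.eK _ (sqrt_mem ⟨hX0, hX.2⟩)]
    rw [h.off _ (fun hh => absurd hh.2 (not_le.2 h3)), mul_zero]

end bump

lemma GData.mono {G : ℝ → ℝ} {C C' : ℝ} (h : GData G C) (hC : C ≤ C') : GData G C' :=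
  ⟨h.cont, fun X hX => (h.near X hX).trans (by gcongr),
    fun X hX => (h.far X hX).trans (by
      have : 0 ≤ X ^ (-(7 / 4) : ℝ) := rpow_nonneg (by linarith) _
      gcongr)⟩

lemma gdata_of_cylSol {G : ℝ → ℝ} (h : H87.CylSol G) : ∃ C, GData G C := by
  obtain ⟨C, hC⟩ := h.bd0
  obtain ⟨D, hD⟩ := decay_of_cylSol h
  refine ⟨max C D, h.cont, fun X hX => (hC X hX).trans (by gcongr; exact le_max_left _ _),
    fun X hX => (hD X hX).trans ?_⟩
  have : 0 ≤ X ^ (-(7 / 4) : ℝ) := rpow_nonneg (by linarith) _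
  gcongr
  exact le_max_right _ _

lemma cyl_eq {G : ℝ → ℝ} (h : H87.CylSol G) (s : ℝ) (hs : 0 < s) :
    ∫ X in Ioo 0 s, G X * (Kc (s - X) * cφ X (s - X)) = 0 := by
  have h := h.eq s hs
  rw [intervalIntegral.integral_of_le hs.le, integral_Ioc_eq_integral_Ioo] at h
  refine Eq.trans ?_ h
  apply setIntegral_congr_fun measurableSet_Ioo
  intro X _
  simp only [cφ, Kc, H87.cylK]
  rw [add_sub_cancel]
  ring

/-- the kernel in the two notations -/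
lemma ker_id {β B s₁ s₂ H : ℝ} {P Q S K : ℝ → ℝ}
    (h : Prof β B s₁ s₂ H (fun X => P (√X)) (fun X => Q (√X)) (fun X => S (√X)) (fun X => K (√X)))
    (hβ : 0 ≤ β) (hB : 0 ≤ B) (hs : Small β B H) {X s : ℝ} (hX : X ∈ Ioo 0 H) (hXs : X < s) :
    Kc (s - X) * pφ (fun X => P (√X)) (fun X => Q (√X)) (fun X => S (√X)) (fun X => K (√X)) X (s - X)
      = H70.cker X s * H70.om P Q S K X (s - X) := by
  set Y := s - X with hY
  have hY0 : 0 < Y := by rw [hY]; linarith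
  have hq := qq_pos h hβ hB hs hX hY0.le
  have h1 := one_add_rh (K := K (√X)) hq hY0.le
  have e : pφ (fun X => P (√X)) (fun X => Q (√X)) (fun X => S (√X)) (fun X => K (√X)) X Y
      = cφ X Y * ((1 + Y) * √(1 + Y) * omW (P (√X)) (Q (√X)) (S (√X)) (K (√X)) Y) := by
    rw [← h1]
    unfold pφ dφ
    ring
  rw [e]
  unfold H70.cker H70.om omW Kc cφ
  have hXY : X + Y = s := by rw [hY]; ring
  rw [hXY, ← hY]
  set q := qq (P (√X)) (Q (√X)) (S (√X)) Y with hqd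
  have hq' : q = P (√X) ^ 2 + Y * (Q (√X) ^ 2 + S (√X) ^ 2) := rfl
  rw [← hq']
  have a1 : 0 < √Y := sqrt_pos.2 hY0
  have a2 : 0 < √(1 + Y) := sqrt_pos.2 (by linarith)
  have a3 : 0 < √q := sqrt_pos.2 hq
  have a4 : √q ^ 3 = q * √q := by
    rw [pow_succ, sq_sqrt hq.le]
  rw [a4]
  field_simp

end Pool.Agent.Lib.MP_85963d_gt.H31
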