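import Pool.Agent.Lib.MP_85963d_gt.H31.AsyH

/-! The sign of the determinant of `N_k(D_j)` (Paper (10.6)): final statement. -/

set_option autoImplicit false
open Set MeasureTheory Real Filter Topology

noncomputable section
namespace Pool.Agent.Lib.MP_85963d_gt.H31

/-- The solution of the equation of the body on `(0,H)` which is `G` near `0`. -/
structure IsG (a H : ℝ) (P Q S K G g : ℝ → ℝ) : Prop where
  cont : ContinuousOn g (Ioo 0 H)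
  bd : ∃ C, ∀ X ∈ Ioo 0 H, |g X| ≤ C / √X
  eqG : ∀ X ∈ Ioo 0 a, g X = G X
  eqn : ∀ᵐ s ∂(volume.restrict (Ioo 0 H)),
    ∫ X in Ioo 0 s, g X * (H70.cker X s * H70.om P Q S K X (s - X)) = 0

lemma DD_aesm {H : ℝ} {P Q S K g : ℝ → ℝ} (mP : Measurable P) (mQ : Measurable Q)
    (mS : Measurable S) (mK : Measurable K) (hg : ContinuousOn g (Ioo 0 H)) (μ : Measure ℝ)
    [SFinite μ] : AEStronglyMeasurable (H70.DD (H70.om P Q S K) H g) μ := by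
  have h1 : AEStronglyMeasurable g (volume.restrict (Ioo 0 H)) :=
    hg.aestronglyMeasurable measurableSet_Ioo
  have h2 : Measurable fun p : ℝ × ℝ => H70.cker p.2 p.1 :=
    H70.meas_cker.comp measurable_swap
  have h3 : Measurable fun p : ℝ × ℝ => H70.om P Q S K p.2 (p.1 - p.2) := by
    have e1 : Measurable fun p : ℝ × ℝ => P (√p.2) :=
      mP.comp (continuous_sqrt.measurable.comp measurable_snd)
    have e2 : Measurable fun p : ℝ × ℝ => Q (√p.2) :=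
      mQ.comp (continuous_sqrt.measurable.comp measurable_snd)
    have e3 : Measurable fun p : ℝ × ℝ => S (√p.2) :=
      mS.comp (continuous_sqrt.measurable.comp measurable_snd)
    have e4 : Measurable fun p : ℝ × ℝ => K (√p.2) :=
      mK.comp (continuous_sqrt.measurable.comp measurable_snd)
    unfold H70.om
    fun_prop
  have h4 : AEStronglyMeasurable (fun p : ℝ × ℝ =>
      g p.2 * (H70.cker p.2 p.1 * H70.om P Q S K p.2 (p.1 - p.2)))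
      (μ.prod (volume.restrict (Ioo 0 H))) :=
    h1.comp_snd.mul (h2.mul h3).aestronglyMeasurable
  exact h4.integral_prod_right'

/-- `∫₀^∞ G(X) p₂(√X) dX = 2 ∫ p₂(t) t G(t²) dt`. -/
lemma J_eq {τ₁ τ₂ : ℝ} {p2 : ℝ → ℝ} (hb : Bump τ₁ τ₂ p2) (G : ℝ → ℝ) :
    ∫ X in Ioi 0, G X * p2 (√X) = 2 * ∫ t, p2 t * (t * G (t ^ 2)) := by
  have h := integral_comp_rpow_Ioi_of_pos (g := fun X => G X * p2 (√X)) (p := 2) (by norm_num)
  rw [← h]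
  have e1 : ∫ t in Ioi (0 : ℝ), ((2 : ℝ) * t ^ ((2 : ℝ) - 1)) • (G (t ^ (2 : ℝ)) * p2 (√(t ^ (2 : ℝ))))
      = ∫ t in Ioi (0 : ℝ), 2 * (p2 t * (t * G (t ^ 2))) := by
    apply setIntegral_congr_fun measurableSet_Ioi
    intro t ht
    have ht0 : (0 : ℝ) < t := ht
    have a1 : t ^ ((2 : ℝ) - 1) = t := by norm_num
    have a2 : t ^ (2 : ℝ) = t ^ 2 := by norm_cast
    simp only [smul_eq_mul]
    rw [a1, a2, sqrt_sq ht0.le]
    ring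
  rw [e1, integral_const_mul]
  congr 1
  apply setIntegral_eq_integral_of_forall_compl_eq_zero
  intro t ht
  have ht' : ¬ (0 < t) := ht
  rw [hb.off t (fun hh => ht' (hb.pos.trans_le hh.1)), zero_mul]

section scale

variable {r C M J X A : ℝ}

lemma bb_le2 : |bb 2| ≤ 2 := by
  have hpi := pi_pos
  have hpi4 := pi_le_four
  have hb2 : bb 2 = π / 2 := by unfold bb; rw [if_pos rfl]
  rw [hb2, abs_of_pos (by positivity)]; linarith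

lemma bb_le3 : |bb 3| ≤ 2 := by
  have hpi := pi_pos
  have hpi4 := pi_le_four
  have hb3 : bb 3 = π / 8 := by unfold bb; rw [if_neg (by norm_num), if_pos rfl]
  rw [hb3, abs_of_pos (by positivity)]; linarith

lemma inv_le2 (hr1 : 1 ≤ r) : 1 / r ^ 2 ≤ 1 / r := by
  apply one_div_le_one_div_of_le (by linarith)
  exact le_self_pow₀ hr1 (by norm_num)

lemma inv_le3 (hr1 : 1 ≤ r) : 1 / r ^ 3 ≤ 1 / r := by
  apply one_div_le_one_div_of_le (by linarith)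
  exact le_self_pow₀ hr1 (by norm_num)

lemma abs_L (hr1 : 1 ≤ r) (J : ℝ) : |1 / r ^ 5 * J| = 1 / r ^ 5 * |J| := by
  have : 0 < 1 / r ^ 5 := by positivity
  rw [abs_mul, abs_of_pos this]

lemma scaleX1 (hr1 : 1 ≤ r) (hC : 0 ≤ C) (hA : 5 * |J| + 3 * |M| + 40 * C ≤ A)
    (x1 : |X - (M * bb (1 + 2) * (r ^ 6 / (r ^ 4) ^ (1 + 2))
          + 1 / r ^ 5 * J * bb (1 + 1) * (r ^ 6 / (r ^ 4) ^ (1 + 1)))|
      ≤ 3 * |M| * (r ^ 4 / (r ^ 4) ^ (1 + 2)) + 3 * |1 / r ^ 5 * J|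
        * (r ^ 4 / (r ^ 4) ^ (1 + 1)) + C * (40 / (r ^ 9 * (r ^ 4) ^ (1 - 1)))) :
    |X * r ^ 6 - M * bb 3| ≤ A / r := by
  have hr0 : 0 < r := by linarith
  have e : X * r ^ 6 - M * bb 3
      = (X - (M * bb (1 + 2) * (r ^ 6 / (r ^ 4) ^ (1 + 2))
        + 1 / r ^ 5 * J * bb (1 + 1) * (r ^ 6 / (r ^ 4) ^ (1 + 1)))) * r ^ 6
        + J * bb 2 * (1 / r) := by
    norm_num
    field_simp
    ring
  rw [e]
  refine (abs_add_le _ _).trans ?_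
  rw [abs_mul, abs_of_pos (by positivity : 0 < r ^ 6)]
  have k1 : |J * bb 2 * (1 / r)| ≤ 2 * |J| * (1 / r) := by
    rw [abs_mul, abs_mul, abs_of_pos (by positivity : 0 < 1 / r)]
    have := bb_le2
    calc |J| * |bb 2| * (1 / r) ≤ |J| * 2 * (1 / r) := by gcongr
      _ = _ := by ring
  have k2 := mul_le_mul_of_nonneg_right x1 (by positivity : 0 ≤ r ^ 6)
  rw [abs_L hr1] at k2
  have k3 : (3 * |M| * (r ^ 4 / (r ^ 4) ^ (1 + 2)) + 3 * (1 / r ^ 5 * |J|)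
      * (r ^ 4 / (r ^ 4) ^ (1 + 1)) + C * (40 / (r ^ 9 * (r ^ 4) ^ (1 - 1)))) * r ^ 6
      = 3 * |M| * (1 / r ^ 2) + 3 * |J| * (1 / r ^ 3) + 40 * C * (1 / r ^ 3) := by
    norm_num
    field_simp
  rw [k3] at k2
  have h2 := inv_le2 hr1
  have h3 := inv_le3 hr1
  have k4 : 3 * |M| * (1 / r ^ 2) ≤ 3 * |M| * (1 / r) := by gcongr
  have k5 : 3 * |J| * (1 / r ^ 3) ≤ 3 * |J| * (1 / r) := by gcongr
  have k6 : 40 * C * (1 / r ^ 3) ≤ 40 * C * (1 / r) := by gcongr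
  have k7 : (5 * |J| + 3 * |M| + 40 * C) * (1 / r) ≤ A * (1 / r) := by gcongr
  rw [div_eq_mul_one_div A r]
  linarith

lemma scaleX2 (hr1 : 1 ≤ r) (hC : 0 ≤ C) (hA : 5 * |J| + 3 * |M| + 40 * C ≤ A)
    (x1 : |X - (M * bb (2 + 2) * (r ^ 6 / (r ^ 4) ^ (2 + 2))
          + 1 / r ^ 5 * J * bb (2 + 1) * (r ^ 6 / (r ^ 4) ^ (2 + 1)))|
      ≤ 3 * |M| * (r ^ 4 / (r ^ 4) ^ (2 + 2)) + 3 * |1 / r ^ 5 * J|
        * (r ^ 4 / (r ^ 4) ^ (2 + 1)) + C * (40 / (r ^ 9 * (r ^ 4) ^ (2 - 1)))) :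
    |X * r ^ 10 - M * bb 4| ≤ A / r := by
  have hr0 : 0 < r := by linarith
  have e : X * r ^ 10 - M * bb 4
      = (X - (M * bb (2 + 2) * (r ^ 6 / (r ^ 4) ^ (2 + 2))
        + 1 / r ^ 5 * J * bb (2 + 1) * (r ^ 6 / (r ^ 4) ^ (2 + 1)))) * r ^ 10
        + J * bb 3 * (1 / r) := by
    norm_num
    field_simp
    ring
  rw [e]
  refine (abs_add_le _ _).trans ?_
  rw [abs_mul, abs_of_pos (by positivity : 0 < r ^ 10)]
  have k1 : |J * bb 3 * (1 / r)| ≤ 2 * |J| * (1 / r) := by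
    rw [abs_mul, abs_mul, abs_of_pos (by positivity : 0 < 1 / r)]
    have := bb_le3
    calc |J| * |bb 3| * (1 / r) ≤ |J| * 2 * (1 / r) := by gcongr
      _ = _ := by ring
  have k2 := mul_le_mul_of_nonneg_right x1 (by positivity : 0 ≤ r ^ 10)
  rw [abs_L hr1] at k2
  have k3 : (3 * |M| * (r ^ 4 / (r ^ 4) ^ (2 + 2)) + 3 * (1 / r ^ 5 * |J|)
      * (r ^ 4 / (r ^ 4) ^ (2 + 1)) + C * (40 / (r ^ 9 * (r ^ 4) ^ (2 - 1)))) * r ^ 10
      = 3 * |M| * (1 / r ^ 2) + 3 * |J| * (1 / r ^ 3) + 40 * C * (1 / r ^ 3) := by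
    norm_num
    field_simp
  rw [k3] at k2
  have h2 := inv_le2 hr1
  have h3 := inv_le3 hr1
  have k4 : 3 * |M| * (1 / r ^ 2) ≤ 3 * |M| * (1 / r) := by gcongr
  have k5 : 3 * |J| * (1 / r ^ 3) ≤ 3 * |J| * (1 / r) := by gcongr
  have k6 : 40 * C * (1 / r ^ 3) ≤ 40 * C * (1 / r) := by gcongr
  have k7 : (5 * |J| + 3 * |M| + 40 * C) * (1 / r) ≤ A * (1 / r) := by gcongr
  rw [div_eq_mul_one_div A r]
  linarith

lemma scaleY1 (hr1 : 1 ≤ r) (hC : 0 ≤ C) (hA : 3 * |J| + 40 * C ≤ A)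
    (x1 : |X - (0 * bb (1 + 2) * (r ^ 6 / (r ^ 4) ^ (1 + 2))
          + 1 / r ^ 5 * J * bb (1 + 1) * (r ^ 6 / (r ^ 4) ^ (1 + 1)))|
      ≤ 3 * |(0 : ℝ)| * (r ^ 4 / (r ^ 4) ^ (1 + 2)) + 3 * |1 / r ^ 5 * J|
        * (r ^ 4 / (r ^ 4) ^ (1 + 1)) + C * (40 / (r ^ 9 * (r ^ 4) ^ (1 - 1)))) :
    |X * r ^ 7 - J * bb 2| ≤ A / r := by
  have hr0 : 0 < r := by linarith
  have e : X * r ^ 7 - J * bb 2
      = (X - (0 * bb (1 + 2) * (r ^ 6 / (r ^ 4) ^ (1 + 2))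
        + 1 / r ^ 5 * J * bb (1 + 1) * (r ^ 6 / (r ^ 4) ^ (1 + 1)))) * r ^ 7 := by
    norm_num
    field_simp
  rw [e, abs_mul, abs_of_pos (by positivity : 0 < r ^ 7)]
  have k2 := mul_le_mul_of_nonneg_right x1 (by positivity : 0 ≤ r ^ 7)
  rw [abs_L hr1] at k2
  have k3 : (3 * |(0 : ℝ)| * (r ^ 4 / (r ^ 4) ^ (1 + 2)) + 3 * (1 / r ^ 5 * |J|)
      * (r ^ 4 / (r ^ 4) ^ (1 + 1)) + C * (40 / (r ^ 9 * (r ^ 4) ^ (1 - 1)))) * r ^ 7
      = 3 * |J| * (1 / r ^ 2) + 40 * C * (1 / r ^ 2) := by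
    norm_num
    field_simp
  rw [k3] at k2
  have h2 := inv_le2 hr1
  have k4 : 3 * |J| * (1 / r ^ 2) ≤ 3 * |J| * (1 / r) := by gcongr
  have k6 : 40 * C * (1 / r ^ 2) ≤ 40 * C * (1 / r) := by gcongr
  have k7 : (3 * |J| + 40 * C) * (1 / r) ≤ A * (1 / r) := by gcongr
  rw [div_eq_mul_one_div A r]
  linarith

lemma scaleY2 (hr1 : 1 ≤ r) (hC : 0 ≤ C) (hA : 3 * |J| + 40 * C ≤ A)
    (x1 : |X - (0 * bb (2 + 2) * (r ^ 6 / (r ^ 4) ^ (2 + 2))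
          + 1 / r ^ 5 * J * bb (2 + 1) * (r ^ 6 / (r ^ 4) ^ (2 + 1)))|
      ≤ 3 * |(0 : ℝ)| * (r ^ 4 / (r ^ 4) ^ (2 + 2)) + 3 * |1 / r ^ 5 * J|
        * (r ^ 4 / (r ^ 4) ^ (2 + 1)) + C * (40 / (r ^ 9 * (r ^ 4) ^ (2 - 1)))) :
    |X * r ^ 11 - J * bb 3| ≤ A / r := by
  have hr0 : 0 < r := by linarith
  have e : X * r ^ 11 - J * bb 3
      = (X - (0 * bb (2 + 2) * (r ^ 6 / (r ^ 4) ^ (2 + 2))
        + 1 / r ^ 5 * J * bb (2 + 1) * (r ^ 6 / (r ^ 4) ^ (2 + 1)))) * r ^ 11 := by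
    norm_num
    field_simp
  rw [e, abs_mul, abs_of_pos (by positivity : 0 < r ^ 11)]
  have k2 := mul_le_mul_of_nonneg_right x1 (by positivity : 0 ≤ r ^ 11)
  rw [abs_L hr1] at k2
  have k3 : (3 * |(0 : ℝ)| * (r ^ 4 / (r ^ 4) ^ (2 + 2)) + 3 * (1 / r ^ 5 * |J|)
      * (r ^ 4 / (r ^ 4) ^ (2 + 1)) + C * (40 / (r ^ 9 * (r ^ 4) ^ (2 - 1)))) * r ^ 11
      = 3 * |J| * (1 / r ^ 2) + 40 * C * (1 / r ^ 2) := by
    norm_num
    field_simp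
  rw [k3] at k2
  have h2 := inv_le2 hr1
  have k4 : 3 * |J| * (1 / r ^ 2) ≤ 3 * |J| * (1 / r) := by gcongr
  have k6 : 40 * C * (1 / r ^ 2) ≤ 40 * C * (1 / r) := by gcongr
  have k7 : (3 * |J| + 40 * C) * (1 / r) ≤ A * (1 / r) := by gcongr
  rw [div_eq_mul_one_div A r]
  linarith

end scale

/-- **ASY**, (10.6). -/
theorem asy {G1 G2 : ℝ → ℝ} (h1 : H87.CylSol G1) (h2 : H87.CylSol G2)
    (hM1 : ∫ X in Ioi 0, G1 X ≠ 0) (hM2 : ∫ X in Ioi 0, G2 X = 0) {τ₁ τ₂ : ℝ} {p2 : ℝ → ℝ}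
    (hb : Bump τ₁ τ₂ p2) (hI : ∫ t, p2 t * (t * G2 (t ^ 2)) ≠ 0) :
    ∃ H₀ : ℝ, 1 ≤ H₀ ∧ ∀ H, H₀ ≤ H → ∀ y0, |H + y0 - 1| ≤ 1 / 2 → ∀ P Q S K : ℝ → ℝ,
      IsP (H ^ (-(5 / 4) : ℝ)) H p2 P Q S K → ∀ g1 g2 : ℝ → ℝ,
      IsG (τ₁ ^ 2) H P Q S K G1 g1 → IsG (τ₁ ^ 2) H P Q S K G2 g2 →
      (∫ X in Ioi 0, G1 X) * (∫ t, p2 t * (t * G2 (t ^ 2))) *
        (H70.NN y0 H 1 (H70.DD (H70.om P Q S K) H g1) * H70.NN y0 H 2 (H70.DD (H70.om P Q S K) H g2)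
        - H70.NN y0 H 1 (H70.DD (H70.om P Q S K) H g2)
          * H70.NN y0 H 2 (H70.DD (H70.om P Q S K) H g1)) < 0 := by
  obtain ⟨CG1, hG1⟩ := gdata_of_cylSol h1
  obtain ⟨CG2, hG2⟩ := gdata_of_cylSol h2
  set CG := max CG1 CG2 with hCG
  have hG1' : GData G1 CG := hG1.mono (le_max_left _ _)
  have hG2' : GData G2 CG := hG2.mono (le_max_right _ _)
  have hCG0 := hG1'.nonneg
  obtain ⟨m, hm0, hm⟩ := hb.exists_bd
  have hτ := hb.pos'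
  have hτ1 := hb.pos
  have hB0 : 0 ≤ bB m τ₂ := by unfold bB; positivity
  obtain ⟨η₀, hη₀, C, hC0, hmain⟩ := D_expand (bB m τ₂) (min (τ₁ ^ 2) 1) (τ₂ ^ 2) CG hB0
    (by positivity) (min_le_right _ _) (by positivity) hCG0
  set M := ∫ X in Ioi 0, G1 X with hM
  set I := ∫ t, p2 t * (t * G2 (t ^ 2)) with hIdef
  set J1 := ∫ X in Ioi 0, G1 X * p2 (√X) with hJ1
  have hJ2 : ∫ X in Ioi 0, G2 X * p2 (√X) = 2 * I := J_eq hb G2
  set J2 := 2 * I with hJ2def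
  have hJ2ne : J2 ≠ 0 := by rw [hJ2def]; exact mul_ne_zero two_ne_zero hI
  set A := 5 * |J1| + 3 * |M| + 3 * |J2| + 40 * C with hA
  have hA0 : 0 ≤ A := by positivity
  obtain ⟨r₀, hr₀, hsign⟩ := final_sign M J2 A (mul_ne_zero hM1 hJ2ne) hA0
  -- threshold for `r = H^(1/4)`
  set r₁ := max r₀ (max 2 (max (2 * τ₂ ^ 2) (max (m * τ₂) (max (2 / η₀) (40 * (1 + bB m τ₂)))))) with hr₁
  refine ⟨r₁ ^ 4, one_le_pow₀ (hr₀.trans (le_max_left _ _)), ?_⟩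
  intro H hH y0 hy P Q S K hp g1 g2 hg1 hg2
  have hr₁1 : 1 ≤ r₁ := hr₀.trans (le_max_left _ _)
  have hr₁0 : 0 < r₁ := by linarith
  have hH0 : 0 < H := lt_of_lt_of_le (by positivity) hH
  set r := H ^ (1 / 4 : ℝ) with hr
  have hr0 : 0 < r := rpow_pos_of_pos hH0 _
  have hrH : r ^ 4 = H := by
    rw [hr, ← rpow_natCast, ← rpow_mul hH0.le]
    norm_num
  have hr1r : r₁ ≤ r := by
    by_contra hcon
    rw [not_le] at hcon
    have : r ^ 4 < r₁ ^ 4 := pow_lt_pow_left₀ hcon hr0.le (by norm_num)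
    rw [hrH] at this
    linarith
  have hβ : H ^ (-(5 / 4) : ℝ) = 1 / r ^ 5 := by
    rw [hr, ← rpow_natCast, ← rpow_mul hH0.le, rpow_neg hH0.le, one_div]
    norm_num
  rw [hβ] at hp
  clear_value r
  subst hrH
  have q0 : r₀ ≤ r := (le_max_left _ _).trans hr1r
  have q' : max 2 (max (2 * τ₂ ^ 2) (max (m * τ₂) (max (2 / η₀) (40 * (1 + bB m τ₂))))) ≤ r :=
    (le_max_right _ _).trans hr1r
  have q1 : 2 ≤ r := (le_max_left _ _).trans q'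
  have q'' := (le_max_right _ _).trans q'
  have q2 : 2 * τ₂ ^ 2 ≤ r := (le_max_left _ _).trans q''
  have q3' := (le_max_right _ _).trans q''
  have q3 : m * τ₂ ≤ r := (le_max_left _ _).trans q3'
  have q4' := (le_max_right _ _).trans q3'
  have q4 : 2 / η₀ ≤ r := (le_max_left _ _).trans q4'
  have q5 : 40 * (1 + bB m τ₂) ≤ r := (le_max_right _ _).trans q4'
  have hr1 : 1 ≤ r := by linarith
  have hsq : √(r ^ 4) = r ^ 2 := by
    rw [show r ^ 4 = (r ^ 2) ^ 2 by ring, sqrt_sq (by positivity)]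
  have hrr4 : r ≤ r ^ 4 := le_self_pow₀ hr1 (by norm_num)
  have hr4 : 1 < r ^ 4 := by linarith
  have hβ0 : 0 < 1 / r ^ 5 := by positivity
  have hβ1 : 1 / r ^ 5 ≤ 1 := by
    rw [div_le_one (by positivity)]
    exact one_le_pow₀ hr1
  have hβH : 1 / r ^ 5 * (1 + r ^ 4) ≤ 2 / r := by
    rw [div_mul_eq_mul_div, one_mul, div_le_div_iff₀ (by positivity) hr0]
    nlinarith [pow_pos hr0 5, pow_pos hr0 4]
  have hβη : 1 / r ^ 5 * (1 + r ^ 4) ≤ η₀ := by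
    refine hβH.trans ?_
    rw [div_le_iff₀ hr0]
    rwa [div_le_iff₀ hη₀, mul_comm] at q4
  have hsm : 1 / r ^ 5 * (m * τ₂ * √(r ^ 4)) ≤ 1 := by
    rw [hsq]
    calc 1 / r ^ 5 * (m * τ₂ * r ^ 2) ≤ 1 / r ^ 5 * (r * r ^ 2) := by gcongr
      _ = 1 / r ^ 2 := by field_simp
      _ ≤ 1 := by
          rw [div_le_one (by positivity)]
          exact one_le_pow₀ hr1
  have hprof := prof_of hb hm hβ0.le hβ1 hr4.le hsm hp
  have hSmall : Small (1 / r ^ 5) (bB m τ₂) (r ^ 4) := by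
    unfold Small
    rw [hsq]
    have e1 : 1 + r ^ 2 ≤ 1 + r ^ 4 := by
      have : r ^ 2 ≤ r ^ 4 := pow_le_pow_right₀ hr1 (by norm_num)
      linarith
    calc 1 / r ^ 5 * bB m τ₂ * (1 + r ^ 2) ≤ 1 / r ^ 5 * bB m τ₂ * (1 + r ^ 4) := by gcongr
      _ = bB m τ₂ * (1 / r ^ 5 * (1 + r ^ 4)) := by ring
      _ ≤ bB m τ₂ * (2 / r) := by gcongr
      _ ≤ 1 / 20 := by
          rw [mul_div_assoc', div_le_div_iff₀ hr0 (by norm_num)]
          nlinarith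
  -- `DD = DE`
  have hDDE : ∀ g : ℝ → ℝ, ∀ s, r ^ 4 < s → H70.DD (H70.om P Q S K) (r ^ 4) g s
      = DE (fun X => P (√X)) (fun X => Q (√X)) (fun X => S (√X)) (fun X => K (√X)) (r ^ 4) g s := by
    intro g s hs
    unfold H70.DD DE
    apply setIntegral_congr_fun measurableSet_Ioo
    intro X hX
    simp only
    rw [ker_id hprof hβ0.le hB0 hSmall hX (hX.2.trans hs)]
  have hPS : ∀ G g : ℝ → ℝ, IsG (τ₁ ^ 2) (r ^ 4) P Q S K G g → PSol (min (τ₁ ^ 2) 1) (r ^ 4)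
      (fun X => P (√X)) (fun X => Q (√X)) (fun X => S (√X)) (fun X => K (√X)) G g := by
    intro G g hg
    refine ⟨hg.cont, hg.bd, fun X hX => hg.eqG X ⟨hX.1, hX.2.trans_le (min_le_left _ _)⟩, ?_⟩
    filter_upwards [hg.eqn, ae_restrict_mem measurableSet_Ioo] with s hs hs'
    refine Eq.trans ?_ hs
    apply setIntegral_congr_fun measurableSet_Ioo
    intro X hX
    simp only
    rw [ker_id hprof hβ0.le hB0 hSmall ⟨hX.1, hX.2.trans hs'.2⟩ hX.2]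
  have hKint : ∀ G : ℝ → ℝ, ∫ X in Ioo 0 (r ^ 4), G X * K (√X)
      = 1 / r ^ 5 * ∫ X in Ioi 0, G X * p2 (√X) := by
    intro G
    have e1 : ∫ X in Ioo 0 (r ^ 4), G X * K (√X)
        = ∫ X in Ioo 0 (r ^ 4), 1 / r ^ 5 * (G X * p2 (√X)) := by
      apply setIntegral_congr_fun measurableSet_Ioo
      intro X hX
      simp only
      rw [hp.eK _ (sqrt_mem hX)]
      ring
    rw [e1, integral_const_mul]
    congr 1
    refine (setIntegral_eq_of_subset_of_forall_sdiff_eq_zero measurableSet_Ioi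
      (Ioo_subset_Ioi_self) ?_).symm
    intro X hX
    have hX0 : 0 < X := hX.1
    have hXH : r ^ 4 ≤ X := by
      by_contra hcon
      exact hX.2 ⟨hX0, not_le.1 hcon⟩
    have h3 : τ₂ < √X := by
      apply Real.lt_sqrt_of_sq_lt
      have : 0 < τ₂ ^ 2 := by positivity
      linarith
    rw [hb.off _ (fun hh => absurd hh.2 (not_le.2 h3)), mul_zero]
  have hD1 : ∀ s, r ^ 4 < s → |H70.DD (H70.om P Q S K) (r ^ 4) g1 s
      - (M / s ^ 2 + 1 / r ^ 5 * J1 / s)| ≤ C * EE (1 / r ^ 5) (r ^ 4) s := by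
    intro s hs
    have := hmain (1 / r ^ 5) (r ^ 4) hβ0 hr4 (by linarith) hβη _ _ _ _ hprof G1 g1 hG1'
      (by filter_upwards [ae_restrict_mem measurableSet_Ioo] with s hs'
          exact cyl_eq h1 s hs'.1) (hPS G1 g1 hg1) s hs
    rw [hKint G1] at this
    rw [hDDE g1 s hs]
    exact this
  have hD2 : ∀ s, r ^ 4 < s → |H70.DD (H70.om P Q S K) (r ^ 4) g2 s
      - (0 / s ^ 2 + 1 / r ^ 5 * J2 / s)| ≤ C * EE (1 / r ^ 5) (r ^ 4) s := by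
    intro s hs
    have := hmain (1 / r ^ 5) (r ^ 4) hβ0 hr4 (by linarith) hβη _ _ _ _ hprof G2 g2 hG2'
      (by filter_upwards [ae_restrict_mem measurableSet_Ioo] with s hs'
          exact cyl_eq h2 s hs'.1) (hPS G2 g2 hg2) s hs
    rw [hKint G2, hM2, hJ2] at this
    rw [hDDE g2 s hs]
    exact this
  have m1 := DD_aesm hp.mP hp.mQ hp.mS hp.mK hg1.cont (volume.restrict (Ioi (r ^ 4)))
  have m2 := DD_aesm hp.mP hp.mQ hp.mS hp.mK hg2.cont (volume.restrict (Ioi (r ^ 4)))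
  have x1 := NN_expand hr1 hy hC0 m1 hD1 1 (Or.inl rfl)
  have x2 := NN_expand hr1 hy hC0 m1 hD1 2 (Or.inr rfl)
  have y1 := NN_expand hr1 hy hC0 m2 hD2 1 (Or.inl rfl)
  have y2 := NN_expand hr1 hy hC0 m2 hD2 2 (Or.inr rfl)
  set X1 := H70.NN y0 (r ^ 4) 1 (H70.DD (H70.om P Q S K) (r ^ 4) g1)
  set X2 := H70.NN y0 (r ^ 4) 2 (H70.DD (H70.om P Q S K) (r ^ 4) g1)
  set Y1 := H70.NN y0 (r ^ 4) 1 (H70.DD (H70.om P Q S K) (r ^ 4) g2)
  set Y2 := H70.NN y0 (r ^ 4) 2 (H70.DD (H70.om P Q S K) (r ^ 4) g2)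
  have nJ1 := abs_nonneg J1
  have nJ2 := abs_nonneg J2
  have nM := abs_nonneg M
  have X1' : |X1 * r ^ 6 - M * bb 3| ≤ A / r := scaleX1 hr1 hC0 (by rw [hA]; linarith) x1
  have X2' : |X2 * r ^ 10 - M * bb 4| ≤ A / r := scaleX2 hr1 hC0 (by rw [hA]; linarith) x2
  have Y1' : |Y1 * r ^ 7 - J2 * bb 2| ≤ A / r := scaleY1 hr1 hC0 (by rw [hA]; linarith) y1
  have Y2' : |Y2 * r ^ 11 - J2 * bb 3| ≤ A / r := scaleY2 hr1 hC0 (by rw [hA]; linarith) y2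
  have hfin := hsign r q0 X1 X2 Y1 Y2 X1' X2' Y1' Y2'
  have e : M * J2 * (X1 * Y2 - Y1 * X2) = 2 * (M * I * (X1 * Y2 - Y1 * X2)) := by
    rw [hJ2def]; ring
  rw [e] at hfin
  linarith

end Pool.Agent.Lib.MP_85963d_gt.H31
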