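import Pool.Agent.Lib.MP_85963d_gt.H31.AsyI

/-! The data of the body at the junction point `t = √H` (Paper (10.2)). -/

set_option autoImplicit false
open Set MeasureTheory Real Filter Topology

noncomputable section
namespace Pool.Agent.Lib.MP_85963d_gt.H31

/-- bounds for the profile on the whole closed interval `[0, √H]`, for large `H`. -/
theorem profile_bounds {τ₁ τ₂ : ℝ} {p2 : ℝ → ℝ} (hb : Bump τ₁ τ₂ p2) :
    ∃ H₁ : ℝ, 1 ≤ H₁ ∧ ∀ H, H₁ ≤ H → ∀ t ∈ Icc 0 (√H), ∀ P Q S : ℝ,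
      P = 1 + H ^ (-(5 / 4) : ℝ) * pf0 p2 t → Q = H ^ (-(5 / 4) : ℝ) * pf1 p2 t →
      S = P - t * Q →
      1 ≤ P ∧ P ≤ 2 ∧ 0 ≤ Q ∧ Q ≤ 1 / 8 ∧ 7 / 8 ≤ S ∧ S ≤ 1 ∧
        |P ^ 2 / (S ^ 2 + Q ^ 2) - 1| ≤ 1 / 2 ∧
        (t = √H → √(S ^ 2 + Q ^ 2) < t * S - Q) := by
  obtain ⟨m, hm0, hm⟩ := hb.exists_bd
  have hτ := hb.pos'
  set k := m * τ₂ with hk
  have hk0 : 0 ≤ k := by positivity
  set r₁ := max 16 (max (16 * k) (16 * (k * τ₂))) with hr₁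
  have hr₁16 : 16 ≤ r₁ := le_max_left _ _
  refine ⟨r₁ ^ 4, one_le_pow₀ (by linarith), ?_⟩
  intro H hH t ht P Q S hP hQ hS
  have hH0 : 0 < H := lt_of_lt_of_le (by positivity) hH
  set r := H ^ (1 / 4 : ℝ) with hr
  have hr0 : 0 < r := rpow_pos_of_pos hH0 _
  have hrH : r ^ 4 = H := by
    rw [hr, ← rpow_natCast, ← rpow_mul hH0.le]
    norm_num
  have hr1r : r₁ ≤ r := by
    by_contra hcon
    rw [not_le] at hcon
    have : r ^ 4 < r₁ ^ 4 := pow_lt_pow_left₀ hcon hr0.le (by norm_num)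
    rw [hrH] at this
    linarith
  have hβ : H ^ (-(5 / 4) : ℝ) = 1 / r ^ 5 := by
    rw [hr, ← rpow_natCast, ← rpow_mul hH0.le, rpow_neg hH0.le, one_div]
    norm_num
  rw [hβ] at hP hQ
  clear_value r
  subst hrH
  have q1 : 16 ≤ r := hr₁16.trans hr1r
  have q' := (le_max_right _ _).trans hr1r
  have q2 : 16 * k ≤ r := (le_max_left _ _).trans q'
  have q3 : 16 * (k * τ₂) ≤ r := (le_max_right _ _).trans q'
  have hr1 : 1 ≤ r := by linarith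
  have hsq : √(r ^ 4) = r ^ 2 := by
    rw [show r ^ 4 = (r ^ 2) ^ 2 by ring, sqrt_sq (by positivity)]
  rw [hsq] at ht ⊢
  obtain ⟨a1, a2⟩ := hb.pf1_bd hm ht.1
  obtain ⟨b1, b2⟩ := hb.pf0_bd hm ht.1
  obtain ⟨c1, c2⟩ := hb.mul_sub hm ht.1
  set x := pf0 p2 t
  set y := pf1 p2 t
  set v := t * y - x with hv
  have hβ0 : 0 < 1 / r ^ 5 := by positivity
  have hr5 : r * r ^ 4 = r ^ 5 := by ring
  have hr41 : 1 ≤ r ^ 4 := one_le_pow₀ hr1
  have hr21 : 1 ≤ r ^ 2 := one_le_pow₀ hr1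
  have f1 : 1 / r ^ 5 * x ≤ 1 / 16 := by
    calc 1 / r ^ 5 * x ≤ 1 / r ^ 5 * (k * t) := by gcongr
      _ ≤ 1 / r ^ 5 * (r / 16 * r ^ 2) := by
          have h1 : k ≤ r / 16 := by linarith
          have h2 : k * t ≤ r / 16 * r ^ 2 := mul_le_mul h1 ht.2 ht.1 (by positivity)
          gcongr
      _ = 1 / 16 * (1 / r ^ 2) := by field_simp
      _ ≤ 1 / 16 * 1 := by
          gcongr
          rw [div_le_one (by positivity)]
          exact hr21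
      _ = _ := by norm_num
  have f2 : 1 / r ^ 5 * y ≤ 1 / 16 := by
    calc 1 / r ^ 5 * y ≤ 1 / r ^ 5 * (r / 16) := by gcongr; linarith
      _ = 1 / 16 * (1 / r ^ 4) := by field_simp
      _ ≤ 1 / 16 * 1 := by
          gcongr
          rw [div_le_one (by positivity)]
          exact hr41
      _ = _ := by norm_num
  have f3 : 1 / r ^ 5 * v ≤ 1 / 16 := by
    calc 1 / r ^ 5 * v ≤ 1 / r ^ 5 * (r / 16) := by
          gcongr
          have : m * τ₂ * τ₂ = k * τ₂ := rfl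
          linarith
      _ = 1 / 16 * (1 / r ^ 4) := by field_simp
      _ ≤ 1 / 16 * 1 := by
          gcongr
          rw [div_le_one (by positivity)]
          exact hr41
      _ = _ := by norm_num
  have g1 : 0 ≤ 1 / r ^ 5 * x := by positivity
  have g2 : 0 ≤ 1 / r ^ 5 * y := by positivity
  have g3 : 0 ≤ 1 / r ^ 5 * v := by positivity
  have hSv : S = 1 - 1 / r ^ 5 * v := by rw [hS, hP, hQ, hv]; ring
  have hP1 : 1 ≤ P := by rw [hP]; linarith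
  have hP2 : P ≤ 17 / 16 := by rw [hP]; linarith
  have hQ0 : 0 ≤ Q := by rw [hQ]; exact g2
  have hQ1 : Q ≤ 1 / 16 := by rw [hQ]; exact f2
  have hS0 : 15 / 16 ≤ S := by rw [hSv]; linarith
  have hS1 : S ≤ 1 := by rw [hSv]; linarith
  have hSQ : 0 < S ^ 2 + Q ^ 2 := by positivity
  have hS2 : S ^ 2 ≤ 1 := pow_le_one₀ (by linarith) hS1
  have hS2' : (15 / 16) ^ 2 ≤ S ^ 2 := pow_le_pow_left₀ (by norm_num) hS0 2
  have hQ2 : Q ^ 2 ≤ (1 / 16) ^ 2 := pow_le_pow_left₀ hQ0 hQ1 2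
  have hQ2' : 0 ≤ Q ^ 2 := by positivity
  have hP2' : P ^ 2 ≤ (17 / 16) ^ 2 := pow_le_pow_left₀ (by linarith) hP2 2
  have hP2'' : 1 ≤ P ^ 2 := one_le_pow₀ hP1
  refine ⟨hP1, by linarith, hQ0, by linarith, by linarith, hS1, ?_, ?_⟩
  · have e : P ^ 2 / (S ^ 2 + Q ^ 2) - 1 = (P ^ 2 - (S ^ 2 + Q ^ 2)) / (S ^ 2 + Q ^ 2) := by
      field_simp
    rw [e, abs_div, abs_of_pos hSQ, div_le_iff₀ hSQ, abs_le]
    norm_num at hS2' hQ2 hP2'
    constructor <;> linarith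
  · intro hte
    have hr22 : 16 * 16 ≤ t := by
      rw [hte]; nlinarith
    have h1 : (200 : ℝ) ≤ t * S - Q := by
      have : 16 * 16 * (15 / 16) ≤ t * S := mul_le_mul hr22 hS0 (by norm_num) (by linarith)
      linarith
    rw [sqrt_lt' (by linarith)]
    have h2 : (200 : ℝ) ^ 2 ≤ (t * S - Q) ^ 2 := pow_le_pow_left₀ (by norm_num) h1 2
    norm_num at hQ2 h2
    linarith

end Pool.Agent.Lib.MP_85963d_gt.H31
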