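import Mathlib

/-! Gardner's problem, sections 9 and 10: the `B`-transform.

`B[f](D) = ∫_0^D L(D-Y) Y^{-1/2} f(Y) dY` with `f(Y) = (1+Y)^{-3/2} φ(Y)` and
`L(s) = (1/π) sqrt((1+s)/s)` equals `(2/π) ∫_0^{π/2} Rt(D,b) φ(Yb(D,b)) db`. -/

set_option autoImplicit false
open Set MeasureTheory Real

noncomputable section
namespace Pool.Agent.Lib.MP_85963d_gt.H31

/-- The kernel `Y^{-1/2}(1+Y)^{-3/2}` of the cylinder. -/
def Kc (Y : ℝ) : ℝ := 1 / (√Y * ((1 + Y) * √(1 + Y)))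

/-- `L(s) = (1/π) sqrt((1+s)/s)`. -/
def Lk (s : ℝ) : ℝ := (1 / π) * √((1 + s) / s)

def Yb (D b : ℝ) : ℝ := D * sin b ^ 2 / (1 + D * cos b ^ 2)

def Rt (D b : ℝ) : ℝ := √(cos b ^ 2 + sin b ^ 2 / (1 + D) ^ 2)

lemma cs (b : ℝ) : cos b ^ 2 = 1 - sin b ^ 2 := by
  have := sin_sq_add_cos_sq b; linarith

lemma m_pos {D : ℝ} (hD : 0 ≤ D) (b : ℝ) : 0 < 1 + D * cos b ^ 2 := by positivity

lemma Yb_nonneg {D : ℝ} (hD : 0 ≤ D) (b : ℝ) : 0 ≤ Yb D b := by
  unfold Yb; positivity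

lemma one_add_Yb {D : ℝ} (hD : 0 ≤ D) (b : ℝ) : 1 + Yb D b = (1 + D) / (1 + D * cos b ^ 2) := by
  have := m_pos hD b
  unfold Yb
  field_simp
  rw [cs b]; ring

lemma sub_Yb {D : ℝ} (hD : 0 ≤ D) (b : ℝ) :
    D - Yb D b = D * (1 + D) * cos b ^ 2 / (1 + D * cos b ^ 2) := by
  have := m_pos hD b
  unfold Yb
  field_simp
  rw [cs b]; ring

lemma Yb_le {D : ℝ} (hD : 0 ≤ D) (b : ℝ) : Yb D b ≤ D := by
  have h := sub_Yb hD b
  have h2 : 0 ≤ D * (1 + D) * cos b ^ 2 / (1 + D * cos b ^ 2) := by positivity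
  linarith

lemma Rt_nonneg (D b : ℝ) : 0 ≤ Rt D b := sqrt_nonneg _

lemma Rt_sq {D : ℝ} (hD : 0 ≤ D) (b : ℝ) : Rt D b ^ 2 = cos b ^ 2 + sin b ^ 2 / (1 + D) ^ 2 := by
  unfold Rt; rw [sq_sqrt (by positivity)]

lemma Rt_rad_pos {D : ℝ} (hD : 0 ≤ D) (b : ℝ) : 0 < cos b ^ 2 + sin b ^ 2 / (1 + D) ^ 2 := by
  rw [cs b]
  have h1 : 0 ≤ sin b ^ 2 := by positivity
  have h2 : sin b ^ 2 ≤ 1 := sin_sq_le_one b
  rcases eq_or_lt_of_le h2 with h | h
  · rw [h]; positivity
  · have : 0 ≤ sin b ^ 2 / (1 + D) ^ 2 := by positivity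
    linarith

lemma Rt_pos {D : ℝ} (hD : 0 ≤ D) (b : ℝ) : 0 < Rt D b := sqrt_pos.2 (Rt_rad_pos hD b)

lemma Rt_le_one {D : ℝ} (hD : 0 ≤ D) (b : ℝ) : Rt D b ≤ 1 := by
  unfold Rt
  rw [← Real.sqrt_one]
  apply Real.sqrt_le_sqrt
  have h2 : sin b ^ 2 / (1 + D) ^ 2 ≤ sin b ^ 2 := by
    apply div_le_self (by positivity)
    nlinarith
  rw [cs b]; linarith

lemma Rt_zero (b : ℝ) : Rt 0 b = 1 := by
  unfold Rt; simp [cos_sq_add_sin_sq]

lemma Yb_zero (b : ℝ) : Yb 0 b = 0 := by simp [Yb]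

/-- derivative in the angle -/
lemma hasDerivAt_Yb_angle {D : ℝ} (hD : 0 ≤ D) (b : ℝ) :
    HasDerivAt (Yb D) (2 * D * (1 + D) * sin b * cos b / (1 + D * cos b ^ 2) ^ 2) b := by
  have hm := m_pos hD b
  have h1 : HasDerivAt (fun b => D * sin b ^ 2) (D * (2 * sin b * cos b)) b :=
    (((hasDerivAt_sin b).pow 2).const_mul D).congr_deriv (by norm_num)
  have h2 : HasDerivAt (fun b => 1 + D * cos b ^ 2) (D * (2 * cos b * (-sin b))) b :=
    ((((hasDerivAt_cos b).pow 2).const_mul D).const_add 1).congr_deriv (by norm_num)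
  refine (h1.div h2 hm.ne').congr_deriv ?_
  congr 1
  have : cos b ^ 2 = 1 - sin b ^ 2 := cs b
  linear_combination (2 * D * sin b * cos b * D) * this

/-- derivatives in `D` -/
lemma hasDerivAt_Yb {D : ℝ} (hD : 0 ≤ D) (b : ℝ) :
    HasDerivAt (fun D => Yb D b) (sin b ^ 2 / (1 + D * cos b ^ 2) ^ 2) D := by
  have hm := m_pos hD b
  have h1 : HasDerivAt (fun D : ℝ => D * sin b ^ 2) (sin b ^ 2) D :=
    ((hasDerivAt_id D).mul_const (sin b ^ 2)).congr_deriv (by simp)
  have h2 : HasDerivAt (fun D : ℝ => 1 + D * cos b ^ 2) (cos b ^ 2) D :=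
    (((hasDerivAt_id D).mul_const (cos b ^ 2)).const_add 1).congr_deriv (by simp)
  refine (h1.div h2 hm.ne').congr_deriv ?_
  congr 1
  ring

/-- `-∂_D Rt`. -/
def dRt (D b : ℝ) : ℝ := sin b ^ 2 / ((1 + D) ^ 3 * Rt D b)

lemma hasDerivAt_Rt {D : ℝ} (hD : 0 ≤ D) (b : ℝ) :
    HasDerivAt (fun D => Rt D b) (-dRt D b) D := by
  have hp := Rt_rad_pos hD b
  have h0 : HasDerivAt (fun D : ℝ => (1 + D)) 1 D :=
    ((hasDerivAt_id D).const_add 1).congr_deriv (by simp)
  have h1 : HasDerivAt (fun D : ℝ => (1 + D) ^ 2) (2 * (1 + D)) D :=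
    (h0.pow 2).congr_deriv (by norm_num)
  have h2 : HasDerivAt (fun D : ℝ => cos b ^ 2 + sin b ^ 2 / (1 + D) ^ 2)
      (-(2 * sin b ^ 2 / (1 + D) ^ 3)) D := by
    have := (((hasDerivAt_const D (sin b ^ 2)).div h1 (by positivity)).const_add (cos b ^ 2))
    refine this.congr_deriv ?_
    have : (1 + D) ≠ 0 := by positivity
    field_simp
    ring
  refine (h2.sqrt hp.ne').congr_deriv ?_
  unfold dRt
  have : Rt D b ≠ 0 := (Rt_pos hD b).ne'
  change _ / (2 * Rt D b) = _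
  have : (1 + D) ≠ 0 := by positivity
  field_simp

lemma dRt_nonneg {D : ℝ} (hD : 0 ≤ D) (b : ℝ) : 0 ≤ dRt D b := by
  unfold dRt
  have := Rt_nonneg D b
  positivity

lemma abs_sin_le_Rt {D : ℝ} (hD : 0 ≤ D) (b : ℝ) : |sin b| ≤ (1 + D) * Rt D b := by
  have h : |sin b / (1 + D)| ≤ Rt D b := by
    apply Real.abs_le_sqrt
    rw [div_pow]
    have : 0 ≤ cos b ^ 2 := by positivity
    linarith
  have h1 : 0 < 1 + D := by positivity
  rw [abs_div, abs_of_pos h1, div_le_iff₀ h1] at h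
  linarith

lemma Rt_le {D : ℝ} (hD : 0 ≤ D) (b : ℝ) : Rt D b ≤ |cos b| + |sin b| / (1 + D) := by
  have h1 : 0 < 1 + D := by positivity
  apply Real.sqrt_le_iff.2 ⟨by positivity, ?_⟩
  have h2 : sin b ^ 2 / (1 + D) ^ 2 = (|sin b| / (1 + D)) ^ 2 := by rw [div_pow, sq_abs]
  rw [h2, ← sq_abs (cos b)]
  have : 0 ≤ |cos b| * (|sin b| / (1 + D)) := by positivity
  nlinarith

lemma dRt_le {D : ℝ} (hD : 0 ≤ D) (b : ℝ) : dRt D b ≤ |sin b| / (1 + D) ^ 2 := by
  unfold dRt
  have h1 : 0 < 1 + D := by positivity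
  have hR := Rt_pos hD b
  rw [div_le_div_iff₀ (by positivity) (by positivity)]
  have h := abs_sin_le_Rt hD b
  have h3 : sin b ^ 2 = |sin b| * |sin b| := by rw [← sq, sq_abs]
  rw [h3]
  have h4 := mul_le_mul_of_nonneg_left h (abs_nonneg (sin b))
  calc |sin b| * |sin b| * (1 + D) ^ 2 ≤ |sin b| * ((1 + D) * Rt D b) * (1 + D) ^ 2 := by
        gcongr
    _ = |sin b| * ((1 + D) ^ 3 * Rt D b) := by ring

/-! ## Continuity -/

lemma continuousOn_Rt : ContinuousOn (fun p : ℝ × ℝ => Rt p.1 p.2) {p | 0 ≤ p.1} := by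
  unfold Rt
  apply ContinuousOn.sqrt
  apply ContinuousOn.add
  · fun_prop
  · apply ContinuousOn.div
    · fun_prop
    · fun_prop
    · intro p hp
      have : (0 : ℝ) ≤ p.1 := hp
      positivity

lemma continuousOn_Yb : ContinuousOn (fun p : ℝ × ℝ => Yb p.1 p.2) {p | 0 ≤ p.1} := by
  unfold Yb
  apply ContinuousOn.div
  · fun_prop
  · fun_prop
  · intro p hp
    exact (m_pos hp p.2).ne'

lemma continuousOn_dRt : ContinuousOn (fun p : ℝ × ℝ => dRt p.1 p.2) {p | 0 ≤ p.1} := by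
  unfold dRt
  apply ContinuousOn.div
  · fun_prop
  · apply ContinuousOn.mul
    · fun_prop
    · exact continuousOn_Rt
  · intro p hp
    have : (0 : ℝ) ≤ p.1 := hp
    have := Rt_pos hp p.2
    positivity

lemma continuous_Rt_right {D : ℝ} (hD : 0 ≤ D) : Continuous (Rt D) := by
  have := continuousOn_Rt.comp_continuous (f := fun b : ℝ => (D, b)) (by fun_prop) (fun b => hD)
  exact this

lemma continuous_Yb_right {D : ℝ} (hD : 0 ≤ D) : Continuous (Yb D) := by
  have := continuousOn_Yb.comp_continuous (f := fun b : ℝ => (D, b)) (by fun_prop) (fun b => hD)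
  exact this

lemma continuous_dRt_right {D : ℝ} (hD : 0 ≤ D) : Continuous (dRt D) := by
  have := continuousOn_dRt.comp_continuous (f := fun b : ℝ => (D, b)) (by fun_prop) (fun b => hD)
  exact this

/-! ## Change of variables -/

lemma sin_pos_Ioo {b : ℝ} (hb : b ∈ Ioo 0 (π / 2)) : 0 < sin b :=
  sin_pos_of_pos_of_lt_pi hb.1 (by linarith [hb.2, pi_pos])

lemma cos_pos_Ioo {b : ℝ} (hb : b ∈ Ioo 0 (π / 2)) : 0 < cos b :=
  cos_pos_of_mem_Ioo ⟨by linarith [hb.1, pi_pos], hb.2⟩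

lemma image_Yb {D : ℝ} (hD : 0 < D) : Yb D '' Ioo 0 (π / 2) = Ioo 0 D := by
  have hmono : StrictMonoOn (Yb D) (Icc 0 (π / 2)) := by
    apply strictMonoOn_of_deriv_pos (convex_Icc _ _) (continuous_Yb_right hD.le).continuousOn
    intro b hb
    rw [interior_Icc] at hb
    rw [(hasDerivAt_Yb_angle hD.le b).deriv]
    have := sin_pos_Ioo hb
    have := cos_pos_Ioo hb
    have := m_pos hD.le b
    positivity
  have h0 : Yb D 0 = 0 := by simp [Yb]
  have h1 : Yb D (π / 2) = D := by simp [Yb]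
  apply Subset.antisymm
  · rintro _ ⟨b, hb, rfl⟩
    have hb' := Ioo_subset_Icc_self hb
    constructor
    · rw [← h0]
      exact hmono (left_mem_Icc.2 (by positivity)) hb' hb.1
    · nth_rewrite 2 [← h1]
      exact hmono hb' (right_mem_Icc.2 (by positivity)) hb.2
  · intro y hy
    have := intermediate_value_Ioo (by positivity : (0 : ℝ) ≤ π / 2)
      (continuous_Yb_right hD.le).continuousOn
    rw [h0, h1] at this
    exact this hy

lemma injOn_Yb {D : ℝ} (hD : 0 < D) : InjOn (Yb D) (Ioo 0 (π / 2)) := by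
  have hmono : StrictMonoOn (Yb D) (Icc 0 (π / 2)) := by
    apply strictMonoOn_of_deriv_pos (convex_Icc _ _) (continuous_Yb_right hD.le).continuousOn
    intro b hb
    rw [interior_Icc] at hb
    rw [(hasDerivAt_Yb_angle hD.le b).deriv]
    have := sin_pos_Ioo hb
    have := cos_pos_Ioo hb
    have := m_pos hD.le b
    positivity
  exact (hmono.mono Ioo_subset_Icc_self).injOn

lemma jac {D : ℝ} (hD : 0 < D) {b : ℝ} (hb : b ∈ Ioo 0 (π / 2)) :
    |2 * D * (1 + D) * sin b * cos b / (1 + D * cos b ^ 2) ^ 2| *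
      (Lk (D - Yb D b) * Kc (Yb D b)) = (2 / π) * Rt D b := by
  have hs := sin_pos_Ioo hb
  have hc := cos_pos_Ioo hb
  have hm := m_pos hD.le b
  have hR := Rt_pos hD.le b
  have h1D : 0 < 1 + D := by positivity
  rw [abs_of_pos (by positivity)]
  have e1 : Lk (D - Yb D b) = (1 / π) * (Rt D b * √((1 + D) / D) / cos b) := by
    unfold Lk
    congr 1
    rw [sub_Yb hD.le]
    have : (1 + D * (1 + D) * cos b ^ 2 / (1 + D * cos b ^ 2)) /
        (D * (1 + D) * cos b ^ 2 / (1 + D * cos b ^ 2))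
        = (Rt D b / cos b) ^ 2 * ((1 + D) / D) := by
      rw [div_pow, Rt_sq hD.le, cs b]
      have hc2 : 1 - sin b ^ 2 ≠ 0 := by rw [← cs b]; positivity
      have hm2 : 1 + D * (1 - sin b ^ 2) ≠ 0 := by rw [← cs b]; positivity
      field_simp
      ring
    rw [this, sqrt_mul (by positivity), sqrt_sq (by positivity)]
    ring
  have e2 : Kc (Yb D b) = (1 + D * cos b ^ 2) ^ 2 / (√D * sin b * ((1 + D) * √(1 + D))) := by
    unfold Kc
    rw [one_add_Yb hD.le]
    have : √(Yb D b) = √D * sin b / √(1 + D * cos b ^ 2) := by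
      unfold Yb
      rw [sqrt_div (by positivity), sqrt_mul hD.le, sqrt_sq hs.le]
    rw [this, sqrt_div h1D.le]
    have hq : √(1 + D * cos b ^ 2) ^ 2 = 1 + D * cos b ^ 2 := sq_sqrt hm.le
    have hq0 : 0 < √(1 + D * cos b ^ 2) := sqrt_pos.2 hm
    have hsD : 0 < √D := sqrt_pos.2 hD
    have hs1 : 0 < √(1 + D) := sqrt_pos.2 h1D
    rw [div_eq_div_iff (by positivity) (by positivity)]
    field_simp
    rw [hq]
  rw [e1, e2, sqrt_div h1D.le]
  have hsD : 0 < √D := sqrt_pos.2 hD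
  have hs1 : 0 < √(1 + D) := sqrt_pos.2 h1D
  have hq : √D ^ 2 = D := sq_sqrt hD.le
  have := pi_pos
  field_simp
  rw [hq]

theorem integral_LK {D : ℝ} (hD : 0 < D) (g : ℝ → ℝ) :
    ∫ Y in Ioo 0 D, Lk (D - Y) * Kc Y * g Y = (2 / π) * ∫ b in Ioo 0 (π / 2), Rt D b * g (Yb D b) := by
  have h := integral_image_eq_integral_abs_deriv_smul (s := Ioo 0 (π / 2)) (f := Yb D)
    (f' := fun b => 2 * D * (1 + D) * sin b * cos b / (1 + D * cos b ^ 2) ^ 2)
    measurableSet_Ioo (fun b _ => (hasDerivAt_Yb_angle hD.le b).hasDerivWithinAt) (injOn_Yb hD)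
    (fun Y => Lk (D - Y) * Kc Y * g Y)
  rw [image_Yb hD] at h
  rw [h, ← integral_const_mul]
  apply setIntegral_congr_fun measurableSet_Ioo
  intro b hb
  simp only [smul_eq_mul]
  rw [← mul_assoc, jac hD hb]
  ring

theorem integrableOn_LK {D : ℝ} (hD : 0 < D) (g : ℝ → ℝ) :
    IntegrableOn (fun Y => Lk (D - Y) * Kc Y * g Y) (Ioo 0 D) ↔
      IntegrableOn (fun b => Rt D b * g (Yb D b)) (Ioo 0 (π / 2)) := by
  have h := integrableOn_image_iff_integrableOn_abs_deriv_smul (s := Ioo 0 (π / 2)) (f := Yb D)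
    (f' := fun b => 2 * D * (1 + D) * sin b * cos b / (1 + D * cos b ^ 2) ^ 2)
    measurableSet_Ioo (fun b _ => (hasDerivAt_Yb_angle hD.le b).hasDerivWithinAt) (injOn_Yb hD)
    (fun Y => Lk (D - Y) * Kc Y * g Y)
  rw [image_Yb hD] at h
  rw [h]
  have h2 : IntegrableOn (fun b => (2 / π) * (Rt D b * g (Yb D b))) (Ioo 0 (π / 2)) ↔
      IntegrableOn (fun b => Rt D b * g (Yb D b)) (Ioo 0 (π / 2)) := by
    constructor
    · intro h
      have := h.const_mul (π / 2)
      refine this.congr (Filter.Eventually.of_forall fun b => ?_)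
      have := pi_pos
      simp only
      field_simp
    · intro h
      exact h.const_mul _
  rw [← h2]
  apply integrableOn_congr_fun _ measurableSet_Ioo
  intro b hb
  simp only [smul_eq_mul]
  rw [← mul_assoc, jac hD hb]
  ring

/-! ## The function `eK = |eps'|` -/

/-- `eK(D) = |eps'(D)|`. -/
def eK (D : ℝ) : ℝ := (2 / π) * ∫ b in Ioo 0 (π / 2), dRt D b

lemma integrableOn_cont {f : ℝ → ℝ} (hf : Continuous f) (a b : ℝ) : IntegrableOn f (Ioo a b) :=
  (hf.integrableOn_Icc (a := a) (b := b)).mono_set Ioo_subset_Icc_self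

lemma eK_nonneg {D : ℝ} (hD : 0 ≤ D) : 0 ≤ eK D := by
  unfold eK
  apply mul_nonneg (by positivity)
  exact integral_nonneg fun b => dRt_nonneg hD b

lemma integral_sin_Ioo : ∫ b in Ioo 0 (π / 2), sin b = 1 := by
  rw [← integral_Ioc_eq_integral_Ioo, ← intervalIntegral.integral_of_le (by positivity),
    integral_sin]
  simp

lemma integral_cos_Ioo : ∫ b in Ioo 0 (π / 2), cos b = 1 := by
  rw [← integral_Ioc_eq_integral_Ioo, ← intervalIntegral.integral_of_le (by positivity),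
    integral_cos]
  simp

lemma integral_one_Ioo (c : ℝ) : ∫ _b in Ioo 0 (π / 2), c = (π / 2) * c := by
  rw [← integral_Ioc_eq_integral_Ioo, ← intervalIntegral.integral_of_le (by positivity)]
  simp

lemma eK_le {D : ℝ} (hD : 0 ≤ D) : eK D ≤ (2 / π) / (1 + D) ^ 2 := by
  unfold eK
  have h : ∫ b in Ioo 0 (π / 2), dRt D b ≤ ∫ b in Ioo 0 (π / 2), sin b / (1 + D) ^ 2 := by
    apply setIntegral_mono_on (integrableOn_cont (continuous_dRt_right hD) _ _)
      (integrableOn_cont (by fun_prop) _ _) measurableSet_Ioo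
    intro b hb
    have := dRt_le hD b
    rwa [abs_of_pos (sin_pos_Ioo hb)] at this
  rw [integral_div, integral_sin_Ioo] at h
  calc (2 / π) * ∫ b in Ioo 0 (π / 2), dRt D b ≤ (2 / π) * (1 / (1 + D) ^ 2) := by gcongr
    _ = _ := by ring

lemma two_div_pi_le : 2 / π ≤ 1 := by
  rw [div_le_one pi_pos]; exact two_le_pi

lemma eK_le_one {D : ℝ} (hD : 0 ≤ D) : eK D ≤ 1 := by
  refine (eK_le hD).trans ?_
  rw [div_le_one (by positivity)]
  have := two_div_pi_le
  nlinarith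

/-- `∂_D (Rt f(Yb))`. -/
def dInt (f f' : ℝ → ℝ) (D b : ℝ) : ℝ :=
  -dRt D b * f (Yb D b) + Rt D b * (f' (Yb D b) * (sin b ^ 2 / (1 + D * cos b ^ 2) ^ 2))

/-- The derivative of the `B`-transform. -/
def kern1 (f f' : ℝ → ℝ) (D : ℝ) : ℝ := (2 / π) * ∫ b in Ioo 0 (π / 2), dInt f f' D b

/-- The `B`-transform in the angle variable. -/
def Bt (f : ℝ → ℝ) (D : ℝ) : ℝ := (2 / π) * ∫ b in Ioo 0 (π / 2), Rt D b * f (Yb D b)

lemma Yb_pos {D : ℝ} (hD : 0 < D) {b : ℝ} (hb : b ∈ Ioo 0 (π / 2)) : 0 < Yb D b := by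
  have : Yb D b ∈ Ioo 0 D := by rw [← image_Yb hD]; exact mem_image_of_mem _ hb
  exact this.1

lemma Yb_lt {D : ℝ} (hD : 0 < D) {b : ℝ} (hb : b ∈ Ioo 0 (π / 2)) : Yb D b < D := by
  have : Yb D b ∈ Ioo 0 D := by rw [← image_Yb hD]; exact mem_image_of_mem _ hb
  exact this.2

lemma continuousOn_dInt {f f' : ℝ → ℝ} {D₀ : ℝ} (hf : ContinuousOn f (Icc 0 D₀))
    (hf' : ContinuousOn f' (Icc 0 D₀)) :
    ContinuousOn (fun p : ℝ × ℝ => dInt f f' p.1 p.2) (Icc 0 D₀ ×ˢ univ) := by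
  have hsub : (Icc 0 D₀ ×ˢ univ : Set (ℝ × ℝ)) ⊆ {p | 0 ≤ p.1} := fun p hp => hp.1.1
  have hY : ContinuousOn (fun p : ℝ × ℝ => Yb p.1 p.2) (Icc 0 D₀ ×ˢ univ) :=
    continuousOn_Yb.mono hsub
  have hmaps : MapsTo (fun p : ℝ × ℝ => Yb p.1 p.2) (Icc 0 D₀ ×ˢ univ) (Icc 0 D₀) := fun p hp =>
    ⟨Yb_nonneg hp.1.1 _, (Yb_le hp.1.1 _).trans hp.1.2⟩
  unfold dInt
  apply ContinuousOn.add
  · exact (continuousOn_dRt.mono hsub).neg.mul (hf.comp hY hmaps)
  · apply (continuousOn_Rt.mono hsub).mul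
    apply (hf'.comp hY hmaps).mul
    apply ContinuousOn.div
    · fun_prop
    · fun_prop
    · intro p hp
      have := m_pos (hsub hp) p.2
      positivity

lemma hasDerivAt_int {f f' : ℝ → ℝ} {D b : ℝ} (hD : 0 ≤ D)
    (hf : HasDerivAt f (f' (Yb D b)) (Yb D b)) :
    HasDerivAt (fun D => Rt D b * f (Yb D b)) (dInt f f' D b) D := by
  have h1 := hasDerivAt_Rt hD b
  have h2 := hasDerivAt_Yb hD b
  have h3 : HasDerivAt (fun D => f (Yb D b)) (f' (Yb D b) * (sin b ^ 2 / (1 + D * cos b ^ 2) ^ 2)) D :=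
    HasDerivAt.comp D hf h2
  exact h1.mul h3

lemma integrable_dInt {f f' : ℝ → ℝ} {D₀ : ℝ} (hf : ContinuousOn f (Icc 0 D₀))
    (hf' : ContinuousOn f' (Icc 0 D₀)) :
    Integrable (fun p : ℝ × ℝ => dInt f f' p.1 p.2)
      ((volume.restrict (Ioc 0 D₀)).prod (volume.restrict (Ioo 0 (π / 2)))) := by
  rw [Measure.prod_restrict]
  have h : IntegrableOn (fun p : ℝ × ℝ => dInt f f' p.1 p.2) (Icc 0 D₀ ×ˢ Icc 0 (π / 2))
      (volume.prod volume) := by
    apply ContinuousOn.integrableOn_compact (isCompact_Icc.prod isCompact_Icc)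
    exact (continuousOn_dInt hf hf').mono (prod_mono_right (subset_univ _))
  exact h.mono_set (prod_mono Ioc_subset_Icc_self Ioo_subset_Icc_self)

/-- `B[f](D) = f(0) + ∫_0^D kern1`. -/
theorem Bt_eq {f f' : ℝ → ℝ} {D₀ : ℝ} (hD₀ : 0 ≤ D₀) (hf : ContinuousOn f (Icc 0 D₀))
    (hf' : ContinuousOn f' (Icc 0 D₀)) (hd : ∀ Y ∈ Ioo 0 D₀, HasDerivAt f (f' Y) Y) :
    Bt f D₀ = f 0 + ∫ D in (0 : ℝ)..D₀, kern1 f f' D := by
  have hint := integrable_dInt hf hf'
  have h1 : ∀ b ∈ Ioo 0 (π / 2), Rt D₀ b * f (Yb D₀ b) = f 0 + ∫ D in (0 : ℝ)..D₀, dInt f f' D b := by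
    intro b hb
    have hcont : ContinuousOn (fun D => dInt f f' D b) (Icc 0 D₀) :=
      (continuousOn_dInt hf hf').comp (f := fun D : ℝ => (D, b)) (by fun_prop)
        (fun D hD => ⟨hD, mem_univ _⟩)
    have hc2 : ContinuousOn (fun D => Rt D b * f (Yb D b)) (Icc 0 D₀) := by
      apply ContinuousOn.mul
      · exact continuousOn_Rt.comp (f := fun D : ℝ => (D, b)) (by fun_prop) (fun D hD => hD.1)
      · apply hf.comp
        · exact continuousOn_Yb.comp (f := fun D : ℝ => (D, b)) (by fun_prop) (fun D hD => hD.1)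
        · intro D hD
          exact ⟨Yb_nonneg hD.1 _, (Yb_le hD.1 _).trans hD.2⟩
    have := intervalIntegral.integral_eq_sub_of_hasDerivAt_of_le hD₀ hc2
      (fun D hD => hasDerivAt_int (f' := f') hD.1.le
        (hd _ ⟨Yb_pos hD.1 hb, (Yb_le hD.1.le _).trans_lt hD.2⟩))
      (hcont.intervalIntegrable_of_Icc hD₀)
    rw [this, Rt_zero, Yb_zero]
    ring
  unfold Bt
  rw [setIntegral_congr_fun measurableSet_Ioo h1]
  have hint2 : Integrable (fun b => ∫ D in (0 : ℝ)..D₀, dInt f f' D b)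
      (volume.restrict (Ioo 0 (π / 2))) := by
    have := hint.integral_prod_right
    simpa only [intervalIntegral.integral_of_le hD₀] using this
  rw [integral_add (by exact integrableOn_cont continuous_const _ _) hint2, integral_one_Ioo]
  simp only [intervalIntegral.integral_of_le hD₀]
  rw [← integral_integral_swap hint]
  unfold kern1
  rw [integral_const_mul]
  have := pi_pos
  field_simp

lemma dInt_one (D b : ℝ) : dInt (fun _ => 1) (fun _ => 0) D b = -dRt D b := by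
  simp [dInt]

lemma kern1_one (D : ℝ) : kern1 (fun _ => 1) (fun _ => 0) D = -eK D := by
  unfold kern1 eK
  simp only [dInt_one]
  rw [integral_neg]; ring

lemma integral_eK_le {s : ℝ} (hs : 0 ≤ s) : ∫ D in (0 : ℝ)..s, eK D ≤ 1 - 2 / π := by
  have h := Bt_eq (f := fun _ => 1) (f' := fun _ => 0) hs continuousOn_const continuousOn_const
    (fun Y _ => hasDerivAt_const Y _)
  simp only [kern1_one] at h
  rw [intervalIntegral.integral_neg] at h
  have h2 : (2 / π) ≤ Bt (fun _ => 1) s := by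
    unfold Bt
    simp only [mul_one]
    have : (1 : ℝ) ≤ ∫ b in Ioo 0 (π / 2), Rt s b := by
      rw [← integral_cos_Ioo]
      apply setIntegral_mono_on (integrableOn_cont continuous_cos _ _)
        (integrableOn_cont (continuous_Rt_right hs) _ _) measurableSet_Ioo
      intro b hb
      apply Real.le_sqrt_of_sq_le
      have : 0 ≤ sin b ^ 2 / (1 + s) ^ 2 := by positivity
      linarith
    have hp := pi_pos
    calc 2 / π = 2 / π * 1 := by ring
      _ ≤ _ := by gcongr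
  linarith

/-! ## The function `q = X sin^2 b/(X + X D cos^2 b + D sin^2 b)^2` -/

def qf (X D b : ℝ) : ℝ := X * sin b ^ 2 / (X + X * D * cos b ^ 2 + D * sin b ^ 2) ^ 2

lemma qden_pos {X D : ℝ} (hX : 0 < X) (hD : 0 ≤ D) (b : ℝ) :
    0 < X + X * D * cos b ^ 2 + D * sin b ^ 2 := by positivity

lemma qf_nonneg {X D : ℝ} (hX : 0 < X) (hD : 0 ≤ D) (b : ℝ) : 0 ≤ qf X D b := by
  unfold qf; have := qden_pos hX hD b; positivity

lemma add_Yb {X D : ℝ} (hD : 0 ≤ D) (b : ℝ) :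
    X + Yb D b = (X + X * D * cos b ^ 2 + D * sin b ^ 2) / (1 + D * cos b ^ 2) := by
  have := m_pos hD b
  unfold Yb
  field_simp

lemma qf_eq {X D : ℝ} (hX : 0 < X) (hD : 0 ≤ D) (b : ℝ) :
    X / (X + Yb D b) ^ 2 * (sin b ^ 2 / (1 + D * cos b ^ 2) ^ 2) = qf X D b := by
  have h1 := m_pos hD b
  have h2 := qden_pos hX hD b
  rw [add_Yb hD]
  unfold qf
  field_simp

lemma qf_le {X D : ℝ} (hX : 0 < X) (hD : 0 ≤ D) (b : ℝ) : qf X D b ≤ 2 / (X + D) := by
  have h2 := qden_pos hX hD b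
  unfold qf
  rw [div_le_div_iff₀ (by positivity) (by positivity)]
  have hs : 0 ≤ sin b ^ 2 := by positivity
  have hs1 : sin b ^ 2 ≤ 1 := sin_sq_le_one b
  set u := sin b ^ 2
  have h3 : (X + D * u) ^ 2 ≤ (X + X * D * cos b ^ 2 + D * u) ^ 2 := by
    apply pow_le_pow_left₀ (by positivity)
    have : 0 ≤ X * D * cos b ^ 2 := by positivity
    linarith
  -- `X u (X + D) ≤ 2 (X + D u)^2`
  have h4 : X * u * (X + D) ≤ 2 * (X + D * u) ^ 2 := by
    nlinarith [mul_nonneg hX.le hs, mul_nonneg hD hs, mul_nonneg hX.le hX.le,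
      mul_nonneg (mul_nonneg hX.le hX.le) (sub_nonneg.2 hs1),
      mul_nonneg (mul_nonneg hX.le hD) hs, sq_nonneg (D * u)]
  linarith

/-- first part of the kernel bound -/
lemma integral_cos_qf_le {X D : ℝ} (hX : 0 < X) (hD : 0 ≤ D) :
    ∫ b in Ioo 0 (π / 2), cos b * qf X D b ≤ 1 / ((1 + D) * (X + D)) := by
  -- majorant: derivative of an explicit function of `sin b`
  have hXD : 0 < X + D := by positivity
  set a := X * (1 + D) with ha
  set c := X + D with hc
  have hapos : 0 < a := by positivity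
  let F : ℝ → ℝ := fun b => X / a * (sin b / ((1 - sin b) * a + sin b * c))
  have hden : ∀ b ∈ Icc 0 (π / 2), 0 < (1 - sin b) * a + sin b * c := by
    intro b hb
    have h0 : 0 ≤ sin b := sin_nonneg_of_nonneg_of_le_pi hb.1 (by linarith [hb.2, pi_pos])
    have h1 : sin b ≤ 1 := sin_le_one b
    rcases eq_or_lt_of_le h0 with h | h
    · rw [← h]; simp [hapos]
    · have : 0 ≤ (1 - sin b) * a := mul_nonneg (by linarith) hapos.le
      have : 0 < sin b * c := by positivity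
      linarith
  have hF : ∀ b ∈ Icc 0 (π / 2), HasDerivAt F
      (X * cos b / ((1 - sin b) * a + sin b * c) ^ 2) b := by
    intro b hb
    have hd := hden b hb
    have h1 : HasDerivAt (fun b => (1 - sin b) * a + sin b * c) (-cos b * a + cos b * c) b :=
      ((((hasDerivAt_sin b).const_sub 1).mul_const a).add ((hasDerivAt_sin b).mul_const c))
    refine (((hasDerivAt_sin b).div h1 hd.ne').const_mul (X / a)).congr_deriv ?_
    field_simp
    ring
  have hFc : ContinuousOn (fun b => X * cos b / ((1 - sin b) * a + sin b * c) ^ 2)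
      (Icc 0 (π / 2)) := by
    apply ContinuousOn.div
    · fun_prop
    · fun_prop
    · intro b hb
      have := hden b hb
      positivity
  have hval : ∫ b in Ioo 0 (π / 2), X * cos b / ((1 - sin b) * a + sin b * c) ^ 2
      = 1 / ((1 + D) * (X + D)) := by
    rw [← integral_Ioc_eq_integral_Ioo, ← intervalIntegral.integral_of_le (by positivity),
      intervalIntegral.integral_eq_sub_of_hasDerivAt (f := F)]
    · simp only [F, sin_zero, sin_pi_div_two, ha, hc]
      field_simp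
      ring
    · intro b hb
      rw [uIcc_of_le (by positivity)] at hb
      exact hF b hb
    · exact hFc.intervalIntegrable_of_Icc (by positivity)
  rw [← hval]
  apply setIntegral_mono_on
  · apply integrableOn_cont
    unfold qf
    apply continuous_cos.mul
    apply Continuous.div (by fun_prop) (by fun_prop)
    intro b
    have := qden_pos hX hD b
    positivity
  · exact (hFc.integrableOn_Icc).mono_set Ioo_subset_Icc_self
  · exact measurableSet_Ioo
  · intro b hb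
    have hs := sin_pos_Ioo hb
    have hcb := cos_pos_Ioo hb
    have hd := hden b (Ioo_subset_Icc_self hb)
    have hs1 := sin_le_one b
    have hq := qden_pos hX hD b
    unfold qf
    rw [← mul_div_assoc]
    rw [div_le_div_iff₀ (by positivity) (by positivity)]
    have h5 : sin b * ((1 - sin b) * a + sin b * c) ≤ X + X * D * cos b ^ 2 + D * sin b ^ 2 := by
      rw [cs b, ha, hc]
      nlinarith [mul_nonneg (mul_nonneg hX.le (by positivity : (0 : ℝ) ≤ 1 + D))
        (sub_nonneg.2 hs1)]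
    have h6 : (sin b * ((1 - sin b) * a + sin b * c)) ^ 2
        ≤ (X + X * D * cos b ^ 2 + D * sin b ^ 2) ^ 2 :=
      pow_le_pow_left₀ (by positivity) h5 2
    calc cos b * (X * sin b ^ 2) * ((1 - sin b) * a + sin b * c) ^ 2
        = (X * cos b) * (sin b * ((1 - sin b) * a + sin b * c)) ^ 2 := by ring
      _ ≤ (X * cos b) * (X + X * D * cos b ^ 2 + D * sin b ^ 2) ^ 2 := by gcongr

lemma continuous_qf {X D : ℝ} (hX : 0 < X) (hD : 0 ≤ D) : Continuous (qf X D) := by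
  unfold qf
  apply Continuous.div (by fun_prop) (by fun_prop)
  intro b
  have := qden_pos hX hD b
  positivity

/-- The integrated bound for `Rt q`. -/
lemma integral_Rt_qf_le {X D : ℝ} (hX : 0 < X) (hD : 0 ≤ D) :
    ∫ b in Ioo 0 (π / 2), Rt D b * qf X D b ≤ 3 / ((1 + D) * (X + D)) := by
  have hXD : 0 < X + D := by positivity
  have h1D : 0 < 1 + D := by positivity
  have hcq := continuous_qf hX hD
  have i1 : IntegrableOn (fun b => cos b * qf X D b) (Ioo 0 (π / 2)) :=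
    integrableOn_cont (continuous_cos.mul hcq) _ _
  have i2 : IntegrableOn (fun b => sin b * (2 / ((1 + D) * (X + D)))) (Ioo 0 (π / 2)) :=
    integrableOn_cont (by fun_prop) _ _
  have i3 : IntegrableOn (fun b => Rt D b * qf X D b) (Ioo 0 (π / 2)) :=
    integrableOn_cont ((continuous_Rt_right hD).mul hcq) _ _
  have h1 : ∫ b in Ioo 0 (π / 2), Rt D b * qf X D b
      ≤ ∫ b in Ioo 0 (π / 2), (cos b * qf X D b + sin b * (2 / ((1 + D) * (X + D)))) := by
    apply setIntegral_mono_on i3 (i1.add i2) measurableSet_Ioo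
    intro b hb
    have hs := sin_pos_Ioo hb
    have hcb := cos_pos_Ioo hb
    have hR := Rt_le hD b
    rw [abs_of_pos hs, abs_of_pos hcb] at hR
    have hq0 := qf_nonneg hX hD b
    have hq := qf_le hX hD b
    change Rt D b * qf X D b ≤ cos b * qf X D b + sin b * (2 / ((1 + D) * (X + D)))
    calc Rt D b * qf X D b ≤ (cos b + sin b / (1 + D)) * qf X D b := by gcongr
      _ = cos b * qf X D b + sin b / (1 + D) * qf X D b := by ring
      _ ≤ cos b * qf X D b + sin b / (1 + D) * (2 / (X + D)) := by gcongr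
      _ = _ := by field_simp
  refine h1.trans ?_
  rw [integral_add i1 i2, integral_mul_const, integral_sin_Ioo]
  have h2 := integral_cos_qf_le hX hD
  calc _ ≤ 1 / ((1 + D) * (X + D)) + 1 * (2 / ((1 + D) * (X + D))) := by gcongr
    _ = _ := by ring

/-! ## Bound of the kernel -/

/-- General kernel bound. -/
theorem abs_kern1_le {f f' : ℝ → ℝ} {X D A₀ A₁ A₂ : ℝ} (hX : 0 < X) (hD : 0 ≤ D)
    (hf : ContinuousOn f (Icc 0 D)) (hf' : ContinuousOn f' (Icc 0 D))
    (hA₁ : 0 ≤ A₁) (hA₂ : 0 ≤ A₂)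
    (h0 : ∀ Y ∈ Icc 0 D, |f Y| ≤ A₀)
    (h1 : ∀ Y ∈ Icc 0 D, |f' Y| ≤ A₁ + A₂ * (X / (X + Y) ^ 2)) :
    |kern1 f f' D| ≤ A₀ * eK D + A₁ + A₂ * (2 / ((1 + D) * (X + D))) := by
  have hXD : 0 < X + D := by positivity
  have h1D : 0 < 1 + D := by positivity
  have hp := pi_pos
  have i1 : IntegrableOn (fun b => dRt D b) (Ioo 0 (π / 2)) :=
    integrableOn_cont (continuous_dRt_right hD) _ _
  have i3 : IntegrableOn (fun b => Rt D b * qf X D b) (Ioo 0 (π / 2)) :=
    integrableOn_cont ((continuous_Rt_right hD).mul (continuous_qf hX hD)) _ _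
  have i4 : IntegrableOn (fun _ : ℝ => A₁) (Ioo 0 (π / 2)) :=
    integrableOn_cont continuous_const _ _
  have i5 : IntegrableOn (dInt f f' D) (Ioo 0 (π / 2)) := by
    apply integrableOn_cont
    have := (continuousOn_dInt hf hf').comp_continuous (f := fun b : ℝ => (D, b)) (by fun_prop)
      (fun b => ⟨right_mem_Icc.2 hD, mem_univ _⟩)
    exact this
  have hb : ∀ b, |dInt f f' D b| ≤ A₀ * dRt D b + A₁ + A₂ * (Rt D b * qf X D b) := by
    intro b
    have hY : Yb D b ∈ Icc 0 D := ⟨Yb_nonneg hD b, Yb_le hD b⟩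
    have hd := dRt_nonneg hD b
    have hR := Rt_nonneg D b
    have hR1 := Rt_le_one hD b
    have hm := m_pos hD b
    have hsm : 0 ≤ sin b ^ 2 / (1 + D * cos b ^ 2) ^ 2 := by positivity
    have hsm1 : sin b ^ 2 / (1 + D * cos b ^ 2) ^ 2 ≤ 1 := by
      rw [div_le_one (by positivity)]
      have h2 : sin b ^ 2 ≤ 1 := sin_sq_le_one b
      have h3 : 0 ≤ D * cos b ^ 2 := by positivity
      nlinarith
    unfold dInt
    calc |-dRt D b * f (Yb D b) + Rt D b * (f' (Yb D b) * (sin b ^ 2 / (1 + D * cos b ^ 2) ^ 2))|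
        ≤ |-dRt D b * f (Yb D b)| + |Rt D b * (f' (Yb D b) *
          (sin b ^ 2 / (1 + D * cos b ^ 2) ^ 2))| := abs_add_le _ _
      _ = dRt D b * |f (Yb D b)| + Rt D b * (|f' (Yb D b)| *
          (sin b ^ 2 / (1 + D * cos b ^ 2) ^ 2)) := by
        rw [abs_mul, abs_neg, abs_of_nonneg hd, abs_mul, abs_of_nonneg hR, abs_mul,
          abs_of_nonneg hsm]
      _ ≤ dRt D b * A₀ + Rt D b * ((A₁ + A₂ * (X / (X + Yb D b) ^ 2)) *
          (sin b ^ 2 / (1 + D * cos b ^ 2) ^ 2)) := by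
        gcongr
        · exact h0 _ hY
        · exact h1 _ hY
      _ = dRt D b * A₀ + A₁ * (Rt D b * (sin b ^ 2 / (1 + D * cos b ^ 2) ^ 2)) +
          A₂ * (Rt D b * (X / (X + Yb D b) ^ 2 * (sin b ^ 2 / (1 + D * cos b ^ 2) ^ 2))) := by ring
      _ ≤ dRt D b * A₀ + A₁ * (1 * 1) + A₂ * (Rt D b * qf X D b) := by
        rw [qf_eq hX hD]
        gcongr
      _ = _ := by ring
  unfold kern1
  rw [abs_mul, abs_of_pos (by positivity : (0 : ℝ) < 2 / π)]
  have h2 : |∫ b in Ioo 0 (π / 2), dInt f f' D b|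
      ≤ ∫ b in Ioo 0 (π / 2), (A₀ * dRt D b + A₁ + A₂ * (Rt D b * qf X D b)) := by
    have h20 := norm_integral_le_integral_norm (μ := volume.restrict (Ioo 0 (π / 2)))
      (dInt f f' D)
    rw [Real.norm_eq_abs] at h20
    refine h20.trans ?_
    apply setIntegral_mono_on i5.norm (((i1.const_mul A₀).add i4).add (i3.const_mul A₂))
      measurableSet_Ioo
    intro b _
    exact hb b
  have h3 : ∫ b in Ioo 0 (π / 2), (A₀ * dRt D b + A₁ + A₂ * (Rt D b * qf X D b))
      = A₀ * (∫ b in Ioo 0 (π / 2), dRt D b) + (π / 2) * A₁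
        + A₂ * ∫ b in Ioo 0 (π / 2), Rt D b * qf X D b := by
    have e1 : IntegrableOn (fun b => A₀ * dRt D b + A₁) (Ioo 0 (π / 2)) :=
      (i1.const_mul A₀).add i4
    have e2 : IntegrableOn (fun b => A₀ * dRt D b) (Ioo 0 (π / 2)) := i1.const_mul A₀
    have e3 : IntegrableOn (fun b => A₂ * (Rt D b * qf X D b)) (Ioo 0 (π / 2)) := i3.const_mul A₂
    rw [integral_add e1 e3, integral_add e2 i4, integral_const_mul, integral_const_mul,
      integral_one_Ioo]
  have h4 := integral_Rt_qf_le hX hD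
  have hpi : (2 / π) * 3 ≤ 2 := by
    rw [div_mul_eq_mul_div, div_le_iff₀ hp]
    linarith [pi_gt_three]
  calc (2 / π) * |∫ b in Ioo 0 (π / 2), dInt f f' D b|
      ≤ (2 / π) * (A₀ * (∫ b in Ioo 0 (π / 2), dRt D b) + (π / 2) * A₁
        + A₂ * (3 / ((1 + D) * (X + D)))) := by
        rw [h3] at h2
        gcongr
        refine h2.trans ?_
        gcongr
    _ = A₀ * eK D + A₁ + A₂ * ((2 / π) * 3 / ((1 + D) * (X + D))) := by
        unfold eK
        field_simp
    _ ≤ _ := by gcongr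

end Pool.Agent.Lib.MP_85963d_gt.H31
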