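import Pool.Agent.Lib.MP_85963d_gt.H31.BTrans

/-! The Volterra equation of the second kind obtained from the `B`-transform. -/

set_option autoImplicit false
open Set MeasureTheory Real

noncomputable section
namespace Pool.Agent.Lib.MP_85963d_gt.H31

structure GoodPhi (b A : ℝ) (φ φ' : ℝ → ℝ → ℝ) : Prop where
  meas : Measurable (Function.uncurry φ)
  meas' : Measurable (Function.uncurry φ')
  cont : ∀ X ∈ Ioo 0 b, ContinuousOn (φ X) (Icc 0 b)
  cont' : ∀ X ∈ Ioo 0 b, ContinuousOn (φ' X) (Icc 0 b)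
  deriv : ∀ X ∈ Ioo 0 b, ∀ Y ∈ Ioo 0 b, HasDerivAt (φ X) (φ' X Y) Y
  bd : ∀ X ∈ Ioo 0 b, ∀ Y ∈ Icc 0 b, |φ X Y| ≤ A
  bd' : ∀ X ∈ Ioo 0 b, ∀ Y ∈ Icc 0 b, |φ' X Y| ≤ A * (1 + X / (X + Y) ^ 2)

lemma Kc_nonneg {Y : ℝ} (hY : 0 ≤ Y) : 0 ≤ Kc Y := by unfold Kc; positivity

lemma Lk_nonneg (s : ℝ) : 0 ≤ Lk s := by unfold Lk; positivity

lemma measurable_Kc : Measurable Kc := by unfold Kc; fun_prop

lemma measurable_Lk : Measurable Lk := by unfold Lk; fun_prop

lemma measurable_Yb {α : Type*} [MeasurableSpace α] {f g : α → ℝ} (hf : Measurable f)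
    (hg : Measurable g) : Measurable (fun a => Yb (f a) (g a)) := by unfold Yb; fun_prop

lemma measurable_Rt {α : Type*} [MeasurableSpace α] {f g : α → ℝ} (hf : Measurable f)
    (hg : Measurable g) : Measurable (fun a => Rt (f a) (g a)) := by unfold Rt; fun_prop

lemma measurable_dRt {α : Type*} [MeasurableSpace α] {f g : α → ℝ} (hf : Measurable f)
    (hg : Measurable g) : Measurable (fun a => dRt (f a) (g a)) := by
  unfold dRt Rt; fun_prop

/-- translation of a set integral -/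
lemma setIntegral_shift {X σ : ℝ} (h : X < σ) (g : ℝ → ℝ) :
    ∫ s in Ioo X σ, g (s - X) = ∫ Y in Ioo 0 (σ - X), g Y := by
  rw [← integral_Ioc_eq_integral_Ioo, ← intervalIntegral.integral_of_le h.le,
    intervalIntegral.integral_comp_sub_right g X, sub_self,
    intervalIntegral.integral_of_le (by linarith), integral_Ioc_eq_integral_Ioo]

lemma integrableOn_shift {X σ : ℝ} (h : X < σ) {g : ℝ → ℝ} (hg : IntegrableOn g (Ioo 0 (σ - X))) :
    IntegrableOn (fun s => g (s - X)) (Ioo X σ) := by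
  have h0 : (0 : ℝ) ≤ σ - X := by linarith
  rw [← intervalIntegrable_iff_integrableOn_Ioo_of_le h0] at hg
  rw [← intervalIntegrable_iff_integrableOn_Ioo_of_le h.le]
  have := hg.comp_sub_right X
  simpa using this

lemma LK_shift {X σ : ℝ} (h : X < σ) {g : ℝ → ℝ}
    (hg : IntegrableOn (fun b => Rt (σ - X) b * g (Yb (σ - X) b)) (Ioo 0 (π / 2))) :
    IntegrableOn (fun s => Lk (σ - s) * Kc (s - X) * g (s - X)) (Ioo X σ) ∧
    ∫ s in Ioo X σ, Lk (σ - s) * Kc (s - X) * g (s - X) = Bt g (σ - X) := by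
  have hD : 0 < σ - X := by linarith
  have e : (fun s => Lk (σ - s) * Kc (s - X) * g (s - X))
      = (fun s => (fun Y => Lk (σ - X - Y) * Kc Y * g Y) (s - X)) := by
    funext s
    simp only
    congr 3
    ring
  constructor
  · rw [e]
    exact integrableOn_shift h ((integrableOn_LK hD g).2 hg)
  · rw [e, setIntegral_shift h (fun Y => Lk (σ - X - Y) * Kc Y * g Y), integral_LK hD]
    rfl

section main

variable {b A CG : ℝ} {G : ℝ → ℝ} {φ φ' : ℝ → ℝ → ℝ}

lemma integrableOn_inv_sqrt (b : ℝ) : IntegrableOn (fun X => 1 / √X) (Ioo 0 b) := by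
  rcases le_or_gt b 0 with hb | hb
  · rw [Ioo_eq_empty (not_lt.2 hb)]; exact integrableOn_empty
  rw [← intervalIntegrable_iff_integrableOn_Ioo_of_le hb.le]
  have h := intervalIntegral.intervalIntegrable_rpow' (a := 0) (b := b) (r := -1 / 2) (by norm_num)
  refine h.congr ?_
  intro X hX
  rw [uIoc_of_le hb.le] at hX
  simp only
  rw [show (-1 / 2 : ℝ) = -(1 / 2) by norm_num, rpow_neg hX.1.le, ← sqrt_eq_rpow, one_div]

lemma integrableOn_rpow (b : ℝ) {r : ℝ} (hr : -1 < r) :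
    IntegrableOn (fun X : ℝ => X ^ r) (Ioo 0 b) := by
  rcases le_or_gt b 0 with hb | hb
  · rw [Ioo_eq_empty (not_lt.2 hb)]; exact integrableOn_empty
  rw [← intervalIntegrable_iff_integrableOn_Ioo_of_le hb.le]
  exact intervalIntegral.intervalIntegrable_rpow' hr

lemma measurable_dInt {φ φ' : ℝ → ℝ → ℝ} (hm : Measurable (Function.uncurry φ))
    (hm' : Measurable (Function.uncurry φ')) :
    Measurable (fun q : (ℝ × ℝ) × ℝ => dInt (φ q.1.1) (φ' q.1.1) q.1.2 q.2) := by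
  have m1 : Measurable (fun q : (ℝ × ℝ) × ℝ => q.1.1) := by fun_prop
  have m2 : Measurable (fun q : (ℝ × ℝ) × ℝ => q.1.2) := by fun_prop
  have m3 : Measurable (fun q : (ℝ × ℝ) × ℝ => q.2) := by fun_prop
  have hY := measurable_Yb m2 m3
  have hR := measurable_Rt m2 m3
  have hd := measurable_dRt m2 m3
  have h1 : Measurable (fun q : (ℝ × ℝ) × ℝ => φ q.1.1 (Yb q.1.2 q.2)) := hm.comp (m1.prodMk hY)
  have h2 : Measurable (fun q : (ℝ × ℝ) × ℝ => φ' q.1.1 (Yb q.1.2 q.2)) := hm'.comp (m1.prodMk hY)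
  have h3 : Measurable (fun q : (ℝ × ℝ) × ℝ => sin q.2 ^ 2 / (1 + q.1.2 * cos q.2 ^ 2) ^ 2) := by
    fun_prop
  unfold dInt
  exact (hd.neg.mul h1).add (hR.mul (h2.mul h3))

lemma measurable_kern {φ φ' : ℝ → ℝ → ℝ} (hm : Measurable (Function.uncurry φ))
    (hm' : Measurable (Function.uncurry φ')) :
    Measurable (fun p : ℝ × ℝ => kern1 (φ p.1) (φ' p.1) p.2) := by
  have h2 := ((measurable_dInt hm hm').stronglyMeasurable.integral_prod_right'
    (ν := volume.restrict (Ioo 0 (π / 2)))).measurable.const_mul (2 / π)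
  exact h2

lemma measurable_kern_comp {α : Type*} [MeasurableSpace α] {φ φ' : ℝ → ℝ → ℝ}
    (hm : Measurable (Function.uncurry φ)) (hm' : Measurable (Function.uncurry φ'))
    {f g : α → ℝ} (hf : Measurable f) (hg : Measurable g) :
    Measurable (fun a => kern1 (φ (f a)) (φ' (f a)) (g a)) := by
  have h1 := measurable_kern hm hm'
  generalize hk : (fun p : ℝ × ℝ => kern1 (φ p.1) (φ' p.1) p.2) = k at h1
  have h2 : (fun a => kern1 (φ (f a)) (φ' (f a)) (g a)) = fun a => k (f a, g a) := by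
    rw [← hk]
  rw [h2]
  exact h1.comp (hf.prodMk hg)

lemma GoodPhi.mono {b' : ℝ} (h : GoodPhi b A φ φ') (hb : b' ≤ b) : GoodPhi b' A φ φ' where
  meas := h.meas
  meas' := h.meas'
  cont X hX := (h.cont X ⟨hX.1, hX.2.trans_le hb⟩).mono (Icc_subset_Icc_right hb)
  cont' X hX := (h.cont' X ⟨hX.1, hX.2.trans_le hb⟩).mono (Icc_subset_Icc_right hb)
  deriv X hX Y hY := h.deriv X ⟨hX.1, hX.2.trans_le hb⟩ Y ⟨hY.1, hY.2.trans_le hb⟩
  bd X hX Y hY := h.bd X ⟨hX.1, hX.2.trans_le hb⟩ Y ⟨hY.1, hY.2.trans hb⟩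
  bd' X hX Y hY := h.bd' X ⟨hX.1, hX.2.trans_le hb⟩ Y ⟨hY.1, hY.2.trans hb⟩

lemma GoodPhi.A_nonneg (h : GoodPhi b A φ φ') (hb : 0 < b) : 0 ≤ A :=
  (abs_nonneg _).trans (h.bd (b / 2) ⟨by linarith, by linarith⟩ 0 ⟨le_rfl, hb.le⟩)

lemma GoodPhi.kern_le (h : GoodPhi b A φ φ') {X D : ℝ} (hX : 0 < X) (hXb : X < b) (hD : 0 ≤ D)
    (hXD : X + D ≤ b) : |kern1 (φ X) (φ' X) D| ≤ 2 * A * (1 + 1 / (X + D)) := by
  have hb : 0 < b := by linarith
  have hA := h.A_nonneg hb
  have hXb : X ∈ Ioo 0 b := ⟨hX, hXb⟩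
  have hsub : Icc 0 D ⊆ Icc 0 b := Icc_subset_Icc_right (by linarith)
  have h1 := abs_kern1_le (A₀ := A) (A₁ := A) (A₂ := A) hX hD ((h.cont X hXb).mono hsub)
    ((h.cont' X hXb).mono hsub) hA hA (fun Y hY => h.bd X hXb Y (hsub hY))
    (fun Y hY => (h.bd' X hXb Y (hsub hY)).trans (by rw [mul_add, mul_one]))
  refine h1.trans ?_
  have h2 := eK_le_one hD
  have h3 : 2 / ((1 + D) * (X + D)) ≤ 2 * (1 / (X + D)) := by
    rw [mul_one_div]
    apply div_le_div_of_nonneg_left (by norm_num) (by positivity)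
    nlinarith
  calc A * eK D + A + A * (2 / ((1 + D) * (X + D))) ≤ A * 1 + A + A * (2 * (1 / (X + D))) := by
        gcongr
    _ = _ := by ring

lemma integrable_G (hGm : AEStronglyMeasurable G (volume.restrict (Ioo 0 b)))
    (hGb : ∀ X ∈ Ioo 0 b, |G X| ≤ CG / √X) : IntegrableOn G (Ioo 0 b) := by
  refine Integrable.mono' ((integrableOn_inv_sqrt b).const_mul CG) hGm ?_
  filter_upwards [ae_restrict_mem measurableSet_Ioo] with X hX
  have := hGb X hX
  rwa [mul_one_div, Real.norm_eq_abs]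

/-- Step 1: convolution with `L`. -/
theorem step1 (hGm : AEStronglyMeasurable G (volume.restrict (Ioo 0 b)))
    (hGb : ∀ X ∈ Ioo 0 b, |G X| ≤ CG / √X) (h : GoodPhi b A φ φ')
    (heq : ∀ᵐ s ∂(volume.restrict (Ioo 0 b)), ∫ X in Ioo 0 s, G X * (Kc (s - X) * φ X (s - X)) = 0)
    {σ : ℝ} (hσ : 0 < σ) (hσb : σ ≤ b) :
    ∫ X in Ioo 0 σ, G X * Bt (φ X) (σ - X) = 0 := by
  have hb : 0 < b := by linarith
  have hA := h.A_nonneg hb
  set μ := volume.restrict (Ioo 0 σ) with hμ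
  have hle : μ ≤ volume.restrict (Ioo 0 b) := Measure.restrict_mono (Ioo_subset_Ioo_right hσb) le_rfl
  have hGm' : AEStronglyMeasurable G μ := hGm.mono_measure hle
  have hGi : Integrable G μ := (integrable_G hGm hGb).mono_set (Ioo_subset_Ioo_right hσb)
  let T : ℝ × ℝ → ℝ := fun p => Lk (σ - p.2) * (G p.1 * (Kc (p.2 - p.1) * φ p.1 (p.2 - p.1)))
  let F : ℝ × ℝ → ℝ := {p : ℝ × ℝ | p.1 < p.2}.indicator T
  have hS : MeasurableSet {p : ℝ × ℝ | p.1 < p.2} := measurableSet_lt measurable_fst measurable_snd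
  have hTm : AEStronglyMeasurable T (μ.prod μ) := by
    have m1 : Measurable (fun p : ℝ × ℝ => Lk (σ - p.2)) := measurable_Lk.comp (by fun_prop)
    have m2 : Measurable (fun p : ℝ × ℝ => Kc (p.2 - p.1)) := measurable_Kc.comp (by fun_prop)
    have m3 : Measurable (fun p : ℝ × ℝ => φ p.1 (p.2 - p.1)) :=
      h.meas.comp (by fun_prop : Measurable fun p : ℝ × ℝ => (p.1, p.2 - p.1))
    exact m1.aestronglyMeasurable.mul (hGm'.comp_fst.mul (m2.mul m3).aestronglyMeasurable)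
  have hFm : AEStronglyMeasurable F (μ.prod μ) := hTm.indicator hS
  -- sections in `s`
  have hsec : ∀ X ∈ Ioo 0 σ, (fun s => F (X, s)) = (Ioi X).indicator (fun s => T (X, s)) := by
    intro X _
    funext s
    simp only [F, indicator, mem_ofPred_eq, mem_Ioi]
  have hsecI : ∀ X ∈ Ioo 0 σ, ∀ g : ℝ → ℝ, ∫ s in Ioo 0 σ, (Ioi X).indicator g s
      = ∫ s in Ioo X σ, g s := by
    intro X hX g
    rw [setIntegral_indicator measurableSet_Ioi]
    congr 2
    ext s
    simp only [mem_inter_iff, mem_Ioo, mem_Ioi]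
    constructor
    · rintro ⟨⟨_, h2⟩, h3⟩; exact ⟨h3, h2⟩
    · rintro ⟨h1, h2⟩; exact ⟨⟨hX.1.trans h1, h2⟩, h1⟩
  have hreg : ∀ X ∈ Ioo 0 σ, ∀ f : ℝ → ℝ, ContinuousOn f (Icc 0 b) →
      IntegrableOn (fun c => Rt (σ - X) c * f (Yb (σ - X) c)) (Ioo 0 (π / 2)) := by
    intro X hX f hf
    have h0 : 0 ≤ σ - X := by linarith [hX.2]
    apply integrableOn_cont
    apply (continuous_Rt_right h0).mul
    apply hf.comp_continuous (continuous_Yb_right h0)
    intro c
    exact ⟨Yb_nonneg h0 c, (Yb_le h0 c).trans (by linarith [hX.1])⟩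
  have hTX : ∀ X s, T (X, s) = G X * (Lk (σ - s) * Kc (s - X) * φ X (s - X)) := by
    intro X s; simp only [T]; ring
  have hin : ∀ X ∈ Ioo 0 σ, ∫ s in Ioo 0 σ, F (X, s) = G X * Bt (φ X) (σ - X) := by
    intro X hX
    rw [hsec X hX, hsecI X hX]
    simp only [hTX]
    rw [integral_const_mul, (LK_shift hX.2 (hreg X hX (φ X)
      (h.cont X ⟨hX.1, hX.2.trans_le hσb⟩))).2]
  have hBt : ∀ X ∈ Ioo 0 σ, Bt (fun Y => |φ X Y|) (σ - X) ≤ A := by
    intro X hX
    have h0 : 0 ≤ σ - X := by linarith [hX.2]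
    unfold Bt
    have hXb : X ∈ Ioo 0 b := ⟨hX.1, hX.2.trans_le hσb⟩
    have : ∫ c in Ioo 0 (π / 2), Rt (σ - X) c * |φ X (Yb (σ - X) c)|
        ≤ ∫ c in Ioo 0 (π / 2), A := by
      apply setIntegral_mono_on (hreg X hX (fun Y => |φ X Y|) (h.cont X hXb).abs)
        (integrableOn_cont continuous_const _ _) measurableSet_Ioo
      intro c _
      have h1 := Rt_le_one h0 c
      have h2 := Rt_nonneg (σ - X) c
      have h3 := h.bd X hXb (Yb (σ - X) c) ⟨Yb_nonneg h0 c, (Yb_le h0 c).trans (by linarith [hX.1])⟩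
      calc Rt (σ - X) c * |φ X (Yb (σ - X) c)| ≤ 1 * A := by gcongr
        _ = A := one_mul _
    rw [integral_one_Ioo] at this
    have hp := pi_pos
    calc (2 / π) * ∫ c in Ioo 0 (π / 2), Rt (σ - X) c * |φ X (Yb (σ - X) c)|
        ≤ (2 / π) * (π / 2 * A) := by gcongr
      _ = A := by field_simp
  have hFi : Integrable F (μ.prod μ) := by
    rw [integrable_prod_iff hFm]
    constructor
    · filter_upwards [ae_restrict_mem measurableSet_Ioo] with X hX
      rw [hsec X hX]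
      have h1 := (LK_shift hX.2 (hreg X hX (φ X) (h.cont X ⟨hX.1, hX.2.trans_le hσb⟩))).1
      have h2 : IntegrableOn (fun s => T (X, s)) (Ioo X σ) := by
        simp only [hTX]
        exact h1.const_mul _
      rw [integrable_indicator_iff measurableSet_Ioi]
      unfold IntegrableOn
      rw [Measure.restrict_restrict measurableSet_Ioi]
      refine h2.mono_set ?_
      rintro s ⟨h1, h2⟩
      exact ⟨h1, h2.2⟩
    · refine Integrable.mono' (hGi.norm.const_mul A) hFm.norm.integral_prod_right' ?_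
      filter_upwards [ae_restrict_mem measurableSet_Ioo] with X hX
      have hXb : X ∈ Ioo 0 b := ⟨hX.1, hX.2.trans_le hσb⟩
      have e : ∀ s, ‖F (X, s)‖ = (Ioi X).indicator
          (fun s => |G X| * (Lk (σ - s) * Kc (s - X) * |φ X (s - X)|)) s := by
        intro s
        have this : F (X, s) = (Ioi X).indicator (fun s => T (X, s)) s := congrFun (hsec X hX) s
        rw [this]
        by_cases hs : s ∈ Ioi X
        · rw [indicator_of_mem hs, indicator_of_mem hs, hTX, Real.norm_eq_abs, abs_mul, abs_mul,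
            abs_of_nonneg (mul_nonneg (Lk_nonneg _) (Kc_nonneg (by
              have : X < s := hs
              linarith)))]
        · rw [indicator_of_notMem hs, indicator_of_notMem hs, norm_zero]
      have h7 : ∫ s in Ioo X σ, Lk (σ - s) * Kc (s - X) * |φ X (s - X)|
          = Bt (fun Y => |φ X Y|) (σ - X) :=
        (LK_shift (g := fun Y => |φ X Y|) hX.2
          (hreg X hX (fun Y => |φ X Y|) (h.cont X hXb).abs)).2
      simp only [e]
      rw [hsecI X hX, integral_const_mul, h7]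
      have h0 : 0 ≤ Bt (fun Y => |φ X Y|) (σ - X) := by
        unfold Bt
        apply mul_nonneg (by have := pi_pos; positivity)
        apply setIntegral_nonneg measurableSet_Ioo
        intro c _
        exact mul_nonneg (Rt_nonneg _ _) (abs_nonneg _)
      rw [Real.norm_eq_abs, abs_mul, abs_abs, abs_of_nonneg h0, Real.norm_eq_abs, mul_comm]
      gcongr
      exact hBt X hX
  have hswap := integral_integral_swap (f := fun X s => F (X, s)) hFi
  have hL : ∫ X, (∫ s, F (X, s) ∂μ) ∂μ = ∫ X in Ioo 0 σ, G X * Bt (φ X) (σ - X) :=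
    setIntegral_congr_fun measurableSet_Ioo hin
  have hR : ∫ s, (∫ X, F (X, s) ∂μ) ∂μ = 0 := by
    have : ∀ᵐ s ∂μ, ∫ X, F (X, s) ∂μ = 0 := by
      filter_upwards [ae_restrict_mem measurableSet_Ioo, hle.absolutelyContinuous heq] with s hs hs2
      have e : (fun X => F (X, s)) = (Iio s).indicator (fun X => T (X, s)) := by
        funext X
        simp only [F, indicator, mem_ofPred_eq, mem_Iio]
      rw [e, setIntegral_indicator measurableSet_Iio]
      have e2 : Ioo 0 σ ∩ Iio s = Ioo 0 s := by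
        ext X
        simp only [mem_inter_iff, mem_Ioo, mem_Iio]
        constructor
        · rintro ⟨⟨h1, _⟩, h3⟩; exact ⟨h1, h3⟩
        · rintro ⟨h1, h2⟩; exact ⟨⟨h1, h2.trans hs.2⟩, h2⟩
      rw [e2]
      simp only [T]
      rw [integral_const_mul, hs2, mul_zero]
    rw [integral_congr_ae this, integral_zero]
  rw [← hL, hswap, hR]

/-- Step 2: `F2(X,s) = G(X) kern1(X, s-X)` for `X < s` is integrable. -/
def F2 (G : ℝ → ℝ) (φ φ' : ℝ → ℝ → ℝ) : ℝ × ℝ → ℝ :=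
  {p : ℝ × ℝ | p.1 < p.2}.indicator (fun p => G p.1 * kern1 (φ p.1) (φ' p.1) (p.2 - p.1))

lemma integrable_F2 (hb : 0 < b) (hGm : AEStronglyMeasurable G (volume.restrict (Ioo 0 b)))
    (hGb : ∀ X ∈ Ioo 0 b, |G X| ≤ CG / √X) (h : GoodPhi b A φ φ') :
    Integrable (F2 G φ φ') ((volume.restrict (Ioo 0 b)).prod (volume.restrict (Ioo 0 b))) := by
  have hA := h.A_nonneg hb
  have hCG : 0 ≤ CG := by
    have h1 := (abs_nonneg _).trans (hGb (b / 2) ⟨by linarith, by linarith⟩)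
    have h2 : 0 < √(b / 2) := sqrt_pos.2 (by linarith)
    by_contra hc
    push Not at hc
    have := div_neg_of_neg_of_pos hc h2
    linarith
  have hS : MeasurableSet {p : ℝ × ℝ | p.1 < p.2} := measurableSet_lt measurable_fst measurable_snd
  have hm : AEStronglyMeasurable (F2 G φ φ')
      ((volume.restrict (Ioo 0 b)).prod (volume.restrict (Ioo 0 b))) := by
    apply AEStronglyMeasurable.indicator _ hS
    have m3 : Measurable (fun p : ℝ × ℝ => kern1 (φ p.1) (φ' p.1) (p.2 - p.1)) :=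
      measurable_kern_comp h.meas h.meas' measurable_fst (measurable_snd.sub measurable_fst)
    exact hGm.comp_fst.mul m3.aestronglyMeasurable
  have d1 : Integrable (fun p : ℝ × ℝ => p.1 ^ (-(1 / 2) : ℝ) * p.2 ^ (0 : ℝ))
      ((volume.restrict (Ioo 0 b)).prod (volume.restrict (Ioo 0 b))) :=
    Integrable.mul_prod (integrableOn_rpow b (r := -(1 / 2)) (by norm_num))
      (integrableOn_rpow b (r := 0) (by norm_num))
  have d2 : Integrable (fun p : ℝ × ℝ => p.1 ^ (-(3 / 4) : ℝ) * p.2 ^ (-(3 / 4) : ℝ))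
      ((volume.restrict (Ioo 0 b)).prod (volume.restrict (Ioo 0 b))) :=
    Integrable.mul_prod (integrableOn_rpow b (r := -(3 / 4)) (by norm_num))
      (integrableOn_rpow b (r := -(3 / 4)) (by norm_num))
  refine Integrable.mono' ((d1.add d2).const_mul (CG * (2 * A))) hm ?_
  rw [Measure.prod_restrict]
  filter_upwards [ae_restrict_mem (measurableSet_Ioo.prod measurableSet_Ioo)] with p hp
  obtain ⟨⟨hX, hXb⟩, ⟨hs, hsb⟩⟩ := hp
  simp only [Pi.add_apply]
  unfold F2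
  by_cases hlt : p ∈ {p : ℝ × ℝ | p.1 < p.2}
  · rw [indicator_of_mem hlt, Real.norm_eq_abs, abs_mul]
    have hlt' : p.1 < p.2 := hlt
    have h1 := hGb p.1 ⟨hX, hXb⟩
    have h2 := h.kern_le (X := p.1) (D := p.2 - p.1) hX hXb (by linarith) (by linarith)
    rw [add_sub_cancel] at h2
    have e1 : 1 / √p.1 = p.1 ^ (-(1 / 2) : ℝ) := by
      rw [rpow_neg hX.le, ← sqrt_eq_rpow, one_div]
    have e2 : 1 / p.2 = p.2 ^ (-(1 / 4) : ℝ) * p.2 ^ (-(3 / 4) : ℝ) := by
      rw [← rpow_add hs, one_div, ← rpow_neg_one]; norm_num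
    have e3 : p.2 ^ (-(1 / 4) : ℝ) ≤ p.1 ^ (-(1 / 4) : ℝ) :=
      rpow_le_rpow_of_nonpos hX hlt'.le (by norm_num)
    have e4 : p.1 ^ (-(3 / 4) : ℝ) = p.1 ^ (-(1 / 2) : ℝ) * p.1 ^ (-(1 / 4) : ℝ) := by
      rw [← rpow_add hX]; norm_num
    have n1 : 0 ≤ p.1 ^ (-(1 / 2) : ℝ) := rpow_nonneg hX.le _
    have n2 : 0 ≤ p.2 ^ (-(3 / 4) : ℝ) := rpow_nonneg hs.le _
    calc |G p.1| * |kern1 (φ p.1) (φ' p.1) (p.2 - p.1)|
        ≤ (CG / √p.1) * (2 * A * (1 + 1 / p.2)) := by gcongr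
      _ = CG * (2 * A) * (p.1 ^ (-(1 / 2) : ℝ) * (1 + 1 / p.2)) := by rw [← e1]; ring
      _ ≤ CG * (2 * A) * (p.1 ^ (-(1 / 2) : ℝ) *
          (1 + p.1 ^ (-(1 / 4) : ℝ) * p.2 ^ (-(3 / 4) : ℝ))) := by rw [e2]; gcongr
      _ = _ := by rw [e4, rpow_zero]; ring
  · rw [indicator_of_notMem hlt, norm_zero]
    have n1 : 0 ≤ p.1 ^ (-(1 / 2) : ℝ) := rpow_nonneg hX.le _
    have n2 : 0 ≤ p.2 ^ (-(3 / 4) : ℝ) := rpow_nonneg hs.le _
    have n3 : 0 ≤ p.1 ^ (-(3 / 4) : ℝ) := rpow_nonneg hX.le _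
    have n4 : 0 ≤ p.2 ^ (0 : ℝ) := rpow_nonneg hs.le _
    positivity

/-- The Volterra integral. -/
def VI (G : ℝ → ℝ) (φ φ' : ℝ → ℝ → ℝ) (s : ℝ) : ℝ :=
  ∫ X in Ioo 0 s, G X * kern1 (φ X) (φ' X) (s - X)

lemma F2_right {σ s : ℝ} (hs : s ∈ Ioo 0 σ) :
    ∫ X in Ioo 0 σ, F2 G φ φ' (X, s) = VI G φ φ' s := by
  have e : (fun X => F2 G φ φ' (X, s))
      = (Iio s).indicator (fun X => G X * kern1 (φ X) (φ' X) (s - X)) := by
    funext X
    simp only [F2, indicator, mem_ofPred_eq, mem_Iio]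
  have e2 : Ioo 0 σ ∩ Iio s = Ioo 0 s := by
    ext X
    simp only [mem_inter_iff, mem_Ioo, mem_Iio]
    constructor
    · rintro ⟨⟨h1, _⟩, h3⟩; exact ⟨h1, h3⟩
    · rintro ⟨h1, h2⟩; exact ⟨⟨h1, h2.trans hs.2⟩, h2⟩
  rw [e, setIntegral_indicator measurableSet_Iio, e2]
  rfl

lemma integrable_VI (hb : 0 < b) (hGm : AEStronglyMeasurable G (volume.restrict (Ioo 0 b)))
    (hGb : ∀ X ∈ Ioo 0 b, |G X| ≤ CG / √X) (h : GoodPhi b A φ φ') :
    IntegrableOn (VI G φ φ') (Ioo 0 b) := by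
  have h1 := (integrable_F2 hb hGm hGb h).integral_prod_right
  refine h1.congr ?_
  filter_upwards [ae_restrict_mem measurableSet_Ioo] with s hs
  exact F2_right hs

theorem step2 (hGm : AEStronglyMeasurable G (volume.restrict (Ioo 0 b)))
    (hGb : ∀ X ∈ Ioo 0 b, |G X| ≤ CG / √X) (h : GoodPhi b A φ φ')
    (heq : ∀ᵐ s ∂(volume.restrict (Ioo 0 b)), ∫ X in Ioo 0 s, G X * (Kc (s - X) * φ X (s - X)) = 0)
    {σ : ℝ} (hσ : 0 < σ) (hσb : σ ≤ b) :
    ∫ s in Ioo 0 σ, (φ s 0 * G s + VI G φ φ' s) = 0 := by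
  have hle : volume.restrict (Ioo 0 σ) ≤ volume.restrict (Ioo 0 b) :=
    Measure.restrict_mono (Ioo_subset_Ioo_right hσb) le_rfl
  have hGm' := hGm.mono_measure hle
  have hGb' : ∀ X ∈ Ioo 0 σ, |G X| ≤ CG / √X := fun X hX => hGb X ⟨hX.1, hX.2.trans_le hσb⟩
  have h' := h.mono hσb
  have hFi := integrable_F2 hσ hGm' hGb' h'
  have hGi : IntegrableOn G (Ioo 0 σ) := integrable_G hGm' hGb'
  have hφG : IntegrableOn (fun s => φ s 0 * G s) (Ioo 0 σ) := by
    have hm0 : Measurable (fun s => φ s 0) :=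
      h.meas.comp (by fun_prop : Measurable fun s : ℝ => (s, (0 : ℝ)))
    refine Integrable.mono' (hGi.norm.const_mul A) (hm0.aestronglyMeasurable.mul hGm') ?_
    filter_upwards [ae_restrict_mem measurableSet_Ioo] with s hs
    rw [norm_mul, Real.norm_eq_abs]
    have := h'.bd s hs 0 ⟨le_rfl, hσ.le⟩
    gcongr
  have hVi := integrable_VI hσ hGm' hGb' h'
  rw [integral_add hφG hVi]
  have h1 := step1 hGm hGb h heq hσ hσb
  have hX : ∀ X ∈ Ioo 0 σ, ∫ s in Ioo 0 σ, F2 G φ φ' (X, s)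
      = G X * Bt (φ X) (σ - X) - φ X 0 * G X := by
    intro X hX
    have hXb : X ∈ Ioo 0 b := ⟨hX.1, hX.2.trans_le hσb⟩
    have h0 : 0 ≤ σ - X := by linarith [hX.2]
    have hsub : Icc 0 (σ - X) ⊆ Icc 0 b := Icc_subset_Icc_right (by linarith [hX.1])
    have hB := Bt_eq (f := φ X) (f' := φ' X) h0 ((h.cont X hXb).mono hsub)
      ((h.cont' X hXb).mono hsub)
      (fun Y hY => h.deriv X hXb Y ⟨hY.1, hY.2.trans_le (by linarith [hX.1])⟩)
    have e : (fun s => F2 G φ φ' (X, s))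
        = (Ioi X).indicator (fun s => G X * kern1 (φ X) (φ' X) (s - X)) := by
      funext s
      simp only [F2, indicator, mem_ofPred_eq, mem_Ioi]
    have e2 : Ioo 0 σ ∩ Ioi X = Ioo X σ := by
      ext s
      simp only [mem_inter_iff, mem_Ioo, mem_Ioi]
      constructor
      · rintro ⟨⟨_, h2⟩, h3⟩; exact ⟨h3, h2⟩
      · rintro ⟨h1, h2⟩; exact ⟨⟨hX.1.trans h1, h2⟩, h1⟩
    rw [e, setIntegral_indicator measurableSet_Ioi, e2, integral_const_mul,
      setIntegral_shift hX.2 (kern1 (φ X) (φ' X)), hB, ← integral_Ioc_eq_integral_Ioo,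
      ← intervalIntegral.integral_of_le h0]
    ring
  have hswap := integral_integral_swap (f := fun X s => F2 G φ φ' (X, s)) hFi
  have hL : ∫ X in Ioo 0 σ, (∫ s in Ioo 0 σ, F2 G φ φ' (X, s))
      = ∫ X in Ioo 0 σ, (G X * Bt (φ X) (σ - X) - φ X 0 * G X) :=
    setIntegral_congr_fun measurableSet_Ioo hX
  have hR : ∫ s in Ioo 0 σ, (∫ X in Ioo 0 σ, F2 G φ φ' (X, s)) = ∫ s in Ioo 0 σ, VI G φ φ' s :=
    setIntegral_congr_fun measurableSet_Ioo (fun s hs => F2_right hs)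
  have hGB : IntegrableOn (fun X => G X * Bt (φ X) (σ - X)) (Ioo 0 σ) := by
    have h5 : IntegrableOn (fun X => ∫ s in Ioo 0 σ, F2 G φ φ' (X, s)) (Ioo 0 σ) :=
      hFi.integral_prod_left
    have h6 : IntegrableOn (fun X => (G X * Bt (φ X) (σ - X) - φ X 0 * G X)) (Ioo 0 σ) :=
      h5.congr_fun hX measurableSet_Ioo
    refine (h6.add hφG).congr_fun (fun X _ => ?_) measurableSet_Ioo
    simp
  rw [integral_sub hGB hφG, h1] at hL
  linarith

/-- **The Volterra equation.** -/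
theorem volterra_B (hb : 0 < b) (hGm : AEStronglyMeasurable G (volume.restrict (Ioo 0 b)))
    (hGb : ∀ X ∈ Ioo 0 b, |G X| ≤ CG / √X) (h : GoodPhi b A φ φ')
    (heq : ∀ᵐ s ∂(volume.restrict (Ioo 0 b)),
      ∫ X in Ioo 0 s, G X * (Kc (s - X) * φ X (s - X)) = 0) :
    ∀ᵐ s ∂(volume.restrict (Ioo 0 b)), φ s 0 * G s + VI G φ φ' s = 0 := by
  have hGi : IntegrableOn G (Ioo 0 b) := integrable_G hGm hGb
  have hφG : IntegrableOn (fun s => φ s 0 * G s) (Ioo 0 b) := by
    have hm0 : Measurable (fun s => φ s 0) :=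
      h.meas.comp (by fun_prop : Measurable fun s : ℝ => (s, (0 : ℝ)))
    refine Integrable.mono' (hGi.norm.const_mul A) (hm0.aestronglyMeasurable.mul hGm) ?_
    filter_upwards [ae_restrict_mem measurableSet_Ioo] with s hs
    rw [norm_mul, Real.norm_eq_abs]
    have := h.bd s hs 0 ⟨le_rfl, hb.le⟩
    gcongr
  have hH : IntegrableOn (fun s => φ s 0 * G s + VI G φ φ' s) (Ioo 0 b) :=
    hφG.add (integrable_VI hb hGm hGb h)
  rw [← intervalIntegrable_iff_integrableOn_Ioo_of_le hb.le] at hH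
  have hd := hH.ae_hasDerivAt_integral
  rw [ae_restrict_iff' measurableSet_Ioo]
  filter_upwards [hd] with s hs hsb
  have h1 := hs (by rw [uIcc_of_le hb.le]; exact Ioo_subset_Icc_self hsb) 0 left_mem_uIcc
  have h2 : HasDerivAt (fun x => ∫ t in (0 : ℝ)..x, (φ t 0 * G t + VI G φ φ' t)) 0 s := by
    apply (hasDerivAt_const s (0 : ℝ)).congr_of_eventuallyEq
    filter_upwards [Ioo_mem_nhds hsb.1 hsb.2] with x hx
    rw [intervalIntegral.integral_of_le hx.1.le, integral_Ioc_eq_integral_Ioo]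
    exact step2 hGm hGb h heq hx.1 hx.2.le
  exact h1.unique h2

end main

end Pool.Agent.Lib.MP_85963d_gt.H31
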