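import Pool.Agent.Lib.MP_85963d_gt.H31.MR

/-!
# A degree argument for `C^1` maps

If `g` is a `C^1` self-map of a Euclidean space which is the identity on the sphere of radius `R`,
equal to a linear isomorphism `C` near `0` and without zero in between, then `det C > 0`.
-/

namespace Pool.Agent.Lib.MP_85963d_gt.H31

open MeasureTheory Metric Set
open scoped NNReal ENNReal ContDiff

noncomputable section

variable {E : Type*} [NormedAddCommGroup E] [InnerProductSpace ℝ E]

/-- The square of the denominator of the blow-up map. -/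
def bden (δ : ℝ) (y : E) : ℝ :=
  ‖y‖ ^ 2 + δ ^ 2 * (1 - Real.smoothTransition (‖y‖ ^ 2 / δ ^ 2))

/-- The blow-up map: it maps the complement of the ball of radius `δ` to the sphere of radius `R`
by radial projection. -/
def blow (R δ : ℝ) (y : E) : E := (R / Real.sqrt (bden δ y)) • y

omit [InnerProductSpace ℝ E] in
lemma bden_pos {δ : ℝ} (hδ : 0 < δ) (y : E) : 0 < bden δ y := by
  unfold bden
  have h1 : 0 ≤ 1 - Real.smoothTransition (‖y‖ ^ 2 / δ ^ 2) :=
    sub_nonneg.2 (Real.smoothTransition.le_one _)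
  by_cases hy : y = 0
  · subst hy
    simp only [norm_zero, ne_eq, OfNat.ofNat_ne_zero, not_false_eq_true, zero_pow, zero_div]
    rw [Real.smoothTransition.zero_of_nonpos le_rfl]
    positivity
  · have : 0 < ‖y‖ := norm_pos_iff.2 hy
    positivity

omit [InnerProductSpace ℝ E] in
lemma bden_of_ge {δ : ℝ} (hδ : 0 < δ) {y : E} (hy : δ ≤ ‖y‖) : bden δ y = ‖y‖ ^ 2 := by
  unfold bden
  have h1 : 1 ≤ ‖y‖ ^ 2 / δ ^ 2 := by
    rw [one_le_div (by positivity)]
    gcongr
  rw [Real.smoothTransition.one_of_one_le h1]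
  simp

lemma blow_of_ge {R δ : ℝ} (hδ : 0 < δ) {y : E} (hy : δ ≤ ‖y‖) :
    blow R δ y = (R / ‖y‖) • y := by
  unfold blow
  rw [bden_of_ge hδ hy, Real.sqrt_sq (norm_nonneg y)]

lemma contDiff_bden (δ : ℝ) : ContDiff ℝ 1 (bden δ : E → ℝ) := by
  unfold bden
  have h1 : ContDiff ℝ 1 (fun y : E => ‖y‖ ^ 2) := contDiff_norm_sq ℝ
  have h2 : ContDiff ℝ 1 Real.smoothTransition := Real.smoothTransition.contDiff
  exact h1.add (contDiff_const.mul (contDiff_const.sub (h2.comp (h1.div_const _))))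

lemma contDiff_blow {R δ : ℝ} (hδ : 0 < δ) : ContDiff ℝ 1 (blow R δ : E → E) := by
  unfold blow
  refine ContDiff.smul (contDiff_const.div ((contDiff_bden δ).sqrt fun y => (bden_pos hδ y).ne')
    fun y => (Real.sqrt_pos.2 (bden_pos hδ y)).ne') contDiff_id

variable [FiniteDimensional ℝ E]

/-- The Jacobian of the blow-up map vanishes outside the closed ball of radius `δ`. -/
lemma det_fderiv_blow {R δ : ℝ} (hδ : 0 < δ) {y : E} (hy : δ < ‖y‖) :
    (fderiv ℝ (blow R δ : E → E) y).det = 0 := by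
  have hy0 : y ≠ 0 := by
    intro h; subst h; simp at hy; linarith
  have hd : HasFDerivAt (blow R δ : E → E) (fderiv ℝ (blow R δ) y) y :=
    ((contDiff_blow hδ).differentiable one_ne_zero y).hasFDerivAt
  have h1 : fderiv ℝ (blow R δ : E → E) y y = 0 := by
    have hl : HasDerivAt (fun t : ℝ => y + t • y) y 0 := by
      simpa using ((hasDerivAt_id (0 : ℝ)).smul_const y).const_add y
    have hd' : HasFDerivAt (blow R δ : E → E) (fderiv ℝ (blow R δ) y) (y + (0 : ℝ) • y) := by
      simpa using hd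
    have h2 : HasDerivAt (fun t : ℝ => blow R δ (y + t • y)) (fderiv ℝ (blow R δ : E → E) y y) 0 :=
      HasFDerivAt.comp_hasDerivAt (l := (blow R δ : E → E)) (f := fun t : ℝ => y + t • y)
        (0 : ℝ) hd' hl
    have h3 : (fun t : ℝ => blow R δ (y + t • y)) =ᶠ[nhds 0] fun _ => (R / ‖y‖) • y := by
      have h4 : ∀ᶠ t : ℝ in nhds 0, δ < ‖y + t • y‖ := by
        have hc : Continuous fun t : ℝ => ‖y + t • y‖ := by fun_prop
        exact (hc.tendsto 0).eventually (lt_mem_nhds (by simpa using hy))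
      have h5 : ∀ᶠ t : ℝ in nhds 0, 0 < 1 + t := by
        have hc : Continuous fun t : ℝ => 1 + t := by fun_prop
        exact (hc.tendsto 0).eventually (lt_mem_nhds (by simp))
      filter_upwards [h4, h5] with t ht1 ht2
      rw [blow_of_ge hδ ht1.le]
      have h6 : y + t • y = (1 + t) • y := by rw [add_smul, one_smul]
      rw [h6, norm_smul, Real.norm_eq_abs, abs_of_pos ht2, smul_smul]
      congr 1
      have : ‖y‖ ≠ 0 := norm_ne_zero_iff.2 hy0
      field_simp
    have h7 : HasDerivAt (fun t : ℝ => blow R δ (y + t • y)) 0 0 :=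
      (hasDerivAt_const (0 : ℝ) ((R / ‖y‖) • y)).congr_of_eventuallyEq h3
    exact h2.unique h7
  by_contra hne
  unfold ContinuousLinearMap.det at hne
  have := LinearMap.ker_eq_bot_of_injective (f := (fderiv ℝ (blow R δ : E → E) y : E →ₗ[ℝ] E))
    (LinearMap.equivOfDetNeZero _ hne).injective
  have h8 : y ∈ LinearMap.ker (fderiv ℝ (blow R δ : E → E) y : E →ₗ[ℝ] E) := by
    rw [LinearMap.mem_ker]; exact h1
  rw [this] at h8
  exact hy0 ((Submodule.mem_bot ℝ).1 h8)

lemma exists_lipschitzOn_closedBall {k : E → E} (hk : ContDiff ℝ 1 k) (R : ℝ) :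
    ∃ K : ℝ≥0, LipschitzOnWith K k (closedBall 0 R) := by
  obtain ⟨K, hK⟩ := (hk.locallyLipschitz.locallyLipschitzOn
    (s := closedBall (0 : E) R)).exists_lipschitzOnWith_of_compact (isCompact_closedBall 0 R)
  exact ⟨K, hK⟩

variable [MeasurableSpace E] [BorelSpace E]

/-- `C^1` version of the volume lemma. -/
lemma integral_det_eq_of_contDiff {R : ℝ} (hR : 0 < R) {k : E → E} (hk : ContDiff ℝ 1 k)
    (hb : ∀ x, ‖x‖ = R → k x = x) :
    ∫ x in ball (0 : E) R, (fderiv ℝ k x).det = volume.real (ball (0 : E) R) := by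
  obtain ⟨K, hK⟩ := exists_lipschitzOn_closedBall hk R
  exact integral_det_eq volume hR hK
    (fun x _ => (hk.differentiable one_ne_zero x).hasFDerivAt) hb

/-- **Sign of the linear part.** -/
theorem det_pos_of_contDiff {R ε : ℝ} (hε : 0 < ε) (hεR : ε ≤ R) {g : E → E}
    (hg : ContDiff ℝ 1 g) (hgR : ∀ x, ‖x‖ = R → g x = x) (C : E ≃L[ℝ] E)
    (hgC : ∀ x, ‖x‖ ≤ ε → g x = C x) (hg0 : ∀ x, ε ≤ ‖x‖ → ‖x‖ ≤ R → g x ≠ 0) :
    0 < (C : E →L[ℝ] E).det := by
  have hR : 0 < R := hε.trans_le hεR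
  -- lower bounds
  obtain ⟨δ, hδ, hδR, hδ1, hδ2⟩ : ∃ δ : ℝ, 0 < δ ∧ δ < R ∧
      (∀ x, ε ≤ ‖x‖ → ‖x‖ ≤ R → δ < ‖g x‖) ∧ (∀ x, ε ≤ ‖x‖ → δ < ‖C x‖) := by
    have hcomp : IsCompact (closedBall (0 : E) R ∩ {x | ε ≤ ‖x‖}) :=
      (isCompact_closedBall 0 R).inter_right (isClosed_le continuous_const continuous_norm)
    have hcont : ContinuousOn (fun x => 1 / ‖g x‖) (closedBall (0 : E) R ∩ {x | ε ≤ ‖x‖}) := by
      refine ContinuousOn.div continuousOn_const hg.continuous.norm.continuousOn fun x hx => ?_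
      exact norm_ne_zero_iff.2 (hg0 x hx.2 (by simpa using hx.1))
    obtain ⟨B, hB⟩ := hcomp.exists_bound_of_continuousOn hcont
    set B' := max B 1 with hB'
    have hB'0 : 0 < B' := lt_of_lt_of_le one_pos (le_max_right _ _)
    have hgb : ∀ x, ε ≤ ‖x‖ → ‖x‖ ≤ R → 1 / B' ≤ ‖g x‖ := by
      intro x h1 h2
      have h3 := hB x ⟨by simpa using h2, h1⟩
      have h4 : 0 < ‖g x‖ := norm_pos_iff.2 (hg0 x h1 h2)
      rw [Real.norm_eq_abs, abs_of_pos (by positivity)] at h3
      have h5 : 1 / ‖g x‖ ≤ B' := h3.trans (le_max_left _ _)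
      rw [div_le_iff₀ hB'0]
      rwa [div_le_iff₀ h4, mul_comm] at h5
    have hCpos : ∀ x, ε ≤ ‖x‖ → 1 / B' ≤ ‖C x‖ := by
      intro x hx
      have hx0 : 0 < ‖x‖ := hε.trans_le hx
      have h1 : ‖(ε / ‖x‖) • x‖ = ε := by
        rw [norm_smul, Real.norm_eq_abs, abs_of_pos (by positivity), div_mul_cancel₀ _ hx0.ne']
      have h2 := hgb ((ε / ‖x‖) • x) h1.ge (by rw [h1]; exact hεR)
      rw [hgC _ h1.le, map_smul, norm_smul, Real.norm_eq_abs, abs_of_pos (by positivity)] at h2
      have h3 : ε / ‖x‖ ≤ 1 := by rw [div_le_one hx0]; exact hx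
      calc 1 / B' ≤ ε / ‖x‖ * ‖C x‖ := h2
        _ ≤ 1 * ‖C x‖ := mul_le_mul_of_nonneg_right h3 (norm_nonneg _)
        _ = ‖C x‖ := one_mul _
    refine ⟨min (1 / (2 * B')) (R / 2), by positivity,
      (min_le_right _ _).trans_lt (by linarith), fun x h1 h2 => ?_,
      fun x h1 => ?_⟩
    · have h3 := hgb x h1 h2
      have h4 : 1 / (2 * B') < 1 / B' := by
        apply one_div_lt_one_div_of_lt hB'0; linarith
      exact (min_le_left _ _).trans_lt (h4.trans_le h3)
    · have h3 := hCpos x h1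
      have h4 : 1 / (2 * B') < 1 / B' := by
        apply one_div_lt_one_div_of_lt hB'0; linarith
      exact (min_le_left _ _).trans_lt (h4.trans_le h3)
  set ψ : E → ℝ := fun y => (fderiv ℝ (blow R δ : E → E) y).det with hψ
  have hψ0 : ∀ y, δ < ‖y‖ → ψ y = 0 := fun y hy => det_fderiv_blow hδ hy
  have hblowR : ∀ x : E, ‖x‖ = R → blow R δ x = x := by
    intro x hx
    rw [blow_of_ge hδ (by rw [hx]; exact hδR.le), hx, div_self hR.ne', one_smul]
  -- the integral of `ψ`
  have hI1 : ∫ y in ball (0 : E) R, ψ y = volume.real (ball (0 : E) R) :=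
    integral_det_eq_of_contDiff hR (contDiff_blow hδ) hblowR
  have hI1' : ∫ y, ψ y = volume.real (ball (0 : E) R) := by
    rw [← hI1]
    symm
    apply setIntegral_eq_integral_of_forall_compl_eq_zero
    intro y hy
    apply hψ0
    have : R ≤ ‖y‖ := by simpa using hy
    exact lt_of_lt_of_le hδR this
  -- the integral for `g`
  have hk : ContDiff ℝ 1 (fun x => blow R δ (g x)) := (contDiff_blow hδ).comp hg
  have hI2 : ∫ x in ball (0 : E) R, (fderiv ℝ (fun x => blow R δ (g x)) x).det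
      = volume.real (ball (0 : E) R) :=
    integral_det_eq_of_contDiff hR hk fun x hx => by
      show blow R δ (g x) = x
      rw [hgR x hx, hblowR x hx]
  have hchain : ∀ x ∈ ball (0 : E) R, (fderiv ℝ (fun x => blow R δ (g x)) x).det
      = (C : E →L[ℝ] E).det * ψ (C x) := by
    intro x hx
    have hcomp : fderiv ℝ (fun x => blow R δ (g x)) x
        = (fderiv ℝ (blow R δ : E → E) (g x)).comp (fderiv ℝ g x) :=
      fderiv_comp x ((contDiff_blow hδ).differentiable one_ne_zero (g x))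
        (hg.differentiable one_ne_zero x)
    have hdet : (fderiv ℝ (fun x => blow R δ (g x)) x).det
        = ψ (g x) * (fderiv ℝ g x).det := by
      rw [hcomp, hψ]
      unfold ContinuousLinearMap.det
      exact LinearMap.det_comp _ _
    rw [hdet]
    by_cases hxε : ‖x‖ < ε
    · have h1 : g =ᶠ[nhds x] fun y => C y := by
        have : ∀ᶠ y in nhds x, ‖y‖ < ε :=
          continuous_norm.continuousAt.eventually_mem (Iio_mem_nhds hxε)
        filter_upwards [this] with y hy
        exact hgC y hy.le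
      have h2 : fderiv ℝ g x = (C : E →L[ℝ] E) := by
        rw [h1.fderiv_eq]
        exact (C : E →L[ℝ] E).hasFDerivAt.fderiv
      rw [h2, hgC x hxε.le, mul_comm]
    · push Not at hxε
      rw [hψ0 _ (hδ1 x hxε (by simpa using (mem_ball_zero_iff.1 hx).le)), hψ0 _ (hδ2 x hxε)]
      simp
  rw [setIntegral_congr_fun measurableSet_ball hchain, integral_const_mul] at hI2
  have hI3 : ∫ x in ball (0 : E) R, ψ (C x) = ∫ x, ψ (C x) := by
    apply setIntegral_eq_integral_of_forall_compl_eq_zero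
    intro y hy
    apply hψ0
    have : R ≤ ‖y‖ := by simpa using hy
    exact hδ2 y (hεR.trans this)
  have hI4 : ∫ y, ψ y = |(C : E →L[ℝ] E).det| * ∫ x, ψ (C x) := by
    have h1 := integral_image_eq_integral_abs_det_fderiv_smul (volume : Measure E)
      (s := univ) (f := fun x => C x) (f' := fun _ => (C : E →L[ℝ] E)) MeasurableSet.univ
      (fun x _ => (C : E →L[ℝ] E).hasFDerivAt.hasFDerivWithinAt) C.injective.injOn ψ
    rw [image_univ, C.surjective.range_eq] at h1
    simp only [Measure.restrict_univ, smul_eq_mul] at h1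
    rw [h1, integral_const_mul]
  rw [hI3] at hI2
  have hvol : 0 < volume.real (ball (0 : E) R) := by
    rw [Measure.real, ENNReal.toReal_pos_iff]
    exact ⟨measure_ball_pos _ _ hR, measure_ball_lt_top⟩
  have hd : (C : E →L[ℝ] E).det * ∫ x, ψ (C x) = |(C : E →L[ℝ] E).det| * ∫ x, ψ (C x) := by
    rw [hI2, ← hI4, hI1']
  have hne : ∫ x, ψ (C x) ≠ 0 := by
    intro h0
    rw [h0, mul_zero] at hI2
    linarith
  have h1 := mul_right_cancel₀ hne hd
  have h2 : (C : E →L[ℝ] E).det ≠ 0 := by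
    intro h0
    rw [h0, zero_mul] at hI2
    linarith
  rcases lt_or_gt_of_ne h2 with h3 | h3
  · rw [abs_of_neg h3] at h1
    linarith
  · exact h3

end

end Pool.Agent.Lib.MP_85963d_gt.H31
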