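import Pool.Agent.Lib.MP_85963d_gt.H31.AsyI
import Pool.Agent.Lib.MP_85963d_gt.H87.AB4

/-! Existence of the solutions of the cylinder equation on `(0,∞)` (from `H87/AB4`). -/

set_option autoImplicit false
open Set MeasureTheory Real Filter Topology

noncomputable section
namespace Pool.Agent.Lib.MP_85963d_gt.H31

open H87 (CylSol cylK SolW WT TG HK)

/-- the weight of the cylinder -/
def wc (_ Y : ℝ) : ℝ := 1 / ((1 + Y) * √(1 + Y))

def wc' (_ Y : ℝ) : ℝ := -(3 / 2) / ((1 + Y) ^ 2 * √(1 + Y))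

lemma wt_cyl (b : ℝ) : WT b (3 / 2) 1 wc wc' where
  meas := by unfold wc; fun_prop
  meas' := by unfold wc'; fun_prop
  deriv X Y _ hY _ := by
    have hp : 0 < 1 + Y := by linarith
    have hs : 0 < √(1 + Y) := sqrt_pos.2 hp
    have d1 : HasDerivAt (fun Y : ℝ => 1 + Y) 1 Y := (hasDerivAt_id Y).const_add 1
    have d2 := (d1.mul (d1.sqrt hp.ne')).inv (by simp only [Pi.mul_apply]; positivity)
    have e : wc X = fun Y => ((1 + Y) * √(1 + Y))⁻¹ := by
      funext Y; unfold wc; rw [one_div]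
    rw [e]
    refine d2.congr_deriv ?_
    unfold wc'
    simp only [Pi.mul_apply]
    have hq : √(1 + Y) * √(1 + Y) = 1 + Y := mul_self_sqrt hp.le
    have hq2 : √(1 + Y) ^ 2 = 1 + Y := sq_sqrt hp.le
    field_simp
    rw [hq2]
    ring
  cont' X _ _ := by
    unfold wc'
    apply ContinuousOn.div (by fun_prop) (by fun_prop)
    intro Y hY
    have hp : 0 < 1 + Y := by linarith [hY.1]
    have hs : 0 < √(1 + Y) := sqrt_pos.2 hp
    positivity
  near X Y hX hY _ := by
    have hp : 0 < 1 + Y := by linarith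
    have hs : 0 < √(1 + Y) := sqrt_pos.2 hp
    have hs1 : 1 ≤ √(1 + Y) := by rw [one_le_sqrt]; linarith
    have hq : √(1 + Y) ^ 2 = 1 + Y := sq_sqrt hp.le
    unfold wc
    set a := √(1 + Y)
    rw [← hq]
    have hle : 1 / (a ^ 2 * a) ≤ 1 := by
      rw [div_le_one (by positivity)]
      nlinarith [mul_pos hs hs]
    rw [abs_sub_comm, abs_of_nonneg (by linarith)]
    have h1 : 1 - 1 / (a ^ 2 * a) ≤ 3 / 2 * Y := by
      have hY' : Y = a ^ 2 - 1 := by linarith
      rw [hY', sub_le_iff_le_add, ← sub_le_iff_le_add', le_div_iff₀ (by positivity)]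
      nlinarith [mul_nonneg (sq_nonneg (a - 1)) (by positivity :
        0 ≤ 3 / 2 * a ^ 3 + 3 * a ^ 2 + 2 * a + 1)]
    linarith
  bd' X Y _ hY _ := by
    have hp : 1 ≤ 1 + Y := by linarith
    have hs1 : 1 ≤ √(1 + Y) := by rw [one_le_sqrt]; linarith
    unfold wc'
    rw [abs_div, abs_neg, abs_of_pos (by norm_num : (0 : ℝ) < 3 / 2),
      abs_of_nonneg (by positivity)]
    apply div_le_self (by norm_num)
    have : 1 ≤ (1 + Y) ^ 2 := one_le_pow₀ hp
    nlinarith
  diag := by
    have : (fun s => wc s 0) = fun _ => 1 := by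
      funext s; unfold wc; simp
    rw [this]
    exact continuousOn_const
  low s _ _ := by
    have : wc s 0 = 1 := by unfold wc; simp
    rw [this]

lemma cyl_kernel (G : ℝ → ℝ) {s : ℝ} (hs : 0 < s) :
    TG (HK wc) G s = s ^ 2 * ∫ X in (0 : ℝ)..s, (1 - 8 * X * (s - X) / s ^ 2) * (G X * cylK (s - X)) := by
  rw [intervalIntegral.integral_of_le hs.le, integral_Ioc_eq_integral_Ioo, ← integral_const_mul]
  unfold TG HK
  apply setIntegral_congr_fun measurableSet_Ioo
  intro X hX
  simp only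
  have hY : 0 < s - X := by linarith [hX.2]
  have h1 : 0 < √(s - X) := sqrt_pos.2 hY
  have h2 : 0 < √(1 + (s - X)) := sqrt_pos.2 (by linarith)
  have h3 : 0 < 1 + (s - X) := by linarith
  unfold wc cylK
  field_simp
  ring

/-- the integral in the cylinder equation is a continuous function of `s > 0`. -/
lemma cyl_cont {G : ℝ → ℝ} (hG : ContinuousOn G (Ioi 0))
    (hb : ∀ b : ℝ, 0 < b → ∃ K : ℝ, 0 ≤ K ∧ ∀ X ∈ Ioc (0 : ℝ) b, |G X| ≤ K / √X) :
    ContinuousOn (fun s => ∫ X in (0 : ℝ)..s,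
      (1 - 8 * X * (s - X) / s ^ 2) * (G X * cylK (s - X))) (Ioi 0) := by
  intro s₀ hs₀
  have hs₀' : 0 < s₀ := hs₀
  apply ContinuousAt.continuousWithinAt
  -- substitution
  set F : ℝ → ℝ → ℝ := fun s z => (1 - 8 * z * (1 - z)) * (G (s * z) * cylK (s * (1 - z))) with hF
  have hsub : ∀ s, 0 < s → ∫ X in (0 : ℝ)..s, (1 - 8 * X * (s - X) / s ^ 2) * (G X * cylK (s - X))
      = s * ∫ z in (0 : ℝ)..1, F s z := by
    intro s hs
    have h := intervalIntegral.integral_comp_mul_left (a := 0) (b := 1)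
      (fun X => (1 - 8 * X * (s - X) / s ^ 2) * (G X * cylK (s - X))) hs.ne'
    rw [mul_zero, mul_one, smul_eq_mul] at h
    have h2 : ∫ z in (0 : ℝ)..1, F s z = ∫ z in (0 : ℝ)..1,
        (1 - 8 * (s * z) * (s - s * z) / s ^ 2) * (G (s * z) * cylK (s - s * z)) := by
      congr 1
      funext z
      rw [hF]
      simp only
      have e1 : 8 * (s * z) * (s - s * z) / s ^ 2 = 8 * z * (1 - z) := by field_simp
      have e2 : s * (1 - z) = s - s * z := by ring
      rw [e1, e2]
    rw [h2, h]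
    field_simp
  have hkey : ContinuousAt (fun s => ∫ z in (0 : ℝ)..1, F s z) s₀ := by
    obtain ⟨K, hK0, hK⟩ := hb (2 * s₀) (by linarith)
    have i1 : IntervalIntegrable (fun z : ℝ => z ^ (-(1 / 2) : ℝ)) volume 0 1 :=
      intervalIntegral.intervalIntegrable_rpow' (by norm_num)
    have i2 : IntervalIntegrable (fun z : ℝ => (1 - z) ^ (-(1 / 2) : ℝ)) volume 0 1 := by
      have := i1.comp_sub_left 1
      simp only [sub_zero, sub_self] at this
      exact this.symm
    have hnear : ∀ᶠ s in 𝓝 s₀, s ∈ Ioo (s₀ / 2) (2 * s₀) :=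
      Ioo_mem_nhds (by linarith) (by linarith)
    refine intervalIntegral.continuousAt_of_dominated_interval
      (bound := fun z => 4 * K / s₀ * (z ^ (-(1 / 2) : ℝ) + (1 - z) ^ (-(1 / 2) : ℝ))) ?_ ?_
      ((i1.add i2).const_mul _) ?_
    · filter_upwards [hnear] with s hs
      have hs0 : 0 < s := by linarith [hs.1]
      rw [uIoc_of_le zero_le_one]
      have m1 : AEStronglyMeasurable (fun z => G (s * z)) (volume.restrict (Ioc 0 1)) := by
        have : ContinuousOn (fun z => G (s * z)) (Ioc 0 1) :=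
          hG.comp (by fun_prop) (fun z hz => mul_pos hs0 hz.1)
        exact this.aestronglyMeasurable measurableSet_Ioc
      have m2 : Measurable (fun z => cylK (s * (1 - z))) := H87.cylK_meas.comp (by fun_prop)
      have m3 : Measurable (fun z : ℝ => 1 - 8 * z * (1 - z)) := by fun_prop
      exact m3.aestronglyMeasurable.mul (m1.mul m2.aestronglyMeasurable)
    · filter_upwards [hnear] with s hs
      have hs0 : 0 < s := by linarith [hs.1]
      have hne : ∀ᵐ z : ℝ, z ≠ 1 := by simp [ae_iff, measure_singleton]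
      filter_upwards [hne] with z hz1 hz
      rw [uIoc_of_le zero_le_one] at hz
      have hz0 : 0 < z := hz.1
      have hz1' : 0 < 1 - z := by
        have := lt_of_le_of_ne hz.2 hz1
        linarith
      have hsz : s * z ∈ Ioc 0 (2 * s₀) := ⟨by positivity, by nlinarith [hs.2, hz.2]⟩
      have h1 := hK (s * z) hsz
      have h2 := H87.cylK_le (mul_pos hs0 hz1')
      have h3 := H87.cylK_nonneg (mul_pos hs0 hz1')
      have h4 : |1 - 8 * z * (1 - z)| ≤ 1 := by
        rw [abs_le]
        constructor <;> nlinarith [sq_nonneg (1 - 2 * z), mul_pos hz0 hz1']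
      have hsz' : √(s * z) = √s * √z := sqrt_mul hs0.le z
      have hsz'' : √(s * (1 - z)) = √s * √(1 - z) := sqrt_mul hs0.le _
      have p1 : 0 < √s := sqrt_pos.2 hs0
      have p2 : 0 < √z := sqrt_pos.2 hz0
      have p3 : 0 < √(1 - z) := sqrt_pos.2 hz1'
      have hss : √s * √s = s := mul_self_sqrt hs0.le
      have hzz : √z * √z = z := mul_self_sqrt hz0.le
      have hzz' : √(1 - z) * √(1 - z) = 1 - z := mul_self_sqrt hz1'.le
      have e1 : z ^ (-(1 / 2) : ℝ) = 1 / √z := by
        rw [rpow_neg hz0.le, ← sqrt_eq_rpow, one_div]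
      have e2 : (1 - z) ^ (-(1 / 2) : ℝ) = 1 / √(1 - z) := by
        rw [rpow_neg hz1'.le, ← sqrt_eq_rpow, one_div]
      rw [hF]
      simp only
      rw [norm_mul, norm_mul, Real.norm_eq_abs, Real.norm_eq_abs, Real.norm_eq_abs, abs_of_pos h3,
        e1, e2]
      have h5 : 1 / (√z * √(1 - z)) ≤ 2 * (1 / √z + 1 / √(1 - z)) := by
        have e3 : 2 * (1 / √z + 1 / √(1 - z)) = (2 * √(1 - z) + 2 * √z) / (√z * √(1 - z)) := by
          field_simp
        rw [e3]
        apply div_le_div_of_nonneg_right _ (by positivity)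
        rcases le_total z (1 / 2) with hh | hh
        · have : 1 / 2 ≤ √(1 - z) := by
            apply Real.le_sqrt_of_sq_le
            linarith
          linarith
        · have : 1 / 2 ≤ √z := by
            apply Real.le_sqrt_of_sq_le
            linarith
          linarith
      calc |1 - 8 * z * (1 - z)| * (|G (s * z)| * cylK (s * (1 - z)))
          ≤ 1 * (K / √(s * z) * (1 / √(s * (1 - z)))) := by gcongr
        _ = K / s * (1 / (√z * √(1 - z))) := by
            have e4 : K / s = K / (√s * √s) := by rw [hss]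
            rw [hsz', hsz'', one_mul, e4]
            field_simp
        _ ≤ K / (s₀ / 2) * (2 * (1 / √z + 1 / √(1 - z))) := by
            gcongr
            exact hs.1.le
        _ = _ := by field_simp; ring
    · have hne : ∀ᵐ z : ℝ, z ≠ 1 := by simp [ae_iff, measure_singleton]
      filter_upwards [hne] with z hz1 hz
      rw [uIoc_of_le zero_le_one] at hz
      have hz0 : 0 < z := hz.1
      have hz1' : 0 < 1 - z := by
        have := lt_of_le_of_ne hz.2 hz1
        linarith
      rw [hF]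
      simp only
      apply ContinuousAt.mul continuousAt_const
      apply ContinuousAt.mul
      · have h1 : ContinuousAt G (s₀ * z) := hG.continuousAt (Ioi_mem_nhds (mul_pos hs₀' hz0))
        exact ContinuousAt.comp (f := fun s => s * z) h1 (by fun_prop)
      · unfold cylK
        have hp : 0 < s₀ * (1 - z) := mul_pos hs₀' hz1'
        apply ContinuousAt.div (by fun_prop) (by fun_prop)
        have p1 : 0 < √(s₀ * (1 - z)) := sqrt_pos.2 hp
        have p2 : 0 < √(1 + s₀ * (1 - z)) := sqrt_pos.2 (by linarith)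
        have : 0 < 1 + s₀ * (1 - z) := by linarith
        positivity
  have hprod : ContinuousAt (fun s => s * ∫ z in (0 : ℝ)..1, F s z) s₀ :=
    continuousAt_id.mul hkey
  refine hprod.congr ?_
  filter_upwards [Ioi_mem_nhds hs₀'] with s hs
  exact (hsub s hs).symm

/-- solutions on all `(0,b]` are solutions of the cylinder equation. -/
theorem cylSol_of {G : ℝ → ℝ} (hSol : ∀ b : ℝ, 0 < b → SolW b wc G) : CylSol G := by
  have hcont : ContinuousOn G (Ioi 0) := by
    intro X hX
    have hX0 : 0 < X := hX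
    have h1 := (hSol (X + 1) (by linarith)).cont X ⟨hX0, by linarith⟩
    refine (h1.continuousAt ?_).continuousWithinAt
    exact mem_of_superset (Ioo_mem_nhds hX0 (by linarith : X < X + 1)) Ioo_subset_Ioc_self
  have hbd : ∀ b : ℝ, 0 < b → ∃ K : ℝ, 0 ≤ K ∧ ∀ X ∈ Ioc (0 : ℝ) b, |G X| ≤ K / √X := by
    intro b hb
    obtain ⟨-, -, -, K, hK⟩ := (hSol b hb).bound (wt_cyl b) hb one_pos
    exact ⟨K, hK⟩
  have hc := cyl_cont hcont hbd
  have heq : ∀ s : ℝ, 0 < s →
      ∫ X in (0 : ℝ)..s, (1 - 8 * X * (s - X) / s ^ 2) * (G X * cylK (s - X)) = 0 := by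
    have hae : ∀ b : ℝ, 0 < b → ∀ᵐ s : ℝ, s ∈ Ioo 0 b →
        ∫ X in (0 : ℝ)..s, (1 - 8 * X * (s - X) / s ^ 2) * (G X * cylK (s - X)) = 0 := by
      intro b hb
      have h1 := (hSol b hb).eq
      rw [ae_restrict_iff' measurableSet_Ioo] at h1
      filter_upwards [h1] with s hs hsb
      have h2 := hs hsb
      rw [cyl_kernel G hsb.1] at h2
      have h3 : s ^ 2 ≠ 0 := pow_ne_zero 2 hsb.1.ne'
      exact (mul_eq_zero.1 h2).resolve_left h3
    intro s hs
    have hsub : Icc (s / 2) (2 * s) ⊆ Ioi (0 : ℝ) := fun x hx => by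
      have := hx.1
      exact lt_of_lt_of_le (by linarith) this
    have hmem : s ∈ Icc (s / 2) (2 * s) := ⟨by linarith, by linarith⟩
    have h1 := le_of_ae (v := fun s => ∫ X in (0 : ℝ)..s,
      (1 - 8 * X * (s - X) / s ^ 2) * (G X * cylK (s - X))) (a := s / 2) (T := 2 * s) (C := 0)
      (by linarith) (hc.mono hsub) (by
        filter_upwards [hae (2 * s) (by linarith)] with x hx hx'
        rw [hx ⟨by linarith [hx'.1], hx'.2⟩]) s hmem
    have h2 := le_of_ae (v := fun s => -∫ X in (0 : ℝ)..s,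
      (1 - 8 * X * (s - X) / s ^ 2) * (G X * cylK (s - X))) (a := s / 2) (T := 2 * s) (C := 0)
      (by linarith) (hc.mono hsub).neg (by
        filter_upwards [hae (2 * s) (by linarith)] with x hx hx'
        rw [hx ⟨by linarith [hx'.1], hx'.2⟩, neg_zero]) s hmem
    linarith
  refine ⟨hcont, ?_, heq⟩
  obtain ⟨K, -, hK⟩ := hbd 1 one_pos
  exact ⟨K, hK⟩

/-- every solution on `(0,1]` extends to a solution of the cylinder equation on `(0,∞)`. -/
theorem cyl_extend {G₀ : ℝ → ℝ} (h₀ : SolW 1 wc G₀) :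
    ∃ G : ℝ → ℝ, (∀ b : ℝ, 0 < b → SolW b wc G) ∧ ∀ X ∈ Ioc (0 : ℝ) 1, G X = G₀ X := by
  have hex : ∀ n : ℕ, ∃ E : ℝ → ℝ, SolW ((n : ℝ) + 1) wc E ∧ ∀ X ∈ Ioc (0 : ℝ) 1, E X = G₀ X := by
    intro n
    have hn : (0 : ℝ) ≤ n := n.cast_nonneg
    exact H87.extend (wt_cyl _) (by linarith) one_pos one_pos (by linarith) h₀
  choose E hE hE1 using hex
  have hagree : ∀ n m : ℕ, n ≤ m → ∀ X ∈ Ioc (0 : ℝ) ((n : ℝ) + 1), E m X = E n X := by
    intro n m hnm X hX
    have hn : (0 : ℝ) ≤ n := n.cast_nonneg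
    have hnm' : (n : ℝ) ≤ m := by exact_mod_cast hnm
    exact H87.unique_cont (wt_cyl ((n : ℝ) + 1)) (by linarith) one_pos one_pos (by linarith)
      ((hE m).mono (by linarith)) (hE n) (fun X hX => by rw [hE1 m X hX, hE1 n X hX]) X hX
  set G : ℝ → ℝ := fun X => E ⌈X⌉₊ X with hG
  have hGE : ∀ n : ℕ, ∀ X ∈ Ioc (0 : ℝ) ((n : ℝ) + 1), G X = E n X := by
    intro n X hX
    rw [hG]
    simp only
    rcases le_total n ⌈X⌉₊ with h | h
    · exact hagree n _ h X hX
    · refine (hagree _ n h X ⟨hX.1, ?_⟩).symm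
      have := Nat.le_ceil X
      linarith
  have hSol : ∀ b : ℝ, 0 < b → SolW b wc G := by
    intro b hb
    obtain ⟨n, hn⟩ := exists_nat_ge b
    have h1 : SolW ((n : ℝ) + 1) wc G := (hE n).congr (hGE n)
    exact h1.mono (by linarith)
  refine ⟨G, hSol, fun X hX => ?_⟩
  rw [hGE 0 X (by simpa using hX), hE1 0 X hX]

end Pool.Agent.Lib.MP_85963d_gt.H31
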