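import Pool.Agent.Lib.MP_85963d_gt.H31.Cyl
import Pool.Agent.Lib.MP_85963d_gt.H87.SV5
import Pool.Agent.Lib.MP_85963d_gt.H70.Bumps

/-! The two solutions of the cylinder equation and the choice of the bumps (Paper (10.1)). -/

set_option autoImplicit false
open Set MeasureTheory Real Filter Topology
open scoped ContDiff

noncomputable section
namespace Pool.Agent.Lib.MP_85963d_gt.H31

open H87 (CylSol cylK SolW WT TG HK Decay)

/-- the coefficient of `1/√X` at `0` -/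
lemma alpha_lim {G : ℝ → ℝ} (h : SolW 1 wc G) :
    ∃ α : ℝ, Tendsto (fun X => √X * G X) (𝓝[>] 0) (𝓝 α) := by
  obtain ⟨g, hg, hGg, -⟩ := h.bound (wt_cyl 1) one_pos one_pos
  have hIoo : ∀ᶠ X in 𝓝[>] (0 : ℝ), X ∈ Ioo (0 : ℝ) 1 := Ioo_mem_nhdsGT one_pos
  refine ⟨g 0, ?_⟩
  have h1 : Tendsto g (𝓝[>] 0) (𝓝 (g 0)) := by
    have h2 : Tendsto g (𝓝[Icc 0 1] 0) (𝓝 (g 0)) := hg 0 ⟨le_rfl, zero_le_one⟩
    refine h2.mono_left ?_
    refine nhdsWithin_le_iff.mpr ?_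
    filter_upwards [hIoo] with σ hσ
    exact ⟨hσ.1.le, hσ.2.le⟩
  refine h1.congr' ?_
  filter_upwards [hIoo] with X hX
  rw [hGg X ⟨hX.1, hX.2.le⟩, mul_div_cancel₀ _ (sqrt_pos.2 hX.1).ne']

/-- `G/√X` has a limit when the coefficient of `1/√X` vanishes -/
lemma lead_lim {G : ℝ → ℝ} (h : SolW 1 wc G)
    (h0 : Tendsto (fun X => √X * G X) (𝓝[>] 0) (𝓝 0)) :
    ∃ c : ℝ, Tendsto (fun X => G X / √X) (𝓝[>] 0) (𝓝 c) ∧
      (c = 0 → ∀ X ∈ Ioc (0 : ℝ) 1, G X = 0) :=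
  H87.lead ((wt_cyl 1).toMK one_pos one_pos) one_pos (h.sv (wt_cyl 1) one_pos one_pos) h0

/-- linear combinations -/
lemma cyl_lin {G1 G2 : ℝ → ℝ} (h1 : ∀ b : ℝ, 0 < b → SolW b wc G1)
    (h2 : ∀ b : ℝ, 0 < b → SolW b wc G2) (p q : ℝ) :
    ∀ b : ℝ, 0 < b → SolW b wc (fun X => p * G1 X + q * G2 X) :=
  fun b hb => H87.SolW.lin (wt_cyl b) hb one_pos (h1 b hb) (h2 b hb) p q

lemma cyl_int {G : ℝ → ℝ} (h : CylSol G) : IntegrableOn G (Ioi 0) := by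
  obtain ⟨C, hC⟩ := gdata_of_cylSol h
  exact hC.int

/-- two independent solutions on `(0,∞)`, not both with integral `0`. -/
theorem cyl_two : ∃ E1 E2 : ℝ → ℝ, (∀ b : ℝ, 0 < b → SolW b wc E1) ∧
    (∀ b : ℝ, 0 < b → SolW b wc E2) ∧
    (∀ x : ℝ, 0 < x → ∀ p q : ℝ, (∀ X ∈ Ioc (0 : ℝ) x, p * E1 X + q * E2 X = 0) → p = 0 ∧ q = 0) ∧
    ¬ (∫ X in Ioi 0, E1 X = 0 ∧ ∫ X in Ioi 0, E2 X = 0) := by
  obtain ⟨e1, e2, s1, s2, -, hind⟩ := H87.basis (wt_cyl 1) one_pos one_pos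
  obtain ⟨E1, hE1, hE1'⟩ := cyl_extend s1
  obtain ⟨E2, hE2, hE2'⟩ := cyl_extend s2
  have hindE : ∀ x : ℝ, 0 < x → ∀ p q : ℝ,
      (∀ X ∈ Ioc (0 : ℝ) x, p * E1 X + q * E2 X = 0) → p = 0 ∧ q = 0 := by
    intro x hx p q h
    refine hind (min x 1) ⟨lt_min hx one_pos, min_le_right _ _⟩ p q ?_
    intro X hX
    have hX1 : X ∈ Ioc (0 : ℝ) 1 := ⟨hX.1, hX.2.trans (min_le_right _ _)⟩
    rw [← hE1' X hX1, ← hE2' X hX1]
    exact h X ⟨hX.1, hX.2.trans (min_le_left _ _)⟩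
  refine ⟨E1, E2, hE1, hE2, hindE, ?_⟩
  rintro ⟨z1, z2⟩
  have c1 := cylSol_of hE1
  have c2 := cylSol_of hE2
  have i1 := cyl_int c1
  have i2 := cyl_int c2
  -- all combinations have integral 0
  have hz : ∀ p q : ℝ, ∫ X in Ioi 0, (p * E1 X + q * E2 X) = 0 := by
    intro p q
    rw [integral_add (i1.const_mul p) (i2.const_mul q), integral_const_mul, integral_const_mul,
      z1, z2]
    ring
  obtain ⟨α1, ha1⟩ := alpha_lim (hE1 1 one_pos)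
  obtain ⟨α2, ha2⟩ := alpha_lim (hE2 1 one_pos)
  have hα : ∀ p q : ℝ, Tendsto (fun X => √X * (p * E1 X + q * E2 X)) (𝓝[>] 0)
      (𝓝 (p * α1 + q * α2)) := by
    intro p q
    refine ((ha1.const_mul p).add (ha2.const_mul q)).congr (fun X => ?_)
    ring
  -- not both `α` vanish
  have hα12 : ¬ (α1 = 0 ∧ α2 = 0) := by
    rintro ⟨rfl, rfl⟩
    obtain ⟨k1, hk1, hk1'⟩ := lead_lim (hE1 1 one_pos) ha1
    obtain ⟨k2, hk2, hk2'⟩ := lead_lim (hE2 1 one_pos) ha2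
    have hs := cyl_lin hE1 hE2 k2 (-k1) 1 one_pos
    have ht0 : Tendsto (fun X => √X * (k2 * E1 X + -k1 * E2 X)) (𝓝[>] 0) (𝓝 0) := by
      have := hα k2 (-k1)
      simpa using this
    obtain ⟨c, hc, hc'⟩ := lead_lim hs ht0
    have hc0 : c = 0 := by
      have h3 : Tendsto (fun X => (k2 * E1 X + -k1 * E2 X) / √X) (𝓝[>] 0)
          (𝓝 (k2 * k1 + -k1 * k2)) := by
        refine ((hk1.const_mul k2).add (hk2.const_mul (-k1))).congr (fun X => ?_)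
        ring
      have := tendsto_nhds_unique hc h3
      rw [this]
      ring
    obtain ⟨hk2z, hk1z⟩ := hindE 1 one_pos k2 (-k1) (hc' hc0)
    -- then `E1 = 0`
    have hk10 : k1 = 0 := by linarith
    have hE10 := hk1' hk10
    have := hindE 1 one_pos 1 0 (fun X hX => by rw [hE10 X hX]; ring)
    exact one_ne_zero this.1
  -- `B = α2 E1 - α1 E2`
  have hB := cyl_lin hE1 hE2 α2 (-α1)
  have hB0 : Tendsto (fun X => √X * (α2 * E1 X + -α1 * E2 X)) (𝓝[>] 0) (𝓝 0) := by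
    have := hα α2 (-α1)
    have e : α2 * α1 + -α1 * α2 = 0 := by ring
    rwa [e] at this
  obtain ⟨c, hc, hc'⟩ := lead_lim (hB 1 one_pos) hB0
  have hcne : c ≠ 0 := by
    intro h0
    obtain ⟨h1, h2⟩ := hindE 1 one_pos α2 (-α1) (hc' h0)
    exact hα12 ⟨by linarith, h1⟩
  -- `A`
  obtain ⟨p, q, hpq⟩ : ∃ p q : ℝ, p * α1 + q * α2 ≠ 0 := by
    by_cases h : α1 = 0
    · refine ⟨0, 1, ?_⟩
      intro h2
      exact hα12 ⟨h, by linarith⟩
    · exact ⟨1, 0, by simpa using h⟩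
  have hA := cyl_lin hE1 hE2 p q
  exact H87.not_both_zero (cylSol_of hA) (cylSol_of hB) (decay_of_cylSol (cylSol_of hA))
    (decay_of_cylSol (cylSol_of hB)) hpq hcne (hα p q) hc (hz p q) (hz α2 (-α1))

/-- **The choice of the solutions and of the bumps.** -/
theorem cyl_choice : ∃ (G1 G2 φp φm : ℝ → ℝ) (τ₁ τ₂ : ℝ),
    CylSol G1 ∧ CylSol G2 ∧ (∀ b : ℝ, 0 < b → SolW b wc G1) ∧ (∀ b : ℝ, 0 < b → SolW b wc G2) ∧
    (∀ x : ℝ, 0 < x → ∀ p q : ℝ, (∀ X ∈ Ioc (0 : ℝ) x, p * G1 X + q * G2 X = 0) → p = 0 ∧ q = 0) ∧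
    ∫ X in Ioi 0, G1 X ≠ 0 ∧ ∫ X in Ioi 0, G2 X = 0 ∧
    ContDiff ℝ ∞ φp ∧ ContDiff ℝ ∞ φm ∧ Bump τ₁ τ₂ φp ∧ Bump τ₁ τ₂ φm ∧
    0 < ∫ t, φp t ∧ ∫ t, φp t = ∫ t, φm t ∧ ∫ t, t * φp t = ∫ t, t * φm t ∧
    0 < ∫ t, φp t * (t * G2 (t ^ 2)) ∧ ∫ t, φm t * (t * G2 (t ^ 2)) < 0 := by
  obtain ⟨E1, E2, h1, h2, hind, hne⟩ := cyl_two
  have i1 := cyl_int (cylSol_of h1)
  have i2 := cyl_int (cylSol_of h2)
  set M1 := ∫ X in Ioi 0, E1 X with hM1
  set M2 := ∫ X in Ioi 0, E2 X with hM2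
  have hint : ∀ p q : ℝ, ∫ X in Ioi 0, (p * E1 X + q * E2 X) = p * M1 + q * M2 := by
    intro p q
    rw [integral_add (i1.const_mul p) (i2.const_mul q), integral_const_mul, integral_const_mul]
  obtain ⟨p, q, hpq⟩ : ∃ p q : ℝ, p * M1 + q * M2 ≠ 0 := by
    by_cases h : M1 = 0
    · refine ⟨0, 1, ?_⟩
      intro h2
      exact hne ⟨h, by linarith⟩
    · exact ⟨1, 0, by simpa using h⟩
  set G1 : ℝ → ℝ := fun X => p * E1 X + q * E2 X with hG1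
  set G2 : ℝ → ℝ := fun X => M2 * E1 X + -M1 * E2 X with hG2
  have s1 : ∀ b : ℝ, 0 < b → SolW b wc G1 := cyl_lin h1 h2 p q
  have s2 : ∀ b : ℝ, 0 < b → SolW b wc G2 := cyl_lin h1 h2 M2 (-M1)
  have c1 := cylSol_of s1
  have c2 := cylSol_of s2
  have hindG : ∀ x : ℝ, 0 < x → ∀ a b : ℝ,
      (∀ X ∈ Ioc (0 : ℝ) x, a * G1 X + b * G2 X = 0) → a = 0 ∧ b = 0 := by
    intro x hx a b h
    obtain ⟨k1, k2⟩ := hind x hx (a * p + b * M2) (a * q - b * M1) (fun X hX => by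
      have := h X hX
      rw [hG1, hG2] at this
      simp only at this
      linarith)
    -- `a (p M1 + q M2) = 0`
    have e1 : a * (p * M1 + q * M2) = 0 := by
      have : a * (p * M1 + q * M2) = (a * p + b * M2) * M1 + (a * q - b * M1) * M2 := by ring
      rw [this, k1, k2]
      ring
    have ha : a = 0 := (mul_eq_zero.1 e1).resolve_right hpq
    subst ha
    refine ⟨rfl, ?_⟩
    by_contra hb
    apply hne
    constructor
    · have : b * M1 = 0 := by linarith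
      exact (mul_eq_zero.1 this).resolve_left hb
    · have : b * M2 = 0 := by linarith
      exact (mul_eq_zero.1 this).resolve_left hb
  have z2 : ∫ X in Ioi 0, G2 X = 0 := by
    rw [hG2, hint]
    ring
  have hne2 : ∃ X : ℝ, 0 < X ∧ G2 X ≠ 0 := by
    by_contra hcon
    push Not at hcon
    have := hindG 1 one_pos 0 1 (fun X hX => by rw [hcon X hX.1]; ring)
    exact one_ne_zero this.2
  obtain ⟨⟨X, hX, hXp⟩, ⟨X', hX', hXn⟩⟩ := H87.both_signs c2.cont (cyl_int c2) z2 hne2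
  have hgc : ContinuousOn (fun t => t * G2 (t ^ 2)) (Ioi 0) := by
    apply continuousOn_id.mul
    exact c2.cont.comp (by fun_prop) (fun t ht => by
      have : (0 : ℝ) < t := ht
      exact pow_pos this 2)
  have hg0 : Tendsto (fun t => t * G2 (t ^ 2)) atTop (𝓝 0) := by
    obtain ⟨C, hC⟩ := decay_of_cylSol c2
    have hC0 : 0 ≤ C := by
      have := (abs_nonneg _).trans (hC 1 le_rfl)
      simpa using this
    have h3 : Tendsto (fun t : ℝ => C * t⁻¹) atTop (𝓝 (C * 0)) :=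
      tendsto_inv_atTop_zero.const_mul C
    rw [mul_zero] at h3
    refine squeeze_zero_norm' ?_ h3
    filter_upwards [eventually_ge_atTop 1] with t ht
    have ht0 : 0 < t := by linarith
    have h4 := hC (t ^ 2) (one_le_pow₀ ht)
    have h5 : (t ^ 2) ^ (-(7 / 4) : ℝ) ≤ (t ^ 2) ^ (-1 : ℝ) :=
      rpow_le_rpow_of_exponent_le (one_le_pow₀ ht) (by norm_num)
    rw [rpow_neg_one] at h5
    rw [norm_mul, Real.norm_eq_abs, Real.norm_eq_abs, abs_of_pos ht0]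
    calc t * |G2 (t ^ 2)| ≤ t * (C * (t ^ 2)⁻¹) := by
          gcongr
          exact h4.trans (by gcongr)
      _ = C * t⁻¹ := by field_simp
  obtain ⟨φp, φm, d1, d2, n1, n2, ⟨a, b, ha, hab, o1, o2⟩, m0, m1, m2, w1, w2⟩ :=
    H70.choice hgc hg0 (tp := √X) (tm := √X') (sqrt_pos.2 hX) (sqrt_pos.2 hX')
      (by rw [sq_sqrt hX.le]; exact mul_pos (sqrt_pos.2 hX) hXp)
      (by rw [sq_sqrt hX'.le]; exact mul_neg_of_pos_of_neg (sqrt_pos.2 hX') hXn)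
  refine ⟨G1, G2, φp, φm, a, b, c1, c2, s1, s2, hindG, ?_, z2, d1, d2,
    ⟨ha, hab, d1.continuous, n1, o1⟩, ⟨ha, hab, d2.continuous, n2, o2⟩, m0, m1, m2, w1, w2⟩
  rw [hG1, hint]
  exact hpq

end Pool.Agent.Lib.MP_85963d_gt.H31
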