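import Pool.Agent.Lib.MP_85963d_gt.H31.BVolt

/-! Decay `|G(s)| ≤ C s^{-7/4}` of all solutions of the cylinder equation (mode 4). -/

set_option autoImplicit false
open Set MeasureTheory Real

noncomputable section
namespace Pool.Agent.Lib.MP_85963d_gt.H31

/-! ## The cylinder kernel -/

def cφ (X Y : ℝ) : ℝ := 1 - 8 * X * Y / (X + Y) ^ 2

def cφ' (X Y : ℝ) : ℝ := -(8 * X * (X - Y) / (X + Y) ^ 3)

lemma hasDerivAt_cφ {X Y : ℝ} (hX : 0 < X) (hY : 0 ≤ Y) : HasDerivAt (cφ X) (cφ' X Y) Y := by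
  have hXY : 0 < X + Y := by positivity
  have h1 : HasDerivAt (fun Y : ℝ => 8 * X * Y) (8 * X) Y :=
    ((hasDerivAt_id Y).const_mul (8 * X)).congr_deriv (by simp)
  have h0 : HasDerivAt (fun Y : ℝ => X + Y) 1 Y := (hasDerivAt_id Y).const_add X
  have h2 : HasDerivAt (fun Y : ℝ => (X + Y) ^ 2) (2 * (X + Y)) Y :=
    (h0.pow 2).congr_deriv (by norm_num)
  refine ((h1.div h2 (by positivity)).const_sub 1).congr_deriv ?_
  unfold cφ'
  field_simp
  ring

lemma abs_cφ_le {X Y : ℝ} (hX : 0 < X) (hY : 0 ≤ Y) : |cφ X Y| ≤ 1 := by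
  have hXY : 0 < X + Y := by positivity
  unfold cφ
  rw [abs_le]
  constructor
  · have : 8 * X * Y / (X + Y) ^ 2 ≤ 2 := by
      rw [div_le_iff₀ (by positivity)]; nlinarith [sq_nonneg (X - Y)]
    linarith
  · have : 0 ≤ 8 * X * Y / (X + Y) ^ 2 := by positivity
    linarith

lemma abs_cφ'_le {X Y : ℝ} (hX : 0 < X) (hY : 0 ≤ Y) : |cφ' X Y| ≤ 8 * (X / (X + Y) ^ 2) := by
  have hXY : 0 < X + Y := by positivity
  unfold cφ'
  rw [abs_neg, abs_div, abs_mul, abs_of_pos (by positivity : 0 < 8 * X),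
    abs_of_pos (by positivity : 0 < (X + Y) ^ 3)]
  have : |X - Y| ≤ X + Y := by rw [abs_le]; constructor <;> linarith
  rw [div_le_iff₀ (by positivity)]
  calc 8 * X * |X - Y| ≤ 8 * X * (X + Y) := by gcongr
    _ = 8 * (X / (X + Y) ^ 2) * (X + Y) ^ 3 := by field_simp

lemma goodPhi_cφ {b : ℝ} : GoodPhi b 8 cφ cφ' where
  meas := by unfold Function.uncurry cφ; fun_prop
  meas' := by unfold Function.uncurry cφ'; fun_prop
  cont X hX := by
    intro Y hY
    exact (hasDerivAt_cφ hX.1 hY.1).continuousAt.continuousWithinAt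
  cont' X hX := by
    unfold cφ'
    apply ContinuousOn.neg
    apply ContinuousOn.div (by fun_prop) (by fun_prop)
    intro Y hY
    have := hX.1
    have := hY.1
    positivity
  deriv X hX Y hY := hasDerivAt_cφ hX.1 hY.1.le
  bd X hX Y hY := (abs_cφ_le hX.1 hY.1).trans (by norm_num)
  bd' X hX Y hY := by
    refine (abs_cφ'_le hX.1 hY.1).trans ?_
    have : 0 ≤ X / (X + Y) ^ 2 := by have := hX.1; positivity
    linarith

lemma abs_kern_cφ_le {X D : ℝ} (hX : 0 < X) (hD : 0 ≤ D) :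
    |kern1 (cφ X) (cφ' X) D| ≤ eK D + 16 / ((1 + D) * (X + D)) := by
  have h := goodPhi_cφ (b := X + D + 1)
  have hXb : X ∈ Ioo 0 (X + D + 1) := ⟨hX, by linarith⟩
  have hsub : Icc 0 D ⊆ Icc 0 (X + D + 1) := Icc_subset_Icc_right (by linarith)
  have h1 := abs_kern1_le (A₀ := 1) (A₁ := 0) (A₂ := 8) hX hD ((h.cont X hXb).mono hsub)
    ((h.cont' X hXb).mono hsub) le_rfl (by norm_num) (fun Y hY => abs_cφ_le hX hY.1)
    (fun Y hY => (abs_cφ'_le hX hY.1).trans (by linarith))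
  refine h1.trans (le_of_eq ?_)
  ring

lemma measurable_eK : Measurable eK := by
  have h : Measurable (fun q : ℝ × ℝ => dRt q.1 q.2) := measurable_dRt measurable_fst measurable_snd
  exact (h.stronglyMeasurable.integral_prod_right'
    (ν := volume.restrict (Ioo 0 (π / 2)))).measurable.const_mul (2 / π)

/-- Majorant of the Volterra kernel. -/
def mK (c s X : ℝ) : ℝ := eK (s - X) + c / ((1 + (s - X)) * s)

lemma mK_nonneg {c s X : ℝ} (hc : 0 ≤ c) (hX : X ∈ Ioo 0 s) : 0 ≤ mK c s X := by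
  have h1 : 0 ≤ s - X := by linarith [hX.2]
  have h2 : 0 < s := hX.1.trans hX.2
  have := eK_nonneg h1
  unfold mK; positivity

lemma measurable_mK (c s : ℝ) : Measurable (mK c s) := by
  unfold mK
  exact (measurable_eK.comp (by fun_prop)).add (by fun_prop)

lemma mK_le {c s X : ℝ} (hc : 0 ≤ c) (hs : 0 < s) (hX : X ∈ Ioo 0 s) : mK c s X ≤ 1 + c / s := by
  have h1 : 0 ≤ s - X := by linarith [hX.2]
  unfold mK
  have h2 := eK_le_one h1
  have h3 : c / ((1 + (s - X)) * s) ≤ c / s := by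
    apply div_le_div_of_nonneg_left hc hs
    nlinarith
  linarith

/-- for `X ≤ 3s/4` -/
lemma mK_far {c s X : ℝ} (hc : 0 ≤ c) (hs : 0 < s) (hX : X ≤ 3 * s / 4) :
    mK c s X ≤ (16 + 4 * c) / s ^ 2 := by
  have h1 : s / 4 ≤ s - X := by linarith
  have h0 : 0 ≤ s - X := by linarith
  unfold mK
  have h2 : eK (s - X) ≤ 16 / s ^ 2 := by
    refine (eK_le h0).trans ?_
    have h3 : (s / 4) ^ 2 ≤ (1 + (s - X)) ^ 2 := by
      apply pow_le_pow_left₀ (by positivity); linarith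
    calc (2 / π) / (1 + (s - X)) ^ 2 ≤ 1 / (s / 4) ^ 2 := by
          apply div_le_div₀ (by norm_num) two_div_pi_le (by positivity) h3
      _ = 16 / s ^ 2 := by field_simp; norm_num
  have h3 : c / ((1 + (s - X)) * s) ≤ 4 * c / s ^ 2 := by
    rw [div_le_div_iff₀ (by positivity) (by positivity)]
    have : s ≤ 4 * (1 + (s - X)) := by linarith
    calc c * s ^ 2 = c * s * s := by ring
      _ ≤ c * s * (4 * (1 + (s - X))) := by gcongr
      _ = _ := by ring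
  calc _ ≤ 16 / s ^ 2 + 4 * c / s ^ 2 := add_le_add h2 h3
    _ = _ := by ring

lemma integral_mK_le {c s : ℝ} (hc : 0 ≤ c) (hs : 0 < s) :
    ∫ X in Ioo 0 s, mK c s X ≤ (1 - 2 / π) + 2 * c / √s := by
  have e1 : ∫ X in Ioo 0 s, mK c s X = ∫ D in (0 : ℝ)..s, (eK D + c / ((1 + D) * s)) := by
    rw [← integral_Ioc_eq_integral_Ioo, ← intervalIntegral.integral_of_le hs.le]
    unfold mK
    rw [intervalIntegral.integral_comp_sub_left (fun D => eK D + c / ((1 + D) * s)) s]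
    simp
  have i1 : IntervalIntegrable eK volume 0 s := by
    rw [intervalIntegrable_iff_integrableOn_Ioo_of_le hs.le]
    refine Integrable.mono' (g := fun _ => 1) (by simp) measurable_eK.aestronglyMeasurable ?_
    filter_upwards [ae_restrict_mem measurableSet_Ioo] with D hD
    rw [Real.norm_eq_abs, abs_of_nonneg (eK_nonneg hD.1.le)]
    exact eK_le_one hD.1.le
  have i2 : IntervalIntegrable (fun D => c / ((1 + D) * s)) volume 0 s := by
    apply ContinuousOn.intervalIntegrable_of_Icc hs.le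
    apply ContinuousOn.div (by fun_prop) (by fun_prop)
    intro D hD
    have := hD.1
    positivity
  rw [e1, intervalIntegral.integral_add i1 i2]
  have h1 := integral_eK_le hs.le
  have h2 : ∫ D in (0 : ℝ)..s, c / ((1 + D) * s) ≤ 2 * c / √s := by
    have hF : ∀ D ∈ Ioo 0 s, HasDerivAt (fun D => 2 * c / s * √(1 + D)) (c / (√(1 + D) * s)) D := by
      intro D hD
      have h0 : HasDerivAt (fun D : ℝ => 1 + D) 1 D := (hasDerivAt_id D).const_add 1
      have hp : 0 < 1 + D := by linarith [hD.1]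
      refine ((h0.sqrt hp.ne').const_mul (2 * c / s)).congr_deriv ?_
      have := sqrt_pos.2 hp
      field_simp
    have hcont : ContinuousOn (fun D => c / (√(1 + D) * s)) (Icc 0 s) := by
      apply ContinuousOn.div (by fun_prop) (by fun_prop)
      intro D hD
      have : 0 < √(1 + D) := sqrt_pos.2 (by linarith [hD.1])
      positivity
    have h3 := intervalIntegral.integral_eq_sub_of_hasDerivAt_of_le hs.le
      (f := fun D => 2 * c / s * √(1 + D)) (by fun_prop) hF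
      (hcont.intervalIntegrable_of_Icc hs.le)
    have h4 : ∫ D in (0 : ℝ)..s, c / ((1 + D) * s) ≤ ∫ D in (0 : ℝ)..s, c / (√(1 + D) * s) := by
      apply intervalIntegral.integral_mono_on hs.le i2 (hcont.intervalIntegrable_of_Icc hs.le)
      intro D hD
      have hp : 1 ≤ 1 + D := by linarith [hD.1]
      have h5 : 0 < √(1 + D) := sqrt_pos.2 (by linarith)
      apply div_le_div_of_nonneg_left hc (by positivity)
      have : √(1 + D) ≤ 1 + D := by
        rw [sqrt_le_left (by linarith)]; nlinarith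
      gcongr
    rw [h3] at h4
    refine h4.trans ?_
    have hs' : 0 < √s := sqrt_pos.2 hs
    have h6 : √(1 + s) ≤ 1 + √s := by
      rw [sqrt_le_left (by positivity)]
      have := sq_sqrt hs.le
      nlinarith
    have h7 : 2 * c / s * √(1 + s) - 2 * c / s * √(1 + 0) ≤ 2 * c / s * √s := by
      rw [← mul_sub, add_zero, sqrt_one]
      gcongr
      linarith
    refine h7.trans (le_of_eq ?_)
    have := sq_sqrt hs.le
    field_simp
    rw [this]
  linarith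

lemma integral_rpow_tail {a s : ℝ} (ha : 0 < a) (has : a < s) :
    ∫ X in Ioo a s, X ^ (-(7 / 4) : ℝ) ≤ (4 / 3) * a ^ (-(3 / 4) : ℝ) := by
  rw [← integral_Ioc_eq_integral_Ioo, ← intervalIntegral.integral_of_le has.le,
    integral_rpow (Or.inr ⟨by norm_num, by
      rw [uIcc_of_le has.le]; intro h; linarith [h.1]⟩)]
  have e : (-(7 / 4) + 1 : ℝ) = -(3 / 4) := by norm_num
  rw [e]
  have : 0 ≤ s ^ (-(3 / 4) : ℝ) := rpow_nonneg (by linarith) _
  rw [div_eq_mul_inv, show ((-(3 / 4) : ℝ))⁻¹ = -(4 / 3) by norm_num]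
  linarith

/-- The main estimate. -/
lemma key_step {G : ℝ → ℝ} {c s₀ T N s : ℝ} (hc : 0 ≤ c)
    (hs₀ : 1 ≤ s₀) (hG1 : IntegrableOn G (Ioo 0 s))
    (hN : ∀ X ∈ Icc s₀ T, X ^ (7 / 4 : ℝ) * |G X| ≤ N) (hs : 2 * s₀ ≤ s) (hsT : s ≤ T)
    (hin : |G s| ≤ ∫ X in Ioo 0 s, |G X| * mK c s X) :
    s ^ (7 / 4 : ℝ) * |G s| ≤ (16 + 4 * c) * (∫ X in Ioc 0 s₀, |G X|)
      + N * ((4 / 3) * (16 + 4 * c) / s₀ + (16 / 9) * ((1 - 2 / π) + 2 * c / √s₀)) := by
  have hs0 : 0 < s := by linarith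
  have hs₀0 : 0 < s₀ := by linarith
  have hss : s₀ < s := by linarith
  have hN0 : 0 ≤ N := le_trans (by positivity) (hN s₀ ⟨le_rfl, by linarith⟩)
  have hGX : ∀ X ∈ Icc s₀ T, |G X| ≤ N * X ^ (-(7 / 4) : ℝ) := by
    intro X hX
    have hX0 : 0 < X := by linarith [hX.1]
    have h1 := hN X hX
    rw [rpow_neg hX0.le, ← div_eq_mul_inv, le_div_iff₀ (by positivity)]
    linarith
  -- integrability
  have iG : IntegrableOn (fun X => |G X|) (Ioo 0 s) := hG1.abs
  have imK : IntegrableOn (mK c s) (Ioo 0 s) := by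
    refine Integrable.mono' (g := fun _ => 1 + c / s) (by simp)
      (measurable_mK c s).aestronglyMeasurable ?_
    filter_upwards [ae_restrict_mem measurableSet_Ioo] with X hX
    rw [Real.norm_eq_abs, abs_of_nonneg (mK_nonneg hc hX)]
    exact mK_le hc hs0 hX
  have iP : IntegrableOn (fun X => |G X| * mK c s X) (Ioo 0 s) := by
    refine Integrable.mono' (iG.mul_const (1 + c / s))
      (iG.aestronglyMeasurable.mul (measurable_mK c s).aestronglyMeasurable) ?_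
    filter_upwards [ae_restrict_mem measurableSet_Ioo] with X hX
    rw [Real.norm_eq_abs, abs_mul, abs_abs, abs_of_nonneg (mK_nonneg hc hX)]
    exact mul_le_mul_of_nonneg_left (mK_le hc hs0 hX) (abs_nonneg _)
  have hU : Ioo 0 s = Ioc 0 s₀ ∪ Ioo s₀ s := (Ioc_union_Ioo_eq_Ioo hs₀0.le hss).symm
  have hdisj : Disjoint (Ioc 0 s₀) (Ioo s₀ s) := by
    rw [Set.disjoint_left]
    intro X h1 h2
    exact absurd h1.2 (not_le.2 h2.1)
  have hsub1 : Ioc 0 s₀ ⊆ Ioo 0 s := fun X hX => ⟨hX.1, hX.2.trans_lt hss⟩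
  have hsub2 : Ioo s₀ s ⊆ Ioo 0 s := fun X hX => ⟨hs₀0.trans hX.1, hX.2⟩
  have hsplit : ∫ X in Ioo 0 s, |G X| * mK c s X
      = (∫ X in Ioc 0 s₀, |G X| * mK c s X) + ∫ X in Ioo s₀ s, |G X| * mK c s X := by
    rw [hU, setIntegral_union hdisj measurableSet_Ioo (iP.mono_set hsub1) (iP.mono_set hsub2)]
  have h1 : ∫ X in Ioc 0 s₀, |G X| * mK c s X
      ≤ (16 + 4 * c) / s ^ 2 * ∫ X in Ioc 0 s₀, |G X| := by
    rw [← integral_const_mul]
    apply setIntegral_mono_on (iP.mono_set hsub1) ((iG.mono_set hsub1).const_mul _)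
      measurableSet_Ioc
    intro X hX
    rw [mul_comm]
    apply mul_le_mul_of_nonneg_right _ (abs_nonneg _)
    apply mK_far hc hs0
    linarith [hX.2]
  have irp : IntegrableOn (fun X : ℝ => X ^ (-(7 / 4) : ℝ)) (Ioo s₀ s) := by
    have : ContinuousOn (fun X : ℝ => X ^ (-(7 / 4) : ℝ)) (Icc s₀ s) := by
      intro X hX
      exact (continuousAt_rpow_const X _ (Or.inl (by linarith [hX.1]))).continuousWithinAt
    exact this.integrableOn_Icc.mono_set Ioo_subset_Icc_self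
  have h2 : ∫ X in Ioo s₀ s, |G X| * mK c s X
      ≤ ∫ X in Ioo s₀ s, ((16 + 4 * c) / s ^ 2 * N * X ^ (-(7 / 4) : ℝ)
        + N * (3 * s / 4) ^ (-(7 / 4) : ℝ) * mK c s X) := by
    apply setIntegral_mono_on (iP.mono_set hsub2)
      ((irp.const_mul _).add ((imK.mono_set hsub2).const_mul _)) measurableSet_Ioo
    intro X hX
    have hXT : X ∈ Icc s₀ T := ⟨hX.1.le, by linarith [hX.2]⟩
    have hX0 : 0 < X := by linarith [hX.1]
    have hg := hGX X hXT
    have hm := mK_nonneg hc (hsub2 hX)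
    have hr : 0 ≤ X ^ (-(7 / 4) : ℝ) := rpow_nonneg hX0.le _
    have hr2 : 0 ≤ (3 * s / 4) ^ (-(7 / 4) : ℝ) := rpow_nonneg (by positivity) _
    change |G X| * mK c s X ≤ (16 + 4 * c) / s ^ 2 * N * X ^ (-(7 / 4) : ℝ)
        + N * (3 * s / 4) ^ (-(7 / 4) : ℝ) * mK c s X
    rcases le_or_gt X (3 * s / 4) with h | h
    · have h3 := mK_far hc hs0 h
      have h4 : 0 ≤ N * (3 * s / 4) ^ (-(7 / 4) : ℝ) * mK c s X := by positivity
      calc |G X| * mK c s X ≤ (N * X ^ (-(7 / 4) : ℝ)) * ((16 + 4 * c) / s ^ 2) := by gcongr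
        _ = (16 + 4 * c) / s ^ 2 * N * X ^ (-(7 / 4) : ℝ) := by ring
        _ ≤ _ := by linarith
    · have h3 : X ^ (-(7 / 4) : ℝ) ≤ (3 * s / 4) ^ (-(7 / 4) : ℝ) :=
        rpow_le_rpow_of_nonpos (by positivity) h.le (by norm_num)
      have h4 : 0 ≤ (16 + 4 * c) / s ^ 2 * N * X ^ (-(7 / 4) : ℝ) := by positivity
      calc |G X| * mK c s X ≤ (N * (3 * s / 4) ^ (-(7 / 4) : ℝ)) * mK c s X := by
            gcongr
            exact hg.trans (by gcongr)
        _ ≤ _ := by linarith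
  have h3 : ∫ X in Ioo s₀ s, ((16 + 4 * c) / s ^ 2 * N * X ^ (-(7 / 4) : ℝ)
        + N * (3 * s / 4) ^ (-(7 / 4) : ℝ) * mK c s X)
      ≤ (16 + 4 * c) / s ^ 2 * N * ((4 / 3) * s₀ ^ (-(3 / 4) : ℝ))
        + N * (3 * s / 4) ^ (-(7 / 4) : ℝ) * ((1 - 2 / π) + 2 * c / √s) := by
    rw [integral_add (irp.const_mul _) ((imK.mono_set hsub2).const_mul _), integral_const_mul,
      integral_const_mul]
    have h5 := integral_rpow_tail hs₀0 hss
    have h6 : ∫ X in Ioo s₀ s, mK c s X ≤ (1 - 2 / π) + 2 * c / √s := by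
      refine le_trans ?_ (integral_mK_le hc hs0)
      apply setIntegral_mono_set imK _ (Filter.Eventually.of_forall hsub2)
      filter_upwards [ae_restrict_mem measurableSet_Ioo] with X hX
      exact mK_nonneg hc hX
    have hr2 : 0 ≤ (3 * s / 4) ^ (-(7 / 4) : ℝ) := rpow_nonneg (by positivity) _
    gcongr
  have h4 : |G s| ≤ (16 + 4 * c) / s ^ 2 * (∫ X in Ioc 0 s₀, |G X|)
      + ((16 + 4 * c) / s ^ 2 * N * ((4 / 3) * s₀ ^ (-(3 / 4) : ℝ))
        + N * (3 * s / 4) ^ (-(7 / 4) : ℝ) * ((1 - 2 / π) + 2 * c / √s)) := by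
    rw [hsplit] at hin
    linarith
  have hI0 : 0 ≤ ∫ X in Ioc 0 s₀, |G X| := integral_nonneg fun X => abs_nonneg _
  set I₀ := ∫ X in Ioc 0 s₀, |G X| with hI₀
  have w0 : 0 < s ^ (7 / 4 : ℝ) := rpow_pos_of_pos hs0 _
  -- `s^{7/4}/s^2 = s^{-1/4}`
  have w1 : s ^ (7 / 4 : ℝ) / s ^ 2 = s ^ (-(1 / 4) : ℝ) := by
    rw [div_eq_iff (by positivity), ← rpow_natCast, ← rpow_add hs0]
    norm_num
  have w2 : s ^ (-(1 / 4) : ℝ) ≤ 1 := rpow_le_one_of_one_le_of_nonpos (by linarith) (by norm_num)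
  have w3 : s ^ (-(1 / 4) : ℝ) ≤ s₀ ^ (-(1 / 4) : ℝ) :=
    rpow_le_rpow_of_nonpos hs₀0 hss.le (by norm_num)
  have w4 : s₀ ^ (-(1 / 4) : ℝ) * s₀ ^ (-(3 / 4) : ℝ) = 1 / s₀ := by
    rw [← rpow_add hs₀0, show (-(1 / 4) + -(3 / 4) : ℝ) = -1 by norm_num, rpow_neg_one, one_div]
  have w5 : s ^ (7 / 4 : ℝ) * (3 * s / 4) ^ (-(7 / 4) : ℝ) ≤ 16 / 9 := by
    rw [rpow_neg (by positivity), ← div_eq_mul_inv, ← div_rpow hs0.le (by positivity)]
    have : s / (3 * s / 4) = 4 / 3 := by field_simp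
    rw [this]
    calc (4 / 3 : ℝ) ^ (7 / 4 : ℝ) ≤ (4 / 3 : ℝ) ^ (2 : ℝ) :=
          rpow_le_rpow_of_exponent_le (by norm_num) (by norm_num)
      _ = 16 / 9 := by norm_num
  have w6 : 2 * c / √s ≤ 2 * c / √s₀ := by
    have : 0 < √s₀ := sqrt_pos.2 hs₀0
    have : √s₀ ≤ √s := sqrt_le_sqrt hss.le
    gcongr
  have w7 : 0 ≤ 1 - 2 / π := by have := two_div_pi_le; linarith
  have w8 : 0 ≤ s ^ (-(1 / 4) : ℝ) := rpow_nonneg hs0.le _
  have w9 : 0 ≤ s₀ ^ (-(3 / 4) : ℝ) := rpow_nonneg hs₀0.le _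
  calc s ^ (7 / 4 : ℝ) * |G s|
      ≤ s ^ (7 / 4 : ℝ) * ((16 + 4 * c) / s ^ 2 * I₀
      + ((16 + 4 * c) / s ^ 2 * N * ((4 / 3) * s₀ ^ (-(3 / 4) : ℝ))
        + N * (3 * s / 4) ^ (-(7 / 4) : ℝ) * ((1 - 2 / π) + 2 * c / √s))) := by gcongr
    _ = (16 + 4 * c) * ((s ^ (7 / 4 : ℝ) / s ^ 2) * I₀)
        + (4 / 3) * (16 + 4 * c) * N * ((s ^ (7 / 4 : ℝ) / s ^ 2) * s₀ ^ (-(3 / 4) : ℝ))
        + N * (s ^ (7 / 4 : ℝ) * (3 * s / 4) ^ (-(7 / 4) : ℝ)) * ((1 - 2 / π) + 2 * c / √s) := by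
      ring
    _ ≤ (16 + 4 * c) * (1 * I₀)
        + (4 / 3) * (16 + 4 * c) * N * (s₀ ^ (-(1 / 4) : ℝ) * s₀ ^ (-(3 / 4) : ℝ))
        + N * (16 / 9) * ((1 - 2 / π) + 2 * c / √s₀) := by
      rw [w1]
      gcongr
    _ = _ := by rw [w4]; ring

theorem decay_of_ineq {G : ℝ → ℝ} {c : ℝ} (hc : 0 ≤ c) (hGc : ContinuousOn G (Ioi 0))
    (hG1 : ∀ b, IntegrableOn G (Ioo 0 b))
    (hineq : ∀ᵐ s : ℝ, 0 < s → |G s| ≤ ∫ X in Ioo 0 s, |G X| * mK c s X) :
    ∃ C, ∀ s, 1 ≤ s → |G s| ≤ C * s ^ (-(7 / 4) : ℝ) := by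
  set K := 100 * (16 + 4 * c) with hK
  set s₀ := K ^ 2 with hs₀
  have hK1 : 1600 ≤ K := by rw [hK]; linarith
  have hs₀1 : 1 ≤ s₀ := by rw [hs₀]; nlinarith
  have hwc : ContinuousOn (fun s : ℝ => s ^ (7 / 4 : ℝ) * |G s|) (Ioi 0) := by
    apply ContinuousOn.mul _ hGc.abs
    intro X hX
    have hX' : 0 < X := hX
    exact (continuousAt_rpow_const X _ (Or.inl hX'.ne')).continuousWithinAt
  -- bound on `[1, 2 s₀]`
  obtain ⟨M, hM⟩ : ∃ M, ∀ s ∈ Icc 1 (2 * s₀), s ^ (7 / 4 : ℝ) * |G s| ≤ M := by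
    obtain ⟨M, hM⟩ := (isCompact_Icc (a := (1 : ℝ)) (b := 2 * s₀)).bddAbove_image
      (hwc.mono (fun s hs => lt_of_lt_of_le one_pos hs.1))
    exact ⟨M, fun s hs => hM (mem_image_of_mem _ hs)⟩
  set I₀ := ∫ X in Ioc 0 s₀, |G X| with hI₀
  set C₂ := (16 + 4 * c) * I₀ with hC₂
  have hI0 : 0 ≤ I₀ := integral_nonneg fun X => abs_nonneg _
  have hC₂0 : 0 ≤ C₂ := by positivity
  have hκ : (4 / 3) * (16 + 4 * c) / s₀ + (16 / 9) * ((1 - 2 / π) + 2 * c / √s₀) ≤ 7 / 10 := by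
    have e1 : √s₀ = K := by rw [hs₀, sqrt_sq (by linarith)]
    have h1 : (4 / 3) * (16 + 4 * c) / s₀ ≤ 1 / 1000 := by
      rw [div_le_iff₀ (by positivity), hs₀, hK]
      nlinarith
    have h2 : 2 * c / √s₀ ≤ 1 / 200 := by
      rw [e1, div_le_iff₀ (by linarith), hK]
      linarith
    have h3 : 1 - 2 / π ≤ 0.366 := by
      have hp : π < 3.15 := pi_lt_d2
      have : (2 : ℝ) / 3.15 ≤ 2 / π := by
        apply div_le_div_of_nonneg_left (by norm_num) pi_pos hp.le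
      norm_num at this ⊢
      linarith
    norm_num at h3
    linarith
  have hdense := Measure.dense_of_ae hineq
  have hstep : ∀ T N, 2 * s₀ < T → (∀ X ∈ Icc s₀ T, X ^ (7 / 4 : ℝ) * |G X| ≤ N) →
      ∀ s ∈ Icc (2 * s₀) T, s ^ (7 / 4 : ℝ) * |G s| ≤ C₂ + (7 / 10) * N := by
    intro T N hT hN s hs
    have hN0 : 0 ≤ N := by
      refine le_trans ?_ (hN s₀ ⟨le_rfl, by linarith⟩)
      positivity
    have hmem : s ∈ closure (Ioo (2 * s₀) T ∩ {x | 0 < x → |G x| ≤ ∫ X in Ioo 0 x, |G X| * mK c x X}) := by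
      have h1 := hdense.open_subset_closure_inter (isOpen_Ioo (a := 2 * s₀) (b := T))
      have h2 := closure_mono h1
      rw [closure_closure, closure_Ioo hT.ne] at h2
      exact h2 hs
    have hs0 : 0 < s := by linarith [hs.1]
    have hcs : ContinuousWithinAt (fun s : ℝ => s ^ (7 / 4 : ℝ) * |G s|)
        (Ioo (2 * s₀) T ∩ {x | 0 < x → |G x| ≤ ∫ X in Ioo 0 x, |G X| * mK c x X}) s :=
      (hwc s hs0).mono (fun x hx => by have := hx.1.1; exact (by linarith : (0 : ℝ) < x))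
    refine ContinuousWithinAt.closure_le hmem hcs continuousWithinAt_const ?_
    rintro x ⟨hx, hx2⟩
    have hx0 : 0 < x := by linarith [hx.1]
    have := key_step hc hs₀1 (hG1 x) hN hx.1.le hx.2.le (hx2 hx0)
    refine this.trans ?_
    have := mul_le_mul_of_nonneg_left hκ hN0
    linarith
  set C := max M (10 / 3 * C₂) with hC
  refine ⟨C, fun s hs => ?_⟩
  have hs0 : 0 < s := by linarith
  rw [rpow_neg hs0.le, ← div_eq_mul_inv, le_div_iff₀ (rpow_pos_of_pos hs0 _), mul_comm]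
  rcases le_or_gt s (2 * s₀) with h | h
  · exact (hM s ⟨hs, h⟩).trans (le_max_left _ _)
  · obtain ⟨s₁, hs₁, hmax⟩ := (isCompact_Icc (a := s₀) (b := s)).exists_isMaxOn
      ⟨s, by linarith, le_rfl⟩ (hwc.mono (fun x hx => lt_of_lt_of_le (by linarith) hx.1))
    have hN : ∀ X ∈ Icc s₀ s, X ^ (7 / 4 : ℝ) * |G X| ≤ s₁ ^ (7 / 4 : ℝ) * |G s₁| :=
      fun X hX => hmax hX
    have h1 : s₁ ^ (7 / 4 : ℝ) * |G s₁| ≤ C := by
      rcases le_or_gt s₁ (2 * s₀) with h2 | h2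
      · exact (hM s₁ ⟨by linarith [hs₁.1], h2⟩).trans (le_max_left _ _)
      · have h3 := hstep s _ h hN s₁ ⟨h2.le, hs₁.2⟩
        refine le_trans ?_ (le_max_right _ _)
        linarith
    exact (hN s ⟨by linarith, le_rfl⟩).trans h1

/-- **Decay of all solutions of the cylinder equation in mode 4** (Paper (9.1), (9.5)). -/
theorem cylinder_decay {G : ℝ → ℝ} {C₀ : ℝ} (hGc : ContinuousOn G (Ioi 0))
    (hG0 : ∀ X ∈ Ioc (0 : ℝ) 1, |G X| ≤ C₀ / √X)
    (heq : ∀ s, 0 < s →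
      ∫ X in (0 : ℝ)..s, (1 - 8 * X * (s - X) / s ^ 2) * (G X * Kc (s - X)) = 0) :
    ∃ C, ∀ s, 1 ≤ s → |G s| ≤ C * s ^ (-(7 / 4) : ℝ) := by
  -- bound on bounded intervals
  have hGb : ∀ b : ℝ, ∃ CG, ∀ X ∈ Ioo 0 b, |G X| ≤ CG / √X := by
    intro b
    obtain ⟨M, hM⟩ := (isCompact_Icc (a := (1 : ℝ)) (b := max b 1)).bddAbove_image
      (f := fun X => |G X| * √X)
      ((hGc.mono (fun s hs => lt_of_lt_of_le one_pos hs.1)).abs.mul (by fun_prop))
    refine ⟨max C₀ M, fun X hX => ?_⟩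
    have hs : 0 < √X := sqrt_pos.2 hX.1
    rw [le_div_iff₀ hs]
    rcases le_or_gt X 1 with h | h
    · have := hG0 X ⟨hX.1, h⟩
      rw [le_div_iff₀ hs] at this
      exact this.trans (le_max_left _ _)
    · exact (hM (mem_image_of_mem _ ⟨h.le, hX.2.le.trans (le_max_left _ _)⟩)).trans
        (le_max_right _ _)
  have hGm : ∀ b : ℝ, AEStronglyMeasurable G (volume.restrict (Ioo 0 b)) := fun b =>
    (hGc.mono (fun s hs => hs.1)).aestronglyMeasurable measurableSet_Ioo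
  have hG1 : ∀ b, IntegrableOn G (Ioo 0 b) := by
    intro b
    obtain ⟨CG, hCG⟩ := hGb b
    exact integrable_G (hGm b) hCG
  have heq' : ∀ s, 0 < s → ∫ X in Ioo 0 s, G X * (Kc (s - X) * cφ X (s - X)) = 0 := by
    intro s hs
    have h := heq s hs
    rw [intervalIntegral.integral_of_le hs.le, integral_Ioc_eq_integral_Ioo] at h
    refine Eq.trans ?_ h
    apply setIntegral_congr_fun measurableSet_Ioo
    intro X _
    simp only [cφ]
    rw [add_sub_cancel]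
    ring
  have hvolt : ∀ n : ℕ, ∀ᵐ s ∂(volume.restrict (Ioo 0 ((n : ℝ) + 1))),
      |G s| ≤ ∫ X in Ioo 0 s, |G X| * mK 16 s X := by
    intro n
    have hb : (0 : ℝ) < (n : ℝ) + 1 := by positivity
    obtain ⟨CG, hCG⟩ := hGb ((n : ℝ) + 1)
    have h1 := volterra_B hb (hGm _) hCG goodPhi_cφ (by
      filter_upwards [ae_restrict_mem measurableSet_Ioo] with s hs
      exact heq' s hs.1)
    filter_upwards [h1, ae_restrict_mem measurableSet_Ioo] with s hs hsb
    have h0 : cφ s 0 = 1 := by simp [cφ]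
    rw [h0, one_mul] at hs
    have h2 : G s = - VI G cφ cφ' s := by linarith
    rw [h2, abs_neg]
    unfold VI
    have h3 := norm_integral_le_integral_norm (μ := volume.restrict (Ioo 0 s))
      (fun X => G X * kern1 (cφ X) (cφ' X) (s - X))
    rw [Real.norm_eq_abs] at h3
    refine h3.trans ?_
    have hk : ∀ X ∈ Ioo 0 s, ‖G X * kern1 (cφ X) (cφ' X) (s - X)‖ ≤ |G X| * mK 16 s X := by
      intro X hX
      have h5 := abs_kern_cφ_le (X := X) (D := s - X) hX.1 (by linarith [hX.2])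
      rw [add_sub_cancel] at h5
      rw [norm_mul, Real.norm_eq_abs, Real.norm_eq_abs]
      exact mul_le_mul_of_nonneg_left h5 (abs_nonneg _)
    have iP : IntegrableOn (fun X => |G X| * mK 16 s X) (Ioo 0 s) := by
      have iG : IntegrableOn (fun X => |G X|) (Ioo 0 s) := (hG1 s).abs
      refine Integrable.mono' (iG.mul_const (1 + 16 / s))
        (iG.aestronglyMeasurable.mul (measurable_mK 16 s).aestronglyMeasurable) ?_
      filter_upwards [ae_restrict_mem measurableSet_Ioo] with X hX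
      rw [Real.norm_eq_abs, abs_mul, abs_abs, abs_of_nonneg (mK_nonneg (by norm_num) hX)]
      exact mul_le_mul_of_nonneg_left (mK_le (by norm_num) hsb.1 hX) (abs_nonneg _)
    apply integral_mono_of_nonneg (Filter.Eventually.of_forall fun X => norm_nonneg _) iP
    filter_upwards [ae_restrict_mem measurableSet_Ioo] with X hX
    exact hk X hX
  have hineq : ∀ᵐ s : ℝ, 0 < s → |G s| ≤ ∫ X in Ioo 0 s, |G X| * mK 16 s X := by
    have h1 : ∀ n : ℕ, ∀ᵐ s : ℝ, s ∈ Ioo 0 ((n : ℝ) + 1) →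
        |G s| ≤ ∫ X in Ioo 0 s, |G X| * mK 16 s X := fun n =>
      (ae_restrict_iff' measurableSet_Ioo).1 (hvolt n)
    rw [← ae_all_iff] at h1
    filter_upwards [h1] with s hs hs0
    obtain ⟨n, hn⟩ := exists_nat_gt s
    exact hs n ⟨hs0, by linarith⟩
  exact decay_of_ineq (by norm_num) hGc hG1 hineq

end Pool.Agent.Lib.MP_85963d_gt.H31
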