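import Pool.Agent.Lib.MP_85963d_gt.H31.Blow

/-!
# The finite-dimensional degree argument

If a continuous family `f s` of maps of a ball of a finite-dimensional space has no zero on the
sphere, and `f 0`, `f 1` have no zero except the origin, where they are differentiable with
invertible derivatives, then these derivatives have determinants of the same sign.
-/

namespace Pool.Agent.Lib.MP_85963d_gt.H31

open MeasureTheory Metric Set Filter
open scoped NNReal ENNReal ContDiff Topology

noncomputable section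

/-! ## From a homotopy to a map of the ball -/

/-- Clamp to `[0, 1]`. -/
def cl (t : ℝ) : ℝ := max 0 (min 1 t)

lemma cl_mem (t : ℝ) : cl t ∈ Icc (0 : ℝ) 1 :=
  ⟨le_max_left _ _, max_le zero_le_one (min_le_left _ _)⟩

lemma cl_of_nonpos {t : ℝ} (h : t ≤ 0) : cl t = 0 := by
  unfold cl; rw [min_eq_right (by linarith), max_eq_left h]

lemma cl_of_ge {t : ℝ} (h : 1 ≤ t) : cl t = 1 := by
  unfold cl; rw [min_eq_left h, max_eq_right zero_le_one]

lemma continuous_cl : Continuous cl := by unfold cl; fun_prop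

section Euclid

variable {E : Type*} [NormedAddCommGroup E] [InnerProductSpace ℝ E] [FiniteDimensional ℝ E]

theorem det_pos_of_homotopy (C : E ≃L[ℝ] E) (H : ℝ → E → E)
    (hH : ContinuousOn (Function.uncurry H) (Icc (0 : ℝ) 1 ×ˢ {(0 : E)}ᶜ))
    (hne : ∀ s ∈ Icc (0 : ℝ) 1, ∀ x, x ≠ 0 → H s x ≠ 0) (a b : E → ℝ)
    (ha : ∀ x, x ≠ 0 → 0 < a x) (hb : ∀ x, x ≠ 0 → 0 < b x)
    (h0 : ∀ x, x ≠ 0 → H 0 x = a x • C x) (h1 : ∀ x, x ≠ 0 → H 1 x = b x • x) :
    0 < (C : E →L[ℝ] E).det := by
  borelize E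
  set l1 : E → ℝ := fun x => cl (2 - 2 * ‖x‖) with hl1
  set l3 : E → ℝ := fun x => cl (‖x‖ - 2) with hl3
  set s : E → ℝ := fun x => cl (‖x‖ - 1) with hs
  set K : E → E := fun x => H (s x) x with hK
  set g : E → E := fun x => l1 x • C x + (1 - l1 x - l3 x) • K x + l3 x • x with hg
  have hl1c : Continuous l1 := continuous_cl.comp (by fun_prop)
  have hl3c : Continuous l3 := continuous_cl.comp (by fun_prop)
  have hsc : Continuous s := continuous_cl.comp (by fun_prop)
  have hKc : ∀ x, x ≠ 0 → ContinuousAt K x := by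
    intro x hx
    have h2 : ContinuousOn K {(0 : E)}ᶜ := by
      have h3 : ContinuousOn (fun y : E => (s y, y)) {(0 : E)}ᶜ :=
        (hsc.prodMk continuous_id).continuousOn
      exact hH.comp h3 fun y hy => ⟨cl_mem _, hy⟩
    exact h2.continuousAt (isOpen_compl_singleton.mem_nhds hx)
  have hgsmall : ∀ x, ‖x‖ ≤ 1 / 2 → g x = C x := by
    intro x hx
    have e1 : l1 x = 1 := cl_of_ge (by linarith)
    have e3 : l3 x = 0 := cl_of_nonpos (by linarith)
    simp [hg, e1, e3]
  have hglarge : ∀ x, 3 ≤ ‖x‖ → g x = x := by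
    intro x hx
    have e1 : l1 x = 0 := cl_of_nonpos (by linarith)
    have e3 : l3 x = 1 := cl_of_ge (by linarith)
    simp [hg, e1, e3]
  have hgc : Continuous g := by
    rw [continuous_iff_continuousAt]
    intro x
    by_cases hx : x = 0
    · subst hx
      have h2 : g =ᶠ[𝓝 0] fun y => C y := by
        have : ∀ᶠ y in 𝓝 (0 : E), ‖y‖ < 1 / 2 := by
          have := (continuous_norm (E := E)).tendsto 0
          rw [norm_zero] at this
          exact this.eventually (gt_mem_nhds (by norm_num))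
        filter_upwards [this] with y hy
        exact hgsmall y hy.le
      exact (C.continuous.continuousAt).congr h2.symm
    · have := hKc x hx
      exact ((hl1c.continuousAt.smul C.continuous.continuousAt).add
        (((continuousAt_const.sub hl1c.continuousAt).sub hl3c.continuousAt).smul this)).add
        (hl3c.continuousAt.smul continuousAt_id)
  have hgne : ∀ x, x ≠ 0 → g x ≠ 0 := by
    intro x hx
    have hCx : C x ≠ 0 := by simpa using hx
    rcases le_or_gt ‖x‖ 1 with hx1 | hx1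
    · have e3 : l3 x = 0 := cl_of_nonpos (by linarith)
      have es : s x = 0 := cl_of_nonpos (by linarith)
      have eg : g x = (l1 x + (1 - l1 x) * a x) • C x := by
        simp only [hg, hK, e3, es, h0 x hx, zero_smul, add_zero, sub_zero, smul_smul, add_smul]
      rw [eg]
      refine smul_ne_zero ?_ hCx
      have h2 := cl_mem (2 - 2 * ‖x‖)
      have h3 := ha x hx
      rcases eq_or_lt_of_le h2.2 with h4 | h4
      · have : l1 x = 1 := h4
        rw [this]; simp
      · have h5 : 0 < (1 - l1 x) * a x := mul_pos (by simpa [hl1] using h4) h3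
        have h6 : 0 ≤ l1 x := h2.1
        linarith
    · have e1 : l1 x = 0 := cl_of_nonpos (by linarith)
      rcases le_or_gt ‖x‖ 2 with hx2 | hx2
      · have e3 : l3 x = 0 := cl_of_nonpos (by linarith)
        have eg : g x = K x := by simp [hg, e1, e3]
        rw [eg]
        exact hne _ (cl_mem _) x hx
      · have es : s x = 1 := cl_of_ge (by linarith)
        have eg : g x = ((1 - l3 x) * b x + l3 x) • x := by
          simp only [hg, hK, e1, es, h1 x hx, zero_smul, zero_add, sub_zero, smul_smul, add_smul]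
        rw [eg]
        refine smul_ne_zero ?_ hx
        have h2 := cl_mem (‖x‖ - 2)
        have h3 := hb x hx
        rcases eq_or_lt_of_le h2.2 with h4 | h4
        · have : l3 x = 1 := h4
          rw [this]; simp
        · have h5 : 0 < (1 - l3 x) * b x := mul_pos (by simpa [hl3] using h4) h3
          have h6 : 0 ≤ l3 x := h2.1
          linarith
  -- smooth approximation
  obtain ⟨ε, hε, hgε⟩ : ∃ ε : ℝ, 0 < ε ∧ ∀ x : E, 1 / 4 ≤ ‖x‖ → ‖x‖ ≤ 4 → ε ≤ ‖g x‖ := by
    have hcomp : IsCompact (closedBall (0 : E) 4 ∩ {x | 1 / 4 ≤ ‖x‖}) :=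
      (isCompact_closedBall 0 4).inter_right (isClosed_le continuous_const continuous_norm)
    have hcont : ContinuousOn (fun x => 1 / ‖g x‖) (closedBall (0 : E) 4 ∩ {x | 1 / 4 ≤ ‖x‖}) := by
      refine ContinuousOn.div continuousOn_const hgc.norm.continuousOn fun x hx => ?_
      refine norm_ne_zero_iff.2 (hgne x fun h => ?_)
      have h2 := hx.2
      rw [h] at h2
      norm_num at h2
    obtain ⟨B, hB⟩ := hcomp.exists_bound_of_continuousOn hcont
    have hB'0 : 0 < max B 1 := lt_of_lt_of_le one_pos (le_max_right _ _)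
    refine ⟨1 / max B 1, by positivity, fun x h2 h3 => ?_⟩
    have h4 := hB x ⟨by simpa using h3, h2⟩
    have hx0 : x ≠ 0 := by
      intro h; rw [h] at h2; norm_num at h2
    have h5 : 0 < ‖g x‖ := norm_pos_iff.2 (hgne x hx0)
    rw [Real.norm_eq_abs, abs_of_pos (by positivity)] at h4
    have h6 : 1 / ‖g x‖ ≤ max B 1 := h4.trans (le_max_left _ _)
    rw [div_le_iff₀ hB'0]
    rwa [div_le_iff₀ h5, mul_comm] at h6
  have hS : IsClosed ({x : E | ‖x‖ ≤ 1 / 4} ∪ {x : E | 4 ≤ ‖x‖}) :=
    (isClosed_le continuous_norm continuous_const).union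
      (isClosed_le continuous_const continuous_norm)
  have hUo : IsOpen ({x : E | ‖x‖ < 1 / 2} ∪ {x : E | 3 < ‖x‖}) :=
    (isOpen_lt continuous_norm continuous_const).union
      (isOpen_lt continuous_const continuous_norm)
  have hSU : ({x : E | ‖x‖ ≤ 1 / 4} ∪ {x : E | 4 ≤ ‖x‖}) ⊆
      ({x : E | ‖x‖ < 1 / 2} ∪ {x : E | 3 < ‖x‖}) := by
    rintro x (hx | hx)
    · left
      have : ‖x‖ ≤ 1 / 4 := hx
      show ‖x‖ < 1 / 2
      linarith
    · right
      have : 4 ≤ ‖x‖ := hx
      show 3 < ‖x‖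
      linarith
  have hgU : ContDiffOn ℝ (1 : ℕ∞) g ({x : E | ‖x‖ < 1 / 2} ∪ {x : E | 3 < ‖x‖}) := by
    intro x hx
    rcases hx with hx | hx
    · have h2 : g =ᶠ[𝓝 x] fun y => C y := by
        have : ∀ᶠ y in 𝓝 x, ‖y‖ < 1 / 2 :=
          (continuous_norm.tendsto x).eventually (gt_mem_nhds hx)
        filter_upwards [this] with y hy
        exact hgsmall y hy.le
      exact ((C : E →L[ℝ] E).contDiff.contDiffAt.congr_of_eventuallyEq h2).contDiffWithinAt
    · have h2 : g =ᶠ[𝓝 x] fun y => y := by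
        have : ∀ᶠ y in 𝓝 x, 3 < ‖y‖ :=
          (continuous_norm.tendsto x).eventually (lt_mem_nhds hx)
        filter_upwards [this] with y hy
        exact hglarge y hy.le
      exact (contDiff_id.contDiffAt.congr_of_eventuallyEq h2).contDiffWithinAt
  obtain ⟨g', hg'c, hg'd, hg'S, -⟩ := hgc.exists_contDiff_approx_and_eqOn (1 : ℕ∞)
    (ε := fun _ => ε) continuous_const (fun _ => hε) hS (hUo.mem_nhdsSet.2 hSU) hgU
  refine det_pos_of_contDiff (R := 4) (ε := 1 / 4) (by norm_num) (by norm_num) (g := g') hg'c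
    ?_ C ?_ ?_
  · intro x hx
    rw [hg'S (Or.inr hx.ge), hglarge x (by linarith)]
  · intro x hx
    rw [hg'S (Or.inl hx), hgsmall x (by linarith)]
  · intro x hx1 hx2 h2
    have h3 := hg'd x
    rw [h2, dist_eq_norm, zero_sub, norm_neg] at h3
    exact absurd (hgε x hx1 hx2) (not_le.2 h3)

end Euclid

/-! ## Homotopies between maps of nonzero vectors -/

section General

variable {E : Type*} [NormedAddCommGroup E] [NormedSpace ℝ E]

/-- The nonzero vectors. -/
abbrev NZ (E : Type*) [NormedAddCommGroup E] : Type _ := {x : E // x ≠ 0}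

/-- The unit vector in the direction of `x`. -/
def udir (x : E) : E := (‖x‖)⁻¹ • x

lemma norm_udir {x : E} (hx : x ≠ 0) : ‖udir x‖ = 1 := by
  unfold udir
  rw [norm_smul, norm_inv, norm_norm, inv_mul_cancel₀ (norm_ne_zero_iff.2 hx)]

lemma continuous_udir : Continuous (fun x : NZ E => udir (x : E)) := by
  unfold udir
  exact ((continuous_norm.comp continuous_subtype_val).inv₀
    fun x => norm_ne_zero_iff.2 x.2).smul continuous_subtype_val

/-- The map of nonzero vectors given by a linear isomorphism on directions. -/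
def linDir (A : E ≃L[ℝ] E) : C(NZ E, NZ E) :=
  ⟨fun x => ⟨A (udir (x : E)), by
    have : udir (x : E) ≠ 0 := by
      rw [← norm_pos_iff, norm_udir x.2]; exact one_pos
    simpa using this⟩, by
    exact (A.continuous.comp continuous_udir).subtype_mk _⟩

/-- The map of nonzero vectors given by a map without zeros on the sphere of radius `r`. -/
def sphDir (r : ℝ) (f : E → E) (hf : ContinuousOn f (closedBall 0 r))
    (hne : ∀ x, ‖x‖ = r → f x ≠ 0) (hr : 0 < r) : C(NZ E, NZ E) :=
  ⟨fun x => ⟨r⁻¹ • f (r • udir (x : E)), by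
    refine smul_ne_zero (inv_ne_zero hr.ne') (hne _ ?_)
    rw [norm_smul, norm_udir x.2, Real.norm_eq_abs, abs_of_pos hr, mul_one]⟩, by
    refine Continuous.subtype_mk ?_ _
    refine continuous_const.smul ?_
    refine hf.comp_continuous (continuous_const.smul continuous_udir) fun x => ?_
    rw [mem_closedBall_zero_iff, norm_smul, norm_udir x.2, Real.norm_eq_abs, abs_of_pos hr,
      mul_one]⟩

/-- Shrinking the sphere to the origin. -/
lemma homotopic_linDir_sphDir {r : ℝ} (hr : 0 < r) {f : E → E}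
    (hf : ContinuousOn f (closedBall 0 r)) (A : E ≃L[ℝ] E) (hf0 : f 0 = 0)
    (hA : HasFDerivAt f (A : E →L[ℝ] E) 0) (hne : ∀ x, ‖x‖ ≤ r → x ≠ 0 → f x ≠ 0) :
    ContinuousMap.Homotopic (linDir A)
      (sphDir r f hf (fun x hx => hne x hx.le (by
        intro h; rw [h, norm_zero] at hx; exact hr.ne hx)) hr) := by
  -- the function `f (t y) / t`, extended by `A y` at `t = 0`
  set q : ℝ × E → E := fun p => if p.1 = 0 then A p.2 else p.1⁻¹ • f (p.1 • p.2) with hq
  have hqc : ∀ p : ℝ × E, 0 ≤ p.1 → ‖p.1 • p.2‖ ≤ r →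
      ContinuousWithinAt q {p | 0 ≤ p.1 ∧ ‖p.1 • p.2‖ ≤ r} p := by
    rintro ⟨t, y⟩ ht hy
    simp only at ht hy
    rcases eq_or_lt_of_le ht with ht0 | ht0
    · -- at `t = 0`
      subst ht0
      have hA' := hA
      rw [hasFDerivAt_iff_isLittleO_nhds_zero] at hA'
      simp only [zero_add, hf0, sub_zero] at hA'
      rw [Metric.continuousWithinAt_iff]
      intro ε hε
      have hqy : q (0, y) = A y := by simp [hq]
      rw [hqy]
      -- closeness of `A`
      have hAc : ∀ᶠ z in 𝓝 y, ‖A z - A y‖ < ε / 2 := by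
        have : Tendsto (fun z => ‖A z - A y‖) (𝓝 y) (𝓝 0) := by
          have h2 : Continuous fun z => ‖A z - A y‖ := by fun_prop
          simpa using h2.tendsto y
        exact this.eventually (gt_mem_nhds (by positivity))
      obtain ⟨η1, hη1, hA1⟩ := Metric.eventually_nhds_iff.1 hAc
      have hlo := hA'.def (show (0 : ℝ) < ε / (4 * (‖y‖ + 1)) by positivity)
      obtain ⟨η2, hη2, hA2⟩ := Metric.eventually_nhds_iff.1 hlo
      refine ⟨min (min η1 1) (η2 / (‖y‖ + 2)), by positivity, ?_⟩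
      rintro ⟨u, z⟩ ⟨hu, hz⟩ hd
      rw [Prod.dist_eq, max_lt_iff] at hd
      simp only at hd hu hz
      have hdz : dist z y < η1 := hd.2.trans_le ((min_le_left _ _).trans (min_le_left _ _))
      have hdz1 : dist z y < 1 := hd.2.trans_le ((min_le_left _ _).trans (min_le_right _ _))
      have hdu : dist u 0 < η2 / (‖y‖ + 2) := hd.1.trans_le (min_le_right _ _)
      have hzn : ‖z‖ ≤ ‖y‖ + 1 := by
        have h2 := norm_sub_norm_le z y
        rw [dist_eq_norm] at hdz1
        linarith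
      have h3 := hA1 hdz
      by_cases hu0 : u = 0
      · subst hu0
        have : q (0, z) = A z := by simp [hq]
        rw [this, dist_eq_norm]
        linarith
      · have hupos : 0 < u := lt_of_le_of_ne hu (Ne.symm hu0)
        have hqz : q (u, z) = u⁻¹ • f (u • z) := by simp [hq, hu0]
        rw [hqz, dist_eq_norm]
        have h4 : ‖f (u • z) - A (u • z)‖ ≤ ε / (4 * (‖y‖ + 1)) * ‖u • z‖ := by
          apply hA2
          rw [dist_zero_right, norm_smul, Real.norm_eq_abs, abs_of_pos hupos]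
          rw [dist_zero_right, Real.norm_eq_abs, abs_of_pos hupos] at hdu
          have h5 : (0 : ℝ) < ‖y‖ + 2 := by positivity
          rw [lt_div_iff₀ h5] at hdu
          calc u * ‖z‖ ≤ u * (‖y‖ + 2) := by
                apply mul_le_mul_of_nonneg_left _ hupos.le; linarith
            _ < η2 := hdu
        have h6 : u⁻¹ • f (u • z) - A y = u⁻¹ • (f (u • z) - A (u • z)) + (A z - A y) := by
          rw [smul_sub, map_smul, smul_smul, inv_mul_cancel₀ hu0, one_smul]
          abel
        rw [h6]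
        have h7 : ‖u⁻¹ • (f (u • z) - A (u • z))‖ ≤ ε / 4 := by
          rw [norm_smul, norm_inv, Real.norm_eq_abs, abs_of_pos hupos]
          rw [norm_smul, Real.norm_eq_abs, abs_of_pos hupos] at h4
          calc u⁻¹ * ‖f (u • z) - A (u • z)‖ ≤ u⁻¹ * (ε / (4 * (‖y‖ + 1)) * (u * ‖z‖)) :=
                mul_le_mul_of_nonneg_left h4 (by positivity)
            _ = ε / (4 * (‖y‖ + 1)) * ‖z‖ := by field_simp
            _ ≤ ε / (4 * (‖y‖ + 1)) * (‖y‖ + 1) :=
                mul_le_mul_of_nonneg_left hzn (by positivity)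
            _ = ε / 4 := by field_simp
        have h8 := norm_add_le (u⁻¹ • (f (u • z) - A (u • z))) (A z - A y)
        linarith
    · -- at `t > 0`
      have h1 : ContinuousWithinAt (fun p : ℝ × E => p.1⁻¹ • f (p.1 • p.2))
          {p | 0 ≤ p.1 ∧ ‖p.1 • p.2‖ ≤ r} (t, y) := by
        have h2 : ContinuousWithinAt (fun p : ℝ × E => f (p.1 • p.2))
            {p | 0 ≤ p.1 ∧ ‖p.1 • p.2‖ ≤ r} (t, y) := by
          have h3 : ContinuousWithinAt f (closedBall 0 r) (t • y) :=
            hf _ (by simpa using hy)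
          have h4 : ContinuousWithinAt (fun p : ℝ × E => p.1 • p.2)
              {p | 0 ≤ p.1 ∧ ‖p.1 • p.2‖ ≤ r} (t, y) :=
            (continuous_fst.smul continuous_snd).continuousWithinAt
          exact ContinuousWithinAt.comp (t := closedBall (0 : E) r) (f := fun p : ℝ × E => p.1 • p.2)
            (g := f) h3 h4 fun p hp => by simpa using hp.2
        have h5 : ContinuousWithinAt (fun p : ℝ × E => p.1⁻¹)
            {p | 0 ≤ p.1 ∧ ‖p.1 • p.2‖ ≤ r} (t, y) :=
          (continuousAt_fst.inv₀ ht0.ne').continuousWithinAt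
        exact h5.smul h2
      refine h1.congr_of_eventuallyEq ?_ ?_
      · have : ∀ᶠ p : ℝ × E in 𝓝 (t, y), 0 < p.1 :=
          (continuous_fst.tendsto (t, y)).eventually (lt_mem_nhds ht0)
        filter_upwards [this.filter_mono nhdsWithin_le_nhds] with p hp
        simp [hq, hp.ne']
      · simp [hq, ht0.ne']
  -- the homotopy
  have hmem : ∀ p : unitInterval × NZ E,
      0 ≤ (p.1 : ℝ) * r ∧ ‖((p.1 : ℝ) * r) • udir (p.2 : E)‖ ≤ r := by
    intro p
    have h1 : 0 ≤ (p.1 : ℝ) * r := mul_nonneg p.1.2.1 hr.le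
    refine ⟨h1, ?_⟩
    rw [norm_smul, norm_udir p.2.2, Real.norm_eq_abs, abs_of_nonneg h1, mul_one]
    calc (p.1 : ℝ) * r ≤ 1 * r := mul_le_mul_of_nonneg_right p.1.2.2 hr.le
      _ = r := one_mul r
  have hcont : Continuous fun p : unitInterval × NZ E => q ((p.1 : ℝ) * r, udir (p.2 : E)) := by
    have h1 : ContinuousOn q {p | 0 ≤ p.1 ∧ ‖p.1 • p.2‖ ≤ r} := fun p hp => hqc p hp.1 hp.2
    refine h1.comp_continuous ?_ fun p => hmem p
    exact ((continuous_subtype_val.comp continuous_fst).mul continuous_const).prodMk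
      (continuous_udir.comp continuous_snd)
  have hqne : ∀ p : unitInterval × NZ E, q ((p.1 : ℝ) * r, udir (p.2 : E)) ≠ 0 := by
    intro p
    have hud : udir (p.2 : E) ≠ 0 := by
      rw [← norm_pos_iff, norm_udir p.2.2]; exact one_pos
    by_cases h0 : (p.1 : ℝ) * r = 0
    · simp only [hq, h0, if_true]
      simpa using hud
    · simp only [hq, h0, if_false]
      exact smul_ne_zero (inv_ne_zero h0) (hne _ (hmem p).2 (smul_ne_zero h0 hud))
  refine ⟨⟨⟨fun p => ⟨q ((p.1 : ℝ) * r, udir (p.2 : E)), hqne p⟩, hcont.subtype_mk _⟩, ?_, ?_⟩⟩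
  · intro x
    apply Subtype.ext
    simp [hq, linDir]
  · intro x
    apply Subtype.ext
    simp [hq, sphDir, hr.ne']

/-- **Degree lemma.** -/
theorem det_mul_det_pos [FiniteDimensional ℝ E] {r : ℝ} (hr : 0 < r) (f : ℝ → E → E)
    (hf : ContinuousOn (Function.uncurry f) (Icc (0 : ℝ) 1 ×ˢ closedBall (0 : E) r))
    (hS : ∀ s ∈ Icc (0 : ℝ) 1, ∀ x, ‖x‖ = r → f s x ≠ 0)
    (A₀ A₁ : E →L[ℝ] E) (h00 : f 0 0 = 0) (h10 : f 1 0 = 0)
    (hA₀ : HasFDerivAt (f 0) A₀ 0) (hA₁ : HasFDerivAt (f 1) A₁ 0)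
    (hz₀ : ∀ x ∈ closedBall (0 : E) r, f 0 x = 0 → x = 0)
    (hz₁ : ∀ x ∈ closedBall (0 : E) r, f 1 x = 0 → x = 0)
    (hd₀ : A₀.det ≠ 0) (hd₁ : A₁.det ≠ 0) : 0 < A₀.det * A₁.det := by
  -- the linear isomorphisms
  let B₀ : E ≃L[ℝ] E := A₀.toContinuousLinearEquivOfDetNeZero hd₀
  let B₁ : E ≃L[ℝ] E := A₁.toContinuousLinearEquivOfDetNeZero hd₁
  have hB₀ : (B₀ : E →L[ℝ] E) = A₀ := by ext x; simp [B₀]
  have hB₁ : (B₁ : E →L[ℝ] E) = A₁ := by ext x; simp [B₁]
  have hcs : ∀ s ∈ Icc (0 : ℝ) 1, ContinuousOn (f s) (closedBall 0 r) := by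
    intro s hs
    exact hf.comp (by fun_prop : ContinuousOn (fun x : E => (s, x)) (closedBall 0 r))
      fun x hx => ⟨hs, hx⟩
  have H0 := homotopic_linDir_sphDir hr (hcs 0 ⟨le_rfl, zero_le_one⟩) B₀ h00
    (by rw [hB₀]; exact hA₀) (fun x hx hx0 h => hx0 (hz₀ x (by simpa using hx) h))
  have H1 := homotopic_linDir_sphDir hr (hcs 1 ⟨zero_le_one, le_rfl⟩) B₁ h10
    (by rw [hB₁]; exact hA₁) (fun x hx hx0 h => hx0 (hz₁ x (by simpa using hx) h))
  have H01 : ContinuousMap.Homotopic
      (sphDir r (f 0) (hcs 0 ⟨le_rfl, zero_le_one⟩) (hS 0 ⟨le_rfl, zero_le_one⟩) hr)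
      (sphDir r (f 1) (hcs 1 ⟨zero_le_one, le_rfl⟩) (hS 1 ⟨zero_le_one, le_rfl⟩) hr) := by
    have hn : ∀ x : NZ E, ‖r • udir (x : E)‖ = r := fun x => by
      rw [norm_smul, norm_udir x.2, Real.norm_eq_abs, abs_of_pos hr, mul_one]
    refine ⟨⟨⟨fun p => ⟨r⁻¹ • f p.1 (r • udir (p.2 : E)),
      smul_ne_zero (inv_ne_zero hr.ne') (hS _ p.1.2 _ (hn p.2))⟩, ?_⟩, ?_, ?_⟩⟩
    · refine Continuous.subtype_mk (continuous_const.smul ?_) _
      have h1 : Continuous fun p : unitInterval × NZ E => ((p.1 : ℝ), r • udir (p.2 : E)) :=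
        (continuous_subtype_val.comp continuous_fst).prodMk
          (continuous_const.smul (continuous_udir.comp continuous_snd))
      exact hf.comp_continuous h1 fun p => ⟨p.1.2, by
        rw [mem_closedBall_zero_iff]; exact (hn p.2).le⟩
    · intro x; rfl
    · intro x; rfl
  have HA : ContinuousMap.Homotopic (linDir B₁) (linDir B₀) :=
    H1.trans (H01.symm.trans H0.symm)
  obtain ⟨F⟩ := HA
  -- transport to a Euclidean space
  let e : E ≃L[ℝ] EuclideanSpace ℝ (Fin (Module.finrank ℝ E)) := toEuclidean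
  let C : EuclideanSpace ℝ (Fin (Module.finrank ℝ E)) ≃L[ℝ]
      EuclideanSpace ℝ (Fin (Module.finrank ℝ E)) := (e.symm.trans (B₁.trans B₀.symm)).trans e
  classical
  let H : ℝ → EuclideanSpace ℝ (Fin (Module.finrank ℝ E)) →
      EuclideanSpace ℝ (Fin (Module.finrank ℝ E)) := fun s x =>
    if hx : e.symm x ≠ 0 then e (B₀.symm (F (projIcc 0 1 zero_le_one s, ⟨e.symm x, hx⟩) : E)) else 0
  have hex : ∀ x, x ≠ 0 → e.symm x ≠ 0 := fun x hx => by simpa using hx
  have hCpos : 0 < (C : EuclideanSpace ℝ (Fin (Module.finrank ℝ E)) →L[ℝ]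
      EuclideanSpace ℝ (Fin (Module.finrank ℝ E))).det := by
    refine det_pos_of_homotopy C H ?_ ?_ (fun x => (‖e.symm x‖)⁻¹) (fun x => (‖e.symm x‖)⁻¹)
      ?_ ?_ ?_ ?_
    · rw [continuousOn_iff_continuous_domRestrict]
      have h1 : (Icc (0 : ℝ) 1 ×ˢ {(0 : EuclideanSpace ℝ (Fin (Module.finrank ℝ E)))}ᶜ).domRestrict
          (Function.uncurry H) = fun p => e (B₀.symm (F (projIcc 0 1 zero_le_one p.1.1,
            ⟨e.symm p.1.2, hex _ p.2.2⟩) : E)) := by
        funext p
        show H p.1.1 p.1.2 = _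
        exact dif_pos (hex _ p.2.2)
      rw [h1]
      refine e.continuous.comp (B₀.symm.continuous.comp (continuous_subtype_val.comp
        (F.continuous.comp ?_)))
      refine (continuous_projIcc.comp (continuous_fst.comp continuous_subtype_val)).prodMk ?_
      exact (e.symm.continuous.comp (continuous_snd.comp continuous_subtype_val)).subtype_mk _
    · intro s _ x hx
      simp only [H, dif_pos (hex x hx)]
      simpa using (F (projIcc 0 1 zero_le_one s, ⟨e.symm x, hex x hx⟩)).2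
    · intro x hx; exact inv_pos.2 (norm_pos_iff.2 (hex x hx))
    · intro x hx; exact inv_pos.2 (norm_pos_iff.2 (hex x hx))
    · intro x hx
      simp only [H, dif_pos (hex x hx)]
      have h1 : projIcc (0 : ℝ) 1 zero_le_one 0 = 0 := projIcc_left _
      rw [h1, F.apply_zero]
      simp [linDir, udir, C]
    · intro x hx
      simp only [H, dif_pos (hex x hx)]
      have h1 : projIcc (0 : ℝ) 1 zero_le_one 1 = 1 := projIcc_right _
      rw [h1, F.apply_one]
      simp [linDir, udir]
  have hdet : (C : EuclideanSpace ℝ (Fin (Module.finrank ℝ E)) →L[ℝ]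
      EuclideanSpace ℝ (Fin (Module.finrank ℝ E))).det * A₀.det = A₁.det := by
    have h1 : (C : EuclideanSpace ℝ (Fin (Module.finrank ℝ E)) →L[ℝ]
        EuclideanSpace ℝ (Fin (Module.finrank ℝ E))).det
        = LinearMap.det ((B₀.symm : E →L[ℝ] E) ∘L (B₁ : E →L[ℝ] E) : E →ₗ[ℝ] E) := by
      unfold ContinuousLinearMap.det
      rw [← LinearMap.det_conj _ e.toLinearEquiv]
      congr 1
    rw [h1]
    have h2 : A₁.det = LinearMap.det ((B₁ : E →L[ℝ] E) : E →ₗ[ℝ] E) := by rw [hB₁]
    have h3 : A₀.det = LinearMap.det ((B₀ : E →L[ℝ] E) : E →ₗ[ℝ] E) := by rw [hB₀]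
    rw [h2, h3, mul_comm, ← LinearMap.det_comp]
    congr 1
    ext x
    simp
  rw [← hdet]
  have h1 : A₀.det * ((C : EuclideanSpace ℝ (Fin (Module.finrank ℝ E)) →L[ℝ]
      EuclideanSpace ℝ (Fin (Module.finrank ℝ E))).det * A₀.det)
      = (C : EuclideanSpace ℝ (Fin (Module.finrank ℝ E)) →L[ℝ]
      EuclideanSpace ℝ (Fin (Module.finrank ℝ E))).det * (A₀.det * A₀.det) := by ring
  rw [h1]
  exact mul_pos hCpos (mul_self_pos.2 hd₀)

end General

end

end Pool.Agent.Lib.MP_85963d_gt.H31
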