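import Pool.Agent.Lib.MP_85963d_gt.Interfaces
import Pool.Agent.Lib.MP_85963d_gt.H31.Degree

/-! DEG: the degree lemma in the form of the interfaces. -/

set_option autoImplicit false

namespace Pool.Agent.MP85963d

theorem deg_holds : DegStatement := by
  intro E _ _ _ r f A₀ A₁ hr hf hne h0 h1 hd0 hd1 hz0 hz1 hdet0 hdet1
  exact Pool.Agent.Lib.MP_85963d_gt.H31.det_mul_det_pos hr f hf (fun s hs x hx => hne s hs x hx)
    A₀ A₁ h0 h1 hd0 hd1 (fun x hx => hz0 x (by simpa using hx))
    (fun x hx => hz1 x (by simpa using hx)) hdet0 hdet1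

end Pool.Agent.MP85963d
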