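import Pool.Agent.Lib.MP_85963d_gt.H31.Decay

/-! Kernel bounds for perturbations of the cylinder (Paper (10.3), (10.4)). -/

set_option autoImplicit false
open Set MeasureTheory Real

noncomputable section
namespace Pool.Agent.Lib.MP_85963d_gt.H31

/-- `1 + D cos^2 b ≥ cos b sqrt(1+D)`. -/
lemma m_ge {D : ℝ} (hD : 0 ≤ D) (b : ℝ) :
    cos b * √(1 + D) ≤ 1 + D * cos b ^ 2 := by
  apply le_of_sq_le_sq _ (m_pos hD b).le
  rw [mul_pow, sq_sqrt (by positivity)]
  have h1 : cos b ^ 2 ≤ 1 := cos_sq_le_one b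
  have h2 : 0 ≤ cos b ^ 2 := by positivity
  have h3 : 0 ≤ D * cos b ^ 2 := by positivity
  nlinarith

lemma integral_lin {a c : ℝ} (ha : 0 < a) (hc : 0 < c) :
    ∫ b in Ioo 0 (π / 2), cos b / ((1 - sin b) * a + sin b * c) ^ 2 = 1 / (a * c) := by
  let F : ℝ → ℝ := fun b => 1 / a * (sin b / ((1 - sin b) * a + sin b * c))
  have hden : ∀ b ∈ Icc 0 (π / 2), 0 < (1 - sin b) * a + sin b * c := by
    intro b hb
    have h0 : 0 ≤ sin b := sin_nonneg_of_nonneg_of_le_pi hb.1 (by linarith [hb.2, pi_pos])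
    have h1 : sin b ≤ 1 := sin_le_one b
    rcases eq_or_lt_of_le h0 with h | h
    · rw [← h]; simp [ha]
    · have : 0 ≤ (1 - sin b) * a := mul_nonneg (by linarith) ha.le
      have : 0 < sin b * c := by positivity
      linarith
  have hF : ∀ b ∈ Icc 0 (π / 2), HasDerivAt F
      (cos b / ((1 - sin b) * a + sin b * c) ^ 2) b := by
    intro b hb
    have hd := hden b hb
    have h1 : HasDerivAt (fun b => (1 - sin b) * a + sin b * c) (-cos b * a + cos b * c) b :=
      ((((hasDerivAt_sin b).const_sub 1).mul_const a).add ((hasDerivAt_sin b).mul_const c))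
    refine (((hasDerivAt_sin b).div h1 hd.ne').const_mul (1 / a)).congr_deriv ?_
    field_simp
    ring
  have hFc : ContinuousOn (fun b => cos b / ((1 - sin b) * a + sin b * c) ^ 2)
      (Icc 0 (π / 2)) := by
    apply ContinuousOn.div
    · fun_prop
    · fun_prop
    · intro b hb
      have := hden b hb
      positivity
  rw [← integral_Ioc_eq_integral_Ioo, ← intervalIntegral.integral_of_le (by positivity),
    intervalIntegral.integral_eq_sub_of_hasDerivAt (f := F)]
  · simp only [F, sin_zero, sin_pi_div_two]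
    field_simp
    ring
  · intro b hb
    rw [uIcc_of_le (by positivity)] at hb
    exact hF b hb
  · exact hFc.intervalIntegrable_of_Icc (by positivity)

/-- The integral of a nonnegative continuous function, bounded via a pointwise bound. -/
lemma int_le {f g : ℝ → ℝ} (hf : Continuous f) (hg : IntegrableOn g (Ioo 0 (π / 2)))
    (h : ∀ b ∈ Ioo 0 (π / 2), f b ≤ g b) :
    ∫ b in Ioo 0 (π / 2), f b ≤ ∫ b in Ioo 0 (π / 2), g b :=
  setIntegral_mono_on (integrableOn_cont hf _ _) hg measurableSet_Ioo h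

/-- Kernel bound from a pointwise bound of the integrand. -/
lemma abs_kern1_le' {f f' : ℝ → ℝ} {D : ℝ} (hD : 0 ≤ D) {g : ℝ → ℝ}
    (hf : ContinuousOn f (Icc 0 D)) (hf' : ContinuousOn f' (Icc 0 D))
    (hg : IntegrableOn g (Ioo 0 (π / 2)))
    (h : ∀ b ∈ Ioo 0 (π / 2), dRt D b * |f (Yb D b)| +
      Rt D b * (|f' (Yb D b)| * (sin b ^ 2 / (1 + D * cos b ^ 2) ^ 2)) ≤ g b) :
    |kern1 f f' D| ≤ (2 / π) * ∫ b in Ioo 0 (π / 2), g b := by
  have hp := pi_pos
  have hc : Continuous (dInt f f' D) := by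
    have := (continuousOn_dInt hf hf').comp_continuous (f := fun b : ℝ => (D, b)) (by fun_prop)
      (fun b => ⟨right_mem_Icc.2 hD, mem_univ _⟩)
    exact this
  unfold kern1
  rw [abs_mul, abs_of_pos (by positivity : (0 : ℝ) < 2 / π)]
  gcongr
  have h20 := norm_integral_le_integral_norm (μ := volume.restrict (Ioo 0 (π / 2))) (dInt f f' D)
  rw [Real.norm_eq_abs] at h20
  refine h20.trans ?_
  apply int_le hc.norm hg
  intro b hb
  refine le_trans ?_ (h b hb)
  have hd := dRt_nonneg hD b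
  have hR := Rt_nonneg D b
  have hm := m_pos hD b
  have hsm : 0 ≤ sin b ^ 2 / (1 + D * cos b ^ 2) ^ 2 := by positivity
  rw [Real.norm_eq_abs]
  unfold dInt
  refine (abs_add_le _ _).trans (le_of_eq ?_)
  rw [abs_mul, abs_neg, abs_of_nonneg hd, abs_mul, abs_of_nonneg hR, abs_mul,
    abs_of_nonneg hsm]

/-- Off the support of `p''`: `|f| ≤ m`, `|f'| ≤ m (8 X/(X+Y)^2 + 1/(1+Y))`. -/
theorem kern_off {f f' : ℝ → ℝ} {X D m : ℝ} (hX : 0 < X) (hD : 0 ≤ D) (hm : 0 ≤ m)
    (hf : ContinuousOn f (Icc 0 D)) (hf' : ContinuousOn f' (Icc 0 D))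
    (h0 : ∀ Y ∈ Icc 0 D, |f Y| ≤ m)
    (h1 : ∀ Y ∈ Icc 0 D, |f' Y| ≤ m * (8 * (X / (X + Y) ^ 2) + 1 / (1 + Y))) :
    |kern1 f f' D| ≤ m * (eK D + 16 / ((1 + D) * (X + D)) + 2 / ((1 + D) * √(1 + D))) := by
  have hp := pi_pos
  have h1D : 0 < 1 + D := by positivity
  have hs1D : 0 < √(1 + D) := sqrt_pos.2 h1D
  have i1 : IntegrableOn (fun b => dRt D b) (Ioo 0 (π / 2)) :=
    integrableOn_cont (continuous_dRt_right hD) _ _
  have i3 : IntegrableOn (fun b => Rt D b * qf X D b) (Ioo 0 (π / 2)) :=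
    integrableOn_cont ((continuous_Rt_right hD).mul (continuous_qf hX hD)) _ _
  have i4 : IntegrableOn (fun _ : ℝ => m * (2 / ((1 + D) * √(1 + D)))) (Ioo 0 (π / 2)) :=
    integrableOn_cont continuous_const _ _
  have j1 : IntegrableOn (fun b => m * dRt D b) (Ioo 0 (π / 2)) := i1.const_mul m
  have j3 : IntegrableOn (fun b => 8 * m * (Rt D b * qf X D b)) (Ioo 0 (π / 2)) :=
    i3.const_mul (8 * m)
  have j13 : IntegrableOn (fun b => m * dRt D b + 8 * m * (Rt D b * qf X D b))
      (Ioo 0 (π / 2)) := j1.add j3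
  have hmain := abs_kern1_le' (g := fun b => m * dRt D b + 8 * m * (Rt D b * qf X D b)
      + m * (2 / ((1 + D) * √(1 + D)))) hD hf hf' (j13.add i4) ?_
  · refine hmain.trans ?_
    rw [integral_add j13 i4, integral_add j1 j3, integral_const_mul, integral_const_mul,
      integral_one_Ioo]
    have h4 := integral_Rt_qf_le hX hD
    have hpi : (2 / π) * (8 * 3) ≤ 16 := by
      rw [div_mul_eq_mul_div, div_le_iff₀ hp]
      linarith [pi_gt_three]
    have hXD : 0 < X + D := by positivity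
    calc (2 / π) * (m * (∫ b in Ioo 0 (π / 2), dRt D b)
          + 8 * m * (∫ b in Ioo 0 (π / 2), Rt D b * qf X D b)
          + π / 2 * (m * (2 / ((1 + D) * √(1 + D)))))
        ≤ (2 / π) * (m * (∫ b in Ioo 0 (π / 2), dRt D b)
          + 8 * m * (3 / ((1 + D) * (X + D)))
          + π / 2 * (m * (2 / ((1 + D) * √(1 + D))))) := by gcongr
      _ = m * (eK D + ((2 / π) * (8 * 3)) / ((1 + D) * (X + D)) + 2 / ((1 + D) * √(1 + D))) := by
          unfold eK
          field_simp
      _ ≤ _ := by gcongr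
  · intro b hb
    have hY : Yb D b ∈ Icc 0 D := ⟨Yb_nonneg hD b, Yb_le hD b⟩
    have hd := dRt_nonneg hD b
    have hR := Rt_nonneg D b
    have hmm := m_pos hD b
    have hs := sin_pos_Ioo hb
    have hc := cos_pos_Ioo hb
    have hs1 := sin_le_one b
    have hsm : 0 ≤ sin b ^ 2 / (1 + D * cos b ^ 2) ^ 2 := by positivity
    have hRle := Rt_le hD b
    rw [abs_of_pos hs, abs_of_pos hc] at hRle
    have hge := m_ge hD b
    -- the third part
    have h3 : Rt D b * (1 / (1 + Yb D b) * (sin b ^ 2 / (1 + D * cos b ^ 2) ^ 2))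
        ≤ 2 / ((1 + D) * √(1 + D)) := by
      rw [one_add_Yb hD]
      have e : 1 / ((1 + D) / (1 + D * cos b ^ 2)) * (sin b ^ 2 / (1 + D * cos b ^ 2) ^ 2)
          = sin b ^ 2 / ((1 + D) * (1 + D * cos b ^ 2)) := by field_simp
      rw [e]
      have hsq : sin b ^ 2 ≤ 1 := sin_sq_le_one b
      have hR2 : Rt D b ≤ 2 * ((1 + D * cos b ^ 2) / √(1 + D)) := by
        refine hRle.trans ?_
        have a1 : cos b ≤ (1 + D * cos b ^ 2) / √(1 + D) := by
          rw [le_div_iff₀ hs1D]; exact hge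
        have a2 : sin b / (1 + D) ≤ (1 + D * cos b ^ 2) / √(1 + D) := by
          have b1 : √(1 + D) ≤ 1 + D := by
            rw [sqrt_le_left (by linarith)]; nlinarith
          have b2 : 1 ≤ 1 + D * cos b ^ 2 := by
            have : 0 ≤ D * cos b ^ 2 := by positivity
            linarith
          apply div_le_div₀ (by positivity) (by linarith) hs1D b1
        linarith
      calc Rt D b * (sin b ^ 2 / ((1 + D) * (1 + D * cos b ^ 2)))
          ≤ (2 * ((1 + D * cos b ^ 2) / √(1 + D))) * (1 / ((1 + D) * (1 + D * cos b ^ 2))) := by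
            gcongr
        _ = 2 / ((1 + D) * √(1 + D)) := by field_simp
    calc dRt D b * |f (Yb D b)| + Rt D b * (|f' (Yb D b)| * (sin b ^ 2 / (1 + D * cos b ^ 2) ^ 2))
        ≤ dRt D b * m + Rt D b * ((m * (8 * (X / (X + Yb D b) ^ 2) + 1 / (1 + Yb D b))) *
          (sin b ^ 2 / (1 + D * cos b ^ 2) ^ 2)) := by
          gcongr
          · exact h0 _ hY
          · exact h1 _ hY
      _ = m * dRt D b + 8 * m * (Rt D b * (X / (X + Yb D b) ^ 2 *
          (sin b ^ 2 / (1 + D * cos b ^ 2) ^ 2)))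
          + m * (Rt D b * (1 / (1 + Yb D b) * (sin b ^ 2 / (1 + D * cos b ^ 2) ^ 2))) := by ring
      _ ≤ _ := by
          rw [qf_eq hX hD]
          gcongr

/-- On the support of `p''`: `|f| ≤ m (1+Y)`, `|f'| ≤ m`. -/
theorem kern_on {f f' : ℝ → ℝ} {D m : ℝ} (hD : 0 ≤ D) (hm : 0 ≤ m)
    (hf : ContinuousOn f (Icc 0 D)) (hf' : ContinuousOn f' (Icc 0 D))
    (h0 : ∀ Y ∈ Icc 0 D, |f Y| ≤ m * (1 + Y))
    (h1 : ∀ Y ∈ Icc 0 D, |f' Y| ≤ m) :
    |kern1 f f' D| ≤ 3 * m / (1 + D) := by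
  have hp := pi_pos
  have h1D : 0 < 1 + D := by positivity
  have hcden : ContinuousOn (fun b => cos b / ((1 - sin b) * (1 + D) + sin b * 1) ^ 2)
      (Icc 0 (π / 2)) := by
    apply ContinuousOn.div (by fun_prop) (by fun_prop)
    intro b _
    have h2 : sin b ≤ 1 := sin_le_one b
    have : 0 < (1 - sin b) * (1 + D) + sin b * 1 := by nlinarith
    positivity
  have i1 : IntegrableOn (fun b => cos b / ((1 - sin b) * (1 + D) + sin b * 1) ^ 2)
      (Ioo 0 (π / 2)) := hcden.integrableOn_Icc.mono_set Ioo_subset_Icc_self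
  have i2 : IntegrableOn (fun b => 2 * (sin b / (1 + D))) (Ioo 0 (π / 2)) :=
    integrableOn_cont (by fun_prop) _ _
  have j1 : IntegrableOn (fun b => m * (2 * (sin b / (1 + D)))) (Ioo 0 (π / 2)) := i2.const_mul m
  have j2 : IntegrableOn (fun b => m * (cos b / ((1 - sin b) * (1 + D) + sin b * 1) ^ 2))
      (Ioo 0 (π / 2)) := i1.const_mul m
  have hmain := abs_kern1_le' (g := fun b => m * (2 * (sin b / (1 + D)))
      + m * (cos b / ((1 - sin b) * (1 + D) + sin b * 1) ^ 2)) hD hf hf' (j1.add j2) ?_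
  · refine hmain.trans ?_
    rw [integral_add j1 j2, integral_const_mul, integral_const_mul, integral_const_mul,
      integral_div, integral_sin_Ioo, integral_lin h1D one_pos]
    have e : (2 / π) * (m * (2 * (1 / (1 + D))) + m * (1 / ((1 + D) * 1)))
        = (3 * (2 / π)) * (m / (1 + D)) := by field_simp; ring
    rw [e]
    have := two_div_pi_le
    calc (3 * (2 / π)) * (m / (1 + D)) ≤ (3 * 1) * (m / (1 + D)) := by gcongr
      _ = _ := by ring
  · intro b hb
    have hY : Yb D b ∈ Icc 0 D := ⟨Yb_nonneg hD b, Yb_le hD b⟩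
    have hd := dRt_nonneg hD b
    have hR := Rt_nonneg D b
    have hmm := m_pos hD b
    have hs := sin_pos_Ioo hb
    have hc := cos_pos_Ioo hb
    have hs1 := sin_le_one b
    have hsm : 0 ≤ sin b ^ 2 / (1 + D * cos b ^ 2) ^ 2 := by positivity
    have hRle := Rt_le hD b
    rw [abs_of_pos hs, abs_of_pos hc] at hRle
    have hdle := dRt_le hD b
    rw [abs_of_pos hs] at hdle
    have hsq : sin b ^ 2 ≤ 1 := sin_sq_le_one b
    have hone : 1 ≤ 1 + D * cos b ^ 2 := by
      have : 0 ≤ D * cos b ^ 2 := by positivity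
      linarith
    have hlin : (1 - sin b) * (1 + D) + sin b * 1 ≤ 1 + D * cos b ^ 2 := by
      rw [cs b]; nlinarith [mul_nonneg hD (mul_nonneg hs.le (sub_nonneg.2 hs1))]
    have hlin0 : 0 < (1 - sin b) * (1 + D) + sin b * 1 := by nlinarith
    have e1 : dRt D b * (m * (1 + Yb D b)) ≤ m * (sin b / (1 + D)) := by
      have : 1 + Yb D b ≤ 1 + D := by linarith [hY.2]
      have hY1 : 0 ≤ 1 + Yb D b := by linarith [hY.1]
      calc dRt D b * (m * (1 + Yb D b)) ≤ (sin b / (1 + D) ^ 2) * (m * (1 + D)) := by gcongr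
        _ = m * (sin b / (1 + D)) := by field_simp
    have e2 : Rt D b * (m * (sin b ^ 2 / (1 + D * cos b ^ 2) ^ 2))
        ≤ m * (cos b / ((1 - sin b) * (1 + D) + sin b * 1) ^ 2) + m * (sin b / (1 + D)) := by
      have a0 : sin b ^ 2 / (1 + D * cos b ^ 2) ^ 2 ≤ 1 := by
        rw [div_le_one (by positivity)]
        nlinarith
      have a1 : cos b * (sin b ^ 2 / (1 + D * cos b ^ 2) ^ 2)
          ≤ cos b / ((1 - sin b) * (1 + D) + sin b * 1) ^ 2 := by
        rw [← mul_div_assoc]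
        apply div_le_div₀ hc.le _ (by positivity) (pow_le_pow_left₀ hlin0.le hlin 2)
        nlinarith
      calc Rt D b * (m * (sin b ^ 2 / (1 + D * cos b ^ 2) ^ 2))
          ≤ (cos b + sin b / (1 + D)) * (m * (sin b ^ 2 / (1 + D * cos b ^ 2) ^ 2)) := by gcongr
        _ = m * (cos b * (sin b ^ 2 / (1 + D * cos b ^ 2) ^ 2))
            + m * (sin b / (1 + D) * (sin b ^ 2 / (1 + D * cos b ^ 2) ^ 2)) := by ring
        _ ≤ m * (cos b / ((1 - sin b) * (1 + D) + sin b * 1) ^ 2)
            + m * (sin b / (1 + D) * 1) := by gcongr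
        _ = _ := by ring
    calc dRt D b * |f (Yb D b)| + Rt D b * (|f' (Yb D b)| * (sin b ^ 2 / (1 + D * cos b ^ 2) ^ 2))
        ≤ dRt D b * (m * (1 + Yb D b)) + Rt D b * (m * (sin b ^ 2 / (1 + D * cos b ^ 2) ^ 2)) := by
          gcongr
          · exact h0 _ hY
          · exact h1 _ hY
      _ ≤ m * (sin b / (1 + D)) + (m * (cos b / ((1 - sin b) * (1 + D) + sin b * 1) ^ 2)
          + m * (sin b / (1 + D))) := add_le_add e1 e2
      _ = _ := by ring

end Pool.Agent.Lib.MP_85963d_gt.H31
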