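import Pool.Agent.Lib.MP_85963d_gt.H31.Cyl2
import Pool.Agent.Lib.MP_85963d_gt.H31.AsyJ
import Pool.Agent.Lib.MP_85963d_gt.H70.Limit
import Pool.Agent.Lib.MP_85963d_gt.H70.Cap
import Pool.Agent.Lib.MP_85963d_gt.H70.Bord

/-! The limit (non-smooth) capsules: the two determinants have opposite signs. -/

set_option autoImplicit false
open Set MeasureTheory Real Filter Topology
open scoped ContDiff

noncomputable section
namespace Pool.Agent.Lib.MP_85963d_gt.H31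

open H87 (CylSol SolW)
open H70 (SmD pinf kinf Qi cp cp1 cpS NN DD om IsSol TX)

/-- the normalised data of the limit profile -/
def lP (h tj tc c0 : ℝ) (φ : ℝ → ℝ) (t : ℝ) : ℝ := pinf h tj tc c0 φ t / pinf h tj tc c0 φ 0

def lQ (h tj tc c0 : ℝ) (φ : ℝ → ℝ) (t : ℝ) : ℝ := Qi (kinf h tj c0 φ) t / pinf h tj tc c0 φ 0

def lS (h tj tc c0 : ℝ) (φ : ℝ → ℝ) (t : ℝ) : ℝ :=
  (pinf h tj tc c0 φ t - t * Qi (kinf h tj c0 φ) t) / pinf h tj tc c0 φ 0

def lK (h tj tc c0 : ℝ) (φ : ℝ → ℝ) (t : ℝ) : ℝ := kinf h tj c0 φ t / pinf h tj tc c0 φ 0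

/-- the weight of the limit profile -/
def lom (h tj tc c0 : ℝ) (φ : ℝ → ℝ) : ℝ → ℝ → ℝ :=
  om (lP h tj tc c0 φ) (lQ h tj tc c0 φ) (lS h tj tc c0 φ) (lK h tj tc c0 φ)

section

variable {τ₁ τ₂ : ℝ} {φ : ℝ → ℝ}

/-- beyond the support, `pf1` is the mass -/
lemma Bump.pf1_eq (h : Bump τ₁ τ₂ φ) {t : ℝ} (ht : τ₂ ≤ t) : pf1 φ t = ∫ u, φ u := by
  have h0 : 0 ≤ t := h.pos'.le.trans ht
  unfold pf1
  rw [intervalIntegral.integral_of_le h0]
  apply setIntegral_eq_integral_of_forall_compl_eq_zero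
  intro x hx
  apply h.off
  intro h1
  exact hx ⟨h.pos.trans_le h1.1, h1.2.trans ht⟩

/-- beyond the support, `t pf1 - pf0` is the first moment -/
lemma Bump.moment_eq (h : Bump τ₁ τ₂ φ) {t : ℝ} (ht : τ₂ ≤ t) :
    t * pf1 φ t - pf0 φ t = ∫ u, u * φ u := by
  have h0 : 0 ≤ t := h.pos'.le.trans ht
  have hd : ∀ x ∈ uIcc 0 t, HasDerivAt (fun t => t * pf1 φ t - pf0 φ t) (x * φ x) x := by
    intro x _
    refine (((hasDerivAt_id x).mul (h.pf1_deriv x)).sub (h.pf0_deriv x)).congr_deriv ?_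
    simp only [id_eq]
    ring
  have hcont : Continuous (fun x => x * φ x) := continuous_id.mul h.cont
  have e := intervalIntegral.integral_eq_sub_of_hasDerivAt hd (hcont.intervalIntegrable 0 t)
  have e2 : t * pf1 φ t - pf0 φ t = ∫ u in (0:ℝ)..t, u * φ u := by
    rw [e]
    have z : pf0 φ 0 = 0 := by unfold pf0; simp
    simp [z]
  rw [e2, intervalIntegral.integral_of_le h0]
  apply setIntegral_eq_integral_of_forall_compl_eq_zero
  intro x hx
  rw [h.off x, mul_zero]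
  intro h1
  exact hx ⟨h.pos.trans_le h1.1, h1.2.trans ht⟩

/-- the data of the limit capsule. -/
lemma limit_isP {H h R tc : ℝ} (hH : 0 < H) (hR : 0 < R)
    (hS : SmD h (√H) tc τ₁ τ₂ (R * H ^ (-(5 / 4) : ℝ)) φ)
    (hcp : cp h (√H) = R * (1 + H ^ (-(5 / 4) : ℝ) * pf0 φ (√H))) :
    IsP (H ^ (-(5 / 4) : ℝ)) H φ (lP h (√H) tc (R * H ^ (-(5 / 4) : ℝ)) φ)
      (lQ h (√H) tc (R * H ^ (-(5 / 4) : ℝ)) φ) (lS h (√H) tc (R * H ^ (-(5 / 4) : ℝ)) φ)
      (lK h (√H) tc (R * H ^ (-(5 / 4) : ℝ)) φ) := by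
  set β := H ^ (-(5 / 4) : ℝ) with hβ
  have hj0 : 0 < √H := sqrt_pos.2 hH
  have hQc : Continuous (Qi (kinf h (√H) (R * β) φ)) := hS.Qinf_cont
  have hPc : Continuous (pinf h (√H) tc (R * β) φ) := by
    unfold pinf H70.Pi'
    exact continuous_const.add (intervalIntegral.continuous_primitive
      (fun a b => hQc.intervalIntegrable a b) 0)
  have hKm : Measurable (kinf h (√H) (R * β) φ) := hS.measurable_kinf
  have hp : ∀ t, 0 ≤ t → t ≤ √H → pinf h (√H) tc (R * β) φ t = R * (1 + β * pf0 φ t) := by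
    intro t h0 ht
    rw [hS.pinf_lo h0 ht, hcp]
    have e : ∀ s, ∫ u in (0:ℝ)..s, Qi φ u = pf0 φ s := fun s => rfl
    rw [e, e]
    ring
  have hp0 : pinf h (√H) tc (R * β) φ 0 = R := by
    rw [hp 0 le_rfl hj0.le]
    have z : pf0 φ 0 = 0 := by unfold pf0; simp
    rw [z]; ring
  have hq : ∀ t, 0 ≤ t → t ≤ √H → Qi (kinf h (√H) (R * β) φ) t = R * (β * pf1 φ t) := by
    intro t h0 ht
    rw [hS.Qinf_lo h0 ht]
    unfold pf1
    ring
  have hRne := hR.ne'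
  refine ⟨?_, ?_, ?_, ?_, ?_, ?_, ?_, ?_⟩
  · unfold lP
    exact (hPc.div_const _).measurable
  · unfold lQ
    exact (hQc.div_const _).measurable
  · unfold lS
    exact ((hPc.sub (continuous_id.mul hQc)).div_const _).measurable
  · unfold lK
    exact hKm.div_const _
  · intro t ht
    unfold lP
    rw [hp t ht.1.le ht.2.le, hp0]
    field_simp
  · intro t ht
    unfold lQ
    rw [hq t ht.1.le ht.2.le, hp0]
    field_simp
  · intro t ht
    unfold lS lP lQ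
    rw [sub_div, mul_div_assoc]
  · intro t ht
    unfold lK kinf
    rw [if_pos ht.2.le, hp0]
    field_simp

end

/-- **LIMASY.** -/
theorem limasy : ∃ (h tj a b c0 : ℝ) (φ : Fin 2 → ℝ → ℝ) (Gc : Fin 2 → ℝ → ℝ),
    (∀ i, ∀ tc, tj < tc → SmD h tj tc a b c0 (φ i)) ∧
    (∫ t, t * φ 0 t = ∫ t, t * φ 1 t) ∧
    (∀ k, ∀ b' : ℝ, 0 < b' → SolW b' wc (Gc k)) ∧
    (∀ x : ℝ, 0 < x → ∀ p : Fin 2 → ℝ, (∀ X ∈ Ioc (0 : ℝ) x, ∑ k, p k * Gc k X = 0) → p = 0) ∧
    ∀ tc, tj < tc → (∀ i, 0 < pinf h tj tc c0 (φ i) 0) ∧ ∀ g : Fin 2 → Fin 2 → ℝ → ℝ,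
      (∀ i k, IsSol (lom h tj tc c0 (φ i)) (tj ^ 2) (g i k)) →
      (∀ i k, ∀ X ∈ Ioo 0 (a ^ 2), g i k X = Gc k X) →
      (Matrix.of fun j k : Fin 2 =>
        NN (1 - h ^ 2) (tj ^ 2) (j.val + 1) (DD (lom h tj tc c0 (φ 0)) (tj ^ 2) (g 0 k))).det *
      (Matrix.of fun j k : Fin 2 =>
        NN (1 - h ^ 2) (tj ^ 2) (j.val + 1) (DD (lom h tj tc c0 (φ 1)) (tj ^ 2) (g 1 k))).det < 0 := by
  obtain ⟨G1, G2, φp, φm, τ₁, τ₂, c1, c2, s1, s2, hind, hM1, hM2, dp, dm, bp, bm, m0, m1, m2, w1,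
    w2⟩ := cyl_choice
  obtain ⟨Hp, hHp1, asyp⟩ := asy c1 c2 hM1 hM2 bp w1.ne'
  obtain ⟨Hm, hHm1, asym⟩ := asy c1 c2 hM1 hM2 bm w2.ne
  obtain ⟨Kp, hKp1, profp⟩ := profile_bounds bp
  obtain ⟨Km, hKm1, profm⟩ := profile_bounds bm
  have hτ1 := bp.pos
  have hτ2 := bp.pos'
  set H := max (max Hp Hm) (max (max Kp Km) (τ₂ ^ 2 + 1)) with hH
  have e1 : Hp ≤ H := (le_max_left _ _).trans (le_max_left _ _)
  have e2 : Hm ≤ H := (le_max_right _ _).trans (le_max_left _ _)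
  have e3 : Kp ≤ H := (le_max_left _ _).trans ((le_max_left _ _).trans (le_max_right _ _))
  have e4 : Km ≤ H := (le_max_right _ _).trans ((le_max_left _ _).trans (le_max_right _ _))
  have e5 : τ₂ ^ 2 + 1 ≤ H := (le_max_right _ _).trans (le_max_right _ _)
  have hH1 : 1 ≤ H := hHp1.trans e1
  have hH0 : 0 < H := by linarith
  clear_value H
  set β := H ^ (-(5 / 4) : ℝ) with hβ
  have hβ0 : 0 < β := rpow_pos_of_pos hH0 _
  set tj := √H with htj
  have htj0 : 0 < tj := sqrt_pos.2 hH0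
  have htj2 : tj ^ 2 = H := sq_sqrt hH0.le
  have hτj : τ₂ < tj := by
    rw [htj]
    apply Real.lt_sqrt_of_sq_lt
    linarith
  set μ := ∫ t, φp t with hμ
  set ν := ∫ t, t * φp t with hν
  -- the data at the junction
  have p1p : pf1 φp tj = μ := bp.pf1_eq hτj.le
  have p1m : pf1 φm tj = μ := by rw [bm.pf1_eq hτj.le]; exact m1.symm
  have mvp : tj * pf1 φp tj - pf0 φp tj = ν := bp.moment_eq hτj.le
  have mvm : tj * pf1 φm tj - pf0 φm tj = ν := by rw [bm.moment_eq hτj.le]; exact m2.symm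
  set Q := β * μ with hQ
  set S := 1 - β * ν with hS
  have hPp : 1 + β * pf0 φp tj = S + tj * Q := by
    have : pf0 φp tj = tj * μ - ν := by rw [← mvp, p1p]; ring
    rw [this, hS, hQ]; ring
  have hPm : 1 + β * pf0 φm tj = S + tj * Q := by
    have : pf0 φm tj = tj * μ - ν := by rw [← mvm, p1m]; ring
    rw [this, hS, hQ]; ring
  have hQpos : 0 < Q := mul_pos hβ0 m0
  obtain ⟨-, -, -, -, hS78, -, hy0, hlt⟩ := profp H e3 tj ⟨htj0.le, le_rfl⟩ (S + tj * Q) Q S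
    hPp.symm (by rw [hQ, p1p]) (by ring)
  have hSpos : 0 < S := by linarith
  obtain ⟨hh, hR, hyy, hcp, hcp1, hcpS⟩ := H70.matching htj0 hSpos hQpos (hlt rfl)
  set h := (tj * S - Q) / √(S ^ 2 + Q ^ 2) with hh_def
  set R := √(S ^ 2 + Q ^ 2) / ((S + tj * Q) * S) with hR_def
  have hc0 : 0 < R * β := mul_pos hR hβ0
  have hSQ : 0 < S ^ 2 + Q ^ 2 := by positivity
  have hPpos : 0 < S + tj * Q := by positivity
  have hypos : 0 < tj ^ 2 - h ^ 2 + 1 := by rw [hyy]; positivity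
  have smp : ∀ tc, tj < tc → SmD h tj tc τ₁ τ₂ (R * β) φp := fun tc htc =>
    ⟨hh, hτ1, bp.lt, hτj, htc, hc0, hypos, dp, bp.nonneg, bp.off, by
      rw [hcp1, hQ, hμ]; ring⟩
  have smm : ∀ tc, tj < tc → SmD h tj tc τ₁ τ₂ (R * β) φm := fun tc htc =>
    ⟨hh, hτ1, bm.lt, hτj, htc, hc0, hypos, dm, bm.nonneg, bm.off, by
      rw [hcp1, hQ, ← m1]; ring⟩
  have hyb : |H + (1 - h ^ 2) - 1| ≤ 1 / 2 := by
    have : H + (1 - h ^ 2) - 1 = (S + tj * Q) ^ 2 / (S ^ 2 + Q ^ 2) - 1 := by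
      rw [← hyy, htj2]; ring
    rw [this]
    exact hy0
  refine ⟨h, tj, τ₁, τ₂, R * β, ![φp, φm], ![G1, G2], ?_, ?_, ?_, ?_, ?_⟩
  · intro i tc htc
    fin_cases i
    · exact smp tc htc
    · exact smm tc htc
  · exact m2
  · intro k b' hb'
    fin_cases k
    · exact s1 b' hb'
    · exact s2 b' hb'
  · intro x hx p hp
    obtain ⟨k1, k2⟩ := hind x hx (p 0) (p 1) (fun X hX => by
      have := hp X hX
      simpa [Fin.sum_univ_two] using this)
    funext i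
    fin_cases i
    · exact k1
    · exact k2
  · intro tc htc
    have isPp := limit_isP hH0 hR (smp tc htc) (by rw [hcp, hPp])
    have isPm := limit_isP hH0 hR (smm tc htc) (by rw [hcp, hPm])
    refine ⟨?_, ?_⟩
    · intro i
      have hz : ∀ φ : ℝ → ℝ, SmD h tj tc τ₁ τ₂ (R * β) φ →
          1 + β * pf0 φ tj = S + tj * Q → 0 < pinf h tj tc (R * β) φ 0 := by
        intro φ hφ hPφ
        rw [hφ.pinf_lo le_rfl htj0.le, hcp]
        have e : ∀ s, ∫ u in (0:ℝ)..s, Qi φ u = pf0 φ s := fun s => rfl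
        rw [e, e, ← hPφ]
        have z : pf0 φ 0 = 0 := by unfold pf0; simp
        rw [z]
        have : R * (1 + β * pf0 φ tj) - R * β * pf0 φ tj + R * β * 0 = R := by ring
        rw [this]
        exact hR
      fin_cases i
      · exact hz φp (smp tc htc) hPp
      · exact hz φm (smm tc htc) hPm
    · intro g hg hgG
      have hG : ∀ (P Q S K : ℝ → ℝ) (G F : ℝ → ℝ), IsSol (om P Q S K) (tj ^ 2) F →
          (∀ X ∈ Ioo 0 (τ₁ ^ 2), F X = G X) → IsG (τ₁ ^ 2) H P Q S K G F := by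
        intro P Q S K G F hF hFG
        rw [htj2] at hF
        refine ⟨hF.cont.mono Ioo_subset_Ioc_self, ?_, hFG, ?_⟩
        · obtain ⟨C, hC⟩ := hF.bd
          exact ⟨C, fun X hX => hC X ⟨hX.1, hX.2.le⟩⟩
        · rw [ae_restrict_iff' measurableSet_Ioo]
          exact hF.eq
      have ap := asyp H e1 (1 - h ^ 2) hyb _ _ _ _ isPp (g 0 0) (g 0 1)
        (hG _ _ _ _ G1 (g 0 0) (hg 0 0) (hgG 0 0)) (hG _ _ _ _ G2 (g 0 1) (hg 0 1) (hgG 0 1))
      have am := asym H e2 (1 - h ^ 2) hyb _ _ _ _ isPm (g 1 0) (g 1 1)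
        (hG _ _ _ _ G1 (g 1 0) (hg 1 0) (hgG 1 0)) (hG _ _ _ _ G2 (g 1 1) (hg 1 1) (hgG 1 1))
      rw [Matrix.det_fin_two, Matrix.det_fin_two]
      simp only [Matrix.of_apply]
      rw [htj2]
      set M := ∫ X in Ioi 0, G1 X
      set Ip := ∫ t, φp t * (t * G2 (t ^ 2))
      set Im := ∫ t, φm t * (t * G2 (t ^ 2))
      have key : ∀ dp dm : ℝ, M * Ip * dp < 0 → M * Im * dm < 0 → dp * dm < 0 := by
        intro dp dm h1 h2
        have h3 : 0 < (M * Ip * dp) * (M * Im * dm) := mul_pos_of_neg_of_neg h1 h2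
        have h4 : (M * Ip * dp) * (M * Im * dm) = (M ^ 2 * (Ip * -Im)) * -(dp * dm) := by ring
        rw [h4] at h3
        have h5 : 0 < M ^ 2 * (Ip * -Im) := by
          have : 0 < -Im := by linarith
          positivity
        have h6 := (mul_pos_iff_of_pos_left h5).1 h3
        linarith
      exact key _ _ ap am

end Pool.Agent.Lib.MP_85963d_gt.H31
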