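import Mathlib

/-!
# Milnor-Rogers volume lemma

If `k` is Lipschitz on a closed ball, differentiable inside and the identity on the sphere, then
the integral of its Jacobian determinant over the ball is the volume of the ball.
-/

namespace Pool.Agent.Lib.MP_85963d_gt.H31

open MeasureTheory Metric Set Polynomial
open scoped NNReal ENNReal

noncomputable section

variable {E : Type*} [NormedAddCommGroup E] [NormedSpace ℝ E]

/-! ## Radial projection -/

/-- Radial projection onto the closed ball of radius `R`. -/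
def rproj (R : ℝ) (x : E) : E := if ‖x‖ ≤ R then x else (R / ‖x‖) • x

lemma rproj_of_le {R : ℝ} {x : E} (h : ‖x‖ ≤ R) : rproj R x = x := by simp [rproj, h]

lemma norm_rproj_le {R : ℝ} (hR : 0 < R) (x : E) : ‖rproj R x‖ ≤ R := by
  unfold rproj
  split_ifs with h
  · exact h
  · push Not at h
    have hx : 0 < ‖x‖ := hR.trans h
    rw [norm_smul, Real.norm_eq_abs, abs_of_pos (by positivity), div_mul_cancel₀ _ hx.ne']

lemma norm_rproj_of_ge {R : ℝ} (hR : 0 < R) {x : E} (h : R ≤ ‖x‖) : ‖rproj R x‖ = R := by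
  unfold rproj
  split_ifs with h'
  · exact le_antisymm h' h
  · have hx : 0 < ‖x‖ := hR.trans_le h
    rw [norm_smul, Real.norm_eq_abs, abs_of_pos (by positivity), div_mul_cancel₀ _ hx.ne']

lemma rproj_aux {R : ℝ} (hR : 0 < R) {x y : E} (hx : R < ‖x‖) (hxy : ‖y‖ ≤ ‖x‖) :
    ‖rproj R x - rproj R y‖ ≤ 2 * ‖x - y‖ := by
  have hx0 : 0 < ‖x‖ := hR.trans hx
  have h1 : rproj R x = (R / ‖x‖) • x := by simp [rproj, not_le.2 hx]
  have h3 : ‖x‖ - ‖y‖ ≤ ‖x - y‖ := norm_sub_norm_le x y
  by_cases hy : ‖y‖ ≤ R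
  · rw [h1, rproj_of_le hy]
    have h2 : (R / ‖x‖) • x - y = -((1 - R / ‖x‖) • x) + (x - y) := by
      rw [sub_smul, one_smul]; abel
    rw [h2]
    refine (norm_add_le _ _).trans ?_
    rw [norm_neg, norm_smul, Real.norm_eq_abs]
    have h4 : 0 ≤ 1 - R / ‖x‖ := by
      rw [sub_nonneg, div_le_one hx0]; exact hx.le
    rw [abs_of_nonneg h4, sub_mul, one_mul, div_mul_cancel₀ _ hx0.ne']
    linarith
  · push Not at hy
    have hy0 : 0 < ‖y‖ := hR.trans hy
    have h2 : rproj R y = (R / ‖y‖) • y := by simp [rproj, not_le.2 hy]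
    rw [h1, h2]
    have h5 : (R / ‖x‖) • x - (R / ‖y‖) • y
        = (R / ‖x‖) • (x - y) + (R / ‖x‖ - R / ‖y‖) • y := by
      rw [smul_sub, sub_smul]; abel
    rw [h5]
    refine (norm_add_le _ _).trans ?_
    rw [norm_smul, norm_smul, Real.norm_eq_abs, Real.norm_eq_abs]
    have h6 : R / ‖x‖ ≤ 1 := by rw [div_le_one hx0]; exact hx.le
    have h7 : |R / ‖x‖ - R / ‖y‖| * ‖y‖ ≤ ‖x - y‖ := by
      have h8 : R / ‖x‖ ≤ R / ‖y‖ := by gcongr
      rw [abs_of_nonpos (by linarith)]
      have h9 : -(R / ‖x‖ - R / ‖y‖) * ‖y‖ = (R / ‖x‖) * (‖x‖ - ‖y‖) := by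
        field_simp
        ring
      rw [h9]
      calc (R / ‖x‖) * (‖x‖ - ‖y‖) ≤ 1 * (‖x‖ - ‖y‖) := by
            apply mul_le_mul_of_nonneg_right h6; linarith
        _ ≤ ‖x - y‖ := by linarith
    rw [abs_of_pos (by positivity)]
    have h10 : R / ‖x‖ * ‖x - y‖ ≤ 1 * ‖x - y‖ :=
      mul_le_mul_of_nonneg_right h6 (norm_nonneg _)
    linarith

lemma rproj_lipschitz {R : ℝ} (hR : 0 < R) : LipschitzWith 2 (rproj R : E → E) := by
  refine LipschitzWith.of_dist_le_mul fun x y => ?_
  rw [dist_eq_norm, dist_eq_norm]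
  simp only [NNReal.coe_ofNat]
  rcases le_total ‖y‖ ‖x‖ with hxy | hxy
  · by_cases hx : ‖x‖ ≤ R
    · rw [rproj_of_le hx, rproj_of_le (hxy.trans hx)]
      have := norm_nonneg (x - y)
      linarith
    · exact rproj_aux hR (not_le.1 hx) hxy
  · by_cases hy : ‖y‖ ≤ R
    · rw [rproj_of_le hy, rproj_of_le (hxy.trans hy)]
      have := norm_nonneg (x - y)
      linarith
    · rw [norm_sub_rev, norm_sub_rev x y]
      exact rproj_aux hR (not_le.1 hy) hxy

/-! ## Determinants -/

lemma exists_poly_det [FiniteDimensional ℝ E] (A : E →L[ℝ] E) :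
    ∃ P : ℝ[X], P.natDegree ≤ Module.finrank ℝ E ∧
      ∀ t : ℝ, P.eval t = (ContinuousLinearMap.id ℝ E + t • A).det := by
  classical
  let b := Module.finBasis ℝ E
  let M : Matrix (Fin (Module.finrank ℝ E)) (Fin (Module.finrank ℝ E)) ℝ :=
    LinearMap.toMatrix b b (A : E →ₗ[ℝ] E)
  refine ⟨Matrix.det ((X : ℝ[X]) • M.map C + (1 : Matrix _ _ ℝ).map C), ?_, fun t => ?_⟩
  · have := natDegree_det_X_add_C_le M 1
    simpa using this
  · have h1 : (ContinuousLinearMap.id ℝ E + t • A).det
        = Matrix.det (1 + t • M) := by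
      unfold ContinuousLinearMap.det
      rw [← LinearMap.det_toMatrix b]
      congr 1
      have : ((ContinuousLinearMap.id ℝ E + t • A : E →L[ℝ] E) : E →ₗ[ℝ] E)
          = LinearMap.id + t • (A : E →ₗ[ℝ] E) := rfl
      rw [this, map_add, map_smul, LinearMap.toMatrix_id]
    rw [h1, ← Polynomial.coe_evalRingHom, RingHom.map_det]
    congr 1
    ext i j
    simp only [RingHom.mapMatrix_apply, Matrix.map_apply, Matrix.add_apply, Matrix.smul_apply,
      Polynomial.coe_evalRingHom, Polynomial.eval_add, smul_eq_mul, Polynomial.eval_mul,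
      Polynomial.eval_X, Polynomial.eval_C]
    rw [add_comm]

lemma det_id_add_pos [FiniteDimensional ℝ E] (B : E →L[ℝ] E) (hB : ‖B‖ < 1) :
    0 < (ContinuousLinearMap.id ℝ E + B).det := by
  obtain ⟨P, -, hP⟩ := exists_poly_det B
  have hne : ∀ t ∈ Icc (0 : ℝ) 1, P.eval t ≠ 0 := by
    intro t ht h0
    rw [hP t] at h0
    unfold ContinuousLinearMap.det at h0
    have hker := LinearMap.bot_lt_ker_of_det_eq_zero h0
    obtain ⟨x, hx, hx0⟩ := (Submodule.ne_bot_iff _).1 hker.ne'
    rw [LinearMap.mem_ker] at hx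
    have h1 : x + t • B x = 0 := hx
    have h2 : ‖x‖ = ‖t • B x‖ := by
      rw [← norm_neg (t • B x)]
      congr 1
      exact eq_neg_of_add_eq_zero_left h1
    have h3 : ‖t • B x‖ ≤ ‖B‖ * ‖x‖ := by
      rw [norm_smul, Real.norm_eq_abs, abs_of_nonneg ht.1]
      calc t * ‖B x‖ ≤ 1 * ‖B x‖ := mul_le_mul_of_nonneg_right ht.2 (norm_nonneg _)
        _ ≤ ‖B‖ * ‖x‖ := by rw [one_mul]; exact B.le_opNorm x
    have h4 : 0 < ‖x‖ := norm_pos_iff.2 hx0
    nlinarith
  have h0 : P.eval 0 = 1 := by
    rw [hP 0]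
    simp [ContinuousLinearMap.det]
  have h1 : 0 < P.eval 1 := by
    by_contra hneg
    push Not at hneg
    have hcont : ContinuousOn (fun t => P.eval t) (Icc (0 : ℝ) 1) := P.continuous.continuousOn
    have := intermediate_value_Icc' (zero_le_one) hcont
    have hmem : (0 : ℝ) ∈ Icc (P.eval 1) (P.eval 0) := ⟨hneg, by rw [h0]; norm_num⟩
    obtain ⟨t, ht, ht0⟩ := this hmem
    exact hne t ht ht0
  rw [hP 1, one_smul] at h1
  exact h1

/-! ## The volume lemma -/

variable [FiniteDimensional ℝ E] [MeasurableSpace E] [BorelSpace E]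

/-- **Milnor-Rogers volume lemma.** -/
theorem integral_det_eq (μ : Measure E) [μ.IsAddHaarMeasure] {R : ℝ} (hR : 0 < R)
    {k : E → E} {k' : E → E →L[ℝ] E} {K : ℝ≥0} (hk : LipschitzOnWith K k (closedBall 0 R))
    (hk' : ∀ x ∈ ball (0 : E) R, HasFDerivAt k (k' x) x) (hb : ∀ x, ‖x‖ = R → k x = x) :
    ∫ x in ball (0 : E) R, (k' x).det ∂μ = μ.real (ball (0 : E) R) := by
  -- the displacement, extended by zero
  set v : E → E := fun x => k (rproj R x) - rproj R x with hv
  set L : ℝ≥0 := K * 2 + 2 with hL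
  have hvL : LipschitzWith L v := by
    have h1 : LipschitzWith (K * 2) (fun x : E => k (rproj R x)) := by
      have := (hk.comp ((rproj_lipschitz hR).lipschitzOnWith (s := univ))
        (fun x _ => by simpa using norm_rproj_le hR x))
      exact lipschitzOnWith_univ.1 this
    exact h1.sub (rproj_lipschitz hR)
  have hv0 : ∀ x, R ≤ ‖x‖ → v x = 0 := by
    intro x hx
    simp only [hv]
    rw [hb _ (norm_rproj_of_ge hR hx), sub_self]
  have hvb : ∀ x ∈ ball (0 : E) R, HasFDerivAt v (k' x - ContinuousLinearMap.id ℝ E) x := by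
    intro x hx
    have h1 : HasFDerivAt (fun y => k y - y) (k' x - ContinuousLinearMap.id ℝ E) x :=
      (hk' x hx).sub (hasFDerivAt_id x)
    refine h1.congr_of_eventuallyEq ?_
    filter_upwards [isOpen_ball.mem_nhds hx] with y hy
    simp only [hv]
    rw [rproj_of_le (by simpa using (mem_ball_zero_iff.1 hy).le)]
  have hL0 : (0 : ℝ) < L := by
    simp only [hL]; positivity
  have hLnorm : ∀ x ∈ ball (0 : E) R, ‖k' x - ContinuousLinearMap.id ℝ E‖ ≤ L := by
    intro x hx
    exact (hvb x hx).le_of_lipschitz hvL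
  -- the maps `x + t v x` are bijections of the ball for small `t`
  set T : ℝ := 1 / (2 * L) with hT
  have hT0 : 0 < T := by positivity
  have hTL : T * L = 1 / 2 := by
    rw [hT]; field_simp
  have key : ∀ t ∈ Icc (0 : ℝ) T,
      (∀ x ∈ ball (0 : E) R,
        HasFDerivWithinAt (fun x => x + t • v x)
          (ContinuousLinearMap.id ℝ E + t • (k' x - ContinuousLinearMap.id ℝ E)) (ball 0 R) x) ∧
      InjOn (fun x => x + t • v x) (ball (0 : E) R) ∧
      (fun x => x + t • v x) '' (ball (0 : E) R) = ball (0 : E) R := by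
    intro t ht
    have htL : t * L ≤ 1 / 2 := by
      rw [← hTL]; exact mul_le_mul_of_nonneg_right ht.2 hL0.le
    have hlip : ∀ x y, ‖t • v x - t • v y‖ ≤ 1 / 2 * ‖x - y‖ := by
      intro x y
      rw [← smul_sub, norm_smul, Real.norm_eq_abs, abs_of_nonneg ht.1]
      have h1 : ‖v x - v y‖ ≤ L * ‖x - y‖ := hvL.norm_sub_le x y
      calc t * ‖v x - v y‖ ≤ t * (L * ‖x - y‖) := mul_le_mul_of_nonneg_left h1 ht.1
        _ = t * L * ‖x - y‖ := by ring
        _ ≤ 1 / 2 * ‖x - y‖ := mul_le_mul_of_nonneg_right htL (norm_nonneg _)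
    have hinj : Function.Injective (fun x => x + t • v x) := by
      intro x y hxy
      have h1 : x - y = -(t • v x - t • v y) := by
        have : x + t • v x = y + t • v y := hxy
        have h2 : x - y = t • v y - t • v x := by
          rw [sub_eq_sub_iff_add_eq_add]
          rw [this]; abel
        rw [h2]; abel
      have h2 := hlip x y
      have h3 : ‖x - y‖ = ‖t • v x - t • v y‖ := by rw [h1, norm_neg]
      have h4 : ‖x - y‖ ≤ 0 := by
        have := norm_nonneg (x - y)
        linarith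
      exact sub_eq_zero.1 (norm_le_zero_iff.1 h4)
    have hsurj : Function.Surjective (fun x => x + t • v x) := by
      intro y
      have hc : ContractingWith (1 / 2 : ℝ≥0) (fun x => y - t • v x) := by
        refine ⟨by rw [div_lt_one] <;> norm_num, LipschitzWith.of_dist_le_mul fun a b => ?_⟩
        rw [dist_eq_norm, dist_eq_norm]
        have h1 : y - t • v a - (y - t • v b) = -(t • v a - t • v b) := by abel
        rw [h1, norm_neg]
        simpa using hlip a b
      refine ⟨hc.fixedPoint, ?_⟩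
      have := hc.fixedPoint_isFixedPt
      have h2 : y - t • v hc.fixedPoint = hc.fixedPoint := this
      show hc.fixedPoint + t • v hc.fixedPoint = y
      nth_rewrite 1 [← h2]
      abel
    have hout : ∀ x, R ≤ ‖x‖ → x + t • v x = x := by
      intro x hx
      rw [hv0 x hx, smul_zero, add_zero]
    refine ⟨fun x hx => ?_, hinj.injOn, ?_⟩
    · exact ((hasFDerivAt_id x).add ((hvb x hx).const_smul t)).hasFDerivWithinAt
    · apply Subset.antisymm
      · rintro _ ⟨x, hx, rfl⟩
        rw [mem_ball_zero_iff] at hx ⊢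
        by_contra hge
        push Not at hge
        have h1 := hout _ hge
        have h2 : x + t • v x = x := hinj h1
        rw [h2] at hge
        linarith
      · intro y hy
        obtain ⟨x, hx⟩ := hsurj y
        refine ⟨x, ?_, hx⟩
        rw [mem_ball_zero_iff] at hy ⊢
        by_contra hge
        push Not at hge
        have h1 := hout _ hge
        have h2 : x = y := by rw [← h1]; exact hx
        rw [h2] at hge
        linarith
  -- the determinant of the derivative of `x + t v x`
  set D : ℝ → E → ℝ := fun t x =>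
    (ContinuousLinearMap.id ℝ E + t • (k' x - ContinuousLinearMap.id ℝ E)).det with hD
  have hDpos : ∀ t ∈ Icc (0 : ℝ) T, ∀ x ∈ ball (0 : E) R, 0 < D t x := by
    intro t ht x hx
    apply det_id_add_pos
    rw [norm_smul, Real.norm_eq_abs, abs_of_nonneg ht.1]
    calc t * ‖k' x - ContinuousLinearMap.id ℝ E‖ ≤ T * L :=
          mul_le_mul ht.2 (hLnorm x hx) (norm_nonneg _) hT0.le
      _ < 1 := by rw [hTL]; norm_num
  have hDint : ∀ t ∈ Icc (0 : ℝ) T, IntegrableOn (D t) (ball (0 : E) R) μ ∧
      ∫ x in ball (0 : E) R, D t x ∂μ = μ.real (ball (0 : E) R) := by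
    intro t ht
    obtain ⟨h1, h2, h3⟩ := key t ht
    have hcongr : ∀ x ∈ ball (0 : E) R, |D t x| • (1 : ℝ) = D t x := by
      intro x hx
      rw [abs_of_pos (hDpos t ht x hx), smul_eq_mul, mul_one]
    constructor
    · have h4 := (integrableOn_image_iff_integrableOn_abs_det_fderiv_smul μ
        (measurableSet_ball) h1 h2 (fun _ => (1 : ℝ))).1
        (by rw [h3]; exact integrableOn_const (by exact measure_ball_lt_top.ne))
      exact h4.congr_fun hcongr measurableSet_ball
    · have h4 := integral_image_eq_integral_abs_det_fderiv_smul μ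
        (measurableSet_ball) h1 h2 (fun _ => (1 : ℝ))
      rw [h3] at h4
      rw [← setIntegral_congr_fun measurableSet_ball hcongr]
      rw [← h4]
      simp [Measure.real]
  -- interpolation in `t`
  set d := Module.finrank ℝ E with hd
  let s : Finset ℕ := Finset.range (d + 1)
  let w : ℕ → ℝ := fun j => T * j / (d + 1)
  have hw : Set.InjOn w s := by
    intro i _ j _ hij
    have : T * i / (d + 1) = T * j / (d + 1) := hij
    have h1 : (0 : ℝ) < d + 1 := by positivity
    field_simp at this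
    exact_mod_cast this
  have hwT : ∀ j ∈ s, w j ∈ Icc (0 : ℝ) T := by
    intro j hj
    have hj' : (j : ℝ) ≤ d + 1 := by
      have := Finset.mem_range.1 hj
      exact_mod_cast this.le
    have h1 : (0 : ℝ) < d + 1 := by positivity
    refine ⟨by positivity, ?_⟩
    show T * j / (d + 1) ≤ T
    rw [div_le_iff₀ h1]
    exact mul_le_mul_of_nonneg_left hj' hT0.le
  let l : ℕ → ℝ := fun j => (Lagrange.basis s w j).eval 1
  have hinterp : ∀ P : ℝ[X], P.natDegree ≤ d → P.eval 1 = ∑ j ∈ s, P.eval (w j) * l j := by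
    intro P hP
    have hdeg : P.degree < s.card := by
      rw [Finset.card_range]
      exact (Polynomial.degree_le_natDegree).trans_lt (by exact_mod_cast Nat.lt_succ_of_le hP)
    have h1 := Lagrange.eq_interpolate hw hdeg
    conv_lhs => rw [h1]
    rw [Lagrange.interpolate_apply, Polynomial.eval_finsetSum]
    simp [l]
  have hsum1 : ∑ j ∈ s, l j = 1 := by
    have := hinterp 1 (by simp)
    simpa using this.symm
  have hfin : ∀ x, (k' x).det = ∑ j ∈ s, D (w j) x * l j := by
    intro x
    obtain ⟨P, hP, hPe⟩ := exists_poly_det (k' x - ContinuousLinearMap.id ℝ E)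
    have h1 := hinterp P hP
    rw [hPe 1, one_smul] at h1
    have h2 : ContinuousLinearMap.id ℝ E + (k' x - ContinuousLinearMap.id ℝ E) = k' x := by abel
    rw [h2] at h1
    rw [h1]
    exact Finset.sum_congr rfl fun j _ => by rw [hPe]
  simp_rw [hfin]
  rw [integral_finsetSum]
  · have : ∀ j ∈ s, ∫ x in ball (0 : E) R, D (w j) x * l j ∂μ = μ.real (ball (0 : E) R) * l j := by
      intro j hj
      rw [integral_mul_const, (hDint (w j) (hwT j hj)).2]
    rw [Finset.sum_congr rfl this, ← Finset.mul_sum, hsum1, mul_one]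
  · intro j hj
    exact (hDint (w j) (hwT j hj)).1.mul_const _

end

end Pool.Agent.Lib.MP_85963d_gt.H31
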