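import Pool.Agent.Lib.MP_85963d_gt.H31.LimAsy
import Pool.Agent.Lib.MP_85963d_gt.H70.Forms5
import Pool.Agent.Lib.MP_85963d_gt.H70.Bord2

/-! NONSMOOTH: the two non-smooth capsules with opposite signs. -/

set_option autoImplicit false
open Set MeasureTheory Real Filter Topology
open scoped ContDiff

noncomputable section
namespace Pool.Agent.Lib.MP_85963d_gt.H31

open H87 (CylSol SolW WT TG HK)
open H70 (SmD pinf kinf Qi cp cp1 cp2 cpS NN DD om om' IsSol TX PP nP nQ nS nK winf wκ wκ' PD KB cker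
  WOK GOK)

/-- the weights agree -/
lemma winf_eq {h tj tc c0 : ℝ} {φ : ℝ → ℝ} (hp : 0 < pinf h tj tc c0 φ 0) :
    winf h tj tc c0 φ = lom h tj tc c0 φ := by
  have hp0 := hp.ne'
  have hpt : ∀ t, pinf h tj tc c0 φ t = pinf h tj tc c0 φ 0 + PP (kinf h tj c0 φ) t := by
    intro t
    unfold pinf H70.Pi' PP
    simp
  have e1 : nP (pinf h tj tc c0 φ 0) (kinf h tj c0 φ) = lP h tj tc c0 φ := by
    funext t
    unfold nP lP
    rw [hpt t]
    field_simp
  have e2 : nQ (pinf h tj tc c0 φ 0) (kinf h tj c0 φ) = lQ h tj tc c0 φ := rfl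
  have e3 : nS (pinf h tj tc c0 φ 0) (kinf h tj c0 φ) = lS h tj tc c0 φ := by
    funext t
    unfold nS lS
    rw [hpt t]
    field_simp
    ring
  have e4 : nK (pinf h tj tc c0 φ 0) (kinf h tj c0 φ) = lK h tj tc c0 φ := rfl
  unfold winf wκ lom
  rw [e1, e2, e3, e4]

lemma TG_TX (w : ℝ → ℝ → ℝ) (G : ℝ → ℝ) {s : ℝ} (hs : 0 < s) :
    TG (HK w) G s = s ^ 2 * TX w G s := by
  unfold TG TX HK
  rw [← integral_const_mul]
  apply setIntegral_congr_fun measurableSet_Ioo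
  intro X hX
  simp only
  have hY : 0 < s - X := by linarith [hX.2]
  have h1 : 0 < √(s - X) := sqrt_pos.2 hY
  unfold cker
  field_simp
  ring

lemma isSol_of_solW {b A c : ℝ} {w w' : ℝ → ℝ → ℝ} (hw : WT b A c w w') (hb : 0 < b) (hc : 0 < c)
    {G : ℝ → ℝ} (h : SolW b w G) : IsSol w b G := by
  obtain ⟨-, -, -, K, -, hK⟩ := h.bound hw hb hc
  refine ⟨h.cont, ⟨K, hK⟩, ?_⟩
  have h1 := h.eq
  rw [ae_restrict_iff' measurableSet_Ioo] at h1
  filter_upwards [h1] with s hs hsb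
  have h2 := hs hsb
  rw [TG_TX w G hsb.1] at h2
  exact (mul_eq_zero.1 h2).resolve_left (pow_ne_zero 2 hsb.1.ne')

/-- near the equator the weight is that of the cylinder -/
lemma lom_near {h tj tc a b c0 : ℝ} {φ : ℝ → ℝ} (H : SmD h tj tc a b c0 φ)
    (hp : 0 < pinf h tj tc c0 φ 0) {X Y : ℝ} (hXa : X < a ^ 2) (hY : 0 ≤ Y) :
    lom h tj tc c0 φ X Y = wc X Y := by
  have ht : √X < a := by rw [sqrt_lt' H.ha]; exact hXa
  have ht0 : 0 ≤ √X := sqrt_nonneg X
  have hp0 := hp.ne'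
  have e1 : lP h tj tc c0 φ (√X) = 1 := by
    unfold lP
    rw [H.pinf_near ht0 ht, div_self hp0]
  have e2 : lQ h tj tc c0 φ (√X) = 0 := by
    unfold lQ
    rw [H.Qinf_near ht0 ht, zero_div]
  have e3 : lS h tj tc c0 φ (√X) = 1 := by
    unfold lS
    rw [H.pinf_near ht0 ht, H.Qinf_near ht0 ht, mul_zero, sub_zero, div_self hp0]
  have e4 : lK h tj tc c0 φ (√X) = 0 := by
    unfold lK kinf
    rw [if_pos (ht.le.trans (H.hab.trans H.hbj).le), H.sp _ (fun h1 => absurd h1.1 (not_le.2 ht)),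
      mul_zero, zero_div]
  unfold lom om wc
  rw [e1, e2, e3, e4]
  have h1 : (1 : ℝ) ^ 2 + Y * (0 ^ 2 + 1 ^ 2) = 1 + Y := by ring
  have h2 : √(1 + Y) ^ 3 = (1 + Y) * √(1 + Y) := by
    rw [pow_succ, sq_sqrt (by linarith)]
  rw [h1, h2]
  ring

/-- on the cap the weight is a product -/
lemma lom_cap {h tj tc a b c0 : ℝ} {φ : ℝ → ℝ} (H : SmD h tj tc a b c0 φ)
    (hp : 0 < pinf h tj tc c0 φ 0) {X Y : ℝ} (hX : tj ^ 2 < X) (hY : 0 < Y) :
    lom h tj tc c0 φ X Y = (pinf h tj tc c0 φ 0) ^ 2 / cp h (√X) ^ 3 / √(X + Y + (1 - h ^ 2)) := by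
  have hj := H.tj_pos
  have ht : tj < √X := Real.lt_sqrt_of_sq_lt hX
  have ht0 : 0 < √X := hj.trans ht
  have hX0 : 0 < X := lt_trans (by positivity) hX
  have hp0 := hp.ne'
  have hrad := H.rad_pos ht.le
  have hw := H70.cap_weight H.hh ht0 hrad hY
  have hsq : √X ^ 2 = X := sq_sqrt hX0.le
  set p := pinf h tj tc c0 φ 0
  have e1 : lP h tj tc c0 φ (√X) = cp h (√X) / p := by
    unfold lP
    rw [H.pinf_hi ht.le]
  have e2 : lQ h tj tc c0 φ (√X) = cp1 h (√X) / p := by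
    unfold lQ
    rw [H.Qinf_hi ht.le]
  have e3 : lS h tj tc c0 φ (√X) = cpS h (√X) / p := by
    unfold lS
    rw [H.pinf_hi ht.le, H.Qinf_hi ht.le, H70.cpS_eq H.hh hrad]
  have e4 : lK h tj tc c0 φ (√X) = cp2 h (√X) / p := by
    unfold lK kinf
    rw [if_neg (not_le.2 ht)]
  unfold lom om
  rw [e1, e2, e3, e4]
  set P := cp h (√X) with hP
  set Q := cp1 h (√X)
  set S := cpS h (√X)
  set K := cp2 h (√X)
  have hPpos : 0 < P := H70.cp_pos H.hh ht0 hrad
  have hin : (P / p) ^ 2 + Y * ((Q / p) ^ 2 + (S / p) ^ 2) = (P ^ 2 + Y * (Q ^ 2 + S ^ 2)) / p ^ 2 := by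
    field_simp
  have hpos : 0 < P ^ 2 + Y * (Q ^ 2 + S ^ 2) := by positivity
  rw [hin, sqrt_div hpos.le, sqrt_sq hp.le, div_pow]
  have hsp : 0 < √(P ^ 2 + Y * (Q ^ 2 + S ^ 2)) := sqrt_pos.2 hpos
  have e5 : √X ^ 2 + Y - h ^ 2 + 1 = X + Y + (1 - h ^ 2) := by rw [hsq]; ring
  rw [e5] at hw
  have e6 : (S / p + Y * (K / p)) / (√(P ^ 2 + Y * (Q ^ 2 + S ^ 2)) ^ 3 / p ^ 3)
      = p ^ 2 * ((S + Y * K) / √(P ^ 2 + Y * (Q ^ 2 + S ^ 2)) ^ 3) := by
    field_simp
  rw [e6, hw]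
  ring

/-- the data of the limit capsule are of the class `PD` -/
lemma limit_pd {h tj tc a b c0 : ℝ} {φ : ℝ → ℝ} (H : SmD h tj tc a b c0 φ)
    (hp : 0 < pinf h tj tc c0 φ 0) :
    ∃ c C : ℝ, 0 < c ∧ 0 ≤ C ∧ PD tc c C (nP (pinf h tj tc c0 φ 0) (kinf h tj c0 φ))
      (nQ (pinf h tj tc c0 φ 0) (kinf h tj c0 φ)) (nS (pinf h tj tc c0 φ 0) (kinf h tj c0 φ))
      (nK (pinf h tj tc c0 φ 0) (kinf h tj c0 φ)) := by
  obtain ⟨M, hM0, hM⟩ := H.phi_bdd
  set κ := kinf h tj c0 φ with hκ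
  set p := pinf h tj tc c0 φ 0 with hpdef
  have hKB : KB (max (c0 * M) (cp2 h tj)) κ :=
    ⟨H.measurable_kinf, fun t _ => H.kinf_nonneg, fun t _ => H.kinf_le hM t,
      fun s t => H.kinf_int s t⟩
  have htc := H.tc_pos
  have htjc := H.hjc
  have hrad := H.rad_pos htjc.le
  have hS0 := H70.cpS_pos hrad
  have hSc : nS p κ tc = cpS h tc / p := by
    have hpt : pinf h tj tc c0 φ tc = p + PP κ tc := by
      rw [hpdef]
      unfold pinf H70.Pi' PP
      simp [hκ]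
    have h1 : pinf h tj tc c0 φ tc = cp h tc := H.pinf_hi htjc.le
    have h2 : Qi κ tc = cp1 h tc := H.Qinf_hi htjc.le
    unfold nS
    rw [h2, ← H70.cpS_eq H.hh hrad]
    have h3 : PP κ tc = cp h tc - p := by rw [← h1, hpt]; ring
    rw [h3]
    field_simp
    ring
  have hanti : ∀ t ∈ Ioc 0 tc, cpS h tc / p ≤ nS p κ t := by
    intro t ht
    rw [← hSc]
    unfold nS
    have h1 : Qi κ t ≤ Qi κ tc := hKB.Q_mono ht.1.le ht.2
    have h2 : PP κ tc - PP κ t ≤ (tc - t) * Qi κ tc := by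
      have e : PP κ tc - PP κ t = ∫ u in t..tc, Qi κ u := by
        unfold PP
        rw [← intervalIntegral.integral_add_adjacent_intervals
          (hKB.cont.intervalIntegrable 0 t) (hKB.cont.intervalIntegrable t tc)]
        ring
      rw [e]
      calc ∫ u in t..tc, Qi κ u ≤ ∫ _u in t..tc, Qi κ tc :=
            intervalIntegral.integral_mono_on ht.2 (hKB.cont.intervalIntegrable _ _) (by simp)
              fun u hu => hKB.Q_mono (ht.1.le.trans hu.1) hu.2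
        _ = (tc - t) * Qi κ tc := by simp
    have h3 : PP κ tc - tc * Qi κ tc ≤ PP κ t - t * Qi κ t := by
      have : t * Qi κ t ≤ t * Qi κ tc := mul_le_mul_of_nonneg_left h1 ht.1.le
      linarith
    have h4 := div_le_div_of_nonneg_right h3 hp.le
    linarith
  have hcpos : 0 < cpS h tc / p := div_pos hS0 hp
  have hmin : 0 < min 1 (cpS h tc / p) := lt_min one_pos hcpos
  have hMx : 0 ≤ max (c0 * M) (cp2 h tj) := hKB.Kb_nonneg
  refine ⟨min 1 (cpS h tc / p), 1 + max (c0 * M) (cp2 h tj) / p * (1 + tc + tc ^ 2), hmin,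
    by positivity, hKB.pd hp le_rfl (min_le_left _ _)
      (fun t ht => (min_le_right _ _).trans (hanti t ht))⟩

/-- measurability and decay of the weight -/
lemma limit_WOK {h tj tc a b c0 : ℝ} {φ : ℝ → ℝ} (H : SmD h tj tc a b c0 φ)
    (hp : 0 < pinf h tj tc c0 φ 0) : ∃ C, 0 ≤ C ∧ WOK (tc ^ 2) C (winf h tj tc c0 φ) := by
  obtain ⟨c, C, hc, hC, hPD⟩ := limit_pd H hp
  refine ⟨C / c ^ 3, by positivity, ?_, ?_⟩
  · have e1 := hPD.mP
    have e2 := hPD.mQ
    have e3 := hPD.mS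
    have e4 := hPD.mK
    unfold winf wκ om
    generalize nP (pinf h tj tc c0 φ 0) (kinf h tj c0 φ) = P at *
    generalize nQ (pinf h tj tc c0 φ 0) (kinf h tj c0 φ) = Q at *
    generalize nS (pinf h tj tc c0 φ 0) (kinf h tj c0 φ) = S at *
    generalize nK (pinf h tj tc c0 φ 0) (kinf h tj c0 φ) = K at *
    have g : Measurable (fun x : ℝ × ℝ => √x.1) := continuous_sqrt.measurable.comp measurable_fst
    have f1 : Measurable (fun x : ℝ × ℝ => P (√x.1)) := e1.comp g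
    have f2 : Measurable (fun x : ℝ × ℝ => Q (√x.1)) := e2.comp g
    have f3 : Measurable (fun x : ℝ × ℝ => S (√x.1)) := e3.comp g
    have f4 : Measurable (fun x : ℝ × ℝ => K (√x.1)) := e4.comp g
    unfold Function.uncurry
    fun_prop
  · intro X hX Y hY
    have ht : √X ∈ Ioc 0 tc := by
      refine ⟨sqrt_pos.2 hX.1, ?_⟩
      rw [sqrt_le_left H.tc_pos.le]
      exact hX.2.le
    have hK0 : 0 ≤ nK (pinf h tj tc c0 φ 0) (kinf h tj c0 φ) (√X) := by
      unfold nK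
      exact div_nonneg H.kinf_nonneg hp.le
    exact H70.om_le hc (hPD.bP _ ht).1 (hPD.bS _ ht).1 (hPD.bS _ ht).2 hK0
      ((le_abs_self _).trans (hPD.bK _ ht)) hY

/-- **NONSMOOTH** -/
theorem nonsmooth_of (hW : H70.PdWtStatement) : H70.NonsmoothStatement := by
  obtain ⟨h, tj, a, b, c0, φ, Gc, hSm, hmom, hGc, hind, hmain⟩ := limasy
  set tc := tj + 1 with htc
  have hjc : tj < tc := by rw [htc]; linarith
  have HS := fun i => hSm i tc hjc
  obtain ⟨hp, hdet⟩ := hmain tc hjc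
  have ha := (HS 0).ha
  have hab := (HS 0).hab
  have hbj := (HS 0).hbj
  have htj0 := (HS 0).tj_pos
  have htc0 := (HS 0).tc_pos
  have hb2 : 0 < tc ^ 2 := by positivity
  have hj2 : 0 < tj ^ 2 := by positivity
  have hatc : a ^ 2 < tc ^ 2 := pow_lt_pow_left₀ (by linarith) ha.le (by norm_num)
  have hatj : a ^ 2 < tj ^ 2 := pow_lt_pow_left₀ (by linarith) ha.le (by norm_num)
  have hjc2 : tj ^ 2 < tc ^ 2 := pow_lt_pow_left₀ hjc htj0.le (by norm_num)
  -- the weights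
  have hWT : ∀ i, ∃ A c' : ℝ, 0 < c' ∧ WT (tc ^ 2) A c' (winf h tj tc c0 (φ i))
      (wκ' (pinf h tj tc c0 (φ i) 0) (kinf h tj c0 (φ i))) := by
    intro i
    obtain ⟨c, C, hc, hC, hPD⟩ := limit_pd (HS i) (hp i)
    obtain ⟨A, c', hc', hw⟩ := hW tc c C htc0 hc hC
    exact ⟨A, c', hc', hw _ _ _ _ hPD⟩
  have hnear : ∀ i, ∀ X Y : ℝ, X < a ^ 2 → 0 ≤ Y → winf h tj tc c0 (φ i) X Y = wc X Y := by
    intro i X Y hX hY
    rw [winf_eq (hp i)]
    exact lom_near (HS i) (hp i) hX hY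
  -- existence
  have hex : ∀ i k, ∃ G : ℝ → ℝ, SolW (tc ^ 2) (winf h tj tc c0 (φ i)) G ∧
      ∀ X ∈ Ioc (0 : ℝ) (a ^ 2 / 2), G X = Gc k X := by
    intro i k
    obtain ⟨A, c', hc', hw⟩ := hWT i
    have hx0 : 0 < a ^ 2 / 2 := by positivity
    have h1 : SolW (a ^ 2 / 2) (winf h tj tc c0 (φ i)) (Gc k) := by
      refine (hGc k (a ^ 2 / 2) hx0).congr_weight ?_
      intro X Y hX hY hXY
      exact hnear i X Y (by linarith) hY
    exact H87.extend hw hb2 hc' hx0 (by linarith) h1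
  choose G hG hGe using hex
  -- agreement on (0,a²)
  have hagree : ∀ i k, ∀ X ∈ Ioo 0 (a ^ 2), G i k X = Gc k X := by
    intro i k X hX
    have hx0 : 0 < a ^ 2 / 2 := by positivity
    set x := max X (a ^ 2 / 2) with hx
    have hxa : x < a ^ 2 := max_lt hX.2 (by linarith)
    have hx1 : 0 < x := lt_of_lt_of_le hx0 (le_max_right _ _)
    have h1 : SolW x wc (G i k) := by
      refine ((hG i k).mono (by linarith)).congr_weight ?_
      intro X' Y hX' hY hXY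
      exact (hnear i X' Y (by linarith) hY).symm
    exact H87.unique_cont (wt_cyl x) hx1 one_pos hx0 (le_max_right _ _) h1 (hGc k x hx1)
      (fun X' hX' => hGe i k X' hX') X ⟨hX.1, le_max_left _ _⟩
  -- IsSol
  have hsol : ∀ i k, IsSol (winf h tj tc c0 (φ i)) (tc ^ 2) (G i k) := by
    intro i k
    obtain ⟨A, c', hc', hw⟩ := hWT i
    exact isSol_of_solW hw hb2 hc' (hG i k)
  have hsolj : ∀ i k, IsSol (lom h tj tc c0 (φ i)) (tj ^ 2) (G i k) := by
    intro i k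
    rw [← winf_eq (hp i)]
    exact (hsol i k).mono hjc2.le
  have hd := hdet G hsolj (fun i k X hX => hagree i k X hX)
  -- change of the cut
  have hNN : ∀ i k, ∀ j : ℕ, j = 1 ∨ j = 2 →
      NN (1 - h ^ 2) (tj ^ 2) j (DD (lom h tj tc c0 (φ i)) (tj ^ 2) (G i k))
      = NN (1 - h ^ 2) (tc ^ 2) j (DD (winf h tj tc c0 (φ i)) (tc ^ 2) (G i k)) := by
    intro i k j hj
    obtain ⟨C, hC, hWOK⟩ := limit_WOK (HS i) (hp i)
    obtain ⟨CG, hCG, hGOK⟩ := (hsol i k).GOK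
    rw [← winf_eq (hp i)]
    have hy := (HS i).hy
    refine H70.indep (A := fun X => (pinf h tj tc c0 (φ i) 0) ^ 2 / cp h (√X) ^ 3) hj2 hjc2
      (by linarith) hC hCG hWOK hGOK ?_ ?_ hj
    · intro X hX Y hY
      rw [winf_eq (hp i)]
      exact lom_cap (HS i) (hp i) hX.1 hY
    · filter_upwards [(hsol i k).eq] with s hs hsb
      exact hs ⟨hj2.trans hsb.1, hsb.2⟩
  refine ⟨h, tj, tc, a, b, c0, φ, G, HS, hmom, hp, hG, ?_, ?_, ?_⟩
  · intro k X hX
    rw [hagree 0 k X hX, hagree 1 k X hX]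
  · intro y hy x hx
    have hm : 0 < min y (a ^ 2) / 2 := by
      have : 0 < min y (a ^ 2) := lt_min hy (by positivity)
      positivity
    refine hind (min y (a ^ 2) / 2) hm x ?_
    intro X hX
    have h1 : X < min y (a ^ 2) := by
      have h2 := hX.2
      have h3 : 0 < min y (a ^ 2) := by linarith
      linarith
    have h2 := hx X ⟨hX.1, h1.trans_le (min_le_left _ _)⟩
    rw [← h2]
    apply Finset.sum_congr rfl
    intro k _
    rw [hagree 0 k X ⟨hX.1, h1.trans_le (min_le_right _ _)⟩]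
  · have e : ∀ i, (Matrix.of fun j k : Fin 2 =>
        NN (1 - h ^ 2) (tj ^ 2) (j.val + 1) (DD (lom h tj tc c0 (φ i)) (tj ^ 2) (G i k)))
        = H70.Nw h tc (winf h tj tc c0 (φ i)) (G i) := by
      intro i
      unfold H70.Nw
      congr 1
      funext j k
      exact hNN i k (j.val + 1) (by fin_cases j <;> simp)
    rw [← e 0, ← e 1]
    exact hd

end Pool.Agent.Lib.MP_85963d_gt.H31
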