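import Pool.Agent.Lib.MP_85963d_gt.H31.RBound

/-! The perturbed profile (Paper (10.4)). -/

set_option autoImplicit false
open Set MeasureTheory Real

noncomputable section
namespace Pool.Agent.Lib.MP_85963d_gt.H31

def qq (P Q S Y : ℝ) : ℝ := P ^ 2 + Y * (Q ^ 2 + S ^ 2)

/-- The weight `W` in the variables `(X,Y)`. -/
def omW (P Q S K Y : ℝ) : ℝ := (S + Y * K) / (qq P Q S Y * √(qq P Q S Y))

def uu (P Q S Y : ℝ) : ℝ := (1 + Y) / qq P Q S Y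

def rh (P Q S K Y : ℝ) : ℝ := (S + Y * K) * (uu P Q S Y * √(uu P Q S Y)) - 1

def rh' (P Q S K Y : ℝ) : ℝ := K * (uu P Q S Y * √(uu P Q S Y)) +
  (S + Y * K) * (3 / 2 * √(uu P Q S Y) * ((P ^ 2 - (Q ^ 2 + S ^ 2)) / qq P Q S Y ^ 2))

lemma one_add_rh {P Q S K Y : ℝ} (hq : 0 < qq P Q S Y) (hY : 0 ≤ Y) :
    1 + rh P Q S K Y = (1 + Y) * √(1 + Y) * omW P Q S K Y := by
  have h1 : 0 < √(qq P Q S Y) := sqrt_pos.2 hq
  have h2 : 0 < √(1 + Y) := sqrt_pos.2 (by linarith)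
  unfold rh omW uu
  rw [sqrt_div (by linarith)]
  field_simp
  ring

lemma hasDerivAt_rh {P Q S K Y : ℝ} (hq : 0 < qq P Q S Y) (hY : 0 ≤ Y) :
    HasDerivAt (rh P Q S K) (rh' P Q S K Y) Y := by
  have hu : 0 < uu P Q S Y := div_pos (by linarith) hq
  have hsu : 0 < √(uu P Q S Y) := sqrt_pos.2 hu
  have d0 : HasDerivAt (fun Y => qq P Q S Y) (Q ^ 2 + S ^ 2) Y :=
    (((hasDerivAt_id Y).mul_const (Q ^ 2 + S ^ 2)).const_add (P ^ 2)).congr_deriv (by simp)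
  have d1 : HasDerivAt (fun Y : ℝ => 1 + Y) 1 Y := (hasDerivAt_id Y).const_add 1
  have d2 : HasDerivAt (fun Y => uu P Q S Y) ((P ^ 2 - (Q ^ 2 + S ^ 2)) / qq P Q S Y ^ 2) Y := by
    refine (d1.div d0 hq.ne').congr_deriv ?_
    congr 1
    unfold qq; ring
  have d3 := d2.mul (d2.sqrt hu.ne')
  have d4 : HasDerivAt (fun Y : ℝ => S + Y * K) K Y :=
    (((hasDerivAt_id Y).mul_const K).const_add S).congr_deriv (by simp)
  refine ((d4.mul d3).sub_const 1).congr_deriv ?_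
  unfold rh'
  simp only [Pi.mul_apply]
  have hs : √(uu P Q S Y) * √(uu P Q S Y) = uu P Q S Y := mul_self_sqrt hu.le
  congr 1
  congr 1
  set w := √(uu P Q S Y)
  set z := (P ^ 2 - (Q ^ 2 + S ^ 2)) / qq P Q S Y ^ 2
  rw [← hs]
  field_simp
  ring

section bounds

variable {P Q S K ε Y : ℝ}

lemma qq_lower (hε : ε ≤ 1 / 4) (hP : |P ^ 2 - 1| ≤ ε) (hQ : |Q ^ 2 + S ^ 2 - 1| ≤ ε)
    (hY : 0 ≤ Y) : 3 / 4 * (1 + Y) ≤ qq P Q S Y := by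
  unfold qq
  have h1 := (abs_le.1 hP).1
  have h2 := (abs_le.1 hQ).1
  nlinarith

lemma qq_diff (hP : |P ^ 2 - 1| ≤ ε) (hQ : |Q ^ 2 + S ^ 2 - 1| ≤ ε)
    (hY : 0 ≤ Y) : |(1 + Y) - qq P Q S Y| ≤ ε * (1 + Y) := by
  unfold qq
  have h1 := abs_le.1 hP
  have h2 := abs_le.1 hQ
  rw [abs_le]
  constructor <;> nlinarith

lemma uu_bounds (hε : ε ≤ 1 / 4) (hP : |P ^ 2 - 1| ≤ ε) (hQ : |Q ^ 2 + S ^ 2 - 1| ≤ ε)
    (hY : 0 ≤ Y) : 0 < uu P Q S Y ∧ uu P Q S Y ≤ 4 / 3 ∧ |uu P Q S Y - 1| ≤ 4 / 3 * ε := by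
  have h1 := qq_lower hε hP hQ hY
  have h2 := qq_diff hP hQ hY
  have hq : 0 < qq P Q S Y := by linarith
  refine ⟨div_pos (by linarith) hq, ?_, ?_⟩
  · unfold uu; rw [div_le_iff₀ hq]; linarith
  · unfold uu
    have e : (1 + Y) / qq P Q S Y - 1 = ((1 + Y) - qq P Q S Y) / qq P Q S Y := by field_simp
    rw [e, abs_div, abs_of_pos hq, div_le_iff₀ hq]
    refine h2.trans ?_
    have hε0 : 0 ≤ ε := (abs_nonneg _).trans hP
    calc ε * (1 + Y) = 4 / 3 * ε * (3 / 4 * (1 + Y)) := by ring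
      _ ≤ _ := by gcongr

lemma sqrt_uu_bounds (hε : ε ≤ 1 / 4) (hP : |P ^ 2 - 1| ≤ ε) (hQ : |Q ^ 2 + S ^ 2 - 1| ≤ ε)
    (hY : 0 ≤ Y) : 0 < √(uu P Q S Y) ∧ √(uu P Q S Y) ≤ 6 / 5 ∧ |√(uu P Q S Y) - 1| ≤ 4 / 3 * ε := by
  obtain ⟨h1, h2, h3⟩ := uu_bounds hε hP hQ hY
  have hs : 0 < √(uu P Q S Y) := sqrt_pos.2 h1
  have hsq : √(uu P Q S Y) * √(uu P Q S Y) = uu P Q S Y := mul_self_sqrt h1.le
  refine ⟨hs, ?_, ?_⟩
  · rw [sqrt_le_left (by norm_num)]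
    norm_num; linarith
  · have e : |uu P Q S Y - 1| = |√(uu P Q S Y) - 1| * (√(uu P Q S Y) + 1) := by
      rw [← abs_of_pos (by linarith : 0 < √(uu P Q S Y) + 1), ← abs_mul]
      congr 1
      linear_combination (-1 : ℝ) * hsq
    rw [e] at h3
    refine le_trans ?_ h3
    have := abs_nonneg (√(uu P Q S Y) - 1)
    nlinarith

lemma uus_bounds (hε : ε ≤ 1 / 4) (hP : |P ^ 2 - 1| ≤ ε) (hQ : |Q ^ 2 + S ^ 2 - 1| ≤ ε)
    (hY : 0 ≤ Y) : 0 ≤ uu P Q S Y * √(uu P Q S Y) ∧ uu P Q S Y * √(uu P Q S Y) ≤ 8 / 5 ∧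
      |uu P Q S Y * √(uu P Q S Y) - 1| ≤ 3 * ε := by
  obtain ⟨h1, h2, h3⟩ := uu_bounds hε hP hQ hY
  obtain ⟨k1, k2, k3⟩ := sqrt_uu_bounds hε hP hQ hY
  have hε0 : 0 ≤ ε := (abs_nonneg _).trans hP
  refine ⟨by positivity, ?_, ?_⟩
  · calc uu P Q S Y * √(uu P Q S Y) ≤ (4 / 3) * (6 / 5) := by gcongr
      _ ≤ _ := by norm_num
  · have e : uu P Q S Y * √(uu P Q S Y) - 1
        = (uu P Q S Y - 1) * √(uu P Q S Y) + (√(uu P Q S Y) - 1) := by ring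
    rw [e]
    calc |(uu P Q S Y - 1) * √(uu P Q S Y) + (√(uu P Q S Y) - 1)|
        ≤ |(uu P Q S Y - 1) * √(uu P Q S Y)| + |√(uu P Q S Y) - 1| := abs_add_le _ _
      _ = |uu P Q S Y - 1| * √(uu P Q S Y) + |√(uu P Q S Y) - 1| := by
          rw [abs_mul, abs_of_pos k1]
      _ ≤ (4 / 3 * ε) * (6 / 5) + 4 / 3 * ε := by gcongr
      _ ≤ _ := by linarith

/-- Bound of `ρ`. -/
lemma abs_rh_le (hε : ε ≤ 1 / 4) (hP : |P ^ 2 - 1| ≤ ε) (hQ : |Q ^ 2 + S ^ 2 - 1| ≤ ε)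
    (hS : |S - 1| ≤ ε) (hK : 0 ≤ K) (hY : 0 ≤ Y) : |rh P Q S K Y| ≤ 5 * ε + 2 * (K * Y) := by
  obtain ⟨h1, h2, h3⟩ := uus_bounds hε hP hQ hY
  have hε0 : 0 ≤ ε := (abs_nonneg _).trans hP
  unfold rh
  set w := uu P Q S Y * √(uu P Q S Y)
  have e : (S + Y * K) * w - 1 = (S - 1) * w + (w - 1) + Y * K * w := by ring
  rw [e]
  calc |(S - 1) * w + (w - 1) + Y * K * w|
      ≤ |(S - 1) * w| + |w - 1| + |Y * K * w| := abs_add_three _ _ _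
    _ = |S - 1| * w + |w - 1| + Y * K * w := by
        rw [abs_mul, abs_of_nonneg h1, abs_of_nonneg (by positivity : 0 ≤ Y * K * w)]
    _ ≤ ε * (8 / 5) + 3 * ε + Y * K * (8 / 5) := by gcongr
    _ ≤ _ := by nlinarith [mul_nonneg hK hY]

/-- Refined: `|ρ - Y K| ≤ 5 ε + 3 ε (K Y)`. -/
lemma abs_rh_sub_le (hε : ε ≤ 1 / 4) (hP : |P ^ 2 - 1| ≤ ε) (hQ : |Q ^ 2 + S ^ 2 - 1| ≤ ε)
    (hS : |S - 1| ≤ ε) (hK : 0 ≤ K) (hY : 0 ≤ Y) :
    |rh P Q S K Y - Y * K| ≤ 5 * ε + 3 * ε * (K * Y) := by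
  obtain ⟨h1, h2, h3⟩ := uus_bounds hε hP hQ hY
  have hε0 : 0 ≤ ε := (abs_nonneg _).trans hP
  unfold rh
  set w := uu P Q S Y * √(uu P Q S Y)
  have e : (S + Y * K) * w - 1 - Y * K = (S - 1) * w + (w - 1) + Y * K * (w - 1) := by ring
  rw [e]
  calc |(S - 1) * w + (w - 1) + Y * K * (w - 1)|
      ≤ |(S - 1) * w| + |w - 1| + |Y * K * (w - 1)| := abs_add_three _ _ _
    _ = |S - 1| * w + |w - 1| + Y * K * |w - 1| := by
        rw [abs_mul, abs_of_nonneg h1, abs_mul (Y * K), abs_of_nonneg (by positivity : 0 ≤ Y * K)]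
    _ ≤ ε * (8 / 5) + 3 * ε + Y * K * (3 * ε) := by gcongr
    _ ≤ _ := by nlinarith [mul_nonneg hK hY]

/-- Bound of `ρ'`. -/
lemma abs_rh'_le (hε : ε ≤ 1 / 4) (hP : |P ^ 2 - 1| ≤ ε) (hQ : |Q ^ 2 + S ^ 2 - 1| ≤ ε)
    (hS : |S - 1| ≤ ε) (hK : 0 ≤ K) (hY : 0 ≤ Y) :
    |rh' P Q S K Y| ≤ 4 * K + 9 * ε * (1 / (1 + Y)) := by
  obtain ⟨h1, h2, h3⟩ := uus_bounds hε hP hQ hY
  obtain ⟨k1, k2, k3⟩ := sqrt_uu_bounds hε hP hQ hY
  have hε0 : 0 ≤ ε := (abs_nonneg _).trans hP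
  have hq := qq_lower hε hP hQ hY
  have hq0 : 0 < qq P Q S Y := by linarith
  have hz : |(P ^ 2 - (Q ^ 2 + S ^ 2)) / qq P Q S Y ^ 2| ≤ 32 / 9 * ε / (1 + Y) ^ 2 := by
    rw [abs_div, abs_of_pos (by positivity : 0 < qq P Q S Y ^ 2),
      div_le_div_iff₀ (by positivity) (by positivity)]
    have a1 : |P ^ 2 - (Q ^ 2 + S ^ 2)| ≤ 2 * ε := by
      have e : P ^ 2 - (Q ^ 2 + S ^ 2) = (P ^ 2 - 1) - (Q ^ 2 + S ^ 2 - 1) := by ring
      rw [e]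
      refine (abs_sub _ _).trans ?_
      linarith
    have a2 : (3 / 4 * (1 + Y)) ^ 2 ≤ qq P Q S Y ^ 2 :=
      pow_le_pow_left₀ (by positivity) hq 2
    calc |P ^ 2 - (Q ^ 2 + S ^ 2)| * (1 + Y) ^ 2 ≤ 2 * ε * (1 + Y) ^ 2 := by gcongr
      _ = 32 / 9 * ε * (3 / 4 * (1 + Y)) ^ 2 := by ring
      _ ≤ _ := by gcongr
  have hS1 : |S + Y * K| ≤ 5 / 4 + Y * K := by
    have := (abs_le.1 hS)
    have h0 : 0 ≤ Y * K := by positivity
    rw [abs_le]; constructor <;> linarith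
  unfold rh'
  set w := uu P Q S Y * √(uu P Q S Y)
  have h1Y : 0 < 1 + Y := by linarith
  calc |K * w + (S + Y * K) * (3 / 2 * √(uu P Q S Y) *
        ((P ^ 2 - (Q ^ 2 + S ^ 2)) / qq P Q S Y ^ 2))|
      ≤ |K * w| + |(S + Y * K) * (3 / 2 * √(uu P Q S Y) *
        ((P ^ 2 - (Q ^ 2 + S ^ 2)) / qq P Q S Y ^ 2))| := abs_add_le _ _
    _ = K * w + |S + Y * K| * (3 / 2 * √(uu P Q S Y) *
        |(P ^ 2 - (Q ^ 2 + S ^ 2)) / qq P Q S Y ^ 2|) := by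
        rw [abs_of_nonneg (by positivity : 0 ≤ K * w), abs_mul, abs_mul,
          abs_of_pos (by positivity : 0 < 3 / 2 * √(uu P Q S Y))]
    _ ≤ K * (8 / 5) + (5 / 4 + Y * K) * (3 / 2 * (6 / 5) * (32 / 9 * ε / (1 + Y) ^ 2)) := by
        gcongr
    _ = K * (8 / 5) + 8 * ε * (1 / (1 + Y) ^ 2) + 32 / 5 * ε * K * (Y / (1 + Y) ^ 2) := by
        field_simp; ring
    _ ≤ K * (8 / 5) + 8 * ε * (1 / (1 + Y)) + 32 / 5 * (1 / 4) * K * 1 := by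
        have b1 : 1 / (1 + Y) ^ 2 ≤ 1 / (1 + Y) := by
          apply div_le_div_of_nonneg_left (by norm_num) h1Y
          nlinarith
        have b2 : Y / (1 + Y) ^ 2 ≤ 1 := by
          rw [div_le_one (by positivity)]; nlinarith
        gcongr
    _ ≤ _ := by
        have : 0 ≤ ε * (1 / (1 + Y)) := by positivity
        nlinarith

end bounds

/-- Data of a perturbed profile, in the variable `X = t^2`. -/
structure Prof (β B s₁ s₂ b : ℝ) (P Q S K : ℝ → ℝ) : Prop where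
  mP : Measurable P
  mQ : Measurable Q
  mS : Measurable S
  mK : Measurable K
  base : ∀ X ∈ Ioo 0 s₁, P X = 1 ∧ Q X = 0 ∧ S X = 1 ∧ K X = 0
  K0 : ∀ X ∈ Ioo 0 b, 0 ≤ K X
  Kb : ∀ X ∈ Ioo 0 b, K X ≤ β * B
  Koff : ∀ X ∈ Ioo s₂ b, K X = 0
  hP : ∀ X ∈ Ioo 0 b, |P X ^ 2 - 1| ≤ β * B * (1 + √X)
  hQS : ∀ X ∈ Ioo 0 b, |Q X ^ 2 + S X ^ 2 - 1| ≤ β * B * (1 + √X)
  hS : ∀ X ∈ Ioo 0 b, |S X - 1| ≤ β * B * (1 + √X)

/-- The perturbation `δ = cφ ρ` and its derivative. -/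
def dφ (P Q S K : ℝ → ℝ) (X Y : ℝ) : ℝ := cφ X Y * rh (P X) (Q X) (S X) (K X) Y

def dφ' (P Q S K : ℝ → ℝ) (X Y : ℝ) : ℝ :=
  cφ' X Y * rh (P X) (Q X) (S X) (K X) Y + cφ X Y * rh' (P X) (Q X) (S X) (K X) Y

/-- The full symbol `φ_β = cφ (1 + ρ)`. -/
def pφ (P Q S K : ℝ → ℝ) (X Y : ℝ) : ℝ := cφ X Y + dφ P Q S K X Y

def pφ' (P Q S K : ℝ → ℝ) (X Y : ℝ) : ℝ := cφ' X Y + dφ' P Q S K X Y

section prof

variable {β B s₁ s₂ b : ℝ} {P Q S K : ℝ → ℝ}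

lemma measurable_rh (h : Prof β B s₁ s₂ b P Q S K) :
    Measurable (fun p : ℝ × ℝ => rh (P p.1) (Q p.1) (S p.1) (K p.1) p.2) := by
  have := h.mP; have := h.mQ; have := h.mS; have := h.mK
  unfold rh uu qq
  fun_prop

lemma measurable_rh' (h : Prof β B s₁ s₂ b P Q S K) :
    Measurable (fun p : ℝ × ℝ => rh' (P p.1) (Q p.1) (S p.1) (K p.1) p.2) := by
  have := h.mP; have := h.mQ; have := h.mS; have := h.mK
  unfold rh' uu qq
  fun_prop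

lemma measurable_dφ (h : Prof β B s₁ s₂ b P Q S K) :
    Measurable (Function.uncurry (dφ P Q S K)) := by
  have h1 : Measurable (fun p : ℝ × ℝ => cφ p.1 p.2) := (goodPhi_cφ (b := 1)).meas
  exact h1.mul (measurable_rh h)

lemma measurable_dφ' (h : Prof β B s₁ s₂ b P Q S K) :
    Measurable (Function.uncurry (dφ' P Q S K)) := by
  have h1 : Measurable (fun p : ℝ × ℝ => cφ p.1 p.2) := (goodPhi_cφ (b := 1)).meas
  have h2 : Measurable (fun p : ℝ × ℝ => cφ' p.1 p.2) := (goodPhi_cφ (b := 1)).meas'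
  exact (h2.mul (measurable_rh h)).add (h1.mul (measurable_rh' h))

/-- smallness of the perturbation -/
def Small (β B b : ℝ) : Prop := β * B * (1 + √b) ≤ 1 / 20

lemma eps_le (hβ : 0 ≤ β) (hB : 0 ≤ B) (hs : Small β B b) {X : ℝ} (hX : X ∈ Ioo 0 b) :
    β * B * (1 + √X) ≤ 1 / 20 := by
  refine le_trans ?_ hs
  have : √X ≤ √b := sqrt_le_sqrt hX.2.le
  gcongr

lemma abs_dφ_le (h : Prof β B s₁ s₂ b P Q S K) (hβ : 0 ≤ β) (hB : 0 ≤ B) (hs : Small β B b)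
    {X Y : ℝ} (hX : X ∈ Ioo 0 b) (hY : 0 ≤ Y) :
    |dφ P Q S K X Y| ≤ 5 * (β * B * (1 + √X)) + 2 * (K X * Y) := by
  have he := eps_le hβ hB hs hX
  unfold dφ
  rw [abs_mul]
  calc |cφ X Y| * |rh (P X) (Q X) (S X) (K X) Y|
      ≤ 1 * (5 * (β * B * (1 + √X)) + 2 * (K X * Y)) := by
        gcongr
        · exact abs_cφ_le hX.1 hY
        · exact abs_rh_le (by linarith) (h.hP X hX) (h.hQS X hX) (h.hS X hX) (h.K0 X hX) hY
    _ = _ := one_mul _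

lemma abs_dφ'_le (h : Prof β B s₁ s₂ b P Q S K) (hβ : 0 ≤ β) (hB : 0 ≤ B) (hs : Small β B b)
    {X Y : ℝ} (hX : X ∈ Ioo 0 b) (hY : 0 ≤ Y) :
    |dφ' P Q S K X Y| ≤ 8 * (X / (X + Y) ^ 2) * (5 * (β * B * (1 + √X)) + 2 * (K X * Y))
      + (4 * K X + 9 * (β * B * (1 + √X)) * (1 / (1 + Y))) := by
  have he := eps_le hβ hB hs hX
  have hX0 := hX.1
  unfold dφ'
  refine (abs_add_le _ _).trans ?_
  rw [abs_mul, abs_mul]
  have h1 := abs_cφ'_le hX.1 hY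
  have h2 := abs_cφ_le hX.1 hY
  have h3 := abs_rh_le (by linarith) (h.hP X hX) (h.hQS X hX) (h.hS X hX) (h.K0 X hX) hY
  have h4 := abs_rh'_le (by linarith) (h.hP X hX) (h.hQS X hX) (h.hS X hX) (h.K0 X hX) hY
  calc _ ≤ (8 * (X / (X + Y) ^ 2)) * (5 * (β * B * (1 + √X)) + 2 * (K X * Y))
        + 1 * (4 * K X + 9 * (β * B * (1 + √X)) * (1 / (1 + Y))) := by
        have := h.K0 X hX
        gcongr
    _ = _ := by rw [one_mul]

lemma qq_pos (h : Prof β B s₁ s₂ b P Q S K) (hβ : 0 ≤ β) (hB : 0 ≤ B) (hs : Small β B b)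
    {X Y : ℝ} (hX : X ∈ Ioo 0 b) (hY : 0 ≤ Y) : 0 < qq (P X) (Q X) (S X) Y := by
  have he := eps_le hβ hB hs hX
  have := qq_lower (by linarith) (h.hP X hX) (h.hQS X hX) hY
  linarith

lemma hasDerivAt_dφ (h : Prof β B s₁ s₂ b P Q S K) (hβ : 0 ≤ β) (hB : 0 ≤ B) (hs : Small β B b)
    {X Y : ℝ} (hX : X ∈ Ioo 0 b) (hY : 0 ≤ Y) :
    HasDerivAt (dφ P Q S K X) (dφ' P Q S K X Y) Y :=
  (hasDerivAt_cφ hX.1 hY).mul (hasDerivAt_rh (qq_pos h hβ hB hs hX hY) hY)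

lemma continuousOn_rh' (h : Prof β B s₁ s₂ b P Q S K) (hβ : 0 ≤ β) (hB : 0 ≤ B)
    (hs : Small β B b) {X : ℝ} (hX : X ∈ Ioo 0 b) :
    ContinuousOn (rh' (P X) (Q X) (S X) (K X)) (Icc 0 b) := by
  unfold rh' uu
  have hq : ∀ Y ∈ Icc 0 b, qq (P X) (Q X) (S X) Y ≠ 0 := fun Y hY =>
    (qq_pos h hβ hB hs hX hY.1).ne'
  have hqc : ContinuousOn (fun Y => qq (P X) (Q X) (S X) Y) (Icc 0 b) := by
    unfold qq; fun_prop
  have hu : ContinuousOn (fun Y => (1 + Y) / qq (P X) (Q X) (S X) Y) (Icc 0 b) :=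
    ContinuousOn.div (by fun_prop) hqc hq
  have hz : ContinuousOn (fun Y => (P X ^ 2 - (Q X ^ 2 + S X ^ 2)) / qq (P X) (Q X) (S X) Y ^ 2)
      (Icc 0 b) := ContinuousOn.div (by fun_prop) (hqc.pow 2) (fun Y hY => pow_ne_zero 2 (hq Y hY))
  exact (continuousOn_const.mul (hu.mul hu.sqrt)).add
    ((by fun_prop : ContinuousOn (fun Y => S X + Y * K X) (Icc 0 b)).mul
      ((continuousOn_const.mul hu.sqrt).mul hz))

lemma continuousOn_dφ (h : Prof β B s₁ s₂ b P Q S K) (hβ : 0 ≤ β) (hB : 0 ≤ B)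
    (hs : Small β B b) {X : ℝ} (hX : X ∈ Ioo 0 b) :
    ContinuousOn (dφ P Q S K X) (Icc 0 b) := fun _ hY =>
  (hasDerivAt_dφ h hβ hB hs hX hY.1).continuousAt.continuousWithinAt

lemma continuousOn_dφ' (h : Prof β B s₁ s₂ b P Q S K) (hβ : 0 ≤ β) (hB : 0 ≤ B)
    (hs : Small β B b) {X : ℝ} (hX : X ∈ Ioo 0 b) :
    ContinuousOn (dφ' P Q S K X) (Icc 0 b) := by
  have hg := goodPhi_cφ (b := b)
  have h1 : ContinuousOn (rh (P X) (Q X) (S X) (K X)) (Icc 0 b) := fun Y hY =>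
    (hasDerivAt_rh (qq_pos h hβ hB hs hX hY.1) hY.1).continuousAt.continuousWithinAt
  exact ((hg.cont' X hX).mul h1).add ((hg.cont X hX).mul (continuousOn_rh' h hβ hB hs hX))

lemma goodPhi_pφ (h : Prof β B s₁ s₂ b P Q S K) (hβ : 0 ≤ β) (hB : 0 ≤ B)
    (hs : Small β B b) (hb : 0 < b) :
    GoodPhi b (16 + 20 * (β * B) * (1 + b)) (pφ P Q S K) (pφ' P Q S K) where
  meas := (goodPhi_cφ (b := 1)).meas.add (measurable_dφ h)
  meas' := (goodPhi_cφ (b := 1)).meas'.add (measurable_dφ' h)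
  cont X hX := (goodPhi_cφ.cont X hX).add (continuousOn_dφ h hβ hB hs hX)
  cont' X hX := (goodPhi_cφ.cont' X hX).add (continuousOn_dφ' h hβ hB hs hX)
  deriv X hX Y hY := (hasDerivAt_cφ hX.1 hY.1.le).add (hasDerivAt_dφ h hβ hB hs hX hY.1.le)
  bd X hX Y hY := by
    have h1 := abs_cφ_le hX.1 hY.1
    have h2 := abs_dφ_le h hβ hB hs hX hY.1
    have h3 := eps_le hβ hB hs hX
    have h4 := h.Kb X hX
    have h5 := h.K0 X hX
    have h6 : K X * Y ≤ β * B * b := by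
      have := hY.2
      have := hY.1
      gcongr
    have h7 : 0 ≤ β * B := by positivity
    refine (abs_add_le _ _).trans ?_
    nlinarith [mul_nonneg h7 hb.le]
  bd' X hX Y hY := by
    have hX0 := hX.1
    have hY0 := hY.1
    have h1 := abs_cφ'_le hX.1 hY.1
    have h2 := abs_dφ'_le h hβ hB hs hX hY.1
    have h3 := eps_le hβ hB hs hX
    have h4 := h.Kb X hX
    have h5 := h.K0 X hX
    have h6 : K X * Y ≤ β * B * b := by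
      have := hY.2
      gcongr
    have h7 : 0 ≤ β * B := by positivity
    have hr : 0 ≤ X / (X + Y) ^ 2 := by positivity
    have h1Y : 1 / (1 + Y) ≤ 1 := by rw [div_le_one (by positivity)]; linarith
    have h9 : 0 ≤ β * B * (1 + √X) := by positivity
    refine (abs_add_le _ _).trans ?_
    calc |cφ' X Y| + |dφ' P Q S K X Y|
        ≤ 8 * (X / (X + Y) ^ 2) + (8 * (X / (X + Y) ^ 2) * (5 * (1 / 20) + 2 * (β * B * b))
          + (4 * (β * B) + 9 * (1 / 20) * 1)) := by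
          refine add_le_add h1 (h2.trans ?_)
          gcongr
      _ ≤ (16 + 20 * (β * B) * (1 + b)) * (1 + X / (X + Y) ^ 2) := by
          have h10 : 0 ≤ β * B * b := by positivity
          nlinarith [mul_nonneg hr h10, mul_nonneg hr h7]

end prof

end Pool.Agent.Lib.MP_85963d_gt.H31
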