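import Pool.Agent.Lib.MP_85963d_gt.H31.Pert

/-! The estimate `|G^β - G| ≤ C β/s` (Paper (10.4)). -/

set_option autoImplicit false
open Set MeasureTheory Real

noncomputable section
namespace Pool.Agent.Lib.MP_85963d_gt.H31

lemma kern1_add {f f' g g' : ℝ → ℝ} {D : ℝ} (hD : 0 ≤ D) (hf : ContinuousOn f (Icc 0 D))
    (hf' : ContinuousOn f' (Icc 0 D)) (hg : ContinuousOn g (Icc 0 D))
    (hg' : ContinuousOn g' (Icc 0 D)) :
    kern1 (fun Y => f Y + g Y) (fun Y => f' Y + g' Y) D = kern1 f f' D + kern1 g g' D := by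
  have i1 : IntegrableOn (dInt f f' D) (Ioo 0 (π / 2)) := by
    apply integrableOn_cont
    exact (continuousOn_dInt hf hf').comp_continuous (f := fun b : ℝ => (D, b)) (by fun_prop)
      (fun b => ⟨right_mem_Icc.2 hD, mem_univ _⟩)
  have i2 : IntegrableOn (dInt g g' D) (Ioo 0 (π / 2)) := by
    apply integrableOn_cont
    exact (continuousOn_dInt hg hg').comp_continuous (f := fun b : ℝ => (D, b)) (by fun_prop)
      (fun b => ⟨right_mem_Icc.2 hD, mem_univ _⟩)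
  unfold kern1
  rw [← mul_add, ← integral_add i1 i2]
  congr 2
  funext b
  unfold dInt
  ring

lemma rh_base (Y : ℝ) (hY : 0 ≤ Y) : rh 1 0 1 0 Y = 0 := by
  unfold rh uu qq
  have : (1 : ℝ) ^ 2 + Y * (0 ^ 2 + 1 ^ 2) = 1 + Y := by ring
  rw [this, div_self (by linarith), sqrt_one]
  ring

lemma rh'_base (Y : ℝ) : rh' 1 0 1 0 Y = 0 := by
  unfold rh'
  ring

section prof

variable {β B s₁ s₂ b : ℝ} {P Q S K : ℝ → ℝ}

lemma kern_d_base (h : Prof β B s₁ s₂ b P Q S K) {X D : ℝ} (hX : X ∈ Ioo 0 s₁) (hD : 0 ≤ D) :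
    kern1 (dφ P Q S K X) (dφ' P Q S K X) D = 0 := by
  obtain ⟨e1, e2, e3, e4⟩ := h.base X hX
  unfold kern1
  have : ∀ b, dInt (dφ P Q S K X) (dφ' P Q S K X) D b = 0 := by
    intro b
    have hY := Yb_nonneg hD b
    unfold dInt dφ dφ'
    rw [e1, e2, e3, e4, rh_base _ hY, rh'_base]
    ring
  simp [this]

/-- The constant of the kernel bound. -/
def cK (B s₁ s₂ : ℝ) : ℝ := 3 * (B * ((40 / s₁ + 9) * (1 + √s₂) + 8)) + 9 * B * (3 + 16 / s₁)

lemma cK_nonneg (hB : 0 ≤ B) (hs₁ : 0 < s₁) : 0 ≤ cK B s₁ s₂ := by unfold cK; positivity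

lemma kern_d_le (h : Prof β B s₁ s₂ b P Q S K) (hβ : 0 ≤ β) (hB : 0 ≤ B) (hs : Small β B b)
    (hs₁ : 0 < s₁) {X s : ℝ} (hX : s₁ ≤ X) (hXs : X ≤ s) (hsb : s < b) :
    |kern1 (dφ P Q S K X) (dφ' P Q S K X) (s - X)|
      ≤ cK B s₁ s₂ * β * (1 + √X) / (1 + (s - X)) := by
  have hX0 : 0 < X := by linarith
  have hXb : X ∈ Ioo 0 b := ⟨hX0, by linarith⟩
  have hD : 0 ≤ s - X := by linarith
  have hsub : Icc 0 (s - X) ⊆ Icc 0 b := Icc_subset_Icc_right (by linarith)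
  have c1 := (continuousOn_dφ h hβ hB hs hXb).mono hsub
  have c2 := (continuousOn_dφ' h hβ hB hs hXb).mono hsub
  have he0 : 0 ≤ β * B * (1 + √X) := by positivity
  have h1D : 0 < 1 + (s - X) := by linarith
  have hK0 := h.K0 X hXb
  have hKb := h.Kb X hXb
  rcases le_or_gt X s₂ with hX2 | hX2
  · -- on the support
    have hsq : √X ≤ √s₂ := sqrt_le_sqrt hX2
    have he : β * B * (1 + √X) ≤ β * B * (1 + √s₂) := by gcongr
    set m := β * (B * ((40 / s₁ + 9) * (1 + √s₂) + 8)) with hm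
    have hm0 : 0 ≤ m := by rw [hm]; positivity
    have hmain := kern_on (f := dφ P Q S K X) (f' := dφ' P Q S K X) (m := m) hD hm0 c1 c2 ?_ ?_
    · refine hmain.trans ?_
      rw [div_le_div_iff_of_pos_right h1D, hm]
      unfold cK
      have h1 : 1 ≤ 1 + √X := by have := sqrt_nonneg X; linarith
      have h2 : 0 ≤ 9 * B * (3 + 16 / s₁) := by positivity
      calc 3 * (β * (B * ((40 / s₁ + 9) * (1 + √s₂) + 8)))
          = (3 * (B * ((40 / s₁ + 9) * (1 + √s₂) + 8)) + 0) * β * 1 := by ring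
        _ ≤ _ := by gcongr
    · intro Y hY
      have hY0 := hY.1
      refine (abs_dφ_le h hβ hB hs hXb hY.1).trans ?_
      have e1 : 5 * (β * B * (1 + √X)) + 2 * (K X * Y)
          ≤ 5 * (β * B * (1 + √s₂)) + 2 * (β * B * Y) := by gcongr
      refine e1.trans ?_
      rw [hm]
      have e2 : 0 ≤ β * B := by positivity
      have e3 : 0 ≤ √s₂ := sqrt_nonneg _
      have e4 : 0 ≤ 40 / s₁ := by positivity
      have e5 : β * (B * ((40 / s₁ + 9) * (1 + √s₂) + 8)) * (1 + Y)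
          = (β * B) * (((40 / s₁ + 9) * (1 + √s₂) + 8) * (1 + Y)) := by ring
      have e6 : 5 * (β * B * (1 + √s₂)) + 2 * (β * B * Y)
          = (β * B) * (5 * (1 + √s₂) + 2 * Y) := by ring
      rw [e5, e6]
      apply mul_le_mul_of_nonneg_left _ e2
      nlinarith [mul_nonneg e4 e3, mul_nonneg (mul_nonneg e4 e3) hY0, mul_nonneg e3 hY0,
        mul_nonneg e4 hY0]
    · intro Y hY
      have hY0 := hY.1
      refine (abs_dφ'_le h hβ hB hs hXb hY.1).trans ?_
      have q1 : X / (X + Y) ^ 2 ≤ 1 / s₁ := by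
        rw [div_le_div_iff₀ (by positivity) hs₁]
        nlinarith [mul_nonneg hX0.le hY0, mul_nonneg hX0.le (sub_nonneg.2 hX)]
      have q2 : X / (X + Y) ^ 2 * Y ≤ 1 / 4 := by
        rw [div_mul_eq_mul_div, div_le_iff₀ (by positivity)]
        nlinarith [sq_nonneg (X - Y)]
      have q3 : 1 / (1 + Y) ≤ 1 := by rw [div_le_one (by positivity)]; linarith
      have q0 : 0 ≤ X / (X + Y) ^ 2 := by positivity
      calc 8 * (X / (X + Y) ^ 2) * (5 * (β * B * (1 + √X)) + 2 * (K X * Y))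
            + (4 * K X + 9 * (β * B * (1 + √X)) * (1 / (1 + Y)))
          = 40 * (X / (X + Y) ^ 2) * (β * B * (1 + √X)) + 16 * K X * (X / (X + Y) ^ 2 * Y)
            + (4 * K X + 9 * (β * B * (1 + √X)) * (1 / (1 + Y))) := by ring
        _ ≤ 40 * (1 / s₁) * (β * B * (1 + √s₂)) + 16 * (β * B) * (1 / 4)
            + (4 * (β * B) + 9 * (β * B * (1 + √s₂)) * 1) := by gcongr
        _ = _ := by rw [hm]; ring
  · -- off the support
    have hKz := h.Koff X ⟨hX2, hXb.2⟩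
    set m := 9 * (β * B * (1 + √X)) with hm
    have hm0 : 0 ≤ m := by rw [hm]; positivity
    have hmain := kern_off (f := dφ P Q S K X) (f' := dφ' P Q S K X) (m := m) hX0 hD hm0 c1 c2 ?_ ?_
    · refine hmain.trans ?_
      rw [add_sub_cancel]
      have hs0 : 0 < s := by linarith
      have a1 : eK (s - X) ≤ 1 / (1 + (s - X)) := by
        refine (eK_le hD).trans ?_
        rw [div_le_div_iff₀ (by positivity) h1D]
        have := two_div_pi_le
        have h2 : 0 < 2 / π := by have := pi_pos; positivity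
        nlinarith
      have a2 : 16 / ((1 + (s - X)) * s) ≤ (16 / s₁) / (1 + (s - X)) := by
        rw [div_div, mul_comm s₁]
        apply div_le_div_of_nonneg_left (by norm_num) (by positivity)
        gcongr
        linarith
      have a3 : 2 / ((1 + (s - X)) * √(1 + (s - X))) ≤ 2 / (1 + (s - X)) := by
        apply div_le_div_of_nonneg_left (by norm_num) h1D
        have : 1 ≤ √(1 + (s - X)) := Real.one_le_sqrt.2 (by linarith)
        nlinarith
      have a4 : eK (s - X) + 16 / ((1 + (s - X)) * s) + 2 / ((1 + (s - X)) * √(1 + (s - X)))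
          ≤ (3 + 16 / s₁) / (1 + (s - X)) := by
        calc _ ≤ 1 / (1 + (s - X)) + (16 / s₁) / (1 + (s - X)) + 2 / (1 + (s - X)) := by gcongr
          _ = _ := by ring
      calc m * (eK (s - X) + 16 / ((1 + (s - X)) * s) + 2 / ((1 + (s - X)) * √(1 + (s - X))))
          ≤ m * ((3 + 16 / s₁) / (1 + (s - X))) := by gcongr
        _ = (0 + 9 * B * (3 + 16 / s₁)) * β * (1 + √X) / (1 + (s - X)) := by rw [hm]; ring
        _ ≤ _ := by
            unfold cK
            gcongr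
            positivity
    · intro Y hY
      refine (abs_dφ_le h hβ hB hs hXb hY.1).trans ?_
      rw [hKz, hm]
      linarith
    · intro Y hY
      have hY0 := hY.1
      refine (abs_dφ'_le h hβ hB hs hXb hY.1).trans ?_
      rw [hKz, hm]
      have q0 : 0 ≤ X / (X + Y) ^ 2 := by positivity
      nlinarith [mul_nonneg q0 he0]

/-- The exact equation for `R = G^β - G`. -/
lemma R_eq {CG CG' : ℝ} {G Gβ : ℝ → ℝ} (h : Prof β B s₁ s₂ b P Q S K) (hβ : 0 ≤ β) (hB : 0 ≤ B)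
    (hs : Small β B b) (hb : 0 < b)
    (hGc : ContinuousOn G (Ioo 0 b)) (hGc' : ContinuousOn Gβ (Ioo 0 b))
    (hGb : ∀ X ∈ Ioo 0 b, |G X| ≤ CG / √X) (hGb' : ∀ X ∈ Ioo 0 b, |Gβ X| ≤ CG' / √X)
    (heq : ∀ᵐ s ∂(volume.restrict (Ioo 0 b)),
      ∫ X in Ioo 0 s, G X * (Kc (s - X) * cφ X (s - X)) = 0)
    (heq' : ∀ᵐ s ∂(volume.restrict (Ioo 0 b)),
      ∫ X in Ioo 0 s, Gβ X * (Kc (s - X) * pφ P Q S K X (s - X)) = 0) :
    ∀ᵐ s : ℝ, s ∈ Ioo 0 b → Gβ s - G s = -(dφ P Q S K s 0 * Gβ s)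
      - (∫ X in Ioo 0 s, (Gβ X - G X) * kern1 (cφ X) (cφ' X) (s - X))
      - ∫ X in Ioo 0 s, Gβ X * kern1 (dφ P Q S K X) (dφ' P Q S K X) (s - X) := by
  have hGm : AEStronglyMeasurable G (volume.restrict (Ioo 0 b)) :=
    hGc.aestronglyMeasurable measurableSet_Ioo
  have hGm' : AEStronglyMeasurable Gβ (volume.restrict (Ioo 0 b)) :=
    hGc'.aestronglyMeasurable measurableSet_Ioo
  have hg := goodPhi_pφ h hβ hB hs hb
  have v1 := volterra_B hb hGm hGb (goodPhi_cφ (b := b)) heq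
  have v2 := volterra_B hb hGm' hGb' hg heq'
  rw [ae_restrict_iff' measurableSet_Ioo] at v1 v2
  filter_upwards [v1, v2] with s h1 h2 hsb
  have e1 := h1 hsb
  have e2 := h2 hsb
  have hc0 : cφ s 0 = 1 := by simp [cφ]
  have hp0 : pφ P Q S K s 0 = 1 + dφ P Q S K s 0 := by simp [pφ, hc0]
  rw [hc0, one_mul] at e1
  rw [hp0] at e2
  have hsub : Ioo 0 s ⊆ Ioo 0 b := Ioo_subset_Ioo_right hsb.2.le
  have hGi : IntegrableOn G (Ioo 0 s) := (integrable_G hGm hGb).mono_set hsub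
  have hGi' : IntegrableOn Gβ (Ioo 0 s) := (integrable_G hGm' hGb').mono_set hsub
  -- integrability of products with bounded kernels
  have hint : ∀ (F : ℝ → ℝ) (φ φ' : ℝ → ℝ → ℝ) (A : ℝ), IntegrableOn F (Ioo 0 s) →
      GoodPhi b A φ φ' → IntegrableOn (fun X => F X * kern1 (φ X) (φ' X) (s - X)) (Ioo 0 s) := by
    intro F φ φ' A hF hgp
    have hm : Measurable (fun X => kern1 (φ X) (φ' X) (s - X)) :=
      measurable_kern_comp hgp.meas hgp.meas' measurable_id (measurable_const.sub measurable_id)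
    refine Integrable.mono' (hF.norm.mul_const (2 * A * (1 + 1 / s)))
      (hF.aestronglyMeasurable.mul hm.aestronglyMeasurable) ?_
    filter_upwards [ae_restrict_mem measurableSet_Ioo] with X hX
    have := hgp.kern_le (X := X) (D := s - X) hX.1 (hX.2.trans hsb.2) (by linarith [hX.2])
      (by linarith [hsb.2])
    rw [add_sub_cancel] at this
    rw [norm_mul, Real.norm_eq_abs (kern1 _ _ _)]
    exact mul_le_mul_of_nonneg_left this (norm_nonneg _)
  have i1 := hint G cφ cφ' 8 hGi goodPhi_cφ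
  have i2 := hint Gβ cφ cφ' 8 hGi' goodPhi_cφ
  have i3 := hint Gβ (pφ P Q S K) (pφ' P Q S K) _ hGi' hg
  have hk : ∀ X ∈ Ioo 0 s, kern1 (pφ P Q S K X) (pφ' P Q S K X) (s - X)
      = kern1 (cφ X) (cφ' X) (s - X) + kern1 (dφ P Q S K X) (dφ' P Q S K X) (s - X) := by
    intro X hX
    have hXb := hsub hX
    have hD : 0 ≤ s - X := by linarith [hX.2]
    have hsub2 : Icc 0 (s - X) ⊆ Icc 0 b := Icc_subset_Icc_right (by linarith [hX.1, hsb.2])
    exact kern1_add hD ((goodPhi_cφ.cont X hXb).mono hsub2) ((goodPhi_cφ.cont' X hXb).mono hsub2)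
      ((continuousOn_dφ h hβ hB hs hXb).mono hsub2) ((continuousOn_dφ' h hβ hB hs hXb).mono hsub2)
  have e3 : VI Gβ (pφ P Q S K) (pφ' P Q S K) s = (∫ X in Ioo 0 s, Gβ X * kern1 (cφ X) (cφ' X) (s - X))
      + ∫ X in Ioo 0 s, Gβ X * kern1 (dφ P Q S K X) (dφ' P Q S K X) (s - X) := by
    have i4 : IntegrableOn (fun X => Gβ X * kern1 (dφ P Q S K X) (dφ' P Q S K X) (s - X))
        (Ioo 0 s) := by
      refine (i3.sub i2).congr_fun (fun X hX => ?_) measurableSet_Ioo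
      simp only [Pi.sub_apply]
      rw [hk X hX]; ring
    rw [← integral_add i2 i4]
    unfold VI
    apply setIntegral_congr_fun measurableSet_Ioo
    intro X hX
    simp only
    rw [hk X hX]; ring
  have e4 : (∫ X in Ioo 0 s, (Gβ X - G X) * kern1 (cφ X) (cφ' X) (s - X))
      = (∫ X in Ioo 0 s, Gβ X * kern1 (cφ X) (cφ' X) (s - X)) - VI G cφ cφ' s := by
    unfold VI
    rw [← integral_sub i2 i1]
    congr 1
    funext X
    ring
  rw [e3] at e2
  rw [e4]
  linarith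

end prof

/-! ## The source terms -/

lemma rpow_le_inv {s₁ r : ℝ} (h0 : 0 < s₁) (h1 : s₁ ≤ 1) (hr : -1 ≤ r) : s₁ ^ r ≤ 1 / s₁ := by
  rw [one_div, ← rpow_neg_one]
  exact rpow_le_rpow_of_exponent_ge h0 h1 hr

lemma integral_54 {s₁ s : ℝ} (h0 : 0 < s₁) (h1 : s₁ ≤ 1) (hs : s₁ < s) :
    ∫ X in Ioo s₁ s, X ^ (-(5 / 4) : ℝ) ≤ 4 / s₁ := by
  rw [← integral_Ioc_eq_integral_Ioo, ← intervalIntegral.integral_of_le hs.le,
    integral_rpow (Or.inr ⟨by norm_num, by
      rw [uIcc_of_le hs.le]; intro h; linarith [h.1]⟩)]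
  have e : (-(5 / 4) + 1 : ℝ) = -(1 / 4) := by norm_num
  rw [e, div_eq_mul_inv, show ((-(1 / 4) : ℝ))⁻¹ = -4 by norm_num]
  have h2 : 0 ≤ s ^ (-(1 / 4) : ℝ) := rpow_nonneg (by linarith) _
  have h3 := rpow_le_inv (r := -(1 / 4)) h0 h1 (by norm_num)
  have h4 : 4 / s₁ = 4 * (1 / s₁) := by ring
  rw [h4]
  linarith

lemma integral_54' {s₁ s : ℝ} (hs : s₁ < s) :
    ∫ X in Ioo s₁ s, (1 + (s - X)) ^ (-(5 / 4) : ℝ) ≤ 4 := by
  have hF : ∀ X ∈ uIcc s₁ s, HasDerivAt (fun X => 4 * (1 + (s - X)) ^ (-(1 / 4) : ℝ))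
      ((1 + (s - X)) ^ (-(5 / 4) : ℝ)) X := by
    intro X hX
    rw [uIcc_of_le hs.le] at hX
    have hp : 0 < 1 + (s - X) := by linarith [hX.2]
    have d1 : HasDerivAt (fun X : ℝ => 1 + (s - X)) (-1) X :=
      ((hasDerivAt_id X).const_sub s).const_add 1
    refine ((d1.rpow_const (p := -(1 / 4)) (Or.inl hp.ne')).const_mul 4).congr_deriv ?_
    rw [show (-(1 / 4) - 1 : ℝ) = -(5 / 4) by norm_num]
    ring
  have hc : ContinuousOn (fun X => (1 + (s - X)) ^ (-(5 / 4) : ℝ)) (Icc s₁ s) := by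
    apply ContinuousOn.rpow_const (by fun_prop)
    intro X hX
    left
    have := hX.2
    linarith
  rw [← integral_Ioc_eq_integral_Ioo, ← intervalIntegral.integral_of_le hs.le,
    intervalIntegral.integral_eq_sub_of_hasDerivAt hF (hc.intervalIntegrable_of_Icc hs.le)]
  have h1 : 0 ≤ (1 + (s - s₁)) ^ (-(1 / 4) : ℝ) := rpow_nonneg (by linarith) _
  simp only [sub_self, add_zero, one_rpow]
  linarith

/-- `s ∫ X^{-7/4}(1+√X)/(1+s-X) ≤ 24/s₁²`. -/
lemma source_int {s₁ s : ℝ} (h0 : 0 < s₁) (h1 : s₁ ≤ 1) (hs : s₁ < s) :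
    ∫ X in Ioo s₁ s, X ^ (-(7 / 4) : ℝ) * ((1 + √X) / (1 + (s - X))) ≤ 24 / s₁ ^ 2 / s := by
  have hs0 : 0 < s := by linarith
  rw [le_div_iff₀ hs0, mul_comm, ← integral_const_mul]
  have c1 : ContinuousOn (fun X : ℝ => X ^ (-(5 / 4) : ℝ)) (Icc s₁ s) := by
    intro X hX
    exact (continuousAt_rpow_const X _ (Or.inl (by linarith [hX.1]))).continuousWithinAt
  have c2 : ContinuousOn (fun X => (1 + (s - X)) ^ (-(5 / 4) : ℝ)) (Icc s₁ s) := by
    apply ContinuousOn.rpow_const (by fun_prop)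
    intro X hX
    left
    have := hX.2
    linarith
  have c3 : ContinuousOn (fun X => s * (X ^ (-(7 / 4) : ℝ) * ((1 + √X) / (1 + (s - X)))))
      (Icc s₁ s) := by
    apply ContinuousOn.mul continuousOn_const
    apply ContinuousOn.mul
    · intro X hX
      exact (continuousAt_rpow_const X _ (Or.inl (by linarith [hX.1]))).continuousWithinAt
    · apply ContinuousOn.div (by fun_prop) (by fun_prop)
      intro X hX
      have := hX.2
      linarith
  have i1 : IntegrableOn (fun X : ℝ => X ^ (-(5 / 4) : ℝ)) (Ioo s₁ s) :=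
    c1.integrableOn_Icc.mono_set Ioo_subset_Icc_self
  have i2 : IntegrableOn (fun X => (1 + (s - X)) ^ (-(5 / 4) : ℝ)) (Ioo s₁ s) :=
    c2.integrableOn_Icc.mono_set Ioo_subset_Icc_self
  have i3 : IntegrableOn (fun X => s * (X ^ (-(7 / 4) : ℝ) * ((1 + √X) / (1 + (s - X)))))
      (Ioo s₁ s) := c3.integrableOn_Icc.mono_set Ioo_subset_Icc_self
  have j1 : IntegrableOn (fun X : ℝ => 2 * X ^ (-(5 / 4) : ℝ)) (Ioo s₁ s) := i1.const_mul 2
  have hpt : ∀ X ∈ Ioo s₁ s, s * (X ^ (-(7 / 4) : ℝ) * ((1 + √X) / (1 + (s - X))))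
      ≤ (2 / s₁) * (2 * X ^ (-(5 / 4) : ℝ) + (1 + (s - X)) ^ (-(5 / 4) : ℝ)) := by
    intro X hX
    have hX0 : 0 < X := h0.trans hX.1
    have hD : 0 < 1 + (s - X) := by linarith [hX.2]
    have e1 : X ^ (-(7 / 4) : ℝ) * (1 + √X) ≤ (2 / s₁) * X ^ (-(5 / 4) : ℝ) := by
      have a1 : X ^ (-(7 / 4) : ℝ) = X ^ (-(1 / 2) : ℝ) * X ^ (-(5 / 4) : ℝ) := by
        rw [← rpow_add hX0]; norm_num
      have a2 : X ^ (-(7 / 4) : ℝ) * √X = X ^ (-(5 / 4) : ℝ) := by
        rw [sqrt_eq_rpow, ← rpow_add hX0]; norm_num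
      have a3 : X ^ (-(1 / 2) : ℝ) ≤ 1 / s₁ :=
        (rpow_le_rpow_of_nonpos h0 hX.1.le (by norm_num)).trans
          (rpow_le_inv h0 h1 (by norm_num))
      have a4 : 1 ≤ 1 / s₁ := by rw [le_div_iff₀ h0]; linarith
      have a5 : 0 ≤ X ^ (-(5 / 4) : ℝ) := rpow_nonneg hX0.le _
      rw [mul_add, mul_one, a2, a1]
      calc X ^ (-(1 / 2) : ℝ) * X ^ (-(5 / 4) : ℝ) + X ^ (-(5 / 4) : ℝ)
          ≤ (1 / s₁) * X ^ (-(5 / 4) : ℝ) + (1 / s₁) * X ^ (-(5 / 4) : ℝ) := by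
            gcongr
            nlinarith
        _ = _ := by ring
    have e2 : s * X ^ (-(5 / 4) : ℝ) / (1 + (s - X))
        ≤ 2 * X ^ (-(5 / 4) : ℝ) + (1 + (s - X)) ^ (-(5 / 4) : ℝ) := by
      have a5 : 0 ≤ X ^ (-(5 / 4) : ℝ) := rpow_nonneg hX0.le _
      have a6 : 0 ≤ (1 + (s - X)) ^ (-(5 / 4) : ℝ) := rpow_nonneg hD.le _
      have b1 : X * X ^ (-(5 / 4) : ℝ) = X ^ (-(1 / 4) : ℝ) := by
        nth_rewrite 1 [← rpow_one X]
        rw [← rpow_add hX0]; norm_num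
      have b2 : X ^ (-(1 / 4) : ℝ) / (1 + (s - X))
          ≤ X ^ (-(5 / 4) : ℝ) + (1 + (s - X)) ^ (-(5 / 4) : ℝ) := by
        rcases le_or_gt X (1 + (s - X)) with h | h
        · have : X ^ (-(1 / 4) : ℝ) / (1 + (s - X)) ≤ X ^ (-(5 / 4) : ℝ) := by
            rw [div_le_iff₀ hD, ← b1, mul_comm]
            gcongr
          linarith
        · have c : (1 + (s - X)) * (1 + (s - X)) ^ (-(5 / 4) : ℝ)
              = (1 + (s - X)) ^ (-(1 / 4) : ℝ) := by
            nth_rewrite 1 [← rpow_one (1 + (s - X))]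
            rw [← rpow_add hD]; norm_num
          have : X ^ (-(1 / 4) : ℝ) / (1 + (s - X)) ≤ (1 + (s - X)) ^ (-(5 / 4) : ℝ) := by
            rw [div_le_iff₀ hD, mul_comm ((1 + (s - X)) ^ _), c]
            exact rpow_le_rpow_of_nonpos hD h.le (by norm_num)
          linarith
      have b3 : (s - X) * X ^ (-(5 / 4) : ℝ) / (1 + (s - X)) ≤ X ^ (-(5 / 4) : ℝ) := by
        rw [div_le_iff₀ hD]
        nlinarith
      calc s * X ^ (-(5 / 4) : ℝ) / (1 + (s - X))
          = X * X ^ (-(5 / 4) : ℝ) / (1 + (s - X))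
            + (s - X) * X ^ (-(5 / 4) : ℝ) / (1 + (s - X)) := by ring
        _ ≤ (X ^ (-(5 / 4) : ℝ) + (1 + (s - X)) ^ (-(5 / 4) : ℝ)) + X ^ (-(5 / 4) : ℝ) := by
            rw [b1]; exact add_le_add b2 b3
        _ = _ := by ring
    calc s * (X ^ (-(7 / 4) : ℝ) * ((1 + √X) / (1 + (s - X))))
        = s * (X ^ (-(7 / 4) : ℝ) * (1 + √X)) / (1 + (s - X)) := by ring
      _ ≤ s * ((2 / s₁) * X ^ (-(5 / 4) : ℝ)) / (1 + (s - X)) := by gcongr
      _ = (2 / s₁) * (s * X ^ (-(5 / 4) : ℝ) / (1 + (s - X))) := by ring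
      _ ≤ _ := by gcongr
  have h2 : ∫ X in Ioo s₁ s, s * (X ^ (-(7 / 4) : ℝ) * ((1 + √X) / (1 + (s - X))))
      ≤ ∫ X in Ioo s₁ s, (2 / s₁) * (2 * X ^ (-(5 / 4) : ℝ) + (1 + (s - X)) ^ (-(5 / 4) : ℝ)) :=
    setIntegral_mono_on i3 ((j1.add i2).const_mul _) measurableSet_Ioo hpt
  refine h2.trans ?_
  rw [integral_const_mul, integral_add j1 i2, integral_const_mul]
  have h3 := integral_54 h0 h1 hs
  have h4 := integral_54' hs
  have h5 : (4 : ℝ) ≤ 4 / s₁ := by rw [le_div_iff₀ h0]; linarith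
  calc (2 / s₁) * (2 * (∫ X in Ioo s₁ s, X ^ (-(5 / 4) : ℝ))
        + ∫ X in Ioo s₁ s, (1 + (s - X)) ^ (-(5 / 4) : ℝ))
      ≤ (2 / s₁) * (2 * (4 / s₁) + 4 / s₁) := by
        gcongr
        exact h4.trans h5
    _ = _ := by field_simp; norm_num

/-- The constant `C₃`. -/
def c3 (B s₁ s₂ CD : ℝ) : ℝ :=
  5 * B + cK B s₁ s₂ + 10 * B * CD / s₁ + 24 * cK B s₁ s₂ * CD / s₁ ^ 2

/-- **Estimate (10.4).** -/
theorem R_bound (B s₁ s₂ CD : ℝ) (hB : 0 ≤ B) (hs₁ : 0 < s₁) (hs₁' : s₁ ≤ 1) (hCD : 0 ≤ CD) :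
    ∃ η₀ > 0, ∃ C₄, ∀ β b : ℝ, 0 < β → 0 < b → β * (1 + b) ≤ η₀ → ∀ P Q S K : ℝ → ℝ,
      Prof β B s₁ s₂ b P Q S K → ∀ (G Gβ : ℝ → ℝ) (CG CG' : ℝ),
      ContinuousOn G (Ioo 0 b) → ContinuousOn Gβ (Ioo 0 b) →
      (∀ X ∈ Ioo 0 b, |G X| ≤ CG / √X) → (∀ X ∈ Ioo 0 b, |Gβ X| ≤ CG' / √X) →
      (∀ X ∈ Ioo s₁ b, |G X| ≤ CD * X ^ (-(7 / 4) : ℝ)) →
      (∀ X ∈ Ioo 0 s₁, Gβ X = G X) →
      (∀ᵐ s ∂(volume.restrict (Ioo 0 b)),
        ∫ X in Ioo 0 s, G X * (Kc (s - X) * cφ X (s - X)) = 0) →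
      (∀ᵐ s ∂(volume.restrict (Ioo 0 b)),
        ∫ X in Ioo 0 s, Gβ X * (Kc (s - X) * pφ P Q S K X (s - X)) = 0) →
      ∀ s ∈ Ioo s₁ b, |Gβ s - G s| ≤ C₄ * β / s := by
  have hcK : 0 ≤ cK B s₁ s₂ := cK_nonneg hB hs₁
  have hC3 : 0 ≤ c3 B s₁ s₂ CD := by unfold c3; positivity
  obtain ⟨η₀, hη₀, C₄, hmain⟩ := R_estimate s₁ (c3 B s₁ s₂ CD) hs₁ hs₁' hC3
  refine ⟨min η₀ (1 / (40 * (1 + B))), by positivity, C₄, ?_⟩
  intro β b hβ hb hβb P Q S K h G Gβ CG CG' hGc hGc' hGb hGb' hdec hbase heq heq'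
  have hsm : Small β B b := by
    unfold Small
    have h1 : β * (1 + b) ≤ 1 / (40 * (1 + B)) := hβb.trans (min_le_right _ _)
    have h2 : 1 + √b ≤ 2 * (1 + b) := by
      have := sqrt_nonneg b
      have := mul_self_sqrt hb.le
      nlinarith
    calc β * B * (1 + √b) ≤ β * B * (2 * (1 + b)) := by gcongr
      _ = 2 * B * (β * (1 + b)) := by ring
      _ ≤ 2 * B * (1 / (40 * (1 + B))) := by gcongr
      _ ≤ 1 / 20 := by
          rw [mul_one_div, div_le_div_iff₀ (by positivity) (by norm_num)]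
          nlinarith
  have hR := R_eq h hβ.le hB hsm hb hGc hGc' hGb hGb' heq heq'
  refine hmain β b hβ (hβb.trans (min_le_left _ _)) (fun s => Gβ s - G s) (hGc'.sub hGc) ?_
  filter_upwards [hR] with s hs hsI
  have hs0 : 0 < s := hs₁.trans hsI.1
  have hsb : s ∈ Ioo 0 b := ⟨hs0, hsI.2⟩
  have e := hs hsb
  -- abbreviations
  set cst := cK B s₁ s₂ with hcst
  set R : ℝ → ℝ := fun X => Gβ X - G X with hRdef
  have hGβ : ∀ X, |Gβ X| ≤ |G X| + |R X| := by
    intro X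
    have : Gβ X = G X + R X := by simp [hRdef]
    rw [this]; exact abs_add_le _ _
  let g : ℝ → ℝ := fun X => |R X| * kR (c3 B s₁ s₂ CD) β s X
    + |G X| * (cst * β * (1 + √X) / (1 + (s - X)))
  have hRc : ContinuousOn R (Icc s₁ s) :=
    (hGc'.sub hGc).mono (fun x hx => ⟨hs₁.trans_le hx.1, hx.2.trans_lt hsI.2⟩)
  have hGc1 : ContinuousOn G (Icc s₁ s) :=
    hGc.mono (fun x hx => ⟨hs₁.trans_le hx.1, hx.2.trans_lt hsI.2⟩)
  have hRi : IntegrableOn (fun X => |R X|) (Ioo s₁ s) :=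
    hRc.abs.integrableOn_Icc.mono_set Ioo_subset_Icc_self
  have iP : IntegrableOn (fun X => |R X| * kR (c3 B s₁ s₂ CD) β s X) (Ioo s₁ s) := by
    refine Integrable.mono' (hRi.mul_const (1 + 16 / s + c3 B s₁ s₂ CD * β * (1 + √s)))
      (hRi.aestronglyMeasurable.mul (measurable_kR _ β s).aestronglyMeasurable) ?_
    filter_upwards [ae_restrict_mem measurableSet_Ioo] with X hX
    have hX' : X ∈ Ioo 0 s := ⟨hs₁.trans hX.1, hX.2⟩
    rw [Real.norm_eq_abs, abs_mul, abs_abs, abs_of_nonneg (kR_nonneg hC3 hβ.le hX')]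
    exact mul_le_mul_of_nonneg_left (kR_le hC3 hβ.le hX') (abs_nonneg _)
  have cG : ContinuousOn (fun X => |G X| * (cst * β * (1 + √X) / (1 + (s - X)))) (Icc s₁ s) := by
    apply hGc1.abs.mul
    apply ContinuousOn.div (by fun_prop) (by fun_prop)
    intro X hX
    have := hX.2
    linarith
  have iG : IntegrableOn (fun X => |G X| * (cst * β * (1 + √X) / (1 + (s - X)))) (Ioo s₁ s) :=
    cG.integrableOn_Icc.mono_set Ioo_subset_Icc_self
  have ig : IntegrableOn g (Ioo s₁ s) := iP.add iG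
  -- pointwise bound of the two integrands
  have hpt : ∀ X ∈ Ioo 0 s, X ≠ s₁ → |R X * kern1 (cφ X) (cφ' X) (s - X)|
      + |Gβ X * kern1 (dφ P Q S K X) (dφ' P Q S K X) (s - X)| ≤ (Ioi s₁).indicator g X := by
    intro X hX hne
    rcases lt_or_gt_of_ne hne with hlt | hgt
    · have h1 : R X = 0 := by simp [hRdef, hbase X ⟨hX.1, hlt⟩]
      have h2 := kern_d_base h (D := s - X) ⟨hX.1, hlt⟩ (by linarith [hX.2])
      rw [h1, h2, indicator_of_notMem (by simp [hlt.le])]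
      simp
    · rw [indicator_of_mem (by exact hgt)]
      have h1 := abs_kern_cφ_le (X := X) (D := s - X) hX.1 (by linarith [hX.2])
      rw [add_sub_cancel] at h1
      have h2 := kern_d_le h hβ.le hB hsm hs₁ (X := X) (s := s) (le_of_lt hgt) hX.2.le hsI.2
      have hD : 0 < 1 + (s - X) := by linarith [hX.2]
      have h3 : 0 ≤ cst * β * (1 + √X) / (1 + (s - X)) := by positivity
      have h4 : cst * β * (1 + √X) / (1 + (s - X))
          ≤ c3 B s₁ s₂ CD * β * (1 + √X) / (1 + (s - X)) := by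
        have : cst ≤ c3 B s₁ s₂ CD := by
          unfold c3
          have a1 : 0 ≤ 5 * B := by positivity
          have a2 : 0 ≤ 10 * B * CD / s₁ := by positivity
          have a3 : 0 ≤ 24 * cK B s₁ s₂ * CD / s₁ ^ 2 := by positivity
          linarith
        gcongr
      rw [abs_mul, abs_mul]
      calc |R X| * |kern1 (cφ X) (cφ' X) (s - X)|
            + |Gβ X| * |kern1 (dφ P Q S K X) (dφ' P Q S K X) (s - X)|
          ≤ |R X| * mK 16 s X + (|G X| + |R X|) * (cst * β * (1 + √X) / (1 + (s - X))) := by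
            gcongr
            · exact h1
            · exact hGβ X
        _ = |R X| * (mK 16 s X + cst * β * (1 + √X) / (1 + (s - X)))
            + |G X| * (cst * β * (1 + √X) / (1 + (s - X))) := by ring
        _ ≤ g X := by
            simp only [g]
            unfold kR
            gcongr
  have hae : ∀ᵐ X ∂(volume.restrict (Ioo 0 s)), X ∈ Ioo 0 s ∧ X ≠ s₁ := by
    have h1 : ∀ᵐ X : ℝ, X ≠ s₁ := by simp [ae_iff, measure_singleton]
    filter_upwards [ae_restrict_mem measurableSet_Ioo, ae_restrict_of_ae h1] with X h1 h2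
    exact ⟨h1, h2⟩
  have hgi : Integrable ((Ioi s₁).indicator g) (volume.restrict (Ioo 0 s)) := by
    rw [integrable_indicator_iff measurableSet_Ioi]
    unfold IntegrableOn
    rw [Measure.restrict_restrict measurableSet_Ioi]
    exact ig.mono_set (fun x hx => ⟨hx.1, hx.2.2⟩)
  have hind : ∫ X in Ioo 0 s, (Ioi s₁).indicator g X = ∫ X in Ioo s₁ s, g X := by
    rw [setIntegral_indicator measurableSet_Ioi]
    congr 2
    ext X
    simp only [mem_inter_iff, mem_Ioo, mem_Ioi]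
    constructor
    · rintro ⟨⟨_, h2⟩, h3⟩; exact ⟨h3, h2⟩
    · rintro ⟨h1, h2⟩; exact ⟨⟨hs₁.trans h1, h2⟩, h1⟩
  -- the two integrals are bounded together
  have hI : |∫ X in Ioo 0 s, R X * kern1 (cφ X) (cφ' X) (s - X)|
      + |∫ X in Ioo 0 s, Gβ X * kern1 (dφ P Q S K X) (dφ' P Q S K X) (s - X)|
      ≤ ∫ X in Ioo s₁ s, g X := by
    have n1 := norm_integral_le_integral_norm (μ := volume.restrict (Ioo 0 s))
      (fun X => R X * kern1 (cφ X) (cφ' X) (s - X))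
    have n2 := norm_integral_le_integral_norm (μ := volume.restrict (Ioo 0 s))
      (fun X => Gβ X * kern1 (dφ P Q S K X) (dφ' P Q S K X) (s - X))
    simp only [Real.norm_eq_abs] at n1 n2
    have hGm : AEStronglyMeasurable G (volume.restrict (Ioo 0 s)) :=
      (hGc.mono (Ioo_subset_Ioo_right hsI.2.le)).aestronglyMeasurable measurableSet_Ioo
    have hGm' : AEStronglyMeasurable Gβ (volume.restrict (Ioo 0 s)) :=
      (hGc'.mono (Ioo_subset_Ioo_right hsI.2.le)).aestronglyMeasurable measurableSet_Ioo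
    have mk1 : Measurable (fun X => kern1 (cφ X) (cφ' X) (s - X)) :=
      measurable_kern_comp (goodPhi_cφ (b := 1)).meas (goodPhi_cφ (b := 1)).meas' measurable_id
        (measurable_const.sub measurable_id)
    have mk2 : Measurable (fun X => kern1 (dφ P Q S K X) (dφ' P Q S K X) (s - X)) :=
      measurable_kern_comp (measurable_dφ h) (measurable_dφ' h) measurable_id
        (measurable_const.sub measurable_id)
    have j1 : Integrable (fun X => |R X * kern1 (cφ X) (cφ' X) (s - X)|)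
        (volume.restrict (Ioo 0 s)) := by
      refine Integrable.mono' hgi ((hGm'.sub hGm).mul mk1.aestronglyMeasurable).norm ?_
      filter_upwards [hae] with X hX
      have := hpt X hX.1 hX.2
      rw [Real.norm_eq_abs, abs_abs]
      have h0 := abs_nonneg (Gβ X * kern1 (dφ P Q S K X) (dφ' P Q S K X) (s - X))
      linarith
    have j2 : Integrable (fun X => |Gβ X * kern1 (dφ P Q S K X) (dφ' P Q S K X) (s - X)|)
        (volume.restrict (Ioo 0 s)) := by
      refine Integrable.mono' hgi (hGm'.mul mk2.aestronglyMeasurable).norm ?_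
      filter_upwards [hae] with X hX
      have := hpt X hX.1 hX.2
      rw [Real.norm_eq_abs, abs_abs]
      have h0 := abs_nonneg (R X * kern1 (cφ X) (cφ' X) (s - X))
      linarith
    calc _ ≤ (∫ X in Ioo 0 s, |R X * kern1 (cφ X) (cφ' X) (s - X)|)
          + ∫ X in Ioo 0 s, |Gβ X * kern1 (dφ P Q S K X) (dφ' P Q S K X) (s - X)| :=
            add_le_add n1 n2
      _ = ∫ X in Ioo 0 s, (|R X * kern1 (cφ X) (cφ' X) (s - X)|
          + |Gβ X * kern1 (dφ P Q S K X) (dφ' P Q S K X) (s - X)|) := (integral_add j1 j2).symm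
      _ ≤ ∫ X in Ioo 0 s, (Ioi s₁).indicator g X := by
          apply integral_mono_ae (j1.add j2) hgi
          filter_upwards [hae] with X hX
          exact hpt X hX.1 hX.2
      _ = _ := hind
  -- the `G` part of `g`
  have hGpart : ∫ X in Ioo s₁ s, |G X| * (cst * β * (1 + √X) / (1 + (s - X)))
      ≤ (24 * cst * CD / s₁ ^ 2) * β / s := by
    have c4 : ContinuousOn (fun X => X ^ (-(7 / 4) : ℝ) * ((1 + √X) / (1 + (s - X))))
        (Icc s₁ s) := by
      apply ContinuousOn.mul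
      · intro X hX
        exact (continuousAt_rpow_const X _ (Or.inl (by linarith [hX.1]))).continuousWithinAt
      · apply ContinuousOn.div (by fun_prop) (by fun_prop)
        intro X hX
        have := hX.2
        linarith
    have i4 : IntegrableOn (fun X => X ^ (-(7 / 4) : ℝ) * ((1 + √X) / (1 + (s - X))))
        (Ioo s₁ s) := c4.integrableOn_Icc.mono_set Ioo_subset_Icc_self
    calc ∫ X in Ioo s₁ s, |G X| * (cst * β * (1 + √X) / (1 + (s - X)))
        ≤ ∫ X in Ioo s₁ s, (CD * cst * β) * (X ^ (-(7 / 4) : ℝ) * ((1 + √X) / (1 + (s - X)))) := by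
          apply setIntegral_mono_on iG (i4.const_mul _) measurableSet_Ioo
          intro X hX
          have hX0 : 0 < X := hs₁.trans hX.1
          have hD : 0 < 1 + (s - X) := by linarith [hX.2]
          have := hdec X ⟨hX.1, hX.2.trans hsI.2⟩
          calc |G X| * (cst * β * (1 + √X) / (1 + (s - X)))
              ≤ (CD * X ^ (-(7 / 4) : ℝ)) * (cst * β * (1 + √X) / (1 + (s - X))) := by gcongr
            _ = _ := by ring
      _ ≤ (CD * cst * β) * (24 / s₁ ^ 2 / s) := by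
          rw [integral_const_mul]
          gcongr
          exact source_int hs₁ hs₁' hsI.1
      _ = _ := by ring
  -- the term `dφ s 0`
  have hd0 : |dφ P Q S K s 0 * Gβ s| ≤ 5 * B * β * (1 + √s) * |R s| + (10 * B * CD / s₁) * β / s := by
    have a1 := abs_dφ_le h hβ.le hB hsm hsb le_rfl
    rw [mul_zero, mul_zero, add_zero] at a1
    have a2 := hGβ s
    have a3 := hdec s hsI
    rw [abs_mul]
    have a4 : (1 + √s) * s ^ (-(7 / 4) : ℝ) ≤ (2 / s₁) / s := by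
      have b1 : s ^ (-(7 / 4) : ℝ) = s ^ (-(3 / 4) : ℝ) / s := by
        rw [eq_div_iff hs0.ne']
        nth_rewrite 2 [← rpow_one s]
        rw [← rpow_add hs0]; norm_num
      have b2 : s ^ (-(3 / 4) : ℝ) ≤ 1 / s₁ :=
        (rpow_le_rpow_of_nonpos hs₁ hsI.1.le (by norm_num)).trans
          (rpow_le_inv hs₁ hs₁' (by norm_num))
      have b3 : √s * s ^ (-(3 / 4) : ℝ) = s ^ (-(1 / 4) : ℝ) := by
        rw [sqrt_eq_rpow, ← rpow_add hs0]; norm_num
      have b4 : s ^ (-(1 / 4) : ℝ) ≤ 1 / s₁ :=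
        (rpow_le_rpow_of_nonpos hs₁ hsI.1.le (by norm_num)).trans
          (rpow_le_inv hs₁ hs₁' (by norm_num))
      rw [b1, ← mul_div_assoc, div_le_div_iff_of_pos_right hs0, add_mul, one_mul, b3]
      calc s ^ (-(3 / 4) : ℝ) + s ^ (-(1 / 4) : ℝ) ≤ 1 / s₁ + 1 / s₁ := add_le_add b2 b4
        _ = _ := by ring
    calc |dφ P Q S K s 0| * |Gβ s| ≤ (5 * (β * B * (1 + √s))) * (CD * s ^ (-(7 / 4) : ℝ) + |R s|) := by
          gcongr
          linarith
      _ = 5 * B * β * (1 + √s) * |R s| + 5 * β * B * CD * ((1 + √s) * s ^ (-(7 / 4) : ℝ)) := by ring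
      _ ≤ 5 * B * β * (1 + √s) * |R s| + 5 * β * B * CD * ((2 / s₁) / s) := by gcongr
      _ = _ := by ring
  have hRs : |R s| ≤ |dφ P Q S K s 0 * Gβ s|
      + (|∫ X in Ioo 0 s, R X * kern1 (cφ X) (cφ' X) (s - X)|
      + |∫ X in Ioo 0 s, Gβ X * kern1 (dφ P Q S K X) (dφ' P Q S K X) (s - X)|) := by
    have : R s = -(dφ P Q S K s 0 * Gβ s)
      - (∫ X in Ioo 0 s, R X * kern1 (cφ X) (cφ' X) (s - X))
      - ∫ X in Ioo 0 s, Gβ X * kern1 (dφ P Q S K X) (dφ' P Q S K X) (s - X) := e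
    rw [this]
    refine (abs_sub _ _).trans ?_
    rw [← add_assoc]
    gcongr
    refine (abs_sub _ _).trans ?_
    rw [abs_neg]
  have hgI : ∫ X in Ioo s₁ s, g X = (∫ X in Ioo s₁ s, |R X| * kR (c3 B s₁ s₂ CD) β s X)
      + ∫ X in Ioo s₁ s, |G X| * (cst * β * (1 + √X) / (1 + (s - X))) := integral_add iP iG
  change |R s| ≤ c3 B s₁ s₂ CD * β * (1 + √s) * |R s|
    + (∫ X in Ioo s₁ s, |R X| * kR (c3 B s₁ s₂ CD) β s X) + c3 B s₁ s₂ CD * β / s
  have hfirst : 5 * B * β * (1 + √s) * |R s| ≤ c3 B s₁ s₂ CD * β * (1 + √s) * |R s| := by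
    have : 5 * B ≤ c3 B s₁ s₂ CD := by
      unfold c3
      have a2 : 0 ≤ 10 * B * CD / s₁ := by positivity
      have a3 : 0 ≤ 24 * cK B s₁ s₂ * CD / s₁ ^ 2 := by positivity
      linarith
    gcongr
  have hlast : (10 * B * CD / s₁) * β / s + (24 * cst * CD / s₁ ^ 2) * β / s
      ≤ c3 B s₁ s₂ CD * β / s := by
    rw [← add_div, ← add_mul]
    have : 10 * B * CD / s₁ + 24 * cst * CD / s₁ ^ 2 ≤ c3 B s₁ s₂ CD := by
      unfold c3
      have a1 : 0 ≤ 5 * B := by positivity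
      linarith
    gcongr
  linarith

end Pool.Agent.Lib.MP_85963d_gt.H31
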