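import Pool.Agent.Lib.MP_85963d_gt.H31.KernB

/-! The abstract weighted Volterra estimate for `R = G^β - G` (Paper (10.4)). -/

set_option autoImplicit false
open Set MeasureTheory Real

noncomputable section
namespace Pool.Agent.Lib.MP_85963d_gt.H31

lemma le_of_ae {v : ℝ → ℝ} {a T C : ℝ} (hT : a < T) (hv : ContinuousOn v (Icc a T))
    (h : ∀ᵐ s : ℝ, s ∈ Ioo a T → v s ≤ C) : ∀ s ∈ Icc a T, v s ≤ C := by
  intro s hs
  have hdense := Measure.dense_of_ae h
  have hmem : s ∈ closure (Ioo a T ∩ {x | x ∈ Ioo a T → v x ≤ C}) := by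
    have h1 := hdense.open_subset_closure_inter (isOpen_Ioo (a := a) (b := T))
    have h2 := closure_mono h1
    rw [closure_closure, closure_Ioo hT.ne] at h2
    exact h2 hs
  refine ContinuousWithinAt.closure_le hmem ((hv s hs).mono (fun x hx =>
    Ioo_subset_Icc_self hx.1)) continuousWithinAt_const ?_
  rintro x ⟨hx, hx2⟩
  exact hx2 hx

/-- Gronwall type estimate. -/
lemma gronwall_sup {R : ℝ → ℝ} {a T K F : ℝ} (hT : a < T) (hK : 0 < K) (hF : 0 ≤ F)
    (hRc : ContinuousOn R (Icc a T))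
    (h : ∀ᵐ s : ℝ, s ∈ Ioo a T → |R s| ≤ K * (∫ X in Ioo a s, |R X|) + F) :
    ∀ s ∈ Icc a T, |R s| ≤ 2 * F * exp (2 * K * (s - a)) := by
  have hvc : ContinuousOn (fun s => |R s| * exp (-(2 * K * (s - a)))) (Icc a T) :=
    hRc.abs.mul (by fun_prop)
  obtain ⟨t, ht, hmax⟩ := (isCompact_Icc (a := a) (b := T)).exists_isMaxOn ⟨a, le_rfl, hT.le⟩ hvc
  set N := |R t| * exp (-(2 * K * (t - a))) with hN
  have hN0 : 0 ≤ N := by positivity
  have hRX : ∀ X ∈ Icc a T, |R X| ≤ N * exp (2 * K * (X - a)) := by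
    intro X hX
    have : |R X| * exp (-(2 * K * (X - a))) ≤ N := hmax hX
    rw [exp_neg] at this
    have he := exp_pos (2 * K * (X - a))
    rwa [← div_eq_mul_inv, div_le_iff₀ he] at this
  have hall : ∀ s ∈ Icc a T, |R s| * exp (-(2 * K * (s - a))) ≤ N / 2 + F := by
    apply le_of_ae hT hvc
    filter_upwards [h] with s hs hsI
    have h1 := hs hsI
    have he := exp_pos (2 * K * (s - a))
    have h2 : ∫ X in Ioo a s, |R X| ≤ ∫ X in Ioo a s, N * exp (2 * K * (X - a)) := by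
      apply setIntegral_mono_on
      · exact ((hRc.mono (Icc_subset_Icc_right hsI.2.le)).abs.integrableOn_Icc).mono_set
          Ioo_subset_Icc_self
      · exact integrableOn_cont (by fun_prop) _ _
      · exact measurableSet_Ioo
      · intro X hX
        exact hRX X ⟨hX.1.le, (hX.2.trans hsI.2).le⟩
    have h3 : ∫ X in Ioo a s, N * exp (2 * K * (X - a)) = N / (2 * K) * (exp (2 * K * (s - a)) - 1) := by
      rw [← integral_Ioc_eq_integral_Ioo, ← intervalIntegral.integral_of_le hsI.1.le]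
      have hd : ∀ X ∈ uIcc a s, HasDerivAt (fun X => N / (2 * K) * exp (2 * K * (X - a)))
          (N * exp (2 * K * (X - a))) X := by
        intro X _
        have h0 : HasDerivAt (fun X => 2 * K * (X - a)) (2 * K) X :=
          (((hasDerivAt_id X).sub_const a).const_mul (2 * K)).congr_deriv (by simp)
        refine (h0.exp.const_mul (N / (2 * K))).congr_deriv ?_
        field_simp
      rw [intervalIntegral.integral_eq_sub_of_hasDerivAt hd
        (Continuous.intervalIntegrable (by fun_prop) _ _)]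
      simp only [sub_self, mul_zero, exp_zero]
      ring
    have h4 : |R s| ≤ N / 2 * exp (2 * K * (s - a)) + F := by
      calc |R s| ≤ K * (N / (2 * K) * (exp (2 * K * (s - a)) - 1)) + F := by
            rw [← h3]; exact h1.trans (by gcongr)
        _ = N / 2 * exp (2 * K * (s - a)) - N / 2 + F := by field_simp
        _ ≤ _ := by linarith
    have h1e : 1 ≤ exp (2 * K * (s - a)) := one_le_exp (by
      have := hsI.1
      have : 0 ≤ s - a := by linarith
      positivity)
    rw [exp_neg, ← div_eq_mul_inv, div_le_iff₀ he]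
    nlinarith
  have h5 := hall t ht
  have h6 : N ≤ 2 * F := by linarith
  intro s hs
  refine (hRX s hs).trans ?_
  gcongr

lemma integral_inv_le {s : ℝ} (hs : 0 < s) :
    ∫ X in Ioo 0 s, 1 / (1 + (s - X)) ≤ 2 * √s := by
  have e1 : ∫ X in Ioo 0 s, 1 / (1 + (s - X)) = ∫ D in (0 : ℝ)..s, 1 / (1 + D) := by
    rw [← integral_Ioc_eq_integral_Ioo, ← intervalIntegral.integral_of_le hs.le]
    rw [intervalIntegral.integral_comp_sub_left (fun D => 1 / (1 + D)) s]
    simp
  rw [e1]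
  have i2 : IntervalIntegrable (fun D : ℝ => 1 / (1 + D)) volume 0 s := by
    apply ContinuousOn.intervalIntegrable_of_Icc hs.le
    apply ContinuousOn.div (by fun_prop) (by fun_prop)
    intro D hD
    have := hD.1
    positivity
  have hF : ∀ D ∈ Ioo 0 s, HasDerivAt (fun D => 2 * √(1 + D)) (1 / √(1 + D)) D := by
    intro D hD
    have h0 : HasDerivAt (fun D : ℝ => 1 + D) 1 D := (hasDerivAt_id D).const_add 1
    have hp : 0 < 1 + D := by linarith [hD.1]
    refine ((h0.sqrt hp.ne').const_mul 2).congr_deriv ?_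
    have := sqrt_pos.2 hp
    field_simp
  have hcont : ContinuousOn (fun D => 1 / √(1 + D)) (Icc 0 s) := by
    apply ContinuousOn.div (by fun_prop) (by fun_prop)
    intro D hD
    have : 0 < √(1 + D) := sqrt_pos.2 (by linarith [hD.1])
    positivity
  have h3 := intervalIntegral.integral_eq_sub_of_hasDerivAt_of_le hs.le
    (f := fun D => 2 * √(1 + D)) (by fun_prop) hF
    (hcont.intervalIntegrable_of_Icc hs.le)
  have h4 : ∫ D in (0 : ℝ)..s, 1 / (1 + D) ≤ ∫ D in (0 : ℝ)..s, 1 / √(1 + D) := by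
    apply intervalIntegral.integral_mono_on hs.le i2 (hcont.intervalIntegrable_of_Icc hs.le)
    intro D hD
    have hp : 1 ≤ 1 + D := by linarith [hD.1]
    have h5 : 0 < √(1 + D) := sqrt_pos.2 (by linarith)
    apply div_le_div_of_nonneg_left (by norm_num) (by positivity)
    rw [sqrt_le_left (by linarith)]; nlinarith
  rw [h3] at h4
  refine h4.trans ?_
  have h6 : √(1 + s) ≤ 1 + √s := by
    rw [sqrt_le_left (by positivity)]
    have := sq_sqrt hs.le
    have := sqrt_nonneg s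
    nlinarith
  simp only [add_zero, sqrt_one]
  linarith

/-- The majorant kernel for `R`. -/
def kR (C₃ β s X : ℝ) : ℝ := mK 16 s X + C₃ * β * (1 + √X) / (1 + (s - X))

lemma measurable_kR (C₃ β s : ℝ) : Measurable (kR C₃ β s) :=
  (measurable_mK 16 s).add (by fun_prop)

lemma kR_nonneg {C₃ β s X : ℝ} (hC : 0 ≤ C₃) (hβ : 0 ≤ β) (hX : X ∈ Ioo 0 s) : 0 ≤ kR C₃ β s X := by
  have h1 : 0 ≤ s - X := by linarith [hX.2]
  have := mK_nonneg (c := 16) (by norm_num) hX
  unfold kR; positivity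

lemma kR_le {C₃ β s X : ℝ} (hC : 0 ≤ C₃) (hβ : 0 ≤ β) (hX : X ∈ Ioo 0 s) :
    kR C₃ β s X ≤ 1 + 16 / s + C₃ * β * (1 + √s) := by
  have h1 : 0 ≤ s - X := by linarith [hX.2]
  have h2 := mK_le (c := 16) (by norm_num) (hX.1.trans hX.2) hX
  have h3 : C₃ * β * (1 + √X) / (1 + (s - X)) ≤ C₃ * β * (1 + √s) := by
    have h4 : √X ≤ √s := sqrt_le_sqrt hX.2.le
    calc C₃ * β * (1 + √X) / (1 + (s - X)) ≤ C₃ * β * (1 + √X) / 1 := by
          apply div_le_div_of_nonneg_left (by positivity) one_pos; linarith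
      _ ≤ _ := by rw [div_one]; gcongr
  unfold kR
  linarith

lemma integrableOn_kR {C₃ β s a : ℝ} (hC : 0 ≤ C₃) (hβ : 0 ≤ β) (ha : 0 ≤ a) :
    IntegrableOn (kR C₃ β s) (Ioo a s) := by
  refine Integrable.mono' (g := fun _ => 1 + 16 / s + C₃ * β * (1 + √s)) (by simp)
    (measurable_kR C₃ β s).aestronglyMeasurable ?_
  filter_upwards [ae_restrict_mem measurableSet_Ioo] with X hX
  have hX' : X ∈ Ioo 0 s := ⟨ha.trans_lt hX.1, hX.2⟩
  rw [Real.norm_eq_abs, abs_of_nonneg (kR_nonneg hC hβ hX')]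
  exact kR_le hC hβ hX'

/-- The contraction property of the kernel for the weight `s`. -/
lemma contr {C₃ β s s₀ : ℝ} (hC : 0 ≤ C₃) (hβ : 0 ≤ β) (hs₀ : 1 ≤ s₀) (hs : s₀ < s) :
    s * ∫ X in Ioo s₀ s, X⁻¹ * kR C₃ β s X
      ≤ 80 / s₀ + (4 / 3) * ((1 - 2 / π) + 32 / √s₀) + 8 * C₃ * (β * (1 + s)) := by
  have hs0 : 0 < s := by linarith
  have hs₀0 : 0 < s₀ := by linarith
  have hsub : Ioo s₀ s ⊆ Ioo 0 s := Ioo_subset_Ioo_left hs₀0.le
  have imK : IntegrableOn (mK 16 s) (Ioo 0 s) := by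
    refine Integrable.mono' (g := fun _ => 1 + 16 / s) (by simp)
      (measurable_mK 16 s).aestronglyMeasurable ?_
    filter_upwards [ae_restrict_mem measurableSet_Ioo] with X hX
    rw [Real.norm_eq_abs, abs_of_nonneg (mK_nonneg (by norm_num) hX)]
    exact mK_le (by norm_num) hs0 hX
  have i1 : IntegrableOn (fun _ : ℝ => 80 / (s * s₀)) (Ioo s₀ s) :=
    integrableOn_cont continuous_const _ _
  have i2 : IntegrableOn (fun X => (4 / 3) * mK 16 s X) (Ioo s₀ s) :=
    (imK.mono_set hsub).const_mul _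
  have c3 : ContinuousOn (fun X => 1 / (1 + (s - X))) (Icc 0 s) := by
    apply ContinuousOn.div (by fun_prop) (by fun_prop)
    intro X hX
    have := hX.2
    have : 0 < 1 + (s - X) := by linarith
    positivity
  have i3' : IntegrableOn (fun X => 1 / (1 + (s - X))) (Ioo 0 s) :=
    c3.integrableOn_Icc.mono_set Ioo_subset_Icc_self
  have i3 : IntegrableOn (fun X => 2 * C₃ * β * √s * (1 / (1 + (s - X)))) (Ioo s₀ s) :=
    (i3'.mono_set hsub).const_mul _
  have i4 : IntegrableOn (fun X => 2 * C₃ * β * (1 / √X)) (Ioo s₀ s) :=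
    ((integrableOn_inv_sqrt s).mono_set hsub).const_mul _
  have iL : IntegrableOn (fun X => X⁻¹ * kR C₃ β s X) (Ioo s₀ s) := by
    have hk := integrableOn_kR (a := s₀) (s := s) hC hβ hs₀0.le
    refine Integrable.mono' (hk.const_mul (1 : ℝ)) ?_ ?_
    · exact (measurable_inv.aestronglyMeasurable).mul (measurable_kR C₃ β s).aestronglyMeasurable
    · filter_upwards [ae_restrict_mem measurableSet_Ioo] with X hX
      have hX' := hsub hX
      have h1 : X⁻¹ ≤ 1 := inv_le_one_of_one_le₀ (by linarith [hX.1])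
      have h2 : 0 ≤ X⁻¹ := inv_nonneg.2 hX'.1.le
      have h3 := kR_nonneg hC hβ hX'
      rw [Real.norm_eq_abs, abs_mul, abs_of_nonneg h2, abs_of_nonneg h3]
      gcongr
  have hpt : ∀ X ∈ Ioo s₀ s, s * (X⁻¹ * kR C₃ β s X) ≤ 80 / (s * s₀) + (4 / 3) * mK 16 s X
      + (2 * C₃ * β * √s * (1 / (1 + (s - X))) + 2 * C₃ * β * (1 / √X)) := by
    intro X hX
    have hX' := hsub hX
    have hX0 := hX'.1
    have hm := mK_nonneg (c := 16) (by norm_num) hX'
    have hD : 0 < 1 + (s - X) := by linarith [hX.2]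
    have hX1 : 1 ≤ X := by linarith [hX.1]
    have hsX : 0 < √X := sqrt_pos.2 hX0
    have hsX1 : 1 ≤ √X := by rw [← sqrt_one]; exact sqrt_le_sqrt hX1
    have hsq : √X * √X = X := mul_self_sqrt hX0.le
    have p1 : s * X⁻¹ * mK 16 s X ≤ 80 / (s * s₀) + (4 / 3) * mK 16 s X := by
      rcases le_or_gt X (3 * s / 4) with h | h
      · have h3 := mK_far (c := 16) (by norm_num) hs0 h
        have h4 : X⁻¹ ≤ s₀⁻¹ := inv_anti₀ hs₀0 hX.1.le
        have h5 : 0 ≤ (4 / 3) * mK 16 s X := by positivity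
        calc s * X⁻¹ * mK 16 s X ≤ s * s₀⁻¹ * ((16 + 4 * 16) / s ^ 2) := by gcongr
          _ = 80 / (s * s₀) := by field_simp; norm_num
          _ ≤ _ := by linarith
      · have h3 : s * X⁻¹ ≤ 4 / 3 := by
          rw [← div_eq_mul_inv, div_le_iff₀ hX0]; linarith
        have h4 : 0 ≤ 80 / (s * s₀) := by positivity
        calc s * X⁻¹ * mK 16 s X ≤ (4 / 3) * mK 16 s X := by gcongr
          _ ≤ _ := by linarith
    have p2 : s * X⁻¹ * (C₃ * β * (1 + √X) / (1 + (s - X)))
        ≤ 2 * C₃ * β * √s * (1 / (1 + (s - X))) + 2 * C₃ * β * (1 / √X) := by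
      have h1 : X⁻¹ * (1 + √X) ≤ 2 * (1 / √X) := by
        rw [inv_mul_le_iff₀ hX0]
        have : X * (2 * (1 / √X)) = 2 * √X := by
          nth_rewrite 1 [← hsq]; field_simp
        rw [this]; linarith
      have h2 : s * (1 / √X) / (1 + (s - X)) ≤ √s * (1 / (1 + (s - X))) + 1 / √X := by
        have e : s = X + (s - X) := by ring
        have h3 : X * (1 / √X) ≤ √s := by
          have : X * (1 / √X) = √X := by nth_rewrite 1 [← hsq]; field_simp
          rw [this]; exact sqrt_le_sqrt hX.2.le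
        have h4 : (s - X) * (1 / √X) / (1 + (s - X)) ≤ 1 / √X := by
          rw [div_le_iff₀ hD]
          have : 0 ≤ 1 / √X := by positivity
          nlinarith
        calc s * (1 / √X) / (1 + (s - X)) = X * (1 / √X) / (1 + (s - X))
              + (s - X) * (1 / √X) / (1 + (s - X)) := by
              rw [← add_div, ← add_mul]; congr 2
          _ ≤ √s / (1 + (s - X)) + 1 / √X := by gcongr
          _ = _ := by ring
      calc s * X⁻¹ * (C₃ * β * (1 + √X) / (1 + (s - X)))
          = C₃ * β * (s * (X⁻¹ * (1 + √X)) / (1 + (s - X))) := by ring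
        _ ≤ C₃ * β * (s * (2 * (1 / √X)) / (1 + (s - X))) := by gcongr
        _ = 2 * C₃ * β * (s * (1 / √X) / (1 + (s - X))) := by ring
        _ ≤ 2 * C₃ * β * (√s * (1 / (1 + (s - X))) + 1 / √X) := by gcongr
        _ = _ := by ring
    calc s * (X⁻¹ * kR C₃ β s X) = s * X⁻¹ * mK 16 s X
          + s * X⁻¹ * (C₃ * β * (1 + √X) / (1 + (s - X))) := by unfold kR; ring
      _ ≤ _ := add_le_add p1 p2
  rw [← integral_const_mul]
  have h1 : ∫ X in Ioo s₀ s, s * (X⁻¹ * kR C₃ β s X)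
      ≤ ∫ X in Ioo s₀ s, (80 / (s * s₀) + (4 / 3) * mK 16 s X
        + (2 * C₃ * β * √s * (1 / (1 + (s - X))) + 2 * C₃ * β * (1 / √X))) :=
    setIntegral_mono_on (iL.const_mul s) ((i1.add i2).add (i3.add i4)) measurableSet_Ioo hpt
  refine h1.trans ?_
  have i12 : IntegrableOn (fun X => 80 / (s * s₀) + (4 / 3) * mK 16 s X) (Ioo s₀ s) := i1.add i2
  have i34 : IntegrableOn (fun X => 2 * C₃ * β * √s * (1 / (1 + (s - X)))
      + 2 * C₃ * β * (1 / √X)) (Ioo s₀ s) := i3.add i4
  rw [integral_add i12 i34, integral_add i1 i2, integral_add i3 i4, integral_const_mul,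
    integral_const_mul, integral_const_mul]
  have a1 : ∫ _X in Ioo s₀ s, 80 / (s * s₀) ≤ 80 / s₀ := by
    rw [← integral_Ioc_eq_integral_Ioo, ← intervalIntegral.integral_of_le hs.le]
    rw [intervalIntegral.integral_const, smul_eq_mul]
    calc (s - s₀) * (80 / (s * s₀)) ≤ s * (80 / (s * s₀)) := by gcongr; linarith
      _ = _ := by field_simp
  have a2 : ∫ X in Ioo s₀ s, mK 16 s X ≤ (1 - 2 / π) + 32 / √s₀ := by
    have b1 : ∫ X in Ioo s₀ s, mK 16 s X ≤ ∫ X in Ioo 0 s, mK 16 s X := by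
      apply setIntegral_mono_set imK _ (Filter.Eventually.of_forall hsub)
      filter_upwards [ae_restrict_mem measurableSet_Ioo] with X hX
      exact mK_nonneg (by norm_num) hX
    have b2 := integral_mK_le (c := 16) (by norm_num) hs0
    have b3 : 2 * 16 / √s ≤ 32 / √s₀ := by
      have : 0 < √s₀ := sqrt_pos.2 hs₀0
      have : √s₀ ≤ √s := sqrt_le_sqrt hs.le
      norm_num
      gcongr
    linarith
  have a3 : ∫ X in Ioo s₀ s, 1 / (1 + (s - X)) ≤ 2 * √s := by
    refine le_trans ?_ (integral_inv_le hs0)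
    apply setIntegral_mono_set i3' _ (Filter.Eventually.of_forall hsub)
    filter_upwards [ae_restrict_mem measurableSet_Ioo] with X hX
    have : 0 < 1 + (s - X) := by linarith [hX.2]
    change (0 : ℝ) ≤ 1 / (1 + (s - X))
    positivity
  have a4 : ∫ X in Ioo s₀ s, 1 / √X ≤ 2 * √s := by
    have hF : ∀ X ∈ uIcc s₀ s, HasDerivAt (fun X => 2 * √X) (1 / √X) X := by
      intro X hX
      rw [uIcc_of_le hs.le] at hX
      have hX0 : 0 < X := by linarith [hX.1]
      refine ((hasDerivAt_id X).sqrt hX0.ne').const_mul 2 |>.congr_deriv ?_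
      have := sqrt_pos.2 hX0
      simp only [id]
      field_simp
    rw [← integral_Ioc_eq_integral_Ioo, ← intervalIntegral.integral_of_le hs.le,
      intervalIntegral.integral_eq_sub_of_hasDerivAt hF]
    · have := sqrt_nonneg s₀
      linarith
    · apply ContinuousOn.intervalIntegrable
      rw [uIcc_of_le hs.le]
      apply ContinuousOn.div (by fun_prop) (by fun_prop)
      intro X hX
      have : 0 < √X := sqrt_pos.2 (by linarith [hX.1])
      positivity
  have hss : √s * √s = s := mul_self_sqrt hs0.le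
  have hs1 : √s ≤ 1 + s := by
    have := sqrt_nonneg s
    nlinarith
  have hCβ : 0 ≤ C₃ * β := by positivity
  calc _ ≤ 80 / s₀ + (4 / 3) * ((1 - 2 / π) + 32 / √s₀)
        + (2 * C₃ * β * √s * (2 * √s) + 2 * C₃ * β * (2 * √s)) := by gcongr
    _ = 80 / s₀ + (4 / 3) * ((1 - 2 / π) + 32 / √s₀)
        + 4 * (C₃ * β) * (√s * √s + √s) := by ring
    _ ≤ 80 / s₀ + (4 / 3) * ((1 - 2 / π) + 32 / √s₀)
        + 4 * (C₃ * β) * ((1 + s) + (1 + s)) := by
        rw [hss]; gcongr; linarith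
    _ = _ := by ring

/-- **The weighted Volterra estimate.** -/
theorem R_estimate (s₁ C₃ : ℝ) (hs₁ : 0 < s₁) (hs₁' : s₁ ≤ 1) (hC : 0 ≤ C₃) :
    ∃ η₀ > 0, ∃ C₄, ∀ β b : ℝ, 0 < β → β * (1 + b) ≤ η₀ → ∀ R : ℝ → ℝ,
      ContinuousOn R (Ioo 0 b) →
      (∀ᵐ s : ℝ, s ∈ Ioo s₁ b → |R s| ≤ C₃ * β * (1 + √s) * |R s|
        + (∫ X in Ioo s₁ s, |R X| * kR C₃ β s X) + C₃ * β / s) →
      ∀ s ∈ Ioo s₁ b, |R s| ≤ C₄ * β / s := by
  set s₀ : ℝ := 10 ^ 8 with hs₀
  set KA : ℝ := 2 * (2 + 16 / s₁) with hKA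
  set CA : ℝ := 4 * C₃ / s₁ * exp (2 * KA * (2 * s₀)) with hCA
  have hCA0 : 0 ≤ CA := by positivity
  have hKA0 : 0 < KA := by positivity
  refine ⟨1 / (1000 * (1 + C₃)), by positivity,
    3 * (CA * s₀ * 2 + 2 * C₃) + 2 * s₀ * CA, ?_⟩
  intro β b hβ hβb R hRc hR s hs
  have hβC : C₃ * (β * (1 + b)) ≤ 1 / 1000 := by
    have h1 : C₃ * (β * (1 + b)) ≤ C₃ * (1 / (1000 * (1 + C₃))) := by gcongr
    refine h1.trans ?_
    rw [mul_one_div, div_le_div_iff₀ (by positivity) (by norm_num)]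
    nlinarith
  have hsb : ∀ x, 0 < x → x < b → C₃ * β * (1 + √x) ≤ 2 / 1000 := by
    intro x hx hxb
    have h1 : √x ≤ 1 + x := by
      have := sqrt_nonneg x
      have := mul_self_sqrt hx.le
      nlinarith
    have h2 : 1 + √x ≤ 2 * (1 + b) := by linarith
    calc C₃ * β * (1 + √x) ≤ C₃ * β * (2 * (1 + b)) := by gcongr
      _ = 2 * (C₃ * (β * (1 + b))) := by ring
      _ ≤ _ := by linarith
  have hRc' : ∀ T, T < b → ContinuousOn R (Icc s₁ T) := fun T hT =>
    hRc.mono (fun x hx => ⟨hs₁.trans_le hx.1, hx.2.trans_lt hT⟩)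
  -- Step A
  have hA : ∀ x ∈ Ioo s₁ b, x ≤ 2 * s₀ → |R x| ≤ CA * β := by
    intro x hx hx2
    have hineq : ∀ᵐ s : ℝ, s ∈ Ioo s₁ x → |R s| ≤ KA * (∫ X in Ioo s₁ s, |R X|)
        + 2 * C₃ * β / s₁ := by
      filter_upwards [hR] with s hs hsI
      have hs0 : 0 < s := hs₁.trans hsI.1
      have hsb' : s < b := hsI.2.trans hx.2
      have h1 := hs ⟨hsI.1, hsb'⟩
      have h2 := hsb s hs0 hsb'
      have hRi : IntegrableOn (fun X => |R X|) (Ioo s₁ s) :=
        ((hRc' s hsb').abs.integrableOn_Icc).mono_set Ioo_subset_Icc_self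
      have h3 : ∫ X in Ioo s₁ s, |R X| * kR C₃ β s X
          ≤ (2 + 16 / s₁) * ∫ X in Ioo s₁ s, |R X| := by
        rw [← integral_const_mul]
        have hb : ∀ X ∈ Ioo s₁ s, kR C₃ β s X ≤ 2 + 16 / s₁ := by
          intro X hX
          have := kR_le hC hβ.le (X := X) (s := s) ⟨hs₁.trans hX.1, hX.2⟩
          have h16 : 16 / s ≤ 16 / s₁ := by
            apply div_le_div_of_nonneg_left (by norm_num) hs₁ hsI.1.le
          linarith
        apply setIntegral_mono_on _ (hRi.const_mul _) measurableSet_Ioo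
        · intro X hX
          have := hb X hX
          calc |R X| * kR C₃ β s X ≤ |R X| * (2 + 16 / s₁) := by gcongr
            _ = _ := by ring
        · refine Integrable.mono' (hRi.mul_const (2 + 16 / s₁))
            (hRi.aestronglyMeasurable.mul (measurable_kR C₃ β s).aestronglyMeasurable) ?_
          filter_upwards [ae_restrict_mem measurableSet_Ioo] with X hX
          have h4 := kR_nonneg hC hβ.le (X := X) (s := s) ⟨hs₁.trans hX.1, hX.2⟩
          rw [Real.norm_eq_abs, abs_mul, abs_abs, abs_of_nonneg h4]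
          exact mul_le_mul_of_nonneg_left (hb X hX) (abs_nonneg _)
      have h5 : C₃ * β / s ≤ C₃ * β / s₁ :=
        div_le_div_of_nonneg_left (by positivity) hs₁ hsI.1.le
      have h6 : C₃ * β * (1 + √s) * |R s| ≤ 2 / 1000 * |R s| := by gcongr
      have h7 : 0 ≤ ∫ X in Ioo s₁ s, |R X| := integral_nonneg fun X => abs_nonneg _
      have h8 : 0 ≤ C₃ * β / s₁ := by positivity
      have h9 : |R s| ≤ 2 * ((2 + 16 / s₁) * ∫ X in Ioo s₁ s, |R X|) + 2 * (C₃ * β / s₁) := by
        have : 0 ≤ (2 + 16 / s₁) * ∫ X in Ioo s₁ s, |R X| := by positivity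
        linarith
      calc |R s| ≤ _ := h9
        _ = _ := by rw [hKA]; ring
    have h1 := gronwall_sup hx.1 hKA0 (by positivity) (hRc' x hx.2) hineq x
      ⟨hx.1.le, le_rfl⟩
    refine h1.trans ?_
    have h2 : exp (2 * KA * (x - s₁)) ≤ exp (2 * KA * (2 * s₀)) := by
      apply exp_le_exp.2
      have : x - s₁ ≤ 2 * s₀ := by linarith
      gcongr
    calc 2 * (2 * C₃ * β / s₁) * exp (2 * KA * (x - s₁))
        ≤ 2 * (2 * C₃ * β / s₁) * exp (2 * KA * (2 * s₀)) := by gcongr
      _ = CA * β := by rw [hCA]; ring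
  have hs0 : 0 < s := hs₁.trans hs.1
  rw [le_div_iff₀ hs0, mul_comm]
  rcases le_or_gt s (2 * s₀) with h2s | h2s
  · have h1 := hA s hs h2s
    calc s * |R s| ≤ (2 * s₀) * (CA * β) := by gcongr
      _ = 2 * s₀ * CA * β := by ring
      _ ≤ _ := by
        have : 0 ≤ 3 * (CA * s₀ * 2 + 2 * C₃) := by positivity
        gcongr
        linarith
  -- Step B
  have hs₀1 : s₁ < s₀ := by rw [hs₀]; linarith
  have hwc : ContinuousOn (fun x => x * |R x|) (Icc s₀ s) :=
    continuousOn_id.mul ((hRc' s hs.2).mono (Icc_subset_Icc_left hs₀1.le)).abs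
  obtain ⟨t, ht, hmax⟩ := (isCompact_Icc (a := s₀) (b := s)).exists_isMaxOn
    ⟨s, by linarith, le_rfl⟩ hwc
  set N := t * |R t| with hN
  have hNX : ∀ X ∈ Icc s₀ s, X * |R X| ≤ N := fun X hX => hmax hX
  have hN0 : 0 ≤ N := by
    have : 0 < t := by have := ht.1; linarith
    positivity
  have hstep : ∀ x ∈ Icc (2 * s₀) s, x * |R x| ≤ (CA * s₀ * 2 + 2 * C₃) * β + (13 / 20) * N := by
    apply le_of_ae h2s (hwc.mono (Icc_subset_Icc_left (by linarith)))
    filter_upwards [hR] with x hx hxI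
    have hx0 : 0 < x := by linarith [hxI.1]
    have hxb : x < b := hxI.2.trans hs.2
    have h1 := hx ⟨by linarith [hxI.1], hxb⟩
    have h2 := hsb x hx0 hxb
    have hRi : IntegrableOn (fun X => |R X|) (Ioo s₁ x) :=
      ((hRc' x hxb).abs.integrableOn_Icc).mono_set Ioo_subset_Icc_self
    have iP : IntegrableOn (fun X => |R X| * kR C₃ β x X) (Ioo s₁ x) := by
      refine Integrable.mono' (hRi.mul_const (1 + 16 / x + C₃ * β * (1 + √x)))
        (hRi.aestronglyMeasurable.mul (measurable_kR C₃ β x).aestronglyMeasurable) ?_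
      filter_upwards [ae_restrict_mem measurableSet_Ioo] with X hX
      have hX' : X ∈ Ioo 0 x := ⟨hs₁.trans hX.1, hX.2⟩
      rw [Real.norm_eq_abs, abs_mul, abs_abs, abs_of_nonneg (kR_nonneg hC hβ.le hX')]
      exact mul_le_mul_of_nonneg_left (kR_le hC hβ.le hX') (abs_nonneg _)
    have hss : s₀ < x := by linarith [hxI.1]
    have hU : Ioo s₁ x = Ioc s₁ s₀ ∪ Ioo s₀ x := (Ioc_union_Ioo_eq_Ioo hs₀1.le hss).symm
    have hdisj : Disjoint (Ioc s₁ s₀) (Ioo s₀ x) := by
      rw [Set.disjoint_left]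
      intro X h1 h2
      exact absurd h1.2 (not_le.2 h2.1)
    have hsub1 : Ioc s₁ s₀ ⊆ Ioo s₁ x := fun X hX => ⟨hX.1, hX.2.trans_lt hss⟩
    have hsub2 : Ioo s₀ x ⊆ Ioo s₁ x := fun X hX => ⟨hs₀1.trans hX.1, hX.2⟩
    have hsplit : ∫ X in Ioo s₁ x, |R X| * kR C₃ β x X
        = (∫ X in Ioc s₁ s₀, |R X| * kR C₃ β x X) + ∫ X in Ioo s₀ x, |R X| * kR C₃ β x X := by
      rw [hU, setIntegral_union hdisj measurableSet_Ioo (iP.mono_set hsub1) (iP.mono_set hsub2)]
    have e1 : ∫ X in Ioc s₁ s₀, |R X| * kR C₃ β x X ≤ CA * β * s₀ / x := by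
      have hb : ∀ X ∈ Ioc s₁ s₀, |R X| * kR C₃ β x X ≤ CA * β / x := by
        intro X hX
        have hXx : X < x := hX.2.trans_lt hss
        have hXI : X ∈ Ioo 0 x := ⟨hs₁.trans hX.1, hXx⟩
        have r1 := hA X ⟨hX.1, hXx.trans hxb⟩ (by linarith [hX.2])
        have r2 := mK_far (c := 16) (X := X) (by norm_num) hx0 (by linarith [hX.2, hxI.1])
        have r3 := hsb X hXI.1 (hXx.trans hxb)
        have r4 : kR C₃ β x X ≤ 1 / x := by
          unfold kR
          have q1 : C₃ * β * (1 + √X) / (1 + (x - X)) ≤ (2 / 1000) / (x / 2) := by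
            apply div_le_div₀ (by norm_num) r3 (by positivity)
            linarith [hX.2, hxI.1]
          have q2 : (16 + 4 * 16) / x ^ 2 ≤ (1 / 2) / x := by
            rw [div_le_div_iff₀ (by positivity) hx0]
            have : (160 : ℝ) ≤ x := by have := hxI.1; rw [hs₀] at this; linarith
            nlinarith
          have q3 : (2 / 1000) / (x / 2) ≤ (1 / 2) / x := by
            rw [div_le_div_iff₀ (by positivity) hx0]
            linarith
          calc _ ≤ (1 / 2) / x + (1 / 2) / x := add_le_add (r2.trans q2) (q1.trans q3)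
            _ = 1 / x := by ring
        have r5 := kR_nonneg hC hβ.le hXI
        calc |R X| * kR C₃ β x X ≤ (CA * β) * (1 / x) := by gcongr
          _ = _ := by ring
      calc ∫ X in Ioc s₁ s₀, |R X| * kR C₃ β x X ≤ ∫ _X in Ioc s₁ s₀, CA * β / x := by
            apply setIntegral_mono_on (iP.mono_set hsub1) (by simp) measurableSet_Ioc hb
        _ = (s₀ - s₁) * (CA * β / x) := by
            rw [← intervalIntegral.integral_of_le hs₀1.le, intervalIntegral.integral_const,
              smul_eq_mul]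
        _ ≤ s₀ * (CA * β / x) := by gcongr; linarith
        _ = _ := by ring
    have e2 : ∫ X in Ioo s₀ x, |R X| * kR C₃ β x X
        ≤ N * ∫ X in Ioo s₀ x, X⁻¹ * kR C₃ β x X := by
      rw [← integral_const_mul]
      have hsub3 : Ioo s₀ x ⊆ Ioo 0 x := Ioo_subset_Ioo_left (by rw [hs₀]; norm_num)
      have hk := integrableOn_kR (C₃ := C₃) (β := β) (s := x) (a := s₀) hC hβ.le
        (by rw [hs₀]; norm_num)
      have iL : IntegrableOn (fun X => X⁻¹ * kR C₃ β x X) (Ioo s₀ x) := by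
        refine Integrable.mono' (hk.const_mul (1 : ℝ)) ?_ ?_
        · exact (measurable_inv.aestronglyMeasurable).mul
            (measurable_kR C₃ β x).aestronglyMeasurable
        · filter_upwards [ae_restrict_mem measurableSet_Ioo] with X hX
          have hX' := hsub3 hX
          have h1 : X⁻¹ ≤ 1 := inv_le_one_of_one_le₀ (by
            have := hX.1; rw [hs₀] at this; linarith)
          have h2 : 0 ≤ X⁻¹ := inv_nonneg.2 hX'.1.le
          have h3 := kR_nonneg hC hβ.le hX'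
          rw [Real.norm_eq_abs, abs_mul, abs_of_nonneg h2, abs_of_nonneg h3]
          gcongr
      apply setIntegral_mono_on (iP.mono_set hsub2) (iL.const_mul N) measurableSet_Ioo
      intro X hX
      have hX' := hsub3 hX
      have h3 := kR_nonneg hC hβ.le hX'
      have h4 : |R X| ≤ N * X⁻¹ := by
        rw [← div_eq_mul_inv, le_div_iff₀ hX'.1, mul_comm]
        exact hNX X ⟨hX.1.le, (hX.2.trans hxI.2).le⟩
      calc |R X| * kR C₃ β x X ≤ (N * X⁻¹) * kR C₃ β x X := by gcongr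
        _ = _ := by ring
    have e3 := contr (C₃ := C₃) (β := β) (s := x) (s₀ := s₀) hC hβ.le
      (by rw [hs₀]; norm_num) hss
    have e4 : 80 / s₀ + (4 / 3) * ((1 - 2 / π) + 32 / √s₀) + 8 * C₃ * (β * (1 + x)) ≤ 3 / 5 := by
      have q1 : √s₀ = 10 ^ 4 := by
        rw [hs₀, show (10 : ℝ) ^ 8 = (10 ^ 4) ^ 2 by norm_num, sqrt_sq (by norm_num)]
      have q2 : 1 - 2 / π ≤ 0.366 := by
        have hp : π < 3.15 := pi_lt_d2
        have : (2 : ℝ) / 3.15 ≤ 2 / π := by
          apply div_le_div_of_nonneg_left (by norm_num) pi_pos hp.le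
        norm_num at this ⊢
        linarith
      have q3 : 8 * C₃ * (β * (1 + x)) ≤ 8 / 1000 := by
        have : C₃ * (β * (1 + x)) ≤ C₃ * (β * (1 + b)) := by gcongr
        linarith
      rw [q1, hs₀]
      norm_num at q2 q3 ⊢
      linarith
    have e5 : x * |R x| ≤ 2 / 1000 * (x * |R x|) + CA * β * s₀ + N * (3 / 5) + C₃ * β := by
      have r1 : x * (C₃ * β * (1 + √x) * |R x|) ≤ 2 / 1000 * (x * |R x|) := by
        calc x * (C₃ * β * (1 + √x) * |R x|) = (C₃ * β * (1 + √x)) * (x * |R x|) := by ring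
          _ ≤ _ := by gcongr
      have r2 : x * (∫ X in Ioo s₁ x, |R X| * kR C₃ β x X) ≤ CA * β * s₀ + N * (3 / 5) := by
        rw [hsplit, mul_add]
        have r3 : x * ∫ X in Ioc s₁ s₀, |R X| * kR C₃ β x X ≤ CA * β * s₀ := by
          calc _ ≤ x * (CA * β * s₀ / x) := by gcongr
            _ = _ := by field_simp
        have r4 : x * ∫ X in Ioo s₀ x, |R X| * kR C₃ β x X ≤ N * (3 / 5) := by
          calc _ ≤ x * (N * ∫ X in Ioo s₀ x, X⁻¹ * kR C₃ β x X) := by gcongr
            _ = N * (x * ∫ X in Ioo s₀ x, X⁻¹ * kR C₃ β x X) := by ring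
            _ ≤ N * (3 / 5) := by gcongr; exact e3.trans e4
        exact add_le_add r3 r4
      calc x * |R x| ≤ x * (C₃ * β * (1 + √x) * |R x|
            + (∫ X in Ioo s₁ x, |R X| * kR C₃ β x X) + C₃ * β / x) := by gcongr
        _ = x * (C₃ * β * (1 + √x) * |R x|) + x * (∫ X in Ioo s₁ x, |R X| * kR C₃ β x X)
            + C₃ * β := by field_simp
        _ ≤ _ := by linarith
    have g1 : 0 ≤ CA * β * s₀ := by
      have : (0 : ℝ) < s₀ := by rw [hs₀]; norm_num
      positivity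
    have g2 : 0 ≤ C₃ * β := by positivity
    have e6 : 0 ≤ x * |R x| := by positivity
    have e7 : (CA * s₀ * 2 + 2 * C₃) * β = 2 * (CA * β * s₀) + 2 * (C₃ * β) := by ring
    rw [e7]
    change x * |R x| ≤ _
    generalize x * |R x| = y at *
    generalize CA * β * s₀ = u at *
    generalize C₃ * β = v at *
    linarith
  have hfin : N ≤ (3 * (CA * s₀ * 2 + 2 * C₃) + 2 * s₀ * CA) * β := by
    have hp1 : 0 ≤ (CA * s₀ * 2 + 2 * C₃) * β := by positivity
    have hp2 : 0 ≤ 2 * s₀ * CA * β := by positivity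
    have e8 : (3 * (CA * s₀ * 2 + 2 * C₃) + 2 * s₀ * CA) * β
        = 3 * ((CA * s₀ * 2 + 2 * C₃) * β) + 2 * s₀ * CA * β := by ring
    rw [e8]
    rcases le_or_gt t (2 * s₀) with h | h
    · have ht' : t ∈ Ioo s₁ b := ⟨hs₀1.trans_le ht.1, ht.2.trans_lt hs.2⟩
      have h1 := hA t ht' h
      have h3 : N ≤ (2 * s₀) * (CA * β) := by
        rw [hN]
        have : 0 < t := hs₁.trans ht'.1
        gcongr
      have e9 : (2 * s₀) * (CA * β) = 2 * s₀ * CA * β := by ring
      linarith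
    · have h3 := hstep t ⟨h.le, ht.2⟩
      rw [← hN] at h3
      linarith
  exact (hNX s ⟨by linarith, le_rfl⟩).trans hfin

end Pool.Agent.Lib.MP_85963d_gt.H31
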